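import Pool.Agent.Work.MP_dbf1ea_an.V.Lattice

-- merged part: Pool.Agent.Work.MP_dbf1ea_an.V.LieAlg
section
/-!
Trace form computations: derivations are inner, two-cocycles are coboundaries.
-/

set_option autoImplicit false

open scoped Matrix Pointwise Topology

namespace Pool.Agent.Work.MP_dbf1ea_an.V

section gen

variable {V : Type} [NormedAddCommGroup V] [NormedSpace ℝ V] [FiniteDimensional ℝ V]
  {β : V →L[ℝ] V →L[ℝ] V}

/-- The trace pairing of two bilinear maps. -/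
noncomputable def LieAlg_T (c β : V →L[ℝ] V →L[ℝ] V) : V →ₗ[ℝ] Module.Dual ℝ V :=
  LinearMap.mk₂ ℝ (fun x z => LinearMap.trace ℝ V ((c x : Module.End ℝ V) * (β z : Module.End ℝ V)))
    (fun _ _ _ => by simp [add_mul]) (fun _ _ _ => by simp) (fun _ _ _ => by simp [mul_add])
    (fun _ _ _ => by simp)

lemma LieAlg_bij (hn : NonDeg β) : Function.Bijective (LieAlg_T β β) := by
  have i : Function.Injective (LieAlg_T β β) :=
    (injective_iff_map_eq_zero _).mpr fun x hx => hn x fun y => LinearMap.congr_fun hx y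
  exact ⟨i, (LinearMap.injective_iff_surjective_of_finrank_eq_finrank
    Subspace.dual_finrank_eq.symm).mp i⟩

omit [FiniteDimensional ℝ V] in
lemma LieAlg_ad (h : IsLie β) (x y : V) : (β (β x y) : Module.End ℝ V) =
    (β x : Module.End ℝ V) * (β y : Module.End ℝ V) - (β y : Module.End ℝ V) * (β x : Module.End ℝ V) :=
  LinearMap.ext fun z => by simp [h.2 x y z]

omit [FiniteDimensional ℝ V] in
lemma LieAlg_cyc (a b c : Module.End ℝ V) :
    LinearMap.trace ℝ V ((a * b - b * a) * c) = LinearMap.trace ℝ V (a * (b * c - c * b)) := by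
  rw [sub_mul, mul_sub, map_sub, map_sub, mul_assoc, mul_assoc b, LinearMap.trace_mul_comm ℝ b,
    mul_assoc]

theorem der_inner (h : IsLie β) (hn : NonDeg β) (d : V →L[ℝ] V)
    (hd : ∀ x y, d (β x y) = β (d x) y + β x (d y)) : ∃ x, β x = d := by
  obtain ⟨x, hx⟩ := (LieAlg_bij hn).2 (LinearMap.trace ℝ V ∘ₗ
    LinearMap.mulLeft ℝ (d : Module.End ℝ V) ∘ₗ ContinuousLinearMap.coeLM ℝ ∘ₗ (β : V →ₗ[ℝ] V →L[ℝ] V))
  have h1 : ∀ z, LinearMap.trace ℝ V ((β x : Module.End ℝ V) * (β z : Module.End ℝ V)) =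
      LinearMap.trace ℝ V ((d : Module.End ℝ V) * (β z : Module.End ℝ V)) :=
    fun z => LinearMap.congr_fun hx z
  refine ⟨x, ContinuousLinearMap.ext fun y => (LieAlg_bij hn).1 (LinearMap.ext fun z => ?_)⟩
  have h2 : (β (d y) : Module.End ℝ V) =
      (d : Module.End ℝ V) * (β y : Module.End ℝ V) - (β y : Module.End ℝ V) * d :=
    LinearMap.ext fun z => by simp [hd y z]
  simp only [LieAlg_T, LinearMap.mk₂_apply]
  rw [h2, LieAlg_ad h, LieAlg_cyc, LieAlg_cyc, ← LieAlg_ad h, h1]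

set_option linter.unusedSectionVars false in
theorem ad_inj (hn : NonDeg β) : Function.Injective β :=
  (injective_iff_map_eq_zero _).mpr fun x hx => hn x fun y => by simp [kill, hx]

theorem h2_zero (h : IsLie β) (hn : NonDeg β) (c : V →L[ℝ] V →L[ℝ] V)
    (hc : ∀ x y z, c x (β y z) + β x (c y z) =
      c (β x y) z + β (c x y) z + (c y (β x z) + β y (c x z))) :
    ∃ A : V →L[ℝ] V, ∀ x y, c x y = β (A x) y + β x (A y) - A (β x y) := by
  obtain ⟨A, hA⟩ : ∃ A : V →L[ℝ] V, ∀ x, LieAlg_T β β (A x) = LieAlg_T c β x :=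
    ⟨LinearMap.toContinuousLinearMap ((LinearEquiv.ofBijective _ (LieAlg_bij hn)).symm.toLinearMap ∘ₗ
      LieAlg_T c β), fun x => (LinearEquiv.ofBijective _ (LieAlg_bij hn)).apply_symm_apply _⟩
  have h1 : ∀ x z, LinearMap.trace ℝ V ((β (A x) : Module.End ℝ V) * (β z : Module.End ℝ V)) =
      LinearMap.trace ℝ V ((c x : Module.End ℝ V) * (β z : Module.End ℝ V)) :=
    fun x z => LinearMap.congr_fun (hA x) z
  refine ⟨A, fun x y => (LieAlg_bij hn).1 (LinearMap.ext fun z => ?_)⟩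
  have h2 : (β (c x y) : Module.End ℝ V) =
      ((c x : Module.End ℝ V) * (β y : Module.End ℝ V) - (β y : Module.End ℝ V) * c x) -
        ((c y : Module.End ℝ V) * (β x : Module.End ℝ V) - (β x : Module.End ℝ V) * c y) -
          (c (β x y) : Module.End ℝ V) :=
    LinearMap.ext fun z => by
      simp only [LinearMap.sub_apply, Module.End.mul_apply, ContinuousLinearMap.coe_coe]
      linear_combination (norm := abel) -(hc x y z)
  rw [h.1 x (A y), ← sub_eq_add_neg]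
  simp only [map_sub, LinearMap.sub_apply, LieAlg_T, LinearMap.mk₂_apply]
  rw [h2, sub_mul, sub_mul, map_sub, map_sub, LieAlg_ad h (A x), LieAlg_ad h (A y), LieAlg_cyc,
    LieAlg_cyc, LieAlg_cyc, LieAlg_cyc, ← LieAlg_ad h, ← LieAlg_ad h, h1, h1, h1]

end gen

variable {ι : Type} [Fintype ι] [DecidableEq ι]

/-- The Gram matrix of the Killing form. -/
noncomputable def gram (β : Br ι) : Matrix ι ι ℝ :=
  Matrix.of fun i j => kill β (Pi.single i 1) (Pi.single j 1)

lemma LieAlg_gram (β : Br ι) : gram β = LinearMap.BilinForm.toMatrix' (LieAlg_T β β) := by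
  ext i j
  rw [LinearMap.BilinForm.toMatrix'_apply]
  rfl

lemma LieAlg_kill (β : Br ι) (x y : ι → ℝ) : kill β x y = x ⬝ᵥ gram β *ᵥ y := by
  rw [← Matrix.toBilin'_apply', LieAlg_gram, Matrix.toBilin'_toMatrix']
  rfl

theorem nonDeg_iff (β : Br ι) : NonDeg β ↔ (gram β).det ≠ 0 := by
  rw [Ne, ← Matrix.exists_vecMul_eq_zero_iff]
  simp only [NonDeg, LieAlg_kill, Matrix.dotProduct_mulVec]
  constructor
  · rintro h ⟨v, hv, e⟩
    exact hv (h v fun y => by rw [e, zero_dotProduct])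
  · intro h x hx
    by_contra hn
    exact h ⟨x, hn, dotProduct_eq_zero _ hx⟩

theorem continuous_gram : Continuous fun β : Br ι => gram β := by
  refine continuous_pi fun i => continuous_pi fun j => ?_
  simp only [gram, Matrix.of_apply, kill, LinearMap.trace_eq_matrix_trace ℝ (Pi.basisFun ℝ ι),
    Matrix.trace, Matrix.diag, LinearMap.toMatrix_apply, LinearMap.comp_apply,
    ContinuousLinearMap.coe_coe, Pi.basisFun_repr]
  fun_prop

lemma LieAlg_tr {g : GL ι ℝ} {β β' : Br ι} (h : Tr g β β') (x y : ι → ℝ) :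
    kill β' x y = kill β (g.1 *ᵥ x) (g.1 *ᵥ y) := by
  have e : (β' x : Module.End ℝ (ι → ℝ)) ∘ₗ (β' y : Module.End ℝ (ι → ℝ)) =
      Matrix.toLin' (g⁻¹).1 ∘ₗ (((β (g.1 *ᵥ x) : Module.End ℝ (ι → ℝ)) ∘ₗ
        (β (g.1 *ᵥ y) : Module.End ℝ (ι → ℝ))) ∘ₗ Matrix.toLin' g.1) :=
    LinearMap.ext fun z => by
      simp only [LinearMap.comp_apply, ContinuousLinearMap.coe_coe, Matrix.toLin'_apply]
      rw [← h y z, ← h x, Matrix.mulVec_mulVec, Units.inv_mul, Matrix.one_mulVec]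
  rw [kill, e, LinearMap.trace_comp_comm', LinearMap.comp_assoc, ← Matrix.toLin'_mul, Units.mul_inv,
    Matrix.toLin'_one, LinearMap.comp_id, kill]

theorem Tr.gram_det {g : GL ι ℝ} {β β' : Br ι} (h : Tr g β β') :
    (gram β').det = g.1.det ^ 2 * (gram β).det := by
  have e : gram β' = g.1ᵀ * gram β * g.1 := Matrix.toBilin'.injective <|
    LinearMap.ext₂ fun x y => by
      rw [Matrix.toBilin'_apply', Matrix.toBilin'_apply', ← LieAlg_kill, LieAlg_tr h, LieAlg_kill,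
        ← Matrix.mulVec_mulVec, ← Matrix.mulVec_mulVec, Matrix.dotProduct_mulVec x,
        Matrix.vecMul_transpose]
  rw [e, Matrix.det_mul, Matrix.det_mul, Matrix.det_transpose]
  ring

theorem Tr.isLie {g : GL ι ℝ} {β β' : Br ι} (h : Tr g β β') (hl : IsLie β) : IsLie β' := by
  have i : Function.Injective g.1.mulVec := Matrix.mulVec_injective_iff_isUnit.mpr g.isUnit
  refine ⟨fun x y => i ?_, fun x y z => i ?_⟩
  · rw [Matrix.mulVec_neg, h, h, hl.1]
  · rw [Matrix.mulVec_add, h, h, h, h, h, h, hl.2]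

theorem exists_tr (g : GL ι ℝ) (β : Br ι) : ∃ β', Tr g β β' := by
  refine ⟨(ContinuousLinearMap.compL ℝ _ _ _
    (LinearMap.toContinuousLinearMap (Matrix.toLin' (g⁻¹).1))).comp
      (β.bilinearComp (LinearMap.toContinuousLinearMap (Matrix.toLin' g.1))
        (LinearMap.toContinuousLinearMap (Matrix.toLin' g.1))), fun x y => ?_⟩
  change g.1 *ᵥ (g⁻¹).1 *ᵥ β (g.1 *ᵥ x) (g.1 *ᵥ y) = _
  rw [Matrix.mulVec_mulVec, Units.mul_inv, Matrix.one_mulVec]

theorem aut_det {β : Br ι} (hn : NonDeg β) {a : GL ι ℝ} (ha : a ∈ aut β) : |a.1.det| = 1 := by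
  have h := Tr.gram_det (g := a) (β := β) (β' := β) ha
  rw [← sq_eq_sq₀ (abs_nonneg _) zero_le_one, sq_abs, one_pow]
  exact mul_right_cancel₀ ((nonDeg_iff β).mp hn) (h.symm.trans (one_mul _).symm)

theorem aut_closed (β : Br ι) : IsClosed (aut β : Set (GL ι ℝ)) := by
  have c : ∀ x : ι → ℝ, Continuous fun a : GL ι ℝ => a.1 *ᵥ x := fun x =>
    Units.continuous_val.matrix_mulVec continuous_const
  change IsClosed {a : GL ι ℝ | ∀ x y, a.1 *ᵥ β x y = β (a.1 *ᵥ x) (a.1 *ᵥ y)}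
  simp only [Set.ofPred_forall]
  exact isClosed_iInter fun x => isClosed_iInter fun y =>
    isClosed_eq (c _) ((β.continuous.comp (c x)).clm_apply (c y))

end Pool.Agent.Work.MP_dbf1ea_an.V
end

-- merged part: Pool.Agent.Work.MP_dbf1ea_an.V.PreLin
section
/-!
From the adjoint representation to a local isomorphism onto the automorphism group.
-/

set_option autoImplicit false

open scoped Matrix Pointwise Topology

namespace Pool.Agent.Work.MP_dbf1ea_an.V

section aux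

variable {E : Type} [NormedAddCommGroup E] [NormedSpace ℝ E] [FiniteDimensional ℝ E]

/-- The defect of being an automorphism. -/
noncomputable def PreLinQ (D : E →L[ℝ] E →L[ℝ] E) (a : E →L[ℝ] E) : E →L[ℝ] E →L[ℝ] E :=
  (ContinuousLinearMap.compL ℝ E E E a).comp D - D.bilinearComp a a

omit [FiniteDimensional ℝ E] in
theorem PreLinQ_apply (D : E →L[ℝ] E →L[ℝ] E) (a : E →L[ℝ] E) (v w : E) :
    PreLinQ D a v w = a (D v w) - D (a v) (a w) := rfl

omit [FiniteDimensional ℝ E] in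
theorem PreLinQ_eq (D : E →L[ℝ] E →L[ℝ] E) {a : E →L[ℝ] E}
    (h : ∀ v w, a (D v w) = D (a v) (a w)) : PreLinQ D a = 0 := by
  ext v w
  rw [PreLinQ_apply, h, sub_self]
  rfl

theorem PreLinQ_deriv (D : E →L[ℝ] E →L[ℝ] E) : ∃ Q' : (E →L[ℝ] E) →L[ℝ] E →L[ℝ] E →L[ℝ] E,
    HasStrictFDerivAt (PreLinQ D) Q' 1 ∧
      ∀ d v w, Q' d v w = d (D v w) - (D (d v) w + D v (d w)) := by
  have h : ContDiff ℝ 1 (PreLinQ D) := by
    refine contDiff_clm_apply_iff.2 fun v => contDiff_clm_apply_iff.2 fun w => ?_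
    simp only [PreLinQ_apply]
    fun_prop
  have h1 := (h.contDiffAt (x := 1)).hasStrictFDerivAt one_ne_zero
  refine ⟨_, h1, fun d v w => ?_⟩
  have h2 := ((ContinuousLinearMap.apply ℝ E w).comp
    (ContinuousLinearMap.apply ℝ (E →L[ℝ] E) v)).hasFDerivAt.comp _ h1.hasFDerivAt
  have h3 := ((ContinuousLinearMap.apply ℝ E (D v w)).hasFDerivAt (x := 1)).sub
    (((D.comp (ContinuousLinearMap.apply ℝ E v)).hasFDerivAt (x := 1)).clm_apply
      (ContinuousLinearMap.apply ℝ E w).hasFDerivAt)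
  have h4 := DFunLike.congr_fun (h2.unique h3) d
  simpa [add_comm] using h4

theorem PreLin_open {G : Type} [TopologicalSpace G] [Group G]
    (φ : OpenPartialHomeomorph G E) (h1 : (1 : G) ∈ φ.source) (D : E →L[ℝ] E →L[ℝ] E)
    (hl : IsLie D) (hn : NonDeg D) (A : G →* (E →L[ℝ] E))
    (haut : ∀ g v w, A g (D v w) = D (A g v) (A g w))
    (hD : HasStrictFDerivAt (fun x => A (φ.symm x)) D (φ 1)) {U : Set G} (hU : U ∈ 𝓝 (1 : G)) :
    ∀ᶠ a in 𝓝 (1 : E →L[ℝ] E), (∀ v w, a (D v w) = D (a v) (a w)) → a ∈ A '' U := by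
  obtain ⟨Q', h2, h3⟩ := PreLinQ_deriv D
  have e : A (φ.symm (φ 1)) = 1 := by rw [φ.left_inv h1, map_one]
  have h4 := slice (Q := PreLinQ D) (Q' := Q') hD (by rwa [e])
    (Filter.Eventually.of_forall fun x => by rw [PreLinQ_eq D (haut _), PreLinQ_eq D (haut _)])
    (fun d hd => der_inner hl hn d fun v w => sub_eq_zero.1 (by rw [← h3, hd]; rfl))
    (φ.symm ⁻¹' U) ((φ.continuousAt_symm (φ.map_source h1)).preimage_mem_nhds
      (by rwa [φ.left_inv h1]))
  rw [PreLinQ_eq D (haut _), e] at h4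
  filter_upwards [h4] with a ha h
  obtain ⟨x, hx, rfl⟩ := ha (PreLinQ_eq D h)
  exact ⟨_, hx, rfl⟩

end aux

theorem pre_lin {E : Type} [NormedAddCommGroup E] [NormedSpace ℝ E] [FiniteDimensional ℝ E]
    {G : Type} [TopologicalSpace G] [Group G] [IsTopologicalGroup G]
    (φ : OpenPartialHomeomorph G E) (h1 : (1 : G) ∈ φ.source) (D : E →L[ℝ] E →L[ℝ] E)
    (hl : IsLie D) (hn : NonDeg D) (A : G →* (E →L[ℝ] E)) (hA : Continuous A)
    (haut : ∀ g v w, A g (D v w) = D (A g v) (A g w))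
    (hD : HasStrictFDerivAt (fun x => A (φ.symm x)) D (φ 1)) :
    ∃ (n : ℕ) (β : Br (Fin n)) (π : G →* GL (Fin n) ℝ), IsLie β ∧ NonDeg β ∧ Continuous π ∧
      (∀ g, π g ∈ aut β) ∧
      (∀ U ∈ 𝓝 (1 : G), π '' U ∈ 𝓝[(aut β : Set (GL (Fin n) ℝ))] 1) ∧
      ∃ U ∈ 𝓝 (1 : G), ∀ g ∈ U, π g = 1 → g = 1 := by
  let b := Module.finBasis ℝ E
  let e := b.equivFunL
  let L : (E →L[ℝ] E) ≃ₗ[ℝ] Matrix _ _ ℝ :=
    LinearMap.toContinuousLinearMap.symm ≪≫ₗ LinearMap.toMatrix b b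
  have hL : ∀ a v, L a *ᵥ e v = e (a v) := fun a v => LinearMap.toMatrix_mulVec_repr b b a v
  have L1 : L 1 = 1 := LinearMap.toMatrix_one b
  let M : G →* Matrix _ _ ℝ :=
    ⟨⟨fun g => L (A g), by rw [map_one, L1]⟩, fun g h => by
      change L (A (g * h)) = L (A g) * L (A h)
      rw [map_mul]
      exact LinearMap.toMatrix_mul b (A g : E →ₗ[ℝ] E) (A h : E →ₗ[ℝ] E)⟩
  have hM : Continuous M := L.toLinearMap.continuous_of_finiteDimensional.comp hA
  let β : Br (Fin (Module.finrank ℝ E)) :=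
    (ContinuousLinearMap.compL ℝ _ E _ e.toContinuousLinearMap).comp
      (D.bilinearComp e.symm.toContinuousLinearMap e.symm.toContinuousLinearMap)
  have hβ : ∀ x y, β x y = e (D (e.symm x) (e.symm y)) := fun x y => rfl
  have hβ' : ∀ v w, β (e v) (e w) = e (D v w) := fun v w => by
    rw [hβ, e.symm_apply_apply, e.symm_apply_apply]
  refine ⟨_, β, M.toHomUnits, ⟨fun x y => ?_, fun x y z => ?_⟩, fun x hx => ?_, ?_,
    fun g x y => ?_, fun U hU => ?_, ?_⟩
  · rw [hβ, hβ, hl.1, map_neg]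
  · simp only [hβ, e.symm_apply_apply]
    rw [hl.2, map_add]
  · refine e.symm.map_eq_zero_iff.1 (hn _ fun w => ?_)
    rw [← hx (e w), kill, kill, ← LinearMap.trace_conj' _ e.toLinearEquiv]
    congr 1
    refine LinearMap.ext fun z => ?_
    change e (D _ (D w (e.symm z))) = β x (β (e w) z)
    rw [hβ, hβ, e.symm_apply_apply, e.symm_apply_apply]
  · refine Units.continuous_iff.2 ⟨hM, ?_⟩
    simp only [← map_inv]
    exact hM.comp continuous_inv
  · obtain ⟨v, rfl⟩ := e.surjective x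
    obtain ⟨w, rfl⟩ := e.surjective y
    change L (A g) *ᵥ _ = β (L (A g) *ᵥ _) (L (A g) *ᵥ _)
    rw [hL, hL, hβ', hβ', hL, haut]
  · have c : Continuous fun a : GL (Fin (Module.finrank ℝ E)) ℝ => L.symm a.1 :=
      L.symm.toLinearMap.continuous_of_finiteDimensional.comp Units.continuous_val
    have h2 := PreLin_open φ h1 D hl hn A haut hD hU
    rw [← L.symm_apply_apply 1, L1] at h2
    refine eventually_nhdsWithin_iff.2 ?_
    filter_upwards [(c.tendsto 1).eventually h2] with a ha hb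
    have hS : ∀ u, e (L.symm a.1 u) = a.1 *ᵥ e u := fun u => by rw [← hL, L.apply_symm_apply]
    obtain ⟨g, hg, h3⟩ := ha fun v w => e.injective (by
      rw [← hβ' (L.symm a.1 v), hS, hS, hS, ← hβ' v w]
      exact hb _ _)
    exact ⟨g, hg, Units.ext (L.eq_symm_apply.1 h3)⟩
  · obtain ⟨U, hU, h2⟩ := loc_inj hD (ad_inj hn)
    refine ⟨_, Filter.inter_mem (φ.open_source.mem_nhds h1)
      ((φ.continuousAt h1).preimage_mem_nhds hU), fun g hg h3 => ?_⟩
    refine φ.injOn hg.1 h1 (h2 hg.2 (mem_of_mem_nhds hU) ?_)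
    change A (φ.symm (φ g)) = A (φ.symm (φ 1))
    rw [φ.left_inv hg.1, φ.left_inv h1, map_one]
    exact L.injective ((congrArg Units.val h3).trans L1.symm)

end Pool.Agent.Work.MP_dbf1ea_an.V
end

-- merged part: Pool.Agent.Work.MP_dbf1ea_an.V.AdA
section
/-!
The adjoint representation of a Lie group.
-/

set_option autoImplicit false

open scoped Matrix Pointwise Topology

namespace Pool.Agent.Work.MP_dbf1ea_an.V

open scoped Manifold

variable (E : Type) [NormedAddCommGroup E] [NormedSpace ℝ E]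
  (G : Type) [TopologicalSpace G] [ChartedSpace E G] [Group G]

/-- The bracket of the Lie algebra, read on the model space. -/
noncomputable def lb (v w : E) : E :=
  (⁅(show GroupLieAlgebra 𝓘(ℝ, E) G from v), (show GroupLieAlgebra 𝓘(ℝ, E) G from w)⁆ :
    GroupLieAlgebra 𝓘(ℝ, E) G)

variable {G}

/-- The adjoint representation. -/
noncomputable def Ad (g : G) : E →L[ℝ] E :=
  mfderiv 𝓘(ℝ, E) 𝓘(ℝ, E) (fun x : G => g * x * g⁻¹) 1

variable [LieGroup 𝓘(ℝ, E) (minSmoothness ℝ 3) G]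

/-- The derivative of a self-map, read on the model space. -/
noncomputable def AdA_D (f : G → G) (x : G) : E →L[ℝ] E := mfderiv 𝓘(ℝ, E) 𝓘(ℝ, E) f x

omit [Group G] [LieGroup 𝓘(ℝ, E) (minSmoothness ℝ 3) G] in
theorem AdA_D_comp {f g : G → G} (hf : ContMDiff 𝓘(ℝ, E) 𝓘(ℝ, E) (minSmoothness ℝ 3) f)
    (hg : ContMDiff 𝓘(ℝ, E) 𝓘(ℝ, E) (minSmoothness ℝ 3) g) {h : G → G} (hh : ∀ x, h x = g (f x))
    {x y : G} (hy : f x = y) : AdA_D E h x = AdA_D E g y ∘L AdA_D E f x := by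
  have M : minSmoothness ℝ 3 ≠ 0 := lt_of_lt_of_le (by simp) le_minSmoothness |>.ne'
  have e : h = g ∘ f := funext hh
  subst e hy
  exact mfderiv_comp x (hg.contMDiffAt.mdifferentiableAt M) (hf.contMDiffAt.mdifferentiableAt M)

omit [Group G] [LieGroup 𝓘(ℝ, E) (minSmoothness ℝ 3) G] in
theorem AdA_D_id {h : G → G} (hh : ∀ x, h x = x) (x : G) :
    AdA_D E h x = ContinuousLinearMap.id ℝ E := by
  have e : h = id := funext hh
  subst e
  exact mfderiv_id

theorem AdA_conj (g : G) :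
    ContMDiff 𝓘(ℝ, E) 𝓘(ℝ, E) (minSmoothness ℝ 3) (fun x : G => g * x * g⁻¹) :=
  (contMDiff_const.mul contMDiff_id).mul contMDiff_const

theorem AdA_left (g : G) :
    ContMDiff 𝓘(ℝ, E) 𝓘(ℝ, E) (minSmoothness ℝ 3) (fun x : G => g * x) :=
  contMDiff_const.mul contMDiff_id

theorem AdA_inv₁ (g x : G) :
    AdA_D E (fun x : G => g * x * g⁻¹) x ∘L AdA_D E (fun x : G => g⁻¹ * x * g⁻¹⁻¹) (g * x * g⁻¹)
      = ContinuousLinearMap.id ℝ E := by
  rw [← AdA_D_comp E (AdA_conj E g⁻¹) (AdA_conj E g) (h := fun x => x) (fun x => by group)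
    (by group)]
  exact AdA_D_id E (fun _ => rfl) _

theorem AdA_inv₂ (g x : G) :
    AdA_D E (fun x : G => g⁻¹ * x * g⁻¹⁻¹) (g * x * g⁻¹) ∘L AdA_D E (fun x : G => g * x * g⁻¹) x
      = ContinuousLinearMap.id ℝ E := by
  rw [← AdA_D_comp E (AdA_conj E g) (AdA_conj E g⁻¹) (h := fun x => x) (fun x => by group) rfl]
  exact AdA_D_id E (fun _ => rfl) _

theorem AdA_inverse (g x : G) :
    (AdA_D E (fun x : G => g * x * g⁻¹) x).inverse =
      AdA_D E (fun x : G => g⁻¹ * x * g⁻¹⁻¹) (g * x * g⁻¹) :=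
  ContinuousLinearMap.inverse_eq (AdA_inv₁ E g x) (AdA_inv₂ E g x)

theorem AdA_pull (g : G) (v : E) :
    VectorField.mpullback 𝓘(ℝ, E) 𝓘(ℝ, E) (fun x : G => g * x * g⁻¹)
      (mulInvariantVectorField (I := 𝓘(ℝ, E)) (G := G) (Ad E g v)) =
      mulInvariantVectorField (I := 𝓘(ℝ, E)) (G := G) v := by
  funext x
  have h1 : AdA_D E (fun y : G => g * (x * y) * g⁻¹) 1 =
      AdA_D E (fun y : G => (g * x * g⁻¹) * y) 1 ∘L AdA_D E (fun x : G => g * x * g⁻¹) 1 :=
    AdA_D_comp E (AdA_conj E g) (AdA_left E _) (fun y => by group) (by group)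
  have h2 : AdA_D E (fun y : G => g * (x * y) * g⁻¹) 1 =
      AdA_D E (fun x : G => g * x * g⁻¹) x ∘L AdA_D E (fun y : G => x * y) 1 :=
    AdA_D_comp E (AdA_left E x) (AdA_conj E g) (fun y => rfl) (by group)
  have h3 : (AdA_D E (fun x : G => g * x * g⁻¹) x).inverse
      (AdA_D E (fun y : G => (g * x * g⁻¹) * y) 1 (AdA_D E (fun x : G => g * x * g⁻¹) 1 v)) =
      AdA_D E (fun y : G => x * y) 1 v := by
    have h4 := congrArg (fun T : E →L[ℝ] E => T v) (h1.symm.trans h2)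
    simp only [ContinuousLinearMap.comp_apply] at h4
    rw [h4, AdA_inverse]
    have h5 := congrArg (fun T : E →L[ℝ] E => T (AdA_D E (fun y : G => x * y) 1 v))
      (AdA_inv₂ E g x)
    simpa only [ContinuousLinearMap.comp_apply, ContinuousLinearMap.id_apply] using h5
  exact h3

theorem Ad_one : Ad E (1 : G) = 1 := by
  exact AdA_D_id E (fun x => by group) _

theorem Ad_mul (g h : G) : Ad E (g * h) = Ad E g * Ad E h := by
  exact AdA_D_comp E (AdA_conj E h) (AdA_conj E g) (fun x => by group) (by group)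

theorem contMDiff_Ad : ContMDiff 𝓘(ℝ, E) 𝓘(ℝ, E →L[ℝ] E) 1 (Ad E : G → E →L[ℝ] E) := by
  intro x₀
  have hf : ContMDiff (𝓘(ℝ, E).prod 𝓘(ℝ, E)) 𝓘(ℝ, E) (minSmoothness ℝ 3)
      (Function.uncurry (fun g x : G => g * x * g⁻¹)) :=
    (contMDiff_fst.mul contMDiff_snd).mul contMDiff_fst.inv
  haveI : IsManifold 𝓘(ℝ, E) 1 G := IsManifold.of_le (n := minSmoothness ℝ 3)
    (le_trans (by norm_num) le_minSmoothness)
  have h := ContMDiffAt.mfderiv (m := 1) (x₀ := x₀) (fun g x : G => g * x * g⁻¹) (fun _ => (1 : G))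
    hf.contMDiffAt contMDiffAt_const (le_trans (by norm_num) le_minSmoothness)
  have e : inTangentCoordinates 𝓘(ℝ, E) 𝓘(ℝ, E) (fun _ : G => (1 : G))
      (fun x : G => x * 1 * x⁻¹) (Ad E : G → E →L[ℝ] E) x₀ = Ad E := by
    funext x
    have e1 : (fun x : G => x * 1 * x⁻¹) = fun _ => 1 := by funext x; group
    rw [e1, inTangentCoordinates_eq (fun _ : G => (1 : G)) (fun _ : G => (1 : G)) _ (x₀ := x₀)
      (x := x) (mem_chart_source E (1 : G)) (mem_chart_source E (1 : G))]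
    ext v
    have hs : ∀ u : E, (tangentBundleCore 𝓘(ℝ, E) G).coordChange (achart E (1 : G))
        (achart E (1 : G)) 1 u = u := fun u =>
      (tangentBundleCore 𝓘(ℝ, E) G).coordChange_self _ _ (mem_achart_source E (1 : G)) u
    simp only [ContinuousLinearMap.comp_apply, hs]
  rw [← e]
  exact h

theorem Ad_lb [CompleteSpace E] (g : G) (v w : E) :
    Ad E g (lb E G v w) = lb E G (Ad E g v) (Ad E g w) := by
  have M2 : minSmoothness ℝ 2 ≤ minSmoothness ℝ 3 := minSmoothness_monotone (by norm_num)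
  haveI : IsManifold 𝓘(ℝ, E) (minSmoothness ℝ 2) G := IsManifold.of_le M2
  have h := VectorField.mpullback_mlieBracket (I := 𝓘(ℝ, E)) (I' := 𝓘(ℝ, E))
    (f := fun x : G => g * x * g⁻¹) (x₀ := (1 : G))
    (V := mulInvariantVectorField (I := 𝓘(ℝ, E)) (G := G) (Ad E g v))
    (W := mulInvariantVectorField (I := 𝓘(ℝ, E)) (G := G) (Ad E g w))
    (mdifferentiableAt_mulInvariantVectorField _) (mdifferentiableAt_mulInvariantVectorField _)
    (AdA_conj E g).contMDiffAt M2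
  rw [AdA_pull, AdA_pull] at h
  let B : G → E := fun y => VectorField.mlieBracket 𝓘(ℝ, E)
    (mulInvariantVectorField (I := 𝓘(ℝ, E)) (G := G) (Ad E g v))
    (mulInvariantVectorField (I := 𝓘(ℝ, E)) (G := G) (Ad E g w)) y
  have h1 : (AdA_D E (fun x : G => g * x * g⁻¹) 1).inverse (B (g * 1 * g⁻¹)) = lb E G v w := h
  have h2 : lb E G (Ad E g v) (Ad E g w) = B 1 := rfl
  have e1 : g * 1 * g⁻¹ = 1 := by group
  rw [h2, ← h1, AdA_inverse]
  have h5 := congrArg (fun T : E →L[ℝ] E => T (B (g * 1 * g⁻¹))) (AdA_inv₁ E g 1)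
  simp only [ContinuousLinearMap.comp_apply, ContinuousLinearMap.id_apply] at h5
  exact h5.trans (congrArg B e1)

end Pool.Agent.Work.MP_dbf1ea_an.V
end

-- merged part: Pool.Agent.Work.MP_dbf1ea_an.V.AdB
section
/-!
The derivative of the adjoint representation is the bracket.
-/

set_option autoImplicit false

open scoped Matrix Pointwise Topology

namespace Pool.Agent.Work.MP_dbf1ea_an.V

open scoped Manifold

section calculus

variable {E : Type} [NormedAddCommGroup E] [NormedSpace ℝ E] {m : E × E → E} {e : E}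

theorem AdB_diff (hm : ContDiffAt ℝ 2 m (e, e)) : DifferentiableAt ℝ (fderiv ℝ m) (e, e) :=
  (hm.fderiv_right (m := 1) (by norm_num)).differentiableAt one_ne_zero

theorem AdB_left (hm : ContDiffAt ℝ 2 m (e, e)) (w : E) :
    ∃ D : E →L[ℝ] E, HasFDerivAt (fun x => fderiv ℝ m (x, e) (0, w)) D e ∧
      ∀ v, D v = fderiv ℝ (fderiv ℝ m) (e, e) (v, 0) (0, w) :=
  ⟨_, (HasFDerivAt.comp (f := fun x => (x, e)) e (AdB_diff hm).hasFDerivAt
    (hasFDerivAt_prodMk_left e e)).clm_apply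
    (hasFDerivAt_const ((0 : E), w) e), fun v => by simp⟩

theorem AdB_calc (hm : ContDiffAt ℝ 2 m (e, e)) {A : E → E →L[ℝ] E} (hA : DifferentiableAt ℝ A e)
    (hA1 : A e = 1) (h1 : ∀ w, fderiv ℝ m (e, e) (w, 0) = w) (v w : E)
    (h : ∀ᶠ x in 𝓝 e, fderiv ℝ m (e, x) (A x w, 0) = fderiv ℝ m (x, e) (0, w)) :
    fderiv ℝ A e v w =
      fderiv ℝ (fderiv ℝ m) (e, e) (v, 0) (0, w) - fderiv ℝ (fderiv ℝ m) (e, e) (w, 0) (0, v) := by
  obtain ⟨D, hD, hD'⟩ := AdB_left hm w
  have h2 := ((AdB_diff hm).hasFDerivAt.comp e (hasFDerivAt_prodMk_right e e)).clm_apply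
    ((hA.hasFDerivAt.clm_apply (hasFDerivAt_const w e)).prodMk (hasFDerivAt_const (0 : E) e))
  have h3 := congrArg (fun L : E →L[ℝ] E => L v) (h2.unique (hD.congr_of_eventuallyEq h))
  rw [← hD', ← (hm.isSymmSndFDerivAt (by simp)).eq, ← h3]
  simp [h1, hA1]

end calculus

section chart

variable {E : Type} [NormedAddCommGroup E] [NormedSpace ℝ E]
  {G : Type} [TopologicalSpace G] [ChartedSpace E G] [Group G]
  [LieGroup 𝓘(ℝ, E) (minSmoothness ℝ 3) G]

theorem AdB_ne : minSmoothness ℝ 3 ≠ 0 := (lt_of_lt_of_le (by simp) le_minSmoothness).ne'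

theorem AdB_two : (2 : WithTop ℕ∞) ≤ minSmoothness ℝ 3 := le_trans (by norm_num) le_minSmoothness

variable (E G) in
/-- The multiplication read in the chart at the identity. -/
noncomputable def AdB_m (p : E × E) : E :=
  extChartAt 𝓘(ℝ, E) (1 : G)
    ((extChartAt 𝓘(ℝ, E) (1 : G)).symm p.1 * (extChartAt 𝓘(ℝ, E) (1 : G)).symm p.2)

theorem AdB_symm : ContMDiffAt 𝓘(ℝ, E) 𝓘(ℝ, E) 2 (extChartAt 𝓘(ℝ, E) (1 : G)).symm
    (extChartAt 𝓘(ℝ, E) (1 : G) 1) := by
  have : IsManifold 𝓘(ℝ, E) 2 G := IsManifold.of_le AdB_two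
  have h := contMDiffWithinAt_extChartAt_symm_range (I := 𝓘(ℝ, E)) (n := 2) (1 : G)
    (mem_extChartAt_target (1 : G))
  rwa [ModelWithCorners.Boundaryless.range_eq_univ, contMDiffWithinAt_univ] at h

theorem AdB_smooth : ContDiffAt ℝ 2 (AdB_m E G)
    (extChartAt 𝓘(ℝ, E) (1 : G) 1, extChartAt 𝓘(ℝ, E) (1 : G) 1) := by
  have : IsManifold 𝓘(ℝ, E) 2 G := IsManifold.of_le AdB_two
  have : ContMDiffMul 𝓘(ℝ, E) 2 G := ContMDiffMul.of_le AdB_two
  set e := extChartAt 𝓘(ℝ, E) (1 : G) 1 with he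
  have h1 := (AdB_symm (G := G)).comp (e, e) (contDiffAt_fst (𝕜 := ℝ) (p := (e, e))).contMDiffAt
  have h2 := (AdB_symm (G := G)).comp (e, e) (contDiffAt_snd (𝕜 := ℝ) (p := (e, e))).contMDiffAt
  refine contMDiffAt_iff_contDiffAt.1 (ContMDiffAt.comp (e, e) (contMDiffAt_extChartAt' ?_)
    (h1.mul h2))
  simp [he]

set_option backward.isDefEq.respectTransparency false in
theorem AdB_deriv {f : G → G} (hf : MDifferentiableAt 𝓘(ℝ, E) 𝓘(ℝ, E) f 1)
    (h1 : f 1 ∈ (chartAt E (1 : G)).source) :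
    HasFDerivAt (fun y => extChartAt 𝓘(ℝ, E) (1 : G) (f ((extChartAt 𝓘(ℝ, E) (1 : G)).symm y)))
      ((mfderiv 𝓘(ℝ, E) 𝓘(ℝ, E) (extChartAt 𝓘(ℝ, E) (1 : G)) (f 1) : E →L[ℝ] E) ∘L
        (mfderiv 𝓘(ℝ, E) 𝓘(ℝ, E) f 1 : E →L[ℝ] E)) (extChartAt 𝓘(ℝ, E) (1 : G) 1) := by
  have : IsManifold 𝓘(ℝ, E) 1 G := IsManifold.of_le (le_trans (by norm_num) AdB_two)
  have h2 := ((mdifferentiableAt_extChartAt h1).hasMFDerivAt.comp 1 hf.hasMFDerivAt).2
  rw [ModelWithCorners.Boundaryless.range_eq_univ, hasFDerivWithinAt_univ] at h2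
  simpa [writtenInExtChartAt, Function.comp_def] using h2

end chart

variable (E : Type) [NormedAddCommGroup E] [NormedSpace ℝ E] [CompleteSpace E]
  (G : Type) [TopologicalSpace G] [ChartedSpace E G] [Group G]
  [LieGroup 𝓘(ℝ, E) (minSmoothness ℝ 3) G]

set_option backward.isDefEq.respectTransparency false in
theorem Ad_deriv (v w : E) :
    fderiv ℝ (fun x => Ad E ((chartAt E (1 : G)).symm x)) (chartAt E (1 : G) 1) v w =
      lb E G v w := by
  have : IsManifold 𝓘(ℝ, E) 1 G := IsManifold.of_le (le_trans (by norm_num) AdB_two)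
  have hm := AdB_smooth (E := E) (G := G)
  set φ := extChartAt 𝓘(ℝ, E) (1 : G) with hφ
  have e1 : φ.symm (φ 1) = 1 := extChartAt_to_inv 1
  have ht : ∀ᶠ x in 𝓝 (φ 1), x ∈ φ.target := extChartAt_target_mem_nhds 1
  have hs : ∀ x ∈ φ.target, φ.symm x ∈ (chartAt E (1 : G)).source := fun x hx => by
    rw [← extChartAt_source 𝓘(ℝ, E)]
    exact φ.map_target hx
  have hd : ∀ᶠ p in 𝓝 (φ 1, φ 1), DifferentiableAt ℝ (AdB_m E G) p :=
    (hm.eventually (by simp)).mono fun p hp => hp.differentiableAt (by simp)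
  have dL : ∀ g : G, MDifferentiableAt 𝓘(ℝ, E) 𝓘(ℝ, E) (fun y => g * y) 1 := fun g =>
    contMDiff_mul_left.contMDiffAt.mdifferentiableAt AdB_ne
  have dR : ∀ g h : G, MDifferentiableAt 𝓘(ℝ, E) 𝓘(ℝ, E) (fun y => y * g) h := fun g h =>
    contMDiff_mul_right.contMDiffAt.mdifferentiableAt AdB_ne
  have hL : ∀ᶠ x in 𝓝 (φ 1), ∀ u : E, fderiv ℝ (AdB_m E G) (x, φ 1) (0, u) =
      (mfderiv 𝓘(ℝ, E) 𝓘(ℝ, E) φ (φ.symm x) : E →L[ℝ] E)
        ((mfderiv 𝓘(ℝ, E) 𝓘(ℝ, E) (fun y => φ.symm x * y) 1 : E →L[ℝ] E) u) := by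
    filter_upwards [ht, (Continuous.prodMk_left (φ 1)).continuousAt.eventually hd] with x hx hx' u
    have h1 := AdB_deriv (dL (φ.symm x)) (by simpa using hs x hx)
    have h2 := (hx'.hasFDerivAt.comp (φ 1) (hasFDerivAt_prodMk_right x (φ 1))).unique h1
    have h3 := congrArg (fun L : E →L[ℝ] E => L u) h2
    rw [mul_one] at h3
    exact h3
  have hR : ∀ᶠ x in 𝓝 (φ 1), ∀ u : E, fderiv ℝ (AdB_m E G) (φ 1, x) (u, 0) =
      (mfderiv 𝓘(ℝ, E) 𝓘(ℝ, E) φ (φ.symm x) : E →L[ℝ] E)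
        ((mfderiv 𝓘(ℝ, E) 𝓘(ℝ, E) (fun y => y * φ.symm x) 1 : E →L[ℝ] E) u) := by
    filter_upwards [ht, (Continuous.prodMk_right (φ 1)).continuousAt.eventually hd] with x hx hx' u
    have h1 := AdB_deriv (dR (φ.symm x) 1) (by simpa using hs x hx)
    have h2 := (HasFDerivAt.comp (f := fun y => (y, x)) (φ 1) hx'.hasFDerivAt
      (hasFDerivAt_prodMk_left (φ 1) x)).unique h1
    have h3 := congrArg (fun L : E →L[ℝ] E => L u) h2
    rw [one_mul] at h3
    exact h3
  have hAd : ∀ (g : G) (u : E),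
      (mfderiv 𝓘(ℝ, E) 𝓘(ℝ, E) (fun y => y * g) 1 : E →L[ℝ] E) (Ad E g u) =
        (mfderiv 𝓘(ℝ, E) 𝓘(ℝ, E) (fun y => g * y) 1 : E →L[ℝ] E) u := fun g u => by
    have h1 : MDifferentiableAt 𝓘(ℝ, E) 𝓘(ℝ, E) (fun y => g * y * g⁻¹) 1 :=
      (dR g⁻¹ _).comp 1 (dL g)
    have h2 := mfderiv_comp_of_eq (dR g 1) h1 (by simp)
    rw [show ((fun y => y * g) ∘ fun y => g * y * g⁻¹) = fun y => g * y from
      funext fun y => by simp] at h2
    have h3 := (congrArg (fun L : E →L[ℝ] E => L u) h2).symm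
    rw [show g * 1 * g⁻¹ = 1 by simp] at h3
    exact h3
  have id1 : ∀ {f : G → G}, f = id → ∀ u : E,
      (mfderiv 𝓘(ℝ, E) 𝓘(ℝ, E) φ (φ.symm (φ 1)) : E →L[ℝ] E)
        ((mfderiv 𝓘(ℝ, E) 𝓘(ℝ, E) f 1 : E →L[ℝ] E) u) = u := fun h u => by
    rw [h, e1, mfderiv_id, mfderiv_extChartAt_self]
    rfl
  have hV : ∀ u : E, VectorField.mpullbackWithin 𝓘(ℝ, E) 𝓘(ℝ, E) φ.symm
      (mulInvariantVectorField (I := 𝓘(ℝ, E)) (G := G) u) (Set.range 𝓘(ℝ, E)) =ᶠ[𝓝 (φ 1)]
      fun x => fderiv ℝ (AdB_m E G) (x, φ 1) (0, u) := fun u => by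
    filter_upwards [ht, hL] with x hx hx'
    rw [hx', VectorField.mpullbackWithin_apply, ContinuousLinearMap.inverse_eq
      (mfderivWithin_extChartAt_symm_comp_mfderiv_extChartAt hx)
      (mfderiv_extChartAt_comp_mfderivWithin_extChartAt_symm hx)]
    rfl
  have h0 : ∀ u : E, fderiv ℝ (AdB_m E G) (φ 1, φ 1) (0, u) = u := fun u =>
    (hL.self_of_nhds u).trans (id1 (by rw [e1]; exact funext one_mul) u)
  have hA : DifferentiableAt ℝ (fun x => Ad E (φ.symm x)) (φ 1) :=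
    (contMDiffAt_iff_contDiffAt.1 ((contMDiff_Ad E _).comp (φ 1)
      (AdB_symm.of_le (by norm_num)))).differentiableAt one_ne_zero
  refine (AdB_calc hm hA (by rw [e1, Ad_one])
    (fun u => (hR.self_of_nhds u).trans (id1 (by rw [e1]; exact funext mul_one) u)) v w
    ?_).trans ?_
  · filter_upwards [hL, hR] with x h1 h2
    rw [h1, h2, hAd]
  · obtain ⟨Dv, hv, hv'⟩ := AdB_left hm v
    obtain ⟨Dw, hw, hw'⟩ := AdB_left hm w
    rw [lb, GroupLieAlgebra.bracket_def, ← VectorField.mlieBracketWithin_univ,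
      VectorField.mlieBracketWithin_apply, mfderiv_extChartAt_self, ContinuousLinearMap.inverse_id,
      Set.preimage_univ, Set.univ_inter, (hV v).lieBracketWithin_vectorField_eq_nhds (hV w),
      ModelWithCorners.Boundaryless.range_eq_univ, VectorField.lieBracketWithin_univ,
      VectorField.lieBracket, hv.fderiv, hw.fderiv, h0, h0, hv', hw']
    rfl

end Pool.Agent.Work.MP_dbf1ea_an.V
end

-- merged part: Pool.Agent.Work.MP_dbf1ea_an.V.Rigid
section
/-!
Local rigidity of brackets with nondegenerate Killing form.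
-/

set_option autoImplicit false

open scoped Matrix Pointwise Topology

namespace Pool.Agent.Work.MP_dbf1ea_an.V

theorem Rigid_aff {X : Type} [NormedAddCommGroup X] [NormedSpace ℝ X] (x0 A : X) :
    HasDerivAt (fun t : ℝ => x0 + t • A) A 0 := by
  simpa using ((hasDerivAt_id (0 : ℝ)).smul_const A).const_add x0

theorem Rigid_line {X Y : Type} [NormedAddCommGroup X] [NormedSpace ℝ X] [NormedAddCommGroup Y]
    [NormedSpace ℝ Y] {f : X → Y} {f' : X →L[ℝ] Y} {x0 : X} (hf : HasFDerivAt f f' x0) (A : X) :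
    HasDerivAt (fun t : ℝ => f (x0 + t • A)) (f' A) 0 := by
  exact hf.comp_hasDerivAt_of_eq (0 : ℝ) (Rigid_aff x0 A) (by simp)

variable {ι : Type} [Fintype ι] [DecidableEq ι]

theorem Rigid_ext {F : (ι → ℝ) → (ι → ℝ)} (hF : IsLinearMap ℝ F)
    (h : ∀ i, F (Pi.single i 1) = 0) (x : ι → ℝ) : F x = 0 := by
  have : IsLinearMap.mk' F hF = 0 := LinearMap.pi_ext' fun i => LinearMap.ext_ring (h i)
  exact LinearMap.congr_fun this x

/-- The transport of a bracket along an endomorphism. -/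
noncomputable def Rigid_f (β : Br ι) (u : (ι → ℝ) →L[ℝ] (ι → ℝ)) : Br ι :=
  (ContinuousLinearMap.compL ℝ (ι → ℝ) (ι → ℝ) (ι → ℝ) (Ring.inverse u)).comp (β.bilinearComp u u)

omit [DecidableEq ι] in
theorem Rigid_f_apply (β : Br ι) (u : (ι → ℝ) →L[ℝ] (ι → ℝ)) (x y : ι → ℝ) :
    Rigid_f β u x y = Ring.inverse u (β (u x) (u y)) := rfl

/-- The defect of the Jacobi identity on basis vectors. -/
noncomputable def Rigid_Q (c : Br ι) : ι → ι → ι → ι → ℝ := fun i j k =>
  c (Pi.single i 1) (c (Pi.single j 1) (Pi.single k 1)) -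
    (c (c (Pi.single i 1) (Pi.single j 1)) (Pi.single k 1) +
      c (Pi.single j 1) (c (Pi.single i 1) (Pi.single k 1)))

theorem Rigid_Q_zero {c : Br ι} (h : IsLie c) : Rigid_Q c = 0 := by
  funext i j k
  exact sub_eq_zero.2 (h.2 _ _ _)

theorem Rigid_tr (β : Br ι) {u : (ι → ℝ) →L[ℝ] (ι → ℝ)} (hu : IsUnit u) :
    ∃ g : GL ι ℝ, Tr g β (Rigid_f β u) := by
  let φ : ((ι → ℝ) →L[ℝ] (ι → ℝ)) →* Matrix ι ι ℝ :=
    { toFun := fun v => LinearMap.toMatrix' (v : (ι → ℝ) →ₗ[ℝ] (ι → ℝ))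
      map_one' := LinearMap.toMatrix'_id
      map_mul' := fun a b => LinearMap.toMatrix'_mul _ _ }
  have hφ : ∀ x, φ u *ᵥ x = u x := fun x => LinearMap.toMatrix'_mulVec _ x
  refine ⟨Units.map φ hu.unit, fun x y => ?_⟩
  change φ u *ᵥ _ = β (φ u *ᵥ x) (φ u *ᵥ y)
  rw [hφ, hφ, hφ, Rigid_f_apply, ← mul_apply_eq_comp, Ring.mul_inverse_cancel _ hu]
  rfl

theorem rigid {β : Br ι} (h : IsLie β) (hn : NonDeg β) :
    ∀ᶠ β' in 𝓝 β, IsLie β' → ∃ u : GL ι ℝ, Tr u β β' := by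
  have hU : {u : (ι → ℝ) →L[ℝ] (ι → ℝ) | IsUnit u} ∈ 𝓝 1 := Units.isOpen.mem_nhds isUnit_one
  have hf1 : Rigid_f β 1 = β := by
    ext1 x; ext1 y
    rw [Rigid_f_apply, Ring.inverse_one]; rfl
  have hfc : ContDiffAt ℝ 1 (Rigid_f β) 1 := by
    refine ContDiffOn.contDiffAt ?_ hU
    refine contDiffOn_clm_apply.2 fun x => contDiffOn_clm_apply.2 fun y => ?_
    simp only [Rigid_f_apply]
    refine ContDiffOn.clm_apply (fun u hu => ?_) (ContDiff.contDiffOn ?_)
    · exact (contDiffAt_ringInverse ℝ (IsUnit.unit hu)).contDiffWithinAt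
    · exact (β.contDiff.comp (contDiff_id.clm_apply contDiff_const)).clm_apply
        (contDiff_id.clm_apply contDiff_const)
  have hQc : ContDiff ℝ 1 (Rigid_Q : Br ι → _) := by
    have a : ∀ x y : ι → ℝ, ContDiff ℝ 1 fun c : Br ι => c x y := fun x y =>
      (contDiff_id.clm_apply contDiff_const).clm_apply contDiff_const
    refine contDiff_pi.2 fun i => contDiff_pi.2 fun j => contDiff_pi.2 fun k => ?_
    exact ((contDiff_id.clm_apply contDiff_const).clm_apply (a _ _)).sub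
      (((contDiff_id.clm_apply (a _ _)).clm_apply contDiff_const).add
        ((contDiff_id.clm_apply contDiff_const).clm_apply (a _ _)))
  have hf := hfc.hasStrictFDerivAt one_ne_zero
  have hQ := (hQc.contDiffAt (x := Rigid_f β 1)).hasStrictFDerivAt one_ne_zero
  have hf' : ∀ A x y, fderiv ℝ (Rigid_f β) 1 A x y = β (A x) y + β x (A y) - A (β x y) := by
    intro A x y
    have h1 := ((Rigid_line hf.hasFDerivAt A).clm_apply (hasDerivAt_const (0 : ℝ) x)).clm_apply
      (hasDerivAt_const (0 : ℝ) y)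
    have h2 := Rigid_line (hasFDerivAt_ringInverse (𝕜 := ℝ)
      (1 : ((ι → ℝ) →L[ℝ] (ι → ℝ))ˣ)) A
    have h3 : ∀ z, HasDerivAt (fun t : ℝ => (1 + t • A) z) (A z) 0 := fun z => by
      simpa only [add_apply, one_apply_eq_self, smul_apply, hasDerivAt_const_add_iff, id_eq,
        ContinuousLinearMap.id_apply, zero_smul, add_zero] using (Rigid_line (hasFDerivAt_id (1 : (ι → ℝ) →L[ℝ] (ι → ℝ))) A).clm_apply
        (hasDerivAt_const (0 : ℝ) z)
    have h4 := h2.clm_apply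
      ((β.hasFDerivAt.comp_hasDerivAt (0 : ℝ) (h3 x)).clm_apply (h3 y))
    have h5 := h1.unique h4
    simp only [map_zero, add_zero] at h5
    rw [h5]
    simp only [inv_one, Units.val_one, neg_apply, ContinuousLinearMap.mulLeftRight_apply, one_mul,
      mul_one, add_apply, one_apply_eq_self, smul_apply, Function.comp_apply, zero_smul, add_zero,
      Ring.inverse_one]
    abel
  have hQ' : ∀ (c : Br ι) i j k, fderiv ℝ Rigid_Q β c i j k =
      c (Pi.single i 1) (β (Pi.single j 1) (Pi.single k 1)) +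
        β (Pi.single i 1) (c (Pi.single j 1) (Pi.single k 1)) -
      (c (β (Pi.single i 1) (Pi.single j 1)) (Pi.single k 1) +
        β (c (Pi.single i 1) (Pi.single j 1)) (Pi.single k 1) +
        (c (Pi.single j 1) (β (Pi.single i 1) (Pi.single k 1)) +
          β (Pi.single j 1) (c (Pi.single i 1) (Pi.single k 1)))) := by
    intro c i j k
    rw [hf1] at hQ
    have h1 := hasDerivAt_pi.1 (hasDerivAt_pi.1 (hasDerivAt_pi.1
      (Rigid_line hQ.hasFDerivAt c) i) j) k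
    have h2 := Rigid_aff β c
    have h3 : ∀ x, HasDerivAt (fun t : ℝ => (β + t • c) x) (c x) 0 := fun x => by
      simpa only [add_apply, smul_apply, hasDerivAt_const_add_iff, map_zero, smul_zero, add_zero]
        using h2.clm_apply (hasDerivAt_const (0 : ℝ) x)
    have h4 : ∀ x y, HasDerivAt (fun t : ℝ => (β + t • c) x y) (c x y) 0 := fun x y => by
      simpa only [add_apply, smul_apply, hasDerivAt_const_add_iff, zero_smul, add_zero, map_zero]
        using (h3 x).clm_apply (hasDerivAt_const (0 : ℝ) y)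
    have h5 := ((h3 (Pi.single i 1)).clm_apply (h4 (Pi.single j 1) (Pi.single k 1))).sub
      (((h2.clm_apply (h4 (Pi.single i 1) (Pi.single j 1))).clm_apply
        (hasDerivAt_const (0 : ℝ) (Pi.single k 1))).add
        ((h3 (Pi.single j 1)).clm_apply (h4 (Pi.single i 1) (Pi.single k 1))))
    have h6 := h1.unique h5
    rw [h6]
    simp only [add_apply, smul_apply, zero_smul, add_zero, map_zero]
  have hs := slice hf hQ ?_ ?_ _ hU
  · rw [hf1] at hs
    filter_upwards [hs] with β' hβ' hl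
    obtain ⟨u, hu, rfl⟩ := hβ' (by rw [Rigid_Q_zero hl, Rigid_Q_zero h])
    exact Rigid_tr β hu
  · filter_upwards [hU] with u hu
    obtain ⟨g, hg⟩ := Rigid_tr β hu
    rw [hf1, Rigid_Q_zero (hg.isLie h), Rigid_Q_zero h]
  · intro c hc
    rw [hf1] at hc
    obtain ⟨A, hA⟩ := h2_zero h hn c fun x y z => by
      rw [← sub_eq_zero]
      refine Rigid_ext (F := fun x => c x (β y z) + β x (c y z) -
        (c (β x y) z + β (c x y) z + (c y (β x z) + β y (c x z))))
        ⟨fun a b => by simp only [map_add, add_apply]; abel,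
          fun r a => by simp only [map_smul, smul_apply, smul_sub, smul_add]⟩ (fun i => ?_) x
      refine Rigid_ext (F := fun y => c (Pi.single i 1) (β y z) + β (Pi.single i 1) (c y z) -
        (c (β (Pi.single i 1) y) z + β (c (Pi.single i 1) y) z +
          (c y (β (Pi.single i 1) z) + β y (c (Pi.single i 1) z))))
        ⟨fun a b => by simp only [map_add, add_apply]; abel,
          fun r a => by simp only [map_smul, smul_apply, smul_sub, smul_add]⟩ (fun j => ?_) y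
      refine Rigid_ext (F := fun z => c (Pi.single i 1) (β (Pi.single j 1) z) +
        β (Pi.single i 1) (c (Pi.single j 1) z) -
        (c (β (Pi.single i 1) (Pi.single j 1)) z + β (c (Pi.single i 1) (Pi.single j 1)) z +
          (c (Pi.single j 1) (β (Pi.single i 1) z) + β (Pi.single j 1) (c (Pi.single i 1) z))))
        ⟨fun a b => by simp only [map_add]; abel,
          fun r a => by simp only [map_smul, smul_sub, smul_add]⟩ (fun k => ?_) z
      rw [← hQ', hc]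
      rfl
    refine ⟨A, ?_⟩
    ext1 x; ext1 y
    rw [hf', hA]

end Pool.Agent.Work.MP_dbf1ea_an.V
end

-- merged part: Pool.Agent.Work.MP_dbf1ea_an.V.MinVec
section
/-!
Existence of a bracket of minimal norm in the orbit.
-/

set_option autoImplicit false

open scoped Matrix Pointwise Topology

namespace Pool.Agent.Work.MP_dbf1ea_an.V

variable {ι : Type} [Fintype ι] [DecidableEq ι]

theorem MinVec_trans {g g' : GL ι ℝ} {β β' β'' : Br ι} (h : Tr g β β') (h' : Tr g' β' β'') :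
    Tr (g * g') β β'' := fun x y => by
  simp only [Units.val_mul, ← Matrix.mulVec_mulVec]
  rw [h', h]

theorem MinVec_symm {g : GL ι ℝ} {β β' : Br ι} (h : Tr g β β') : Tr g⁻¹ β' β := fun x y => by
  have h := h ((g⁻¹).1 *ᵥ x) ((g⁻¹).1 *ᵥ y)
  simp only [Matrix.mulVec_mulVec, Units.mul_inv, Matrix.one_mulVec] at h
  rw [← h, Matrix.mulVec_mulVec, Units.inv_mul, Matrix.one_mulVec]

omit [DecidableEq ι] in
theorem MinVec_closed_lie : IsClosed {β : Br ι | IsLie β} := by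
  simp only [IsLie, Set.ofPred_and, Set.ofPred_forall]
  refine IsClosed.inter (isClosed_iInter fun x => isClosed_iInter fun y => isClosed_eq ?_ ?_)
    (isClosed_iInter fun x => isClosed_iInter fun y => isClosed_iInter fun z => isClosed_eq ?_ ?_)
  all_goals fun_prop

theorem MinVec_closed {β : Br ι} (h : IsLie β) (hn : NonDeg β) :
    IsClosed {b : Br ι | ∃ g : GL ι ℝ, |g.1.det| = 1 ∧ Tr g β b} := by
  refine isClosed_of_closure_subset fun b hb => ?_
  have h1 : IsLie b := by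
    refine MinVec_closed_lie.closure_subset (closure_mono ?_ hb)
    rintro b ⟨g, -, hg⟩
    exact hg.isLie h
  have h2 : (gram b).det = (gram β).det := by
    refine (isClosed_eq continuous_gram.matrix_det continuous_const).closure_subset
      (closure_mono ?_ hb)
    rintro b ⟨g, hg, hg'⟩
    rw [Set.mem_ofPred_eq, hg'.gram_det, ← sq_abs, hg, one_pow, one_mul]
  have h3 := (nonDeg_iff β).1 hn
  obtain ⟨b', hb', g, -, hg⟩ := mem_closure_iff_nhds.1 hb _ (rigid h1 ((nonDeg_iff b).2 (h2 ▸ h3)))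
  obtain ⟨u, hu⟩ := hb' (hg.isLie h)
  have h4 := MinVec_trans hg (MinVec_symm hu)
  refine ⟨_, ?_, h4⟩
  have h5 := h4.gram_det
  rw [h2, eq_comm, mul_eq_right₀ h3, ← sq_abs] at h5
  exact (pow_eq_one_iff_of_nonneg (abs_nonneg _) two_ne_zero).1 h5

theorem MinVec_compact (R : ℝ) : ∃ K : Set (Br ι), IsCompact K ∧ ∀ b, nrm b ≤ R → b ∈ K := by
  let T : Br ι →ₗ[ℝ] (ι → ι → ι → ℝ) :=
    { toFun := fun b i j => b (Pi.single i 1) (Pi.single j 1)
      map_add' := fun _ _ => rfl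
      map_smul' := fun _ _ => rfl }
  have hT : LinearMap.ker T = ⊥ := by
    refine LinearMap.ker_eq_bot'.2 fun b hb => ?_
    refine ContinuousLinearMap.coe_injective (LinearMap.pi_ext' fun i => LinearMap.ext_ring ?_)
    refine ContinuousLinearMap.coe_injective (LinearMap.pi_ext' fun j => LinearMap.ext_ring ?_)
    exact congrFun (congrFun hb i) j
  have hc : Topology.IsClosedEmbedding T :=
    LinearMap.isClosedEmbedding_of_injective (𝕜 := ℝ) (E := Br ι) (F := ι → ι → ι → ℝ) (f := T) hT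
  refine ⟨T ⁻¹' Metric.closedBall 0 √R, hc.isCompact_preimage (isCompact_closedBall _ _),
    fun b hb => ?_⟩
  rw [Set.mem_preimage, mem_closedBall_zero_iff]
  refine (pi_norm_le_iff_of_nonneg (Real.sqrt_nonneg R)).2 fun i =>
    (pi_norm_le_iff_of_nonneg (Real.sqrt_nonneg R)).2 fun j =>
    (pi_norm_le_iff_of_nonneg (Real.sqrt_nonneg R)).2 fun k => Real.abs_le_sqrt (le_trans ?_ hb)
  refine le_trans ?_ (Finset.single_le_sum (f := fun i => ∑ j, ∑ k, T b i j k ^ 2)
    (fun _ _ => by positivity) (Finset.mem_univ i))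
  refine le_trans ?_ (Finset.single_le_sum (f := fun j => ∑ k, T b i j k ^ 2)
    (fun _ _ => by positivity) (Finset.mem_univ j))
  exact Finset.single_le_sum (f := fun k => T b i j k ^ 2) (fun _ _ => by positivity)
    (Finset.mem_univ k)

theorem exists_min {β : Br ι} (h : IsLie β) (hn : NonDeg β) :
    ∃ (g : GL ι ℝ) (β' : Br ι), Tr g β β' ∧ IsMin β' := by
  obtain ⟨K, hK, hK'⟩ := MinVec_compact (ι := ι) (nrm β)
  have h0 : β ∈ K ∩ {b : Br ι | ∃ g : GL ι ℝ, |g.1.det| = 1 ∧ Tr g β b} :=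
    ⟨hK' β le_rfl, 1, by simp, fun x y => by simp⟩
  have hc : Continuous (nrm : Br ι → ℝ) := by
    unfold nrm
    fun_prop
  obtain ⟨b, ⟨-, g, hg, hb⟩, hmin⟩ :=
    (hK.inter_right (MinVec_closed h hn)).exists_isMinOn ⟨β, h0⟩ hc.continuousOn
  refine ⟨g, b, hb, fun g' b' hg' hb' => ?_⟩
  rcases le_total (nrm b') (nrm β) with h1 | h1
  · refine hmin ⟨hK' b' h1, g * g', ?_, MinVec_trans hb hb'⟩
    rw [Units.val_mul, Matrix.det_mul, abs_mul, hg, hg', one_mul]
  · exact (hmin h0).trans h1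

end Pool.Agent.Work.MP_dbf1ea_an.V
end

-- merged part: Pool.Agent.Work.MP_dbf1ea_an.V.PolarMin
section
/-!
The automorphism group of a minimal bracket is self-adjoint.
-/

set_option autoImplicit false

open scoped Matrix Pointwise Topology

namespace Pool.Agent.Work.MP_dbf1ea_an.V

variable {ι : Type} [Fintype ι] [DecidableEq ι]

theorem exists_pw (a : GL ι ℝ) :
    ∃ (U : Matrix ι ι ℝ) (l : ι → ℝ), U * Uᵀ = 1 ∧ a.1ᵀ * a.1 = pw U l 2 := by
  have hinj : Function.Injective a.1.mulVec := Matrix.mulVec_injective_iff_isUnit.2 a.isUnit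
  have hpd : (a.1ᴴ * a.1).PosDef := Matrix.PosDef.conjTranspose_mul_self a.1 hinj
  have hU : (hpd.1.eigenvectorUnitary : Matrix ι ι ℝ) *
      star (hpd.1.eigenvectorUnitary : Matrix ι ι ℝ) = 1 :=
    (Matrix.mem_unitaryGroup_iff.1 hpd.1.eigenvectorUnitary.2)
  refine ⟨hpd.1.eigenvectorUnitary, fun i => Real.log (hpd.1.eigenvalues i) / 2, hU, ?_⟩
  have h1 := hpd.1.spectral_theorem
  rw [Unitary.conjStarAlgAut_apply] at h1
  have h2 : dg (fun i => Real.log (hpd.1.eigenvalues i) / 2) 2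
      = Matrix.diagonal (RCLike.ofReal ∘ hpd.1.eigenvalues) := by
    unfold dg
    congr 1
    funext i
    rw [mul_div_cancel₀ _ two_ne_zero, Real.exp_log (hpd.eigenvalues_pos i)]
    rfl
  rw [pw, h2]
  exact h1

lemma polarMin_orth {k : Matrix ι ι ℝ} (hk : k * kᵀ = 1) (τ : ι → ℝ) :
    ∑ i, (kᵀ *ᵥ τ) i ^ 2 = ∑ i, τ i ^ 2 := by
  have h1 : (kᵀ *ᵥ τ) ⬝ᵥ (kᵀ *ᵥ τ) = τ ⬝ᵥ τ := by
    rw [Matrix.dotProduct_mulVec, Matrix.vecMul_transpose, Matrix.mulVec_mulVec, hk,
      Matrix.one_mulVec]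
  simpa only [dotProduct, sq] using h1

lemma polarMin_lin {k : Matrix ι ι ℝ} (hk : k * kᵀ = 1) (T : (ι → ℝ) →L[ℝ] ℝ) :
    ∑ i, T (k *ᵥ Pi.single i 1) ^ 2 = ∑ i, T (Pi.single i 1) ^ 2 := by
  rw [← polarMin_orth hk fun m => T (Pi.single m 1)]
  refine Finset.sum_congr rfl fun i _ => ?_
  have h1 : k *ᵥ Pi.single i 1 = ∑ m, k m i • (Pi.single m 1 : ι → ℝ) := by
    funext r
    simp [Finset.sum_apply, Pi.single_apply]
  rw [h1, map_sum]
  simp [Matrix.mulVec, dotProduct]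

lemma polarMin_nrm {k : GL ι ℝ} (hk : k.1 * k.1ᵀ = 1) {β β' : Br ι} (h : Tr k β β') :
    nrm β' = nrm β := by
  have hk' : k.1ᵀ * k.1 = 1 := mul_eq_one_comm.1 hk
  have h1 : ∀ x y, β' x y = k.1ᵀ *ᵥ β (k.1 *ᵥ x) (k.1 *ᵥ y) := by
    intro x y
    rw [← h x y, Matrix.mulVec_mulVec, hk', Matrix.one_mulVec]
  have h2 : ∀ x : ι → ℝ, ∑ j, ∑ l, β x (k.1 *ᵥ Pi.single j 1) l ^ 2
      = ∑ j, ∑ l, β x (Pi.single j 1) l ^ 2 := by
    intro x
    rw [Finset.sum_comm, Finset.sum_comm (f := fun j l => β x (Pi.single j 1) l ^ 2)]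
    exact Finset.sum_congr rfl fun l _ =>
      polarMin_lin hk ((ContinuousLinearMap.proj l).comp (β x))
  have h3 : ∀ y : ι → ℝ, ∑ i, ∑ l, β (k.1 *ᵥ Pi.single i 1) y l ^ 2
      = ∑ i, ∑ l, β (Pi.single i 1) y l ^ 2 := by
    intro y
    rw [Finset.sum_comm, Finset.sum_comm (f := fun i l => β (Pi.single i 1) y l ^ 2)]
    exact Finset.sum_congr rfl fun l _ =>
      polarMin_lin hk ((ContinuousLinearMap.proj l).comp (β.flip y))
  unfold nrm
  simp only [h1, polarMin_orth hk, h2]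
  rw [Finset.sum_comm, Finset.sum_comm (f := fun i j =>
    ∑ l, β (Pi.single i 1) (Pi.single j 1) l ^ 2)]
  exact Finset.sum_congr rfl fun j _ => h3 _

lemma polarMin_comp {g g' : GL ι ℝ} {β β' β'' : Br ι} (h : Tr g β β') (h' : Tr g' β' β'') :
    Tr (g * g') β β'' := by
  intro x y
  simp only [Units.val_mul, ← Matrix.mulVec_mulVec]
  rw [h', h]

lemma polarMin_inv {g : GL ι ℝ} {β β' : Br ι} (h : Tr g β β') : Tr g⁻¹ β' β := by
  intro x y
  have h1 := h ((g⁻¹).1 *ᵥ x) ((g⁻¹).1 *ᵥ y)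
  simp only [Matrix.mulVec_mulVec, Units.mul_inv, Matrix.one_mulVec] at h1
  rw [← h1, Matrix.mulVec_mulVec, Units.inv_mul, Matrix.one_mulVec]

lemma polarMin_ext {β β' : Br ι}
    (h : ∀ i j, β (Pi.single i 1) (Pi.single j 1) = β' (Pi.single i 1) (Pi.single j 1)) :
    β = β' := by
  refine ContinuousLinearMap.coe_injective ((Pi.basisFun ℝ ι).ext fun i => ?_)
  refine ContinuousLinearMap.coe_injective ((Pi.basisFun ℝ ι).ext fun j => ?_)
  simpa using h i j

lemma polarMin_dg_mul (l : ι → ℝ) (s t : ℝ) : dg l s * dg l t = dg l (s + t) := by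
  unfold dg
  rw [Matrix.diagonal_mul_diagonal]
  congr 1
  funext i
  rw [← Real.exp_add, add_mul]

omit [Fintype ι] in
lemma polarMin_dg_zero (l : ι → ℝ) : dg l 0 = 1 := by
  simp [dg]

/-- The diagonal group as units. -/
noncomputable def polarMinD (l : ι → ℝ) (t : ℝ) : GL ι ℝ :=
  ⟨dg l t, dg l (-t), by rw [polarMin_dg_mul, add_neg_cancel, polarMin_dg_zero],
    by rw [polarMin_dg_mul, neg_add_cancel, polarMin_dg_zero]⟩

lemma polarMin_coef {l : ι → ℝ} {t : ℝ} {b0 b : Br ι} (h : Tr (polarMinD l t) b0 b) (i j k : ι) :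
    b (Pi.single i 1) (Pi.single j 1) k
      = b0 (Pi.single i 1) (Pi.single j 1) k * Real.exp (t * (l i + l j - l k)) := by
  have h1 : ∀ i, dg l t *ᵥ Pi.single i 1 = Real.exp (t * l i) • (Pi.single i 1 : ι → ℝ) := by
    intro i
    funext r
    rw [dg, Matrix.mulVec_diagonal]
    by_cases hr : r = i
    · subst hr
      simp
    · simp [hr]
  have h2 := congrFun (h (Pi.single i 1) (Pi.single j 1)) k
  change (dg l t *ᵥ _) k = b0 (dg l t *ᵥ _) (dg l t *ᵥ _) k at h2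
  rw [h1, h1, dg, Matrix.mulVec_diagonal] at h2
  simp only [map_smul, smul_apply, Pi.smul_apply, smul_eq_mul] at h2
  have h3 : Real.exp (t * (l i + l j - l k))
      = Real.exp (t * l i) * Real.exp (t * l j) / Real.exp (t * l k) := by
    rw [← Real.exp_add, ← Real.exp_sub]
    congr 1
    ring
  have h4 := Real.exp_ne_zero (t * l k)
  rw [h3]
  field_simp
  linarith

theorem polar_of_min {β : Br ι} (hn : NonDeg β) (hm : IsMin β) : Polar (aut β) := by
  intro a ha
  obtain ⟨U, l, hU, hal⟩ := exists_pw a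
  have hU' : Uᵀ * U = 1 := mul_eq_one_comm.1 hU
  refine ⟨U, l, hU, hal, ?_⟩
  let Uu : GL ι ℝ := ⟨U, Uᵀ, hU, hU'⟩
  have hdU : U.det * U.det = 1 := by
    have := congrArg Matrix.det hU
    rwa [Matrix.det_mul, Matrix.det_transpose, Matrix.det_one] at this
  have hdU' : |U.det| = 1 := by
    rcases mul_self_eq_one_iff.1 hdU with h | h <;> simp [h]
  have hdD : ∀ t, (dg l t).det = Real.exp (t * ∑ i, l i) := by
    intro t
    rw [dg, Matrix.det_diagonal, ← Real.exp_sum, Finset.mul_sum]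
  have hsum : ∑ i, l i = 0 := by
    have h1 := congrArg Matrix.det hal
    rw [pw, Matrix.det_mul, Matrix.det_mul, Matrix.det_mul, Matrix.det_transpose,
      Matrix.det_transpose, hdD, mul_right_comm, hdU, one_mul, ← abs_mul_abs_self,
      aut_det hn ha, one_mul] at h1
    have := (Real.exp_eq_one_iff _).1 h1.symm
    linarith
  obtain ⟨b0, hb0⟩ := exists_tr Uu β
  choose b hb using fun t => exists_tr (polarMinD l t) b0
  have hn0 : nrm b0 = nrm β := polarMin_nrm hU hb0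
  have hge : ∀ t, nrm β ≤ nrm (b t) := by
    intro t
    refine hm (Uu * polarMinD l t) (b t) ?_ (polarMin_comp hb0 (hb t))
    change |(U * dg l t).det| = 1
    rw [Matrix.det_mul, hdD, hsum, mul_zero, Real.exp_zero, mul_one, hdU']
  have hn1 : nrm (b (-1)) = nrm β := by
    refine polarMin_nrm (k := a * (Uu * polarMinD l (-1))) ?_
      (polarMin_comp (g := a) ha (polarMin_comp hb0 (hb (-1))))
    refine mul_eq_one_comm.1 ?_
    change (a.1 * (U * dg l (-1)))ᵀ * (a.1 * (U * dg l (-1))) = 1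
    have hT : (dg l (-1))ᵀ = dg l (-1) := by simp [dg]
    calc (a.1 * (U * dg l (-1)))ᵀ * (a.1 * (U * dg l (-1)))
        = dg l (-1) * Uᵀ * (a.1ᵀ * a.1) * U * dg l (-1) := by
          simp only [Matrix.transpose_mul, hT, Matrix.mul_assoc]
      _ = dg l (-1) * (Uᵀ * U) * dg l 2 * (Uᵀ * U) * dg l (-1) := by
          simp only [hal, pw, Matrix.mul_assoc]
      _ = 1 := by
          rw [hU', Matrix.mul_one, Matrix.mul_one, polarMin_dg_mul, polarMin_dg_mul]
          norm_num [polarMin_dg_zero]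
  have hkey : ∑ i, ∑ j, ∑ k, (b0 (Pi.single i 1) (Pi.single j 1) k *
      (1 - Real.exp (-(1 / 2) * (l i + l j - l k)) ^ 2)) ^ 2
      = nrm b0 + nrm (b (-1)) - 2 * nrm (b (-(1 / 2))) := by
    simp only [nrm, polarMin_coef (hb _), Finset.mul_sum, ← Finset.sum_add_distrib,
      ← Finset.sum_sub_distrib]
    refine Finset.sum_congr rfl fun i _ => Finset.sum_congr rfl fun j _ =>
      Finset.sum_congr rfl fun k _ => ?_
    have : Real.exp (-1 * (l i + l j - l k)) = Real.exp (-(1 / 2) * (l i + l j - l k)) ^ 2 := by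
      rw [sq, ← Real.exp_add]
      congr 1
      ring
    rw [this]
    ring
  have hz : ∑ i, ∑ j, ∑ k, (b0 (Pi.single i 1) (Pi.single j 1) k *
      (1 - Real.exp (-(1 / 2) * (l i + l j - l k)) ^ 2)) ^ 2 = 0 := by
    refine le_antisymm ?_ (Finset.sum_nonneg fun i _ => Finset.sum_nonneg fun j _ =>
      Finset.sum_nonneg fun k _ => sq_nonneg _)
    rw [hkey, hn0, hn1]
    linarith [hge (-(1 / 2))]
  have hbt : ∀ t, b t = b0 := by
    intro t
    refine polarMin_ext fun i j => funext fun k => ?_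
    rw [polarMin_coef (hb t)]
    have h1 := (Finset.sum_eq_zero_iff_of_nonneg fun i _ => Finset.sum_nonneg fun j _ =>
      Finset.sum_nonneg fun k _ => sq_nonneg _).1 hz i
      (Finset.mem_univ _)
    have h2 := (Finset.sum_eq_zero_iff_of_nonneg fun j _ =>
      Finset.sum_nonneg fun k _ => sq_nonneg _).1 h1 j
      (Finset.mem_univ _)
    have h3 := (Finset.sum_eq_zero_iff_of_nonneg fun k _ => sq_nonneg _).1 h2 k
      (Finset.mem_univ _)
    rcases mul_eq_zero.1 (pow_eq_zero_iff two_ne_zero |>.1 h3) with h4 | h4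
    · rw [h4, zero_mul]
    · rw [sq, ← Real.exp_add, sub_eq_zero] at h4
      have h5 := (Real.exp_eq_one_iff _).1 h4.symm
      have h6 : l i + l j - l k = 0 := by linarith only [h5]
      rw [h6, mul_zero, Real.exp_zero, mul_one]
  intro t
  refine ⟨Uu * polarMinD l t * Uu⁻¹, ?_, rfl⟩
  have h1 := polarMin_comp hb0 (hb t)
  rw [hbt] at h1
  exact polarMin_comp h1 (polarMin_inv hb0)

end Pool.Agent.Work.MP_dbf1ea_an.V
end

-- merged part: Pool.Agent.Work.MP_dbf1ea_an.V.ExLin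
section
/-!
Every semisimple Lie group is locally isomorphic to a self-adjoint linear group.
-/

set_option autoImplicit false

open scoped Matrix Pointwise Topology

namespace Pool.Agent.Work.MP_dbf1ea_an.V

open scoped Manifold

theorem ExLin_transport {G : Type} [TopologicalSpace G] [Group G] {ι : Type} [Fintype ι]
    [DecidableEq ι] {β : Br ι} (π : G →* GL ι ℝ) (hl : IsLie β) (hn : NonDeg β)
    (hc : Continuous π) (hm : ∀ g, π g ∈ aut β)
    (ho : ∀ U ∈ 𝓝 (1 : G), π '' U ∈ 𝓝[(aut β : Set (GL ι ℝ))] 1)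
    (hd : ∃ U ∈ 𝓝 (1 : G), ∀ g ∈ U, π g = 1 → g = 1) : Nonempty (Lin G ι) := by
  obtain ⟨g, β', ht, hmin⟩ := exists_min hl hn
  have hn' : NonDeg β' := by
    rw [nonDeg_iff] at hn ⊢
    rw [ht.gram_det]
    exact mul_ne_zero (pow_ne_zero _ (Matrix.GeneralLinearGroup.det_ne_zero g)) hn
  have hinj : Function.Injective fun v : ι → ℝ => g.1 *ᵥ v := by
    intro v w h
    have := congrArg (fun u => (g⁻¹).1 *ᵥ u) h
    simpa only [Matrix.mulVec_mulVec, Units.inv_mul, Matrix.one_mulVec] using this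
  have hg (b : GL ι ℝ) (v : ι → ℝ) : (g * b * g⁻¹).1 *ᵥ (g.1 *ᵥ v) = g.1 *ᵥ (b.1 *ᵥ v) := by
    rw [Matrix.mulVec_mulVec, Matrix.mulVec_mulVec, ← Units.val_mul, ← Units.val_mul,
      inv_mul_cancel_right]
  have key (b : GL ι ℝ) : g * b * g⁻¹ ∈ aut β ↔ b ∈ aut β' := by
    constructor
    · intro h x y
      apply hinj
      change g.1 *ᵥ (b.1 *ᵥ β' x y) = g.1 *ᵥ β' (b.1 *ᵥ x) (b.1 *ᵥ y)
      rw [ht, ← hg, ← hg, ← hg, ht, h]
    · intro h x y
      have e (v : ι → ℝ) : v = g.1 *ᵥ ((g⁻¹).1 *ᵥ v) := by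
        rw [Matrix.mulVec_mulVec, Units.mul_inv, Matrix.one_mulVec]
      rw [e x, e y, ← ht, hg, hg, hg, h, ht]
  let π' : G →* GL ι ℝ := (MulAut.conj g⁻¹).toMonoidHom.comp π
  have hπ (x : G) : π' x = g⁻¹ * π x * g := by simp [π']
  have hπ' (x : G) : g * π' x * g⁻¹ = π x := by
    rw [hπ]
    group
  refine ⟨
    { π := π'
      H := aut β'
      cont := ?_
      mem := fun x => (key _).1 (hπ' x ▸ hm x)
      closed := aut_closed β'
      unim := fun a ha => aut_det hn' ha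
      polar := polar_of_min hn' hmin
      opn := fun U hU => ?_
      disc := ?_ }⟩
  · have : (π' : G → GL ι ℝ) = fun x => g⁻¹ * π x * g := funext hπ
    rw [this]
    exact (continuous_const.mul hc).mul continuous_const
  · have hcont : Continuous fun b : GL ι ℝ => g * b * g⁻¹ :=
      (continuous_const.mul continuous_id).mul continuous_const
    have h1 : Filter.Tendsto (fun b : GL ι ℝ => g * b * g⁻¹) (𝓝[(aut β' : Set (GL ι ℝ))] 1)
        (𝓝[(aut β : Set (GL ι ℝ))] 1) := by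
      have := hcont.continuousWithinAt.tendsto_nhdsWithin (x := 1)
        (s := (aut β' : Set (GL ι ℝ))) (t := (aut β : Set (GL ι ℝ))) fun b hb => (key b).2 hb
      simpa using this
    refine Filter.mem_of_superset (h1 (ho U hU)) ?_
    rintro b ⟨x, hx, hb⟩
    refine ⟨x, hx, ?_⟩
    rw [hπ, hb]
    group
  · obtain ⟨U, hU, h⟩ := hd
    refine ⟨U, hU, fun x hx h1 => h x hx ?_⟩
    rw [← hπ', h1]
    group

theorem exists_lin (E : Type) [NormedAddCommGroup E] [NormedSpace ℝ E] [FiniteDimensional ℝ E]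
    [CompleteSpace E] (G : Type) [TopologicalSpace G] [ChartedSpace E G] [Group G]
    [LieGroup 𝓘(ℝ, E) (minSmoothness ℝ 3) G]
    (h : LieAlgebra.IsSemisimple ℝ (GroupLieAlgebra 𝓘(ℝ, E) G)) :
    ∃ n : ℕ, Nonempty (Lin G (Fin n)) := by
  have : IsTopologicalGroup G := topologicalGroup_of_lieGroup 𝓘(ℝ, E) (minSmoothness ℝ 3)
  have : IsManifold 𝓘(ℝ, E) 1 G := IsManifold.of_le (n := minSmoothness ℝ 3)
    (le_trans (by norm_num) le_minSmoothness)
  have : Module.Finite ℝ (GroupLieAlgebra 𝓘(ℝ, E) G) := inferInstanceAs (Module.Finite ℝ E)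
  let D : E →L[ℝ] E →L[ℝ] E :=
    fderiv ℝ (fun x => Ad E ((chartAt E (1 : G)).symm x)) (chartAt E (1 : G) 1)
  have hD (v w : E) : D v w = lb E G v w := Ad_deriv E G v w
  have hl : IsLie D := by
    refine ⟨fun x y => ?_, fun x y z => ?_⟩
    · rw [hD, hD]
      exact (lie_skew (L := GroupLieAlgebra 𝓘(ℝ, E) G) x y).symm
    · simp only [hD]
      exact LieRing.leibniz_lie (L := GroupLieAlgebra 𝓘(ℝ, E) G) x y z
  have hk : LieAlgebra.IsKilling ℝ (GroupLieAlgebra 𝓘(ℝ, E) G) := inferInstance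
  have hkill (x y : E) : kill D x y = killingForm ℝ (GroupLieAlgebra 𝓘(ℝ, E) G) x y := by
    have e (z : E) : (D z : E →ₗ[ℝ] E) = LieAlgebra.ad ℝ (GroupLieAlgebra 𝓘(ℝ, E) G) z :=
      LinearMap.ext fun w => hD z w
    rw [kill, e, e]
    exact (killingForm_apply_apply ℝ (GroupLieAlgebra 𝓘(ℝ, E) G) x y).symm
  have hn : NonDeg D := by
    intro x hx
    have : (x : GroupLieAlgebra 𝓘(ℝ, E) G) ∈
        LinearMap.ker (killingForm ℝ (GroupLieAlgebra 𝓘(ℝ, E) G)) :=
      LinearMap.ext fun y => (hkill x y).symm.trans (hx y)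
    rw [LieAlgebra.IsKilling.ker_killingForm_eq_bot] at this
    exact this
  let A : G →* (E →L[ℝ] E) :=
    { toFun := Ad E
      map_one' := Ad_one E
      map_mul' := Ad_mul E }
  have hA : Continuous A := (contMDiff_Ad E (G := G)).continuous
  have h1 : (1 : G) ∈ (chartAt E (1 : G)).source := mem_chart_source E 1
  have hs : ContMDiffAt 𝓘(ℝ, E) 𝓘(ℝ, E) 1 (chartAt E (1 : G)).symm (chartAt E (1 : G) 1) :=
    contMDiffOn_chart_symm.contMDiffAt
      ((chartAt E (1 : G)).open_target.mem_nhds ((chartAt E (1 : G)).map_source h1))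
  have hc : ContDiffAt ℝ 1 (fun x => Ad E ((chartAt E (1 : G)).symm x)) (chartAt E (1 : G) 1) :=
    contMDiffAt_iff_contDiffAt.1 ((contMDiff_Ad E (G := G)).contMDiffAt.comp _ hs)
  obtain ⟨n, β, π, hl', hn', hc', hm, ho, hd⟩ := pre_lin (chartAt E (1 : G)) h1 D hl hn A hA
    (fun g v w => by rw [hD, hD]; exact Ad_lb E g v w) (hc.hasStrictFDerivAt one_ne_zero)
  exact ⟨n, ExLin_transport π hl' hn' hc' hm ho hd⟩

end Pool.Agent.Work.MP_dbf1ea_an.V
end
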