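import Pool.Agent.Lib.PFR.Constr
import Mathlib

-- merged part: Pool.Agent.Work.MP_dbf1ea_an.Ent
section
/-!
Entropy defect of random triangles in a group: basic moves.
-/

set_option autoImplicit false

open Finset Real

namespace Pool.Agent.Work.MP_dbf1ea_an

open Pool.Agent.Lib.PFR Pool.Agent.Lib.PFR.FP

universe u

variable {Γ : Type u} [Group Γ]

/-- Every random triangle `(1, a, b)` of the class `C` has entropy defect at most `d`. -/
def DB (C : Γ → Γ → Prop) (d : ℝ) : Prop :=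
  ∀ (Ω : Type u) [Fintype Ω] (P : FP Ω) (a b : Ω → Γ), (∀ ω, P.p ω ≠ 0 → C (a ω) (b ω)) →
    2 * P.ent (fun ω => (a ω, b ω)) ≤ P.ent a + P.ent b + P.ent (fun ω => (a ω)⁻¹ * b ω) + d

theorem DB.mono {C C' : Γ → Γ → Prop} {d d' : ℝ} (h : DB C d) (hC : ∀ a b, C' a b → C a b)
    (hd : d ≤ d') : DB C' d' := fun Ω _ P a b hab => by
  have := h Ω P a b fun ω h0 => hC _ _ (hab ω h0)
  linarith only [hd, this]

theorem DB.of_forall_lt {C : Γ → Γ → Prop} {d : ℝ} (h : ∀ ε > 0, DB C (d + ε)) : DB C d :=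
  fun Ω _ P a b hab => le_of_forall_pos_le_add fun ε hε => by
    have := h ε hε Ω P a b hab
    linarith only [this]

theorem DB.swap {C : Γ → Γ → Prop} {d : ℝ} (h : DB C d) : DB (fun a b => C b a) d :=
  fun Ω _ P a b hab => by
    have h1 := h Ω P b a hab
    have e1 : P.ent (fun ω => (b ω, a ω)) = P.ent (fun ω => (a ω, b ω)) :=
      P.ent_congr fun ω ω' => by simp only [Prod.mk.injEq]; tauto
    have e2 : P.ent (fun ω => (b ω)⁻¹ * a ω) = P.ent (fun ω => (a ω)⁻¹ * b ω) :=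
      P.ent_congr fun ω ω' => by
        rw [← inv_inj]; simp only [mul_inv_rev, inv_inv]
    linarith only [h1, e1, e2]

theorem DB.rot {C : Γ → Γ → Prop} {d : ℝ} (h : DB C d) :
    DB (fun a b => C a⁻¹ (a⁻¹ * b)) d :=
  fun Ω _ P a b hab => by
    have h1 := h Ω P (fun ω => (a ω)⁻¹) (fun ω => (a ω)⁻¹ * b ω) hab
    have e1 : P.ent (fun ω => ((a ω)⁻¹, (a ω)⁻¹ * b ω)) = P.ent (fun ω => (a ω, b ω)) :=
      P.ent_congr fun ω ω' => by
        simp only [Prod.mk.injEq, inv_inj]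
        constructor
        · rintro ⟨h1, h2⟩
          rw [h1] at h2
          exact ⟨h1, mul_left_cancel h2⟩
        · rintro ⟨h1, h2⟩
          rw [h1, h2]; exact ⟨rfl, rfl⟩
    have e2 : P.ent (fun ω => (a ω)⁻¹) = P.ent a := P.ent_congr fun ω ω' => inv_inj
    have e3 : P.ent (fun ω => ((a ω)⁻¹)⁻¹ * ((a ω)⁻¹ * b ω)) = P.ent b :=
      P.ent_congr fun ω ω' => by simp
    linarith only [h1, e1, e2, e3]

section cond

variable {Ω S T : Type*} [Fintype Ω] (P : FP Ω)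

theorem ex_fib_le (W : Ω → S) (g : Ω → T) :
    P.ex (fun ω => (P.fib W ω).ent g) ≤ P.ent g := by
  rw [ex_ent_fib]
  have := P.subadd g W (fun ω => (g ω, W ω)) fun _ _ h1 h2 => by rw [h1, h2]
  linarith

theorem le_ex_fib (W : Ω → S) (g : Ω → T) :
    P.ent g ≤ P.ent W + P.ex (fun ω => (P.fib W ω).ent g) := by
  rw [ex_ent_fib]
  have : P.ent g ≤ P.ent fun ω => (g ω, W ω) := P.ent_mono fun _ _ h => (Prod.ext_iff.mp h).1
  linarith

/-- A group-valued variable determined up to a finite set. -/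
theorem ent_close {V : Type*} (U : Ω → S) (w : Ω → Γ) (f : Ω → V) (B : Finset Γ)
    (hw : ∀ ω ω', P.p ω ≠ 0 → P.p ω' ≠ 0 → U ω = U ω' → (w ω)⁻¹ * w ω' ∈ B)
    (hf : ∀ ω ω', P.p ω ≠ 0 → P.p ω' ≠ 0 → U ω = U ω' → w ω = w ω' → f ω = f ω') :
    P.ent f ≤ P.ent U + log B.card := by
  classical
  have h1 : P.ent f ≤ P.ent fun ω => (U ω, w ω) :=
    P.ent_mono' fun ω ω' h0 h0' h => hf ω ω' h0 h0' (Prod.ext_iff.mp h).1 (Prod.ext_iff.mp h).2
  refine h1.trans ?_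
  let A : S → Finset (S × Γ) := fun s =>
    if h : ∃ ω, P.p ω ≠ 0 ∧ U ω = s then B.image fun β => (s, w h.choose * β) else ∅
  refine P.ent_le_add_log _ U _ A (fun ω h0 => ?_) fun ω h0 => ?_
  · have h : ∃ ω', P.p ω' ≠ 0 ∧ U ω' = U ω := ⟨ω, h0, rfl⟩
    simp only [A, dif_pos h]
    exact mem_image.mpr ⟨_, hw _ ω h.choose_spec.1 h0 h.choose_spec.2, by simp⟩
  · have h : ∃ ω', P.p ω' ≠ 0 ∧ U ω' = U ω := ⟨ω, h0, rfl⟩
    simp only [A, dif_pos h]
    exact_mod_cast card_image_le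

end cond

theorem DB.union {T : Type*} (Θ : Finset T) {C : T → Γ → Γ → Prop} {d : ℝ}
    (h : ∀ θ ∈ Θ, DB (C θ) d) : DB (fun a b => ∃ θ ∈ Θ, C θ a b) (d + 2 * log Θ.card) := by
  intro Ω _ P a b hab
  classical
  obtain ⟨ω0, h0⟩ := P.exists_supp
  obtain ⟨θ0, -, -⟩ := hab ω0 h0
  have hch : ∀ ω, ∃ θ, P.p ω ≠ 0 → θ ∈ Θ ∧ C θ (a ω) (b ω) := fun ω => by
    by_cases h1 : P.p ω = 0
    · exact ⟨θ0, fun h2 => absurd h1 h2⟩
    · obtain ⟨θ, h2, h3⟩ := hab ω h1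
      exact ⟨θ, fun _ => ⟨h2, h3⟩⟩
  choose W hW using hch
  have h1 := le_ex_fib P W fun ω => (a ω, b ω)
  have h2 := P.ent_le_log W Θ fun ω h0 => (hW ω h0).1
  have h3 : P.ex (fun ω => 2 * (P.fib W ω).ent fun ω => (a ω, b ω)) ≤
      P.ex fun ω => (P.fib W ω).ent a + (P.fib W ω).ent b +
        (P.fib W ω).ent (fun ω => (a ω)⁻¹ * b ω) + d := by
    refine P.ex_mono fun ω h0 => h (W ω) (hW ω h0).1 Ω _ a b fun ω' h1 => ?_
    obtain ⟨h2, h3⟩ := fib_supp h0 h1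
    exact h3 ▸ (hW ω' h2).2
  rw [ex_const_mul, ex_add, ex_add, ex_add, ex_const] at h3
  have h4 := ex_fib_le P W a
  have h5 := ex_fib_le P W b
  have h6 := ex_fib_le P W fun ω => (a ω)⁻¹ * b ω
  linarith only [h1, h2, h3, h4, h5, h6]

theorem DB.or {C C' : Γ → Γ → Prop} {d : ℝ} (h : DB C d) (h' : DB C' d) :
    DB (fun a b => C a b ∨ C' a b) (d + 2 * log 2) := by
  have := DB.union (univ : Finset Bool) (C := fun θ => if θ then C else C') (d := d)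
    fun θ _ => by cases θ <;> simpa
  refine this.mono (fun a b hab => ?_) (by simp)
  rcases hab with h1 | h1
  · exact ⟨true, mem_univ _, by simpa⟩
  · exact ⟨false, mem_univ _, by simpa⟩

/-- Attaching arbitrary data to the three vertices. -/
theorem DB.legs {C : Γ → Γ → Prop} {d : ℝ} (h : DB C d) {Ω : Type u} [Fintype Ω] (P : FP Ω)
    (a b : Ω → Γ) (hab : ∀ ω, P.p ω ≠ 0 → C (a ω) (b ω)) {S1 S2 S3 : Type*}
    (X : Ω → S1) (Y : Ω → S2) (Z : Ω → S3) :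
    2 * P.ent (fun ω => (a ω, b ω, X ω, Y ω, Z ω)) ≤
      P.ent (fun ω => (a ω, X ω, Y ω)) + P.ent (fun ω => (b ω, X ω, Z ω)) +
        P.ent (fun ω => ((a ω)⁻¹ * b ω, Y ω, Z ω)) + d := by
  set W : Ω → S1 × S2 × S3 := fun ω => (X ω, Y ω, Z ω) with hW
  have h3 : P.ex (fun ω => 2 * (P.fib W ω).ent fun ω => (a ω, b ω)) ≤
      P.ex fun ω => (P.fib W ω).ent a + (P.fib W ω).ent b +
        (P.fib W ω).ent (fun ω => (a ω)⁻¹ * b ω) + d :=
    P.ex_mono fun ω h0 => h Ω _ a b fun ω' h1 => hab ω' (fib_supp h0 h1).1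
  rw [ex_const_mul, ex_add, ex_add, ex_add, ex_const, ex_ent_fib, ex_ent_fib, ex_ent_fib,
    ex_ent_fib] at h3
  have e1 : P.ent (fun ω => (a ω, b ω, X ω, Y ω, Z ω)) = P.ent fun ω => ((a ω, b ω), W ω) :=
    P.ent_congr fun ω ω' => by simp only [hW, Prod.mk.injEq]; tauto
  have s1 := P.submod (fun ω => (a ω, X ω, Y ω)) W (fun ω => (X ω, Y ω)) (fun ω => (a ω, W ω))
    (fun _ _ h => by simp only [Prod.mk.injEq] at h ⊢; tauto)
    (fun _ _ h => by simp only [hW, Prod.mk.injEq] at h ⊢; tauto)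
    (fun _ _ h h' => by simp only [hW, Prod.mk.injEq] at h h' ⊢; tauto)
  have s2 := P.submod (fun ω => (b ω, X ω, Z ω)) W (fun ω => (X ω, Z ω)) (fun ω => (b ω, W ω))
    (fun _ _ h => by simp only [Prod.mk.injEq] at h ⊢; tauto)
    (fun _ _ h => by simp only [hW, Prod.mk.injEq] at h ⊢; tauto)
    (fun _ _ h h' => by simp only [hW, Prod.mk.injEq] at h h' ⊢; tauto)
  have s3 := P.submod (fun ω => ((a ω)⁻¹ * b ω, Y ω, Z ω)) W (fun ω => (Y ω, Z ω))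
    (fun ω => ((a ω)⁻¹ * b ω, W ω))
    (fun _ _ h => by simp only [Prod.mk.injEq] at h ⊢; tauto)
    (fun _ _ h => by simp only [hW, Prod.mk.injEq] at h ⊢; tauto)
    (fun _ _ h h' => by simp only [hW, Prod.mk.injEq] at h h' ⊢; tauto)
  have s4 := P.submod (fun ω => (X ω, Y ω)) (fun ω => (X ω, Z ω)) X W
    (fun _ _ h => (Prod.ext_iff.mp h).1) (fun _ _ h => (Prod.ext_iff.mp h).1)
    (fun _ _ h h' => by simp only [hW, Prod.mk.injEq] at h h' ⊢; tauto)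
  have s5 := P.subadd X (fun ω => (Y ω, Z ω)) W
    (fun _ _ h h' => by simp only [hW, Prod.mk.injEq] at h h' ⊢; tauto)
  linarith only [h3, e1, s1, s2, s3, s4, s5]

/-- The degenerate triangle. -/
theorem DB_one : DB (fun a b : Γ => a = 1 ∧ b = 1) 0 := fun Ω _ P a b hab => by
  rw [P.ent_const (f := fun ω => (a ω, b ω)) fun ω ω' h h' => by
    rw [(hab ω h).1, (hab ω h).2, (hab ω' h').1, (hab ω' h').2]]
  have := P.ent_nonneg a
  have := P.ent_nonneg b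
  have := P.ent_nonneg fun ω => (a ω)⁻¹ * b ω
  linarith

theorem DB_trivial (A : Finset Γ) : DB (fun a b : Γ => a ∈ A ∧ b ∈ A) (4 * log A.card) :=
  fun Ω _ P a b hab => by
    have h1 := P.subadd a b (fun ω => (a ω, b ω)) fun _ _ h h' => by rw [h, h']
    have h2 := P.ent_le_log a A fun ω h => (hab ω h).1
    have h3 := P.ent_le_log b A fun ω h => (hab ω h).2
    have := P.ent_nonneg a
    have := P.ent_nonneg b
    have := P.ent_nonneg fun ω => (a ω)⁻¹ * b ω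
    linarith

/-- A relation whose second argument is determined by the first up to the finite set `B`. -/
def Small (B : Finset Γ) (S : Γ → Γ → Prop) : Prop := ∀ u w w', S u w → S u w' → w⁻¹ * w' ∈ B

/-- Reduction of a triangle to an inner triangle whose vertices are known to the sides. -/
theorem DB.red {C C' : Γ → Γ → Prop} {d : ℝ} (h : DB C' d) (B : Finset Γ)
    {S1 S2 S3 S4 S5 S6 : Γ → Γ → Prop} (h1 : Small B S1) (h2 : Small B S2) (h3 : Small B S3)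
    (h4 : Small B S4) (h5 : Small B S5) (h6 : Small B S6)
    (hC : ∀ a b, C a b → ∃ x y z, C' (x⁻¹ * y) (x⁻¹ * z) ∧ S1 a x ∧ S2 a y ∧ S3 b x ∧ S4 b z ∧
      S5 (a⁻¹ * b) (a⁻¹ * y) ∧ S6 (a⁻¹ * b) (a⁻¹ * z)) : DB C (d + 6 * log B.card) := by
  intro Ω _ P a b hab
  have hch : ∀ ω, ∃ x y z, P.p ω ≠ 0 → C' (x⁻¹ * y) (x⁻¹ * z) ∧ S1 (a ω) x ∧ S2 (a ω) y ∧
      S3 (b ω) x ∧ S4 (b ω) z ∧ S5 ((a ω)⁻¹ * b ω) ((a ω)⁻¹ * y) ∧
      S6 ((a ω)⁻¹ * b ω) ((a ω)⁻¹ * z) := fun ω => by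
    by_cases h0 : P.p ω = 0
    · exact ⟨1, 1, 1, fun h1 => absurd h0 h1⟩
    · obtain ⟨x, y, z, hh⟩ := hC _ _ (hab ω h0)
      exact ⟨x, y, z, fun _ => hh⟩
  choose x y z hx using hch
  have k := h.legs P (fun ω => (x ω)⁻¹ * y ω) (fun ω => (x ω)⁻¹ * z ω) (fun ω h0 => (hx ω h0).1)
    x (fun ω => (y ω)⁻¹ * a ω) (fun ω => (z ω)⁻¹ * b ω)
  have e0 : P.ent (fun ω => (a ω, b ω)) ≤ P.ent fun ω => ((x ω)⁻¹ * y ω, (x ω)⁻¹ * z ω, x ω,
      (y ω)⁻¹ * a ω, (z ω)⁻¹ * b ω) := P.ent_mono fun ω ω' hh => by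
    simp only [Prod.mk.injEq] at hh ⊢
    obtain ⟨e1, e2, e3, e4, e5⟩ := hh
    rw [e3] at e1 e2
    have e6 := mul_left_cancel e1
    have e7 := mul_left_cancel e2
    rw [e6] at e4
    rw [e7] at e5
    exact ⟨mul_left_cancel e4, mul_left_cancel e5⟩
  have a1 := ent_close P a x (fun ω => (a ω, x ω)) B
    (fun ω ω' h0 h0' e => h1 (a ω) _ _ (hx ω h0).2.1 (e ▸ (hx ω' h0').2.1))
    (fun _ _ _ _ e e' => by rw [e, e'])
  have a2 := ent_close P (fun ω => (a ω, x ω)) y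
    (fun ω => ((x ω)⁻¹ * y ω, x ω, (y ω)⁻¹ * a ω)) B
    (fun ω ω' h0 h0' e => h2 (a ω) _ _ (hx ω h0).2.2.1
      (by rw [(Prod.mk.inj e).1]; exact (hx ω' h0').2.2.1))
    (fun _ _ _ _ e e' => by
      simp only [Prod.mk.injEq] at e
      rw [e.1, e.2, e'])
  have b1 := ent_close P b x (fun ω => (b ω, x ω)) B
    (fun ω ω' h0 h0' e => h3 (b ω) _ _ (hx ω h0).2.2.2.1 (e ▸ (hx ω' h0').2.2.2.1))
    (fun _ _ _ _ e e' => by rw [e, e'])
  have b2 := ent_close P (fun ω => (b ω, x ω)) z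
    (fun ω => ((x ω)⁻¹ * z ω, x ω, (z ω)⁻¹ * b ω)) B
    (fun ω ω' h0 h0' e => h4 (b ω) _ _ (hx ω h0).2.2.2.2.1
      (by rw [(Prod.mk.inj e).1]; exact (hx ω' h0').2.2.2.2.1))
    (fun _ _ _ _ e e' => by
      simp only [Prod.mk.injEq] at e
      rw [e.1, e.2, e'])
  have c1 := ent_close P (fun ω => (a ω)⁻¹ * b ω) (fun ω => (a ω)⁻¹ * y ω)
    (fun ω => ((a ω)⁻¹ * b ω, (a ω)⁻¹ * y ω)) B
    (fun ω ω' h0 h0' e => h5 ((a ω)⁻¹ * b ω) _ _ (hx ω h0).2.2.2.2.2.1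
      (by rw [e]; exact (hx ω' h0').2.2.2.2.2.1))
    (fun _ _ _ _ e e' => by rw [e, e'])
  have c2 := ent_close P (fun ω => ((a ω)⁻¹ * b ω, (a ω)⁻¹ * y ω)) (fun ω => (a ω)⁻¹ * z ω)
    (fun ω => (((x ω)⁻¹ * y ω)⁻¹ * ((x ω)⁻¹ * z ω), (y ω)⁻¹ * a ω, (z ω)⁻¹ * b ω)) B
    (fun ω ω' h0 h0' e => h6 ((a ω)⁻¹ * b ω) _ _ (hx ω h0).2.2.2.2.2.2
      (by rw [(Prod.mk.inj e).1]; exact (hx ω' h0').2.2.2.2.2.2))
    (fun ω ω' _ _ e e' => by
      simp only [Prod.mk.injEq] at e ⊢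
      have f1 : ∀ ω, ((x ω)⁻¹ * y ω)⁻¹ * ((x ω)⁻¹ * z ω) =
        ((a ω)⁻¹ * y ω)⁻¹ * ((a ω)⁻¹ * z ω) := fun ω => by group
      have f2 : ∀ ω, (y ω)⁻¹ * a ω = ((a ω)⁻¹ * y ω)⁻¹ := fun ω => by group
      have f3 : ∀ ω, (z ω)⁻¹ * b ω = ((a ω)⁻¹ * z ω)⁻¹ * ((a ω)⁻¹ * b ω) := fun ω => by group
      rw [f1, f1, f2, f2, f3, f3, e.1, e.2, e']
      exact ⟨rfl, rfl, rfl⟩)
  linarith only [k, e0, a1, a2, b1, b2, c1, c2]

section copy

variable {Ω S T : Type*} [Fintype Ω]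

/-- Two conditionally independent copies over `W`. -/
noncomputable def cp (P : FP Ω) (W : Ω → S) : FP (Ω × Ω) := P.mix (P.fib W)

theorem ex_cp (P : FP Ω) (W : Ω → S) (F : Ω × Ω → ℝ) :
    (cp P W).ex F = P.ex fun s => (P.fib W s).ex fun ω => F (s, ω) := P.ex_mix _ F

theorem cp_supp {P : FP Ω} {W : Ω → S} {z : Ω × Ω} (h : (cp P W).p z ≠ 0) :
    P.p z.1 ≠ 0 ∧ P.p z.2 ≠ 0 ∧ W z.2 = W z.1 := by
  obtain ⟨h1, h2⟩ := mix_supp h
  exact ⟨h1, fib_supp h1 h2⟩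

theorem ex_cp_fst (P : FP Ω) (W : Ω → S) (F : Ω → ℝ) :
    (cp P W).ex (fun z => F z.1) = P.ex F := by simp only [ex_cp, ex_const]

theorem ex_cp_snd (P : FP Ω) (W : Ω → S) (F : Ω → ℝ) :
    (cp P W).ex (fun z => F z.2) = P.ex F := by rw [ex_cp]; exact P.tower' W F

theorem ent_cp_fst (P : FP Ω) (W : Ω → S) (f : Ω → T) :
    (cp P W).ent (fun z => f z.1) = P.ent f := by
  have m1 : (cp P W).map (fun z => z.1) = P := ext_ex fun F => by rw [ex_map, ex_cp_fst]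
  rw [← m1, ent_map, m1]

theorem ent_cp_snd (P : FP Ω) (W : Ω → S) (f : Ω → T) :
    (cp P W).ent (fun z => f z.2) = P.ent f := by
  have m1 : (cp P W).map (fun z => z.2) = P := ext_ex fun F => by rw [ex_map, ex_cp_snd]
  rw [← m1, ent_map, m1]

theorem ent_cp_pair (P : FP Ω) (W : Ω → S) (f : Ω → T) (hf : ∀ ω ω', f ω = f ω' → W ω = W ω') :
    (cp P W).ent (fun z => (f z.1, f z.2)) = 2 * P.ent f - P.ent W := by
  have e1 : ∀ z, (cp P W).p z ≠ 0 → (cp P W).pv (fun z => (f z.1, f z.2)) z =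
      P.pv f z.1 * (P.pv f z.2 / P.pv W z.1) := by
    intro z hz
    obtain ⟨h1, h2, h3⟩ := cp_supp hz
    rw [pv, pr, ex_cp, pv, pr, ← ex_mul_const]
    refine P.ex_congr fun s hs => ?_
    by_cases hfs : f s = f z.1
    · rw [ind_pos hfs, one_mul, P.fib_congr W (hf _ _ hfs), fib,
        ex_cond (P.pv_pos W h1).ne', pv, pv, pr]
      congr 1
      refine P.ex_congr fun ω _ => ?_
      rw [← ind_and]
      refine ind_congr ?_
      simp only [Prod.mk.injEq, hfs, true_and]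
      exact ⟨fun h => h.2, fun h => ⟨(hf _ _ h).trans h3, h⟩⟩
    · rw [ind_neg hfs, zero_mul, ← (P.fib W s).ex_const 0]
      exact (P.fib W s).ex_congr fun ω _ => ind_neg fun h => hfs (Prod.ext_iff.mp h).1
  have e2 : (cp P W).ent (fun z => (f z.1, f z.2)) = (cp P W).ex fun z =>
      - log (P.pv f z.1) + - log (P.pv f z.2) - - log (P.pv W z.1) := by
    refine (cp P W).ex_congr fun z hz => ?_
    obtain ⟨h1, h2, h3⟩ := cp_supp hz
    rw [e1 z hz, log_mul (P.pv_pos f h1).ne' (div_pos (P.pv_pos f h2) (P.pv_pos W h1)).ne',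
      log_div (P.pv_pos f h2).ne' (P.pv_pos W h1).ne']
    ring
  rw [e2, ex_sub, ex_add, ex_cp_fst P W fun ω => - log (P.pv f ω),
    ex_cp_snd P W fun ω => - log (P.pv f ω), ex_cp_fst P W fun ω => - log (P.pv W ω)]
  simp only [ent]
  ring

end copy

/-- Copying the third vertex over the side `(1, a)`. -/
theorem DB.copy {C C1 C2 : Γ → Γ → Prop} {d1 d2 : ℝ} (h1 : DB C1 d1) (h2 : DB C2 d2)
    (hC : ∀ a b b', C a b → C a b' → C1 b b' ∧ C2 (a⁻¹ * b) (a⁻¹ * b')) :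
    DB C ((d1 + d2) / 2) := by
  intro Ω _ P a b hab
  set Q := cp P a with hQ
  have hs : ∀ z, Q.p z ≠ 0 → C (a z.1) (b z.1) ∧ C (a z.1) (b z.2) := fun z hz => by
    obtain ⟨k1, k2, k3⟩ := cp_supp hz
    exact ⟨hab _ k1, k3 ▸ hab _ k2⟩
  have k1 := h1 _ Q (fun z => b z.1) (fun z => b z.2) fun z hz => (hC _ _ _ (hs z hz).1 (hs z hz).2).1
  have k2 := h2 _ Q (fun z => (a z.1)⁻¹ * b z.1) (fun z => (a z.1)⁻¹ * b z.2)
    fun z hz => (hC _ _ _ (hs z hz).1 (hs z hz).2).2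
  have e1 := ent_cp_pair P a (fun ω => (a ω, b ω)) fun _ _ h => (Prod.ext_iff.mp h).1
  have e2 := ent_cp_fst P a b
  have e3 := ent_cp_snd P a b
  have e4 := ent_cp_fst P a fun ω => (a ω)⁻¹ * b ω
  have e5 : Q.ent (fun z => (a z.1)⁻¹ * b z.2) = P.ent fun ω => (a ω)⁻¹ * b ω := by
    rw [← ent_cp_snd P a]
    refine Q.ent_congr' fun z w hz hw => ?_
    rw [(cp_supp hz).2.2, (cp_supp hw).2.2]
  have e6 : Q.ent (fun z => ((a z.1)⁻¹ * b z.1)⁻¹ * ((a z.1)⁻¹ * b z.2)) =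
      Q.ent fun z => (b z.1)⁻¹ * b z.2 := Q.ent_congr fun z w => by
    simp only [mul_inv_rev, inv_inv, mul_assoc, mul_inv_cancel_left]
  have s := Q.submod' (fun z => (b z.1, b z.2)) (fun z => ((a z.1)⁻¹ * b z.1, (a z.1)⁻¹ * b z.2))
    (fun z => (b z.1)⁻¹ * b z.2) (fun z => ((a z.1, b z.1), (a z.2, b z.2)))
    (fun z w _ _ h => by simp only [Prod.mk.injEq] at h; rw [h.1, h.2])
    (fun z w _ _ h => by
      simp only [Prod.mk.injEq] at h
      have f : ∀ z : Ω × Ω, (b z.1)⁻¹ * b z.2 = ((a z.1)⁻¹ * b z.1)⁻¹ * ((a z.1)⁻¹ * b z.2) :=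
        fun z => by group
      rw [f, f, h.1, h.2])
    (fun z w hz hw h h' => by
      simp only [Prod.mk.injEq] at h h' ⊢
      have f : a z.1 = a w.1 := by
        have := h'.1
        rw [h.1] at this
        exact inv_inj.mp (mul_right_cancel this)
      rw [(cp_supp hz).2.2, (cp_supp hw).2.2]
      exact ⟨⟨f, h.1⟩, f, h.2⟩)
  rw [← hQ] at e1 e2 e3 e4
  linarith only [k1, k2, e1, e2, e3, e4, e5, e6, s]

end Pool.Agent.Work.MP_dbf1ea_an
end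

-- merged part: Pool.Agent.Work.MP_dbf1ea_an.Alt
section
/-!
The altitude argument: copy over the side that predicts less of the altitude.
-/

set_option autoImplicit false

open Finset Real

namespace Pool.Agent.Work.MP_dbf1ea_an

open Pool.Agent.Lib.PFR Pool.Agent.Lib.PFR.FP

universe u

variable {Γ : Type u} [Group Γ]

section gen

variable {Ω S T : Type*} [Fintype Ω] (P : FP Ω)

theorem shearer {S1 S2 S3 : Type*} (X : Ω → S1) (Y : Ω → S2) (Z : Ω → S3) :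
    2 * P.ent (fun ω => (X ω, Y ω, Z ω)) ≤ P.ent (fun ω => (X ω, Y ω)) +
      P.ent (fun ω => (X ω, Z ω)) + P.ent (fun ω => (Y ω, Z ω)) := by
  have s4 := P.submod (fun ω => (X ω, Y ω)) (fun ω => (X ω, Z ω)) X (fun ω => (X ω, Y ω, Z ω))
    (fun _ _ h => (Prod.ext_iff.mp h).1) (fun _ _ h => (Prod.ext_iff.mp h).1)
    (fun _ _ h h' => by simp only [Prod.mk.injEq] at h h' ⊢; tauto)
  have s5 := P.subadd X (fun ω => (Y ω, Z ω)) (fun ω => (X ω, Y ω, Z ω))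
    (fun _ _ h h' => by simp only [Prod.mk.injEq] at h h' ⊢; tauto)
  linarith

theorem ent_near {V : Type*} (U : Ω → S) (w v : Ω → Γ) (f : Ω → V) (B : Finset Γ)
    (hw : ∀ ω, P.p ω ≠ 0 → (w ω)⁻¹ * v ω ∈ B)
    (hv : ∀ ω ω', P.p ω ≠ 0 → P.p ω' ≠ 0 → U ω = U ω' → v ω = v ω')
    (hf : ∀ ω ω', P.p ω ≠ 0 → P.p ω' ≠ 0 → U ω = U ω' → w ω = w ω' → f ω = f ω') :
    P.ent f ≤ P.ent U + log B.card := by
  have h1 := P.ent_le_log (fun ω => (w ω)⁻¹ * v ω) B hw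
  have h2 := P.subadd' U (fun ω => (w ω)⁻¹ * v ω) f fun ω ω' h0 h0' e e' =>
    hf ω ω' h0 h0' e (by
      rw [hv ω ω' h0 h0' e] at e'
      exact inv_inj.mp (mul_right_cancel e'))
  linarith only [h1, h2]

theorem ent_list {V : Type*} (U : Ω → S) (w : Ω → V) (K : ℝ) (Λ : S → Finset V)
    (hw : ∀ ω, P.p ω ≠ 0 → w ω ∈ Λ (U ω)) (hK : ∀ ω, P.p ω ≠ 0 → ((Λ (U ω)).card : ℝ) ≤ K) :
    P.ent (fun ω => (U ω, w ω)) ≤ P.ent U + log K := by
  classical
  refine P.ent_le_add_log _ U K (fun s => (Λ s).image fun x => (s, x))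
    (fun ω h0 => mem_image.mpr ⟨_, hw ω h0, rfl⟩) fun ω h0 => le_trans ?_ (hK ω h0)
  exact_mod_cast card_image_le

theorem ex_ratio_le (f : Ω → T) (g : Ω → S) (Θ : Finset T) (hf : ∀ ω, P.p ω ≠ 0 → f ω ∈ Θ) :
    P.ex (fun ω => P.pv g ω / P.pv (fun ω => (f ω, g ω)) ω) ≤ Θ.card := by
  classical
  set c : Ω → ℝ := P.pv (fun ω => (f ω, g ω)) with hc
  have e1 : ∀ ω, P.pv g ω / c ω = P.ex fun ω1 => ind (g ω1 = g ω) / c ω := by
    intro ω; simp only [ex_div, pr, pv]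
  rw [P.ex_congr fun ω _ => e1 ω, ex_comm]
  refine P.ex_le_const fun ω1 h1 => ?_
  have e2 : P.ex (fun ω => ind (g ω1 = g ω) / c ω) =
      P.ex (fun ω => ∑ a ∈ Θ, ind ((f ω, g ω) = (a, g ω1)) *
        (P.pr fun ω' => (f ω', g ω') = (a, g ω1))⁻¹) := by
    refine P.ex_congr fun ω h0 => ?_
    by_cases hg : g ω1 = g ω
    · rw [sum_eq_single (f ω), ind_pos hg, ind_pos (by rw [hg]), hg, div_eq_mul_inv]
      · rfl
      · intro b _ hb
        rw [ind_neg, zero_mul]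
        exact fun h => hb (Prod.ext_iff.mp h).1.symm
      · intro h; exact absurd (hf ω h0) h
    · rw [ind_neg hg, zero_div]
      refine (sum_eq_zero fun a _ => ?_).symm
      rw [ind_neg, zero_mul]
      exact fun h => hg (Prod.ext_iff.mp h).2.symm
  rw [e2, ex_sum]
  calc _ ≤ ∑ _a ∈ Θ, (1 : ℝ) := by
        refine sum_le_sum fun a _ => ?_
        rw [ex_mul_const]
        change P.pr _ * _ ≤ _
        by_cases h0 : (P.pr fun ω' => (f ω', g ω') = (a, g ω1)) = 0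
        · rw [h0, zero_mul]; positivity
        · rw [mul_inv_cancel₀ h0]
    _ ≤ _ := by simp

theorem pr_fib_fib_le (f : Ω → T) (g : Ω → S) {ω0 s : Ω} (h0 : P.p ω0 ≠ 0)
    (hs : (P.fib f ω0).p s ≠ 0) (E : Ω → Prop) :
    ((P.fib f ω0).fib g s).pr E ≤
      P.pr (fun ω => g ω = g s ∧ E ω) / P.pv (fun ω => (f ω, g ω)) s := by
  obtain ⟨h1, h2⟩ := fib_supp h0 hs
  have hp := P.pv_pos f h0
  have hq := P.pv_pos (fun ω => (f ω, g ω)) h1
  have e1 : (P.fib f ω0).pv g s = P.pv (fun ω => (f ω, g ω)) s / P.pv f ω0 := by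
    rw [pv, pr, fib, ex_cond hp.ne', pv, pv, pr]
    congr 1
    refine P.ex_congr fun ω' _ => ?_
    rw [← ind_and]
    exact ind_congr (by simp [Prod.ext_iff, h2])
  rw [pr, fib, ex_cond ((P.fib f ω0).pv_pos g hs).ne']
  change _ / (P.fib f ω0).pv g s ≤ _
  rw [e1, fib, ex_cond hp.ne']
  change _ / P.pv f ω0 / _ ≤ _
  rw [div_div_div_cancel_right₀ hp.ne']
  refine div_le_div_of_nonneg_right (P.ex_mono fun ω _ => ?_) hq.le
  rw [← ind_and, ← ind_and]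
  exact ind_mono fun h => h.2

theorem pr_exists_le {ι : Type*} (s : Finset ι) (E : ι → Ω → Prop) :
    P.pr (fun ω => ∃ i ∈ s, E i ω) ≤ ∑ i ∈ s, P.pr (E i) := by
  simp only [pr, ← ex_sum]
  refine P.ex_mono fun ω _ => ?_
  by_cases h : ∃ i ∈ s, E i ω
  · obtain ⟨i, hi, h1⟩ := h
    rw [ind_pos ⟨i, hi, h1⟩, ← ind_pos h1]
    exact single_le_sum (f := fun i => ind (E i ω)) (fun _ _ => ind_nonneg _) hi
  · rw [ind_neg h]
    exact sum_nonneg fun _ _ => ind_nonneg _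

/-- Heavy values form a short list. -/
theorem exists_list (g : Ω → S) (v : Ω → Γ) (B : Finset Γ) {η : ℝ} (hη : 0 < η) :
    ∃ Λ : S → Finset Γ, (∀ ω, P.p ω ≠ 0 → ((Λ (g ω)).card : ℝ) ≤ B.card / η) ∧
      ∀ ω, η * P.pv g ω ≤ P.pr (fun ω' => g ω' = g ω ∧ (v ω)⁻¹ * v ω' ∈ B) → v ω ∈ Λ (g ω) := by
  classical
  refine ⟨fun s => (univ.image v).filter fun γ =>
    η * P.pr (fun ω' => g ω' = s) ≤ P.pr (fun ω' => g ω' = s ∧ γ⁻¹ * v ω' ∈ B),
    fun ω h0 => ?_, fun ω h => mem_filter.mpr ⟨mem_image_of_mem _ (mem_univ _), h⟩⟩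
  set Λ := (univ.image v).filter fun γ =>
    η * P.pr (fun ω' => g ω' = g ω) ≤ P.pr (fun ω' => g ω' = g ω ∧ γ⁻¹ * v ω' ∈ B) with hΛ
  have hp : 0 < P.pr (fun ω' => g ω' = g ω) := P.pv_pos g h0
  have h1 : (Λ.card : ℝ) * (η * P.pr (fun ω' => g ω' = g ω)) ≤
      ∑ γ ∈ Λ, P.pr (fun ω' => g ω' = g ω ∧ γ⁻¹ * v ω' ∈ B) := by
    rw [← nsmul_eq_mul]
    exact card_nsmul_le_sum _ _ _ fun γ hγ => (mem_filter.mp hγ).2
  have h2 : ∑ γ ∈ Λ, P.pr (fun ω' => g ω' = g ω ∧ γ⁻¹ * v ω' ∈ B) ≤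
      B.card * P.pr (fun ω' => g ω' = g ω) := by
    simp only [pr, ← ex_sum, ← ex_const_mul]
    refine P.ex_mono fun ω' _ => ?_
    simp only [ind_and, ← mul_sum]
    rw [mul_comm]
    refine mul_le_mul_of_nonneg_right ?_ (ind_nonneg _)
    have : ∑ γ ∈ Λ, ind (γ⁻¹ * v ω' ∈ B) = ((Λ.filter fun γ => γ⁻¹ * v ω' ∈ B).card : ℝ) := by
      rw [card_filter]
      push_cast
      exact sum_congr rfl fun γ _ => by unfold ind; congr
    rw [this]
    exact_mod_cast card_le_card_of_injOn (fun γ => γ⁻¹ * v ω')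
      (fun γ hγ => (mem_filter.mp hγ).2) fun γ _ γ' _ h => inv_inj.mp (mul_right_cancel h)
  rw [le_div_iff₀ hη]
  (refine le_of_not_gt fun h_nl => ?_; linarith only [h_nl, h1, h2, hp, mul_pos_of_neg_of_neg (Mathlib.Tactic.Linarith.sub_neg_of_lt hp) (Mathlib.Tactic.Linarith.sub_neg_of_lt h_nl)])

end gen

/-- One-sided hypotheses on the altitude points `alt` and the hypotenuse points `ta`, `tb`. -/
structure AltH (C N : Γ → Γ → Prop) (m : ℕ) (B B' : Finset Γ) (alt ta tb : Γ → Γ → ℕ → Γ) :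
    Prop where
  h0 : ∀ a b a' b', C a b → C a' b' → (alt a b 0)⁻¹ * alt a' b' 0 ∈ B
  h1 : ∀ a b a' b' i j, C a b → C a' b' → i ≤ j → j ≤ m → alt a b j = alt a' b' j →
    (alt a b i)⁻¹ * alt a' b' i ∈ B'
  h2 : ∀ a b a' j, C a b → C a' b → j ≤ m → alt a b j = alt a' b j →
    (tb a b j)⁻¹ * tb a' b j ∈ B'
  h3 : ∀ a b a' b' j, C a b → C a' b' → j ≤ m → a⁻¹ * b = a'⁻¹ * b' →
    (a⁻¹ * ta a b j)⁻¹ * (a'⁻¹ * ta a' b' j) ∈ B' ∧ (a⁻¹ * tb a b j)⁻¹ * (a'⁻¹ * tb a' b' j) ∈ B'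
  h4 : ∀ a b c j, C a b → C a c → j ≤ m → (alt a b j)⁻¹ * alt a c j ∈ B →
    (j < m → (alt a b (j + 1))⁻¹ * alt a c (j + 1) ∉ B) →
    N ((ta a b j)⁻¹ * tb a b j) ((ta a b j)⁻¹ * tb a c j) ∧ (ta a b j)⁻¹ * ta a c j ∈ B'
  h5 : ∀ a b c a' b' c' j, C a b → C a c → j ≤ m → (alt a b j)⁻¹ * alt a c j ∈ B →
    (j < m → (alt a b (j + 1))⁻¹ * alt a c (j + 1) ∉ B) →
    C a' b' → C a' c' → (alt a' b' j)⁻¹ * alt a' c' j ∈ B →
    (j < m → (alt a' b' (j + 1))⁻¹ * alt a' c' (j + 1) ∉ B) →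
    (tb a b j)⁻¹ * tb a c j = (tb a' b' j)⁻¹ * tb a' c' j →
    ((tb a b j)⁻¹ * alt a b j)⁻¹ * ((tb a' b' j)⁻¹ * alt a' b' j) ∈ B'

variable {C N : Γ → Γ → Prop} {m : ℕ} {B B' : Finset Γ} {alt ta tb : Γ → Γ → ℕ → Γ} {d : ℝ}

theorem AltH.leg (H : AltH C N m B B' alt ta tb) {Ω : Type u} [Fintype Ω] (P : FP Ω)
    (a b : Ω → Γ) {j J : ℕ} (hj : j ≤ J) (hJ : J ≤ m) (hC : ∀ ω, P.p ω ≠ 0 → C (a ω) (b ω))
    (K : ℝ) (Λ : Γ → Finset Γ) (hΛ : ∀ ω, P.p ω ≠ 0 → alt (a ω) (b ω) J ∈ Λ (b ω))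
    (hK : ∀ ω, P.p ω ≠ 0 → ((Λ (b ω)).card : ℝ) ≤ K) :
    P.ent (fun ω => (b ω, alt (a ω) (b ω) j, tb (a ω) (b ω) j)) ≤
      P.ent b + log K + 2 * log B'.card := by
  have e1 := ent_list P b (fun ω => alt (a ω) (b ω) J) K Λ hΛ hK
  have e2 := ent_close P (fun ω => (b ω, alt (a ω) (b ω) J)) (fun ω => alt (a ω) (b ω) j)
    (fun ω => (b ω, alt (a ω) (b ω) j)) B'
    (fun ω ω' h0 h0' e => H.h1 _ _ _ _ _ _ (hC ω h0) (hC ω' h0') hj hJ (Prod.mk.inj e).2)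
    (fun ω ω' _ _ e e' => by rw [e', (Prod.mk.inj e).1])
  have e3 := ent_close P (fun ω => (b ω, alt (a ω) (b ω) j)) (fun ω => tb (a ω) (b ω) j)
    (fun ω => (b ω, alt (a ω) (b ω) j, tb (a ω) (b ω) j)) B'
    (fun ω ω' h0 h0' e => by
      have f1 := (Prod.mk.inj e).1
      have f2 := (Prod.mk.inj e).2
      have f3 := hC ω' h0'
      rw [← f1] at f2 f3 ⊢
      exact H.h2 _ _ _ _ (hC ω h0) f3 (hj.trans hJ) f2)
    (fun ω ω' _ _ e e' => by rw [e', (Prod.mk.inj e).2, (Prod.mk.inj e).1])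
  linarith only [e1, e2, e3]

theorem AltH.hyp (H : AltH C N m B B' alt ta tb) {Ω : Type u} [Fintype Ω] (P : FP Ω)
    (a b : Ω → Γ) {j : ℕ} (hj : j ≤ m) (hC : ∀ ω, P.p ω ≠ 0 → C (a ω) (b ω)) :
    P.ent (fun ω => ((a ω)⁻¹ * b ω, (a ω)⁻¹ * ta (a ω) (b ω) j, (a ω)⁻¹ * tb (a ω) (b ω) j)) ≤
      P.ent (fun ω => (a ω)⁻¹ * b ω) + 2 * log B'.card := by
  have e2 := ent_close P (fun ω => (a ω)⁻¹ * b ω) (fun ω => (a ω)⁻¹ * ta (a ω) (b ω) j)
    (fun ω => ((a ω)⁻¹ * b ω, (a ω)⁻¹ * ta (a ω) (b ω) j)) B'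
    (fun ω ω' h0 h0' e => (H.h3 _ _ _ _ _ (hC ω h0) (hC ω' h0') hj e).1)
    (fun ω ω' _ _ e e' => by rw [e', e])
  have e3 := ent_close P (fun ω => ((a ω)⁻¹ * b ω, (a ω)⁻¹ * ta (a ω) (b ω) j))
    (fun ω => (a ω)⁻¹ * tb (a ω) (b ω) j)
    (fun ω => ((a ω)⁻¹ * b ω, (a ω)⁻¹ * ta (a ω) (b ω) j, (a ω)⁻¹ * tb (a ω) (b ω) j)) B'
    (fun ω ω' h0 h0' e => (H.h3 _ _ _ _ _ (hC ω h0) (hC ω' h0') hj (Prod.mk.inj e).1).2)
    (fun ω ω' _ _ e e' => by rw [e', (Prod.mk.inj e).2, (Prod.mk.inj e).1])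
  linarith only [e2, e3]

theorem AltH.core (H : AltH C N m B B' alt ta tb) (hN : DB N d) {Ω : Type u} [Fintype Ω]
    (P : FP Ω) (a b c : Ω → Γ) {j J : ℕ} (hj : j ≤ J) (hJ : J ≤ m)
    (hb : ∀ ω, P.p ω ≠ 0 → C (a ω) (b ω)) (hc : ∀ ω, P.p ω ≠ 0 → C (a ω) (c ω))
    (hag : ∀ ω, P.p ω ≠ 0 → (alt (a ω) (b ω) j)⁻¹ * alt (a ω) (c ω) j ∈ B)
    (hna : ∀ ω, P.p ω ≠ 0 → j < m → (alt (a ω) (b ω) (j + 1))⁻¹ * alt (a ω) (c ω) (j + 1) ∉ B)
    (K : ℝ) (Λ : Γ → Finset Γ) (hΛb : ∀ ω, P.p ω ≠ 0 → alt (a ω) (b ω) J ∈ Λ (b ω))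
    (hKb : ∀ ω, P.p ω ≠ 0 → ((Λ (b ω)).card : ℝ) ≤ K)
    (hΛc : ∀ ω, P.p ω ≠ 0 → alt (a ω) (c ω) J ∈ Λ (c ω))
    (hKc : ∀ ω, P.p ω ≠ 0 → ((Λ (c ω)).card : ℝ) ≤ K) :
    2 * P.ent (fun ω => (a ω, b ω, c ω)) ≤ P.ent b + P.ent c + P.ent (fun ω => (a ω)⁻¹ * b ω) +
      P.ent (fun ω => (a ω)⁻¹ * c ω) + (d + 2 * log K + 10 * log B'.card + log B.card) := by
  have hjm := hj.trans hJ
  set p : Ω → Γ := fun ω => alt (a ω) (b ω) j with hp
  set p' : Ω → Γ := fun ω => alt (a ω) (c ω) j with hp'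
  set x : Ω → Γ := fun ω => ta (a ω) (b ω) j with hx
  set x' : Ω → Γ := fun ω => ta (a ω) (c ω) j with hx'
  set y : Ω → Γ := fun ω => tb (a ω) (b ω) j with hy
  set z : Ω → Γ := fun ω => tb (a ω) (c ω) j with hz
  have l1 : P.ent (fun ω => (b ω, p ω, y ω)) ≤ P.ent b + log K + 2 * log B'.card :=
    H.leg P a b hj hJ hb K Λ hΛb hKb
  have l2 : P.ent (fun ω => (c ω, p' ω, z ω)) ≤ P.ent c + log K + 2 * log B'.card :=
    H.leg P a c hj hJ hc K Λ hΛc hKc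
  have l3 : P.ent (fun ω => ((a ω)⁻¹ * b ω, (a ω)⁻¹ * x ω, (a ω)⁻¹ * y ω)) ≤
      P.ent (fun ω => (a ω)⁻¹ * b ω) + 2 * log B'.card := H.hyp P a b hjm hb
  have l4 : P.ent (fun ω => ((a ω)⁻¹ * c ω, (a ω)⁻¹ * x' ω, (a ω)⁻¹ * z ω)) ≤
      P.ent (fun ω => (a ω)⁻¹ * c ω) + 2 * log B'.card := H.hyp P a c hjm hc
  have g1 := shearer P p (fun ω => ((p ω)⁻¹ * y ω, (p ω)⁻¹ * b ω))
    (fun ω => ((p ω)⁻¹ * z ω, (p ω)⁻¹ * c ω))
  have g2 := hN.legs P (fun ω => (x ω)⁻¹ * y ω) (fun ω => (x ω)⁻¹ * z ω)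
    (fun ω h0 => (H.h4 _ _ _ _ (hb ω h0) (hc ω h0) hjm (hag ω h0) (hna ω h0)).1)
    (fun ω => (x ω)⁻¹ * a ω) (fun ω => (y ω)⁻¹ * b ω) (fun ω => (z ω)⁻¹ * c ω)
  have t1 : P.ent (fun ω => (p ω, (p ω)⁻¹ * y ω, (p ω)⁻¹ * b ω)) ≤
      P.ent (fun ω => (b ω, p ω, y ω)) := P.ent_mono fun ω ω' e => by
    simp only [Prod.mk.injEq] at e
    rw [e.1, e.2.1, e.2.2]
  have t2 := ent_near P (fun ω => (c ω, p' ω, z ω)) p p'
    (fun ω => (p ω, (p ω)⁻¹ * z ω, (p ω)⁻¹ * c ω)) B hag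
    (fun ω ω' _ _ e => by simp only [Prod.mk.injEq] at e; exact e.2.1)
    (fun ω ω' _ _ e e' => by
      simp only [Prod.mk.injEq] at e
      rw [e.1, e', e.2.2])
  have t3 := ent_close P (fun ω => ((y ω)⁻¹ * z ω, (y ω)⁻¹ * b ω, (z ω)⁻¹ * c ω))
    (fun ω => (y ω)⁻¹ * p ω)
    (fun ω => (((p ω)⁻¹ * y ω, (p ω)⁻¹ * b ω), ((p ω)⁻¹ * z ω, (p ω)⁻¹ * c ω))) B'
    (fun ω ω' h0 h0' e => H.h5 _ _ _ _ _ _ _ (hb ω h0) (hc ω h0) hjm (hag ω h0) (hna ω h0)
      (hb ω' h0') (hc ω' h0') (hag ω' h0') (hna ω' h0') (Prod.mk.inj e).1)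
    (fun ω ω' _ _ e e' => by
      simp only [Prod.mk.injEq] at e
      have f1 : ∀ ω, (p ω)⁻¹ * y ω = ((y ω)⁻¹ * p ω)⁻¹ := fun ω => by group
      have f2 : ∀ ω, (p ω)⁻¹ * b ω = ((y ω)⁻¹ * p ω)⁻¹ * ((y ω)⁻¹ * b ω) := fun ω => by group
      have f3 : ∀ ω, (p ω)⁻¹ * z ω = ((y ω)⁻¹ * p ω)⁻¹ * ((y ω)⁻¹ * z ω) := fun ω => by group
      have f4 : ∀ ω, (p ω)⁻¹ * c ω =
        ((y ω)⁻¹ * p ω)⁻¹ * ((y ω)⁻¹ * z ω) * ((z ω)⁻¹ * c ω) := fun ω => by group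
      rw [f1, f1, f2, f2, f3, f3, f4, f4, e', e.1, e.2.1, e.2.2])
  have t4 : P.ent (fun ω => ((x ω)⁻¹ * y ω, (x ω)⁻¹ * a ω, (y ω)⁻¹ * b ω)) ≤
      P.ent (fun ω => ((a ω)⁻¹ * b ω, (a ω)⁻¹ * x ω, (a ω)⁻¹ * y ω)) :=
    P.ent_mono fun ω ω' e => by
      simp only [Prod.mk.injEq] at e
      have f1 : ∀ ω, (x ω)⁻¹ * y ω = ((a ω)⁻¹ * x ω)⁻¹ * ((a ω)⁻¹ * y ω) := fun ω => by group
      have f2 : ∀ ω, (x ω)⁻¹ * a ω = ((a ω)⁻¹ * x ω)⁻¹ := fun ω => by group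
      have f3 : ∀ ω, (y ω)⁻¹ * b ω = ((a ω)⁻¹ * y ω)⁻¹ * ((a ω)⁻¹ * b ω) := fun ω => by group
      rw [f1, f1, f2, f2, f3, f3, e.1, e.2.1, e.2.2]
  have t5 := ent_near P (fun ω => ((a ω)⁻¹ * c ω, (a ω)⁻¹ * x' ω, (a ω)⁻¹ * z ω))
    (fun ω => (a ω)⁻¹ * x ω) (fun ω => (a ω)⁻¹ * x' ω)
    (fun ω => ((x ω)⁻¹ * z ω, (x ω)⁻¹ * a ω, (z ω)⁻¹ * c ω)) B'
    (fun ω h0 => by
      have := (H.h4 _ _ _ _ (hb ω h0) (hc ω h0) hjm (hag ω h0) (hna ω h0)).2
      simpa only [mul_inv_rev, inv_inv, mul_assoc, mul_inv_cancel_left] using this)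
    (fun ω ω' _ _ e => by simp only [Prod.mk.injEq] at e; exact e.2.1)
    (fun ω ω' _ _ e e' => by
      simp only [Prod.mk.injEq] at e
      have f1 : ∀ ω, (x ω)⁻¹ * z ω = ((a ω)⁻¹ * x ω)⁻¹ * ((a ω)⁻¹ * z ω) := fun ω => by group
      have f2 : ∀ ω, (x ω)⁻¹ * a ω = ((a ω)⁻¹ * x ω)⁻¹ := fun ω => by group
      have f3 : ∀ ω, (z ω)⁻¹ * c ω = ((a ω)⁻¹ * z ω)⁻¹ * ((a ω)⁻¹ * c ω) := fun ω => by group
      rw [f1, f1, f2, f2, f3, f3, e.1, e', e.2.2])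
  have t6 : P.ent (fun ω => (((x ω)⁻¹ * y ω)⁻¹ * ((x ω)⁻¹ * z ω), (y ω)⁻¹ * b ω, (z ω)⁻¹ * c ω)) =
      P.ent (fun ω => ((y ω)⁻¹ * z ω, (y ω)⁻¹ * b ω, (z ω)⁻¹ * c ω)) :=
    P.ent_congr fun ω ω' => by
      simp only [mul_inv_rev, inv_inv, mul_assoc, mul_inv_cancel_left]
  have s := P.submod
    (fun ω => (p ω, ((p ω)⁻¹ * y ω, (p ω)⁻¹ * b ω), ((p ω)⁻¹ * z ω, (p ω)⁻¹ * c ω)))
    (fun ω => ((x ω)⁻¹ * y ω, (x ω)⁻¹ * z ω, (x ω)⁻¹ * a ω, (y ω)⁻¹ * b ω, (z ω)⁻¹ * c ω))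
    (fun ω => ((y ω)⁻¹ * z ω, (y ω)⁻¹ * b ω, (z ω)⁻¹ * c ω)) (fun ω => (a ω, b ω, c ω))
    (fun ω ω' e => by
      simp only [Prod.mk.injEq] at e
      obtain ⟨e1, ⟨e2, e3⟩, e4, e5⟩ := e
      rw [e1] at e2 e3 e4 e5
      rw [mul_left_cancel e2, mul_left_cancel e3, mul_left_cancel e4, mul_left_cancel e5])
    (fun ω ω' e => by
      simp only [Prod.mk.injEq] at e
      have f1 : ∀ ω, (y ω)⁻¹ * z ω = ((x ω)⁻¹ * y ω)⁻¹ * ((x ω)⁻¹ * z ω) := fun ω => by group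
      rw [f1, f1, e.1, e.2.1, e.2.2.2.1, e.2.2.2.2])
    (fun ω ω' e e' => by
      simp only [Prod.mk.injEq] at e e'
      obtain ⟨e1, ⟨e2, e3⟩, e4, e5⟩ := e
      rw [e1] at e2 e3 e4 e5
      have f1 : ∀ ω, a ω = y ω * ((x ω)⁻¹ * y ω)⁻¹ * ((x ω)⁻¹ * a ω) := fun ω => by group
      rw [f1 ω, f1 ω', e'.1, e'.2.2.1, mul_left_cancel e2, mul_left_cancel e3,
        mul_left_cancel e5])
  linarith only [l1, l2, l3, l4, g1, g2, t1, t2, t3, t4, t5, t6, s]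

end Pool.Agent.Work.MP_dbf1ea_an
end

-- merged part: Pool.Agent.Work.MP_dbf1ea_an.Gibbs
section
/-!
From the entropy defect to the convolution inequality, and two recursions.
-/

set_option autoImplicit false

open Finset Real

namespace Pool.Agent.Work.MP_dbf1ea_an

open Pool.Agent.Lib.PFR Pool.Agent.Lib.PFR.FP

universe u

variable {Γ : Type u} [Group Γ]

theorem cross_ent {Ω S : Type*} [Fintype Ω] (P : FP Ω) (X : Ω → S) (q : S → ℝ) (T : Finset S)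
    (hX : ∀ ω, P.p ω ≠ 0 → X ω ∈ T ∧ 0 < q (X ω)) (hq : ∀ s ∈ T, 0 ≤ q s)
    (hs : ∑ s ∈ T, q s ≤ 1) : P.ent X ≤ P.ex fun ω => - log (q (X ω)) := by
  classical
  have h1 : P.ex (fun ω => q (X ω) / P.pv X ω) ≤ 1 := by
    have e : P.ex (fun ω => q (X ω) / P.pv X ω) =
        P.ex fun ω => ∑ s ∈ T, ind (X ω = s) * (q s / P.pr fun ω' => X ω' = s) := by
      refine P.ex_congr fun ω h0 => ?_
      rw [sum_eq_single (X ω), ind_pos rfl, one_mul]
      · rfl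
      · intro s _ hs; rw [ind_neg (Ne.symm hs), zero_mul]
      · intro h; exact absurd (hX ω h0).1 h
    rw [e, ex_sum]
    refine le_trans (sum_le_sum fun s hs => ?_) hs
    rw [ex_mul_const]
    change P.pr _ * _ ≤ _
    by_cases h0 : (P.pr fun ω' => X ω' = s) = 0
    · rw [h0, zero_mul]; exact hq s hs
    · rw [mul_div_cancel₀ _ h0]
  have h2 := P.gibbs (fun ω h0 => div_pos (hX ω h0).2 (P.pv_pos X h0)) h1
  have h3 : P.ex (fun ω => log (q (X ω) / P.pv X ω)) =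
      P.ent X - P.ex fun ω => - log (q (X ω)) := by
    rw [ent, ← ex_sub]
    refine P.ex_congr fun ω h0 => ?_
    rw [log_div (hX ω h0).2.ne' (P.pv_pos X h0).ne']
    ring
  linarith only [h2, h3]

theorem conv_le {C : Γ → Γ → Prop} {d : ℝ} (h : DB C d) (A B T : Finset Γ) (F G : Γ → ℝ)
    (hF : ∀ a ∈ A, 0 < F a) (hG : ∀ b ∈ B, 0 < G b) (hG0 : ∀ b, b ∉ B → G b = 0)
    (hT : ∀ a ∈ A, ∀ b ∈ B, a * b ∈ T) (hC : ∀ a ∈ A, ∀ b ∈ B, C a (a * b)) :
    ∑ c ∈ T, (∑ a ∈ A, F a * G (a⁻¹ * c)) ^ 2 ≤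
      exp d * (∑ a ∈ A, F a ^ 2) * ∑ b ∈ B, G b ^ 2 := by
  classical
  set H : Γ → ℝ := fun c => ∑ a ∈ A, F a * G (a⁻¹ * c) with hH
  set Λ := ∑ c ∈ T, H c ^ 2 with hΛ
  have hGn : ∀ b, 0 ≤ G b := fun b => by
    by_cases hb : b ∈ B
    · exact (hG b hb).le
    · exact (hG0 b hb).ge
  have hHp : ∀ a ∈ A, ∀ b ∈ B, 0 < H (a * b) := fun a ha b hb => by
    refine sum_pos' (fun a' ha' => mul_nonneg (hF a' ha').le (hGn _)) ⟨a, ha, ?_⟩
    rw [inv_mul_cancel_left]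
    exact mul_pos (hF a ha) (hG b hb)
  have e1 : ∑ z ∈ A ×ˢ B, F z.1 * G z.2 * H (z.1 * z.2) = Λ := by
    rw [sum_product, hΛ]
    have : ∀ c ∈ T, H c ^ 2 = ∑ a ∈ A, F a * G (a⁻¹ * c) * H c := fun c _ => by
      rw [sq, ← sum_mul]
    rw [sum_congr rfl this, sum_comm (s := T)]
    refine sum_congr rfl fun a ha => ?_
    refine sum_bij_ne_zero (fun b _ _ => a * b) (fun b hb _ => hT a ha b hb)
      (fun b _ _ b' _ _ e => mul_left_cancel e) (fun c _ hc => ⟨a⁻¹ * c, ?_, ?_, by simp⟩)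
      fun b _ _ => by simp
    · by_contra hb
      exact hc (by rw [hG0 _ hb]; ring)
    · simpa using hc
  have hΛ0 : 0 ≤ Λ := sum_nonneg fun c _ => sq_nonneg (H c)
  rcases eq_or_lt_of_le hΛ0 with h0 | h0
  · rw [← h0]
    exact mul_nonneg (mul_nonneg (exp_pos d).le (sum_nonneg fun _ _ => sq_nonneg _))
      (sum_nonneg fun _ _ => sq_nonneg _)
  have hm : ∀ z : ↥(A ×ˢ B), z.1.1 ∈ A ∧ z.1.2 ∈ B := fun z => mem_product.mp z.2
  have hpp : ∀ z : ↥(A ×ˢ B), 0 < F z.1.1 * G z.1.2 * H (z.1.1 * z.1.2) := fun z =>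
    mul_pos (mul_pos (hF _ (hm z).1) (hG _ (hm z).2)) (hHp _ (hm z).1 _ (hm z).2)
  let P : FP ↥(A ×ˢ B) :=
    { p := fun z => F z.1.1 * G z.1.2 * H (z.1.1 * z.1.2) / Λ
      nonneg := fun z => (div_pos (hpp z) h0).le
      sum_one := by
        rw [← sum_div, sum_coe_sort (A ×ˢ B) fun z => F z.1 * G z.2 * H (z.1 * z.2), e1,
          div_self h0.ne'] }
  obtain ⟨z0, -⟩ := P.exists_supp
  set nF := ∑ a ∈ A, F a ^ 2 with hnF
  set nG := ∑ b ∈ B, G b ^ 2 with hnG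
  have hnF0 : 0 < nF := sum_pos (fun a ha => pow_pos (hF a ha) 2) ⟨_, (hm z0).1⟩
  have hnG0 : 0 < nG := sum_pos (fun a ha => pow_pos (hG a ha) 2) ⟨_, (hm z0).2⟩
  have k := h _ P (fun z => z.1.1) (fun z => z.1.1 * z.1.2) fun z _ => hC _ (hm z).1 _ (hm z).2
  have k1 := cross_ent P (fun z => z.1.1) (fun a => F a ^ 2 / nF) A
    (fun z _ => ⟨(hm z).1, div_pos (pow_pos (hF _ (hm z).1) 2) hnF0⟩)
    (fun _ _ => by positivity) (by rw [← sum_div, div_self hnF0.ne'])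
  have k2 := cross_ent P (fun z => z.1.1 * z.1.2) (fun c => H c ^ 2 / Λ) T
    (fun z _ => ⟨hT _ (hm z).1 _ (hm z).2, div_pos (pow_pos (hHp _ (hm z).1 _ (hm z).2) 2) h0⟩)
    (fun _ _ => by positivity) (by rw [← sum_div, div_self h0.ne'])
  have k3 := cross_ent P (fun z => z.1.1⁻¹ * (z.1.1 * z.1.2)) (fun b => G b ^ 2 / nG) B
    (fun z _ => by
      rw [inv_mul_cancel_left]
      exact ⟨(hm z).2, div_pos (pow_pos (hG _ (hm z).2) 2) hnG0⟩)
    (fun _ _ => by positivity) (by rw [← sum_div, div_self hnG0.ne'])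
  have k4 : P.ent (fun z => (z.1.1, z.1.1 * z.1.2)) = P.ex fun z => - log (P.p z) := by
    refine P.ex_congr fun z _ => ?_
    rw [pv, ← pr_eq_self]
    congr 2
    refine P.pr_congr fun w _ => ?_
    simp only [Prod.mk.injEq]
    constructor
    · rintro ⟨h1, h2⟩
      rw [h1] at h2
      exact Subtype.ext (Prod.ext h1 (mul_left_cancel h2))
    · rintro rfl; exact ⟨rfl, rfl⟩
  have k5 : P.ex (fun z => - log (F z.1.1 ^ 2 / nF)) + P.ex (fun z => - log (H (z.1.1 * z.1.2) ^ 2 / Λ))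
      + P.ex (fun z => - log (G (z.1.1⁻¹ * (z.1.1 * z.1.2)) ^ 2 / nG)) =
      2 * P.ex (fun z => - log (P.p z)) + (log nF + log nG - log Λ) := by
    rw [← P.ex_const (log nF + log nG - log Λ), ← ex_const_mul, ← ex_add, ← ex_add, ← ex_add]
    refine P.ex_congr fun z _ => ?_
    have a1 := hF _ (hm z).1
    have a2 := hG _ (hm z).2
    have a3 := hHp _ (hm z).1 _ (hm z).2
    rw [inv_mul_cancel_left]
    simp only [P]
    rw [log_div (by positivity) hnF0.ne', log_div (by positivity) h0.ne',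
      log_div (by positivity) hnG0.ne', log_div (by positivity) h0.ne',
      log_mul (by positivity) a3.ne', log_mul a1.ne' a2.ne', log_pow, log_pow, log_pow]
    push_cast
    ring
  have k6 : log Λ ≤ d + log nF + log nG := by linarith only [k, k1, k2, k3, k4, k5]
  rwa [log_le_iff_le_exp h0, exp_add, exp_add, exp_log hnF0, exp_log hnG0] at k6

theorem rd_of_DB {C : Γ → Γ → Prop} {d : ℝ} (h : DB C d) (f g : Γ →₀ ℂ)
    (hC : ∀ a ∈ f.support, ∀ b ∈ g.support, C a (a * b)) :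
    (∑' γ : Γ, ‖∑ a ∈ f.support, f a * g (a⁻¹ * γ)‖ ^ 2) ≤
      exp d * (∑' γ : Γ, ‖f γ‖ ^ 2) * (∑' γ : Γ, ‖g γ‖ ^ 2) := by
  classical
  have e1 : ∀ f : Γ →₀ ℂ, (∑' γ : Γ, ‖f γ‖ ^ 2) = ∑ γ ∈ f.support, ‖f γ‖ ^ 2 := fun f =>
    tsum_eq_sum fun γ hγ => by rw [Finsupp.notMem_support_iff.mp hγ]; simp
  set T := image₂ (· * ·) f.support g.support with hT
  have e2 : (∑' γ : Γ, ‖∑ a ∈ f.support, f a * g (a⁻¹ * γ)‖ ^ 2) =
      ∑ γ ∈ T, ‖∑ a ∈ f.support, f a * g (a⁻¹ * γ)‖ ^ 2 :=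
    tsum_eq_sum fun γ hγ => by
      rw [sum_eq_zero fun a ha => ?_]
      · simp
      · rw [Finsupp.notMem_support_iff.mp fun hb => hγ
          (mem_image₂.mpr ⟨a, ha, _, hb, by simp⟩), mul_zero]
  rw [e1, e1, e2]
  refine le_trans (sum_le_sum fun γ _ => ?_) (conv_le h f.support g.support T (fun a => ‖f a‖)
    (fun a => ‖g a‖) (fun a ha => norm_pos_iff.mpr (Finsupp.mem_support_iff.mp ha))
    (fun a ha => norm_pos_iff.mpr (Finsupp.mem_support_iff.mp ha))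
    (fun b hb => by rw [Finsupp.notMem_support_iff.mp hb, norm_zero])
    (fun a ha b hb => mem_image₂_of_mem ha hb) hC)
  refine pow_le_pow_left₀ (norm_nonneg _) ((norm_sum_le _ _).trans ?_) 2
  simp only [norm_mul, le_refl]

theorem DB.of_geom {C : Γ → Γ → Prop} {d c : ℝ} (h : ∀ k : ℕ, DB C (d + c / 2 ^ k)) : DB C d := by
  refine DB.of_forall_lt fun ε hε => ?_
  obtain ⟨k, hk⟩ := pow_unbounded_of_one_lt (c / ε) (one_lt_two (α := ℝ))
  refine (h k).mono (fun _ _ h => h) ?_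
  have : c / 2 ^ k ≤ ε := by
    rw [div_le_iff₀ (by positivity)]
    rw [div_lt_iff₀ hε] at hk
    linarith
  linarith only [this]

theorem rec_quarter {C : ℕ → Γ → Γ → Prop} {c K : ℝ} (hc : 0 ≤ c) (hK : 0 ≤ K)
    (h0 : ∀ n, DB (C n) (c * (n + 1)))
    (h1 : ∀ n d, 0 ≤ d → DB (C (2 * n)) d → DB (C n) (K * log (n + 2) + d / 4)) (n : ℕ) :
    DB (C n) (2 * K * log (n + 2)) := by
  have hl : ∀ n : ℕ, 0 ≤ log ((n : ℝ) + 2) := fun n =>
    log_nonneg (by have := Nat.cast_nonneg (α := ℝ) n; linarith)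
  refine DB.of_geom (c := c * (n + 1)) fun k => ?_
  induction k generalizing n with
  | zero =>
    refine (h0 n).mono (fun _ _ h => h) ?_
    have := mul_nonneg hK (hl n)
    simp only [pow_zero, div_one]
    linarith
  | succ k ih =>
    refine (h1 n _ ?_ (ih (2 * n))).mono (fun _ _ h => h) ?_
    · have := mul_nonneg hK (hl (2 * n))
      have : 0 ≤ c * (((2 * n : ℕ) : ℝ) + 1) / 2 ^ k := by positivity
      linarith
    · have hn := Nat.cast_nonneg (α := ℝ) n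
      have e1 : log (((2 * n : ℕ) : ℝ) + 2) ≤ 2 * log (n + 2) := by
        have : 2 * log ((n : ℝ) + 2) = log ((n + 2) ^ 2) := by rw [log_pow]; norm_num
        rw [this]
        refine log_le_log (by positivity) ?_
        push_cast
        linarith only [mul_nonneg_of_nonpos_of_nonpos (Mathlib.Tactic.Linarith.sub_nonpos_of_le (Mathlib.Tactic.Linarith.natCast_nonneg ℝ n)) (Mathlib.Tactic.Linarith.sub_nonpos_of_le (Mathlib.Tactic.Linarith.natCast_nonneg ℝ n))]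
      have e2 : c * (((2 * n : ℕ) : ℝ) + 1) / 2 ^ k / 4 ≤ c * (n + 1) / 2 ^ (k + 1) := by
        rw [div_div, div_le_div_iff₀ (by positivity) (by positivity), pow_succ]
        push_cast
        have : 0 ≤ c * 2 ^ k := by positivity
        linarith only [this]
      have e3 := mul_le_mul_of_nonneg_left e1 hK
      linarith only [e2, e3]

theorem rec_half {C : ℕ → Γ → Γ → Prop} {c K : ℝ} {c0 : ℕ} (hK : 0 ≤ K)
    (h0 : ∀ n, DB (C n) c)
    (h1 : ∀ n d, DB (C (2 * n + c0)) d → DB (C n) (K * log (n + 2) + d / 2)) (n : ℕ) :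
    DB (C n) (4 * K * log (n + c0 + 4)) := by
  refine DB.of_geom (c := c) fun k => ?_
  induction k generalizing n with
  | zero =>
    refine (h0 n).mono (fun _ _ h => h) ?_
    have : 0 ≤ log ((n : ℝ) + c0 + 4) := log_nonneg (by
      have := Nat.cast_nonneg (α := ℝ) n
      have := Nat.cast_nonneg (α := ℝ) c0
      linarith only [])
    have := mul_nonneg hK this
    simp only [pow_zero, div_one]
    linarith
  | succ k ih =>
    refine (h1 n _ (ih (2 * n + c0))).mono (fun _ _ h => h) ?_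
    have hn := Nat.cast_nonneg (α := ℝ) n
    have hc := Nat.cast_nonneg (α := ℝ) c0
    have e1 : log (((2 * n + c0 : ℕ) : ℝ) + c0 + 4) ≤ log 2 + log (n + c0 + 4) := by
      rw [← log_mul (by norm_num) (by positivity)]
      refine log_le_log (by positivity) ?_
      push_cast
      linarith
    have e2 : 2 * log 2 ≤ log ((n : ℝ) + c0 + 4) := by
      have : 2 * log 2 = log ((2 : ℝ) ^ 2) := by rw [log_pow]; norm_num
      rw [this]
      exact log_le_log (by positivity) (by linarith)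
    have e3 : log ((n : ℝ) + 2) ≤ log ((n : ℝ) + c0 + 4) :=
      log_le_log (by positivity) (by linarith)
    have e4 : c / 2 ^ k / 2 = c / 2 ^ (k + 1) := by rw [div_div, pow_succ]
    have e5 := mul_le_mul_of_nonneg_left e1 hK
    have e6 := mul_le_mul_of_nonneg_left e2 hK
    have e7 := mul_le_mul_of_nonneg_left e3 hK
    linarith only [e4, e5, e6, e7]

end Pool.Agent.Work.MP_dbf1ea_an
end

-- merged part: Pool.Agent.Work.MP_dbf1ea_an.V.CoreA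
section
/-!
Random windows in a group and their entropy defect.
-/

set_option autoImplicit false

open Finset Real

namespace Pool.Agent.Work.MP_dbf1ea_an.V

open Pool.Agent.Lib.PFR Pool.Agent.Lib.PFR.FP

variable {Γ : Type} {Ω : Type} [Fintype Ω]

/-- The first `k + 1` vertices. -/
def al (k : ℕ) (u : ℕ → Γ) : Fin (k + 1) → Γ := fun l => u l

theorem al_eq {k : ℕ} {u u' : ℕ → Γ} : al k u = al k u' ↔ ∀ l ≤ k, u l = u' l :=
  ⟨fun h l hl => congrFun h ⟨l, Nat.lt_succ_of_le hl⟩,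
    fun h => funext fun l => h l (Nat.le_of_lt_succ l.2)⟩

/-- The reversed window. -/
def rev (k : ℕ) (u : ℕ → Γ) : ℕ → Γ := fun l => u (k - l)

/-- Two windows glued at their initial vertex. -/
def glue (k : ℕ) (u u' : ℕ → Γ) : ℕ → Γ := fun l => if l ≤ k then u (k - l) else u' (l - k)

theorem glue_le {k l : ℕ} (u u' : ℕ → Γ) (h : l ≤ k) : glue k u u' l = u (k - l) := if_pos h

theorem glue_add {k : ℕ} {u u' : ℕ → Γ} (h : u' 0 = u 0) (l : ℕ) : glue k u u' (k + l) = u' l := by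
  rcases Nat.eq_zero_or_pos l with rfl | hl
  · rw [glue_le _ _ (by omega), h]; simp
  · rw [glue, if_neg (by omega)]; simp

theorem ent_al_le (P : FP Ω) (k : ℕ) (v : Ω → ℕ → Γ) (A : Finset Γ)
    (hA : ∀ ω, P.p ω ≠ 0 → ∀ l ≤ k, v ω l ∈ A) :
    P.ent (fun ω => al k (v ω)) ≤ (k + 1) * log A.card := by
  classical
  have := P.ent_le_log (fun ω => al k (v ω)) (Fintype.piFinset fun _ => A)
    fun ω h => Fintype.mem_piFinset.mpr fun l => hA ω h l (Nat.le_of_lt_succ l.2)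
  rw [Fintype.card_piFinset] at this
  simpa using this

variable [Group Γ]

/-- The entropy defect of a random window. -/
noncomputable def Dl (P : FP Ω) (k : ℕ) (v : Ω → ℕ → Γ) : ℝ :=
  2 * P.ent (fun ω => al k (v ω)) - ∑ l ∈ range k, P.ent (fun ω => (v ω l)⁻¹ * v ω (l + 1)) -
    P.ent (fun ω => v ω 0) - P.ent (fun ω => v ω k)

theorem ent_inv_mul (P : FP Ω) (a b : Ω → Γ) :
    P.ent (fun ω => (b ω)⁻¹ * a ω) = P.ent (fun ω => (a ω)⁻¹ * b ω) :=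
  P.ent_congr fun ω ω' => by rw [← inv_inj]; simp only [mul_inv_rev, inv_inv]

theorem sum_rev (P : FP Ω) (k : ℕ) (v : Ω → ℕ → Γ) :
    ∑ l ∈ range k, P.ent (fun ω => (v ω (k - l))⁻¹ * v ω (k - (l + 1))) =
      ∑ l ∈ range k, P.ent (fun ω => (v ω l)⁻¹ * v ω (l + 1)) := by
  rw [← sum_range_reflect]
  refine sum_congr rfl fun l hl => ?_
  have := mem_range.mp hl
  rw [show k - (k - 1 - l) = l + 1 by omega, show k - (k - 1 - l + 1) = l by omega, ent_inv_mul]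

theorem Dl_rev (P : FP Ω) (k : ℕ) (v : Ω → ℕ → Γ) :
    Dl P k (fun ω => rev k (v ω)) = Dl P k v := by
  have e1 : P.ent (fun ω => al k (rev k (v ω))) = P.ent (fun ω => al k (v ω)) :=
    P.ent_congr fun ω ω' => by
      simp only [al_eq, rev]
      refine ⟨fun h l hl => ?_, fun h l _ => h _ (Nat.sub_le _ _)⟩
      have := h (k - l) (Nat.sub_le _ _)
      rwa [show k - (k - l) = l by omega] at this
  simp only [Dl, e1]
  simp only [rev, sum_rev, Nat.sub_zero, Nat.sub_self]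
  ring

theorem Dl_cond {T : Type} (P : FP Ω) (k : ℕ) (v : Ω → ℕ → Γ) (θ : Ω → T) (Θ : Finset T)
    (h : ∀ ω, P.p ω ≠ 0 → θ ω ∈ Θ) :
    Dl P k v ≤ 2 * log Θ.card + P.ex fun ω => Dl (P.fib θ ω) k v := by
  have h1 := le_ex_fib P θ fun ω => al k (v ω)
  have h2 := P.ent_le_log θ Θ h
  have h3 := ex_fib_le P θ fun ω => v ω 0
  have h4 := ex_fib_le P θ fun ω => v ω k
  have h5 := sum_le_sum fun l (_ : l ∈ range k) => ex_fib_le P θ fun ω => (v ω l)⁻¹ * v ω (l + 1)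
  simp only [Dl]
  rw [ex_sub, ex_sub, ex_sub, ex_const_mul, ex_sum]
  linarith only [h1, h2, h3, h4, h5]

theorem Dl_triv (P : FP Ω) (k : ℕ) (v : Ω → ℕ → Γ) (A : Finset Γ)
    (hA : ∀ ω, P.p ω ≠ 0 → ∀ l ≤ k, v ω l ∈ A) : Dl P k v ≤ 2 * (k + 1) * log A.card := by
  have h1 := ent_al_le P k v A hA
  have h2 := sum_nonneg fun l (_ : l ∈ range k) => P.ent_nonneg fun ω => (v ω l)⁻¹ * v ω (l + 1)
  have h3 := P.ent_nonneg fun ω => v ω 0
  have h4 := P.ent_nonneg fun ω => v ω k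
  simp only [Dl]
  linarith only [h1, h2, h3, h4]

theorem Dl_glue (P : FP Ω) (k : ℕ) (v : Ω → ℕ → Γ) :
    Dl (cp P fun ω => v ω 0) (2 * k) (fun z => glue k (v z.1) (v z.2)) = 2 * Dl P k v := by
  set Q := cp P fun ω => v ω 0 with hQ
  have hs : ∀ z, Q.p z ≠ 0 → v z.2 0 = v z.1 0 := fun z hz => (cp_supp hz).2.2
  have e1 : Q.ent (fun z => al (2 * k) (glue k (v z.1) (v z.2))) =
      2 * P.ent (fun ω => al k (v ω)) - P.ent fun ω => v ω 0 := by
    rw [← ent_cp_pair P (fun ω => v ω 0) (fun ω => al k (v ω))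
      fun _ _ h => al_eq.mp h 0 (Nat.zero_le _)]
    refine Q.ent_congr' fun z w hz hw => ?_
    simp only [Prod.mk.injEq, al_eq]
    refine ⟨fun h => ⟨fun l hl => ?_, fun l hl => ?_⟩, fun h l hl => ?_⟩
    · have := h (k - l) (by omega)
      rwa [glue_le _ _ (Nat.sub_le _ _), glue_le _ _ (Nat.sub_le _ _),
        show k - (k - l) = l by omega] at this
    · have := h (k + l) (by omega)
      rwa [glue_add (hs z hz), glue_add (hs w hw)] at this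
    · unfold glue
      split_ifs
      · exact h.1 _ (by omega)
      · exact h.2 _ (by omega)
  have e2 : Q.ent (fun z => glue k (v z.1) (v z.2) 0) = P.ent fun ω => v ω k :=
    (Q.ent_congr fun z w => by
      rw [glue_le _ _ (Nat.zero_le _), glue_le _ _ (Nat.zero_le _), Nat.sub_zero]).trans
      (ent_cp_fst P _ fun ω => v ω k)
  have e3 : Q.ent (fun z => glue k (v z.1) (v z.2) (2 * k)) = P.ent fun ω => v ω k :=
    (Q.ent_congr' fun z w hz hw => by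
      rw [two_mul, glue_add (hs z hz), glue_add (hs w hw)]).trans (ent_cp_snd P _ fun ω => v ω k)
  have e4 : ∑ l ∈ range (2 * k), Q.ent (fun z => (glue k (v z.1) (v z.2) l)⁻¹ *
      glue k (v z.1) (v z.2) (l + 1)) =
      2 * ∑ l ∈ range k, P.ent (fun ω => (v ω l)⁻¹ * v ω (l + 1)) := by
    rw [two_mul, sum_range_add, two_mul]
    congr 1
    · rw [← sum_rev P k v]
      refine sum_congr rfl fun l hl => ?_
      have := mem_range.mp hl
      rw [← ent_cp_fst P (fun ω => v ω 0)]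
      refine Q.ent_congr fun z w => ?_
      have h2 : l + 1 ≤ k := this
      rw [glue_le _ _ this.le, glue_le _ _ this.le, glue_le _ _ h2, glue_le _ _ h2]
    · refine sum_congr rfl fun l hl => ?_
      rw [← ent_cp_snd P (fun ω => v ω 0)]
      refine Q.ent_congr' fun z w hz hw => ?_
      simp only [add_assoc, glue_add (hs z hz), glue_add (hs w hw)]
  simp only [Dl]
  rw [e1, e2, e3, e4]
  ring

/-- The fan of triangles from the initial vertex. -/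
theorem fan {C : Γ → Γ → Prop} {R : ℝ} (h : DB C R) (P : FP Ω) (u : Ω → ℕ → Γ)
    (h0 : ∀ ω, u ω 0 = 1) (k : ℕ)
    (hC : ∀ ω, P.p ω ≠ 0 → ∀ l, l < k + 1 → C (u ω l) (u ω (l + 1))) :
    2 * P.ent (fun ω => al (k + 1) (u ω)) ≤ k * R +
      ∑ l ∈ range (k + 1), P.ent (fun ω => (u ω l)⁻¹ * u ω (l + 1)) +
      P.ent (fun ω => u ω (k + 1)) := by
  induction k with
  | zero =>
    have e1 : P.ent (fun ω => al (0 + 1) (u ω)) ≤ P.ent (fun ω => u ω (0 + 1)) :=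
      P.ent_mono fun ω ω' e => al_eq.mpr fun l hl => by
        rcases Nat.eq_zero_or_pos l with rfl | h1
        · rw [h0, h0]
        · rwa [show l = 0 + 1 by omega]
    simp only [sum_range_succ, range_zero, sum_empty, h0, inv_one, one_mul] at e1 ⊢
    push_cast
    linarith
  | succ k ih =>
    have h1 := ih fun ω hω l hl => hC ω hω l (by omega)
    have h2 := h Ω P (fun ω => u ω (k + 1)) (fun ω => u ω (k + 1 + 1))
      fun ω hω => hC ω hω _ (by omega)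
    have h3 := P.submod (fun ω => al (k + 1) (u ω)) (fun ω => (u ω (k + 1), u ω (k + 1 + 1)))
      (fun ω => u ω (k + 1)) (fun ω => al (k + 1 + 1) (u ω))
      (fun _ _ e => al_eq.mp e _ le_rfl) (fun _ _ e => (Prod.ext_iff.mp e).1)
      fun ω ω' e e' => al_eq.mpr fun l hl => by
        rcases Nat.lt_or_ge l (k + 1 + 1) with h4 | h4
        · exact al_eq.mp e l (by omega)
        · rw [show l = k + 1 + 1 by omega]; exact (Prod.ext_iff.mp e').2
    rw [sum_range_succ _ (k + 1)]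
    push_cast
    linarith only [h1, h2, h3]

/-- The final estimate when both ends know the shape up to short lists. -/
theorem Dl_base {C : Γ → Γ → Prop} {R : ℝ} (h : DB C R) (P : FP Ω) (v : Ω → ℕ → Γ) (k : ℕ)
    (hC : ∀ ω, P.p ω ≠ 0 → ∀ l, l < k + 1 → C ((v ω 0)⁻¹ * v ω l) ((v ω 0)⁻¹ * v ω (l + 1)))
    {T : Type} (α β : Ω → T)
    (hα : ∀ ω ω', (∀ l ≤ k + 1, (v ω 0)⁻¹ * v ω l = (v ω' 0)⁻¹ * v ω' l) → α ω = α ω' ∧ β ω = β ω')
    {e1 e2 e3 : ℝ} (h1 : P.ent (fun ω => (v ω 0, α ω)) ≤ P.ent (fun ω => v ω 0) + e1)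
    (h2 : P.ent (fun ω => (v ω (k + 1), β ω)) ≤ P.ent (fun ω => v ω (k + 1)) + e2)
    (h3 : P.ent (fun ω => (v ω 0)⁻¹ * v ω (k + 1)) ≤ P.ent (fun ω => (α ω, β ω)) + e3) :
    Dl P (k + 1) v ≤ k * R + (e1 + e2 + e3) := by
  have f1 := fan h P (fun ω l => (v ω 0)⁻¹ * v ω l) (fun ω => inv_mul_cancel _) k hC
  simp only [mul_inv_rev, inv_inv, mul_assoc, mul_inv_cancel_left] at f1
  have f2 := P.submod (fun ω => al (k + 1) fun l => (v ω 0)⁻¹ * v ω l) (fun ω => (v ω 0, α ω)) α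
    (fun ω => al (k + 1) (v ω)) (fun _ _ e => (hα _ _ (al_eq.mp e)).1)
    (fun _ _ e => (Prod.ext_iff.mp e).2) fun ω ω' e e' => al_eq.mpr fun l hl => by
      have := al_eq.mp e l hl
      rw [show v ω 0 = v ω' 0 from (Prod.ext_iff.mp e').1] at this
      exact mul_left_cancel this
  have f3 := P.submod (fun ω => al (k + 1) fun l => (v ω 0)⁻¹ * v ω l)
    (fun ω => (v ω (k + 1), β ω)) β
    (fun ω => al (k + 1) (v ω)) (fun _ _ e => (hα _ _ (al_eq.mp e)).2)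
    (fun _ _ e => (Prod.ext_iff.mp e).2) fun ω ω' e e' => al_eq.mpr fun l hl => by
      have g1 := al_eq.mp e l hl
      have g2 := al_eq.mp e (k + 1) le_rfl
      rw [show v ω (k + 1) = v ω' (k + 1) from (Prod.ext_iff.mp e').1] at g2
      rw [mul_right_cancel g2] at g1
      exact mul_left_cancel g1
  have f4 := P.subadd α β (fun ω => (α ω, β ω)) fun _ _ e e' => by rw [e, e']
  simp only [Dl]
  linarith only [h1, h2, h3, f1, f2, f3, f4]

/-- The one-edge window is a triangle. -/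
theorem Dl_one (P : FP Ω) (a b : Ω → Γ) :
    Dl P 1 (fun ω l => if l = 0 then a ω else b ω) = 2 * P.ent (fun ω => (a ω, b ω)) -
      P.ent (fun ω => (a ω)⁻¹ * b ω) - P.ent a - P.ent b := by
  have e1 : P.ent (fun ω => al 1 fun l => if l = 0 then a ω else b ω) =
      P.ent (fun ω => (a ω, b ω)) := P.ent_congr fun ω ω' => by
    simp only [al_eq, Prod.mk.injEq]
    refine ⟨fun h => ⟨by simpa using h 0 (by omega), by simpa using h 1 le_rfl⟩, fun h l _ => ?_⟩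
    rw [h.1, h.2]
  simp only [Dl, e1]
  simp

end Pool.Agent.Work.MP_dbf1ea_an.V
end

-- merged part: Pool.Agent.Work.MP_dbf1ea_an.V.Defs
section
/-!
Definitions for the proof of property RD for cocompact lattices.
-/

set_option autoImplicit false

open scoped Matrix Pointwise Topology

namespace Pool.Agent.Work.MP_dbf1ea_an.V

section mat

variable {ι : Type} [Fintype ι] [DecidableEq ι]

/-- All entries are bounded by `C`. -/
def Bd (C : ℝ) (a : Matrix ι ι ℝ) : Prop := ∀ i j, |a i j| ≤ C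

/-- The entries of `a` and of its inverse are bounded by `C`. -/
def Bd2 (C : ℝ) (a : GL ι ℝ) : Prop := Bd C a.1 ∧ Bd C (a⁻¹).1

/-- The diagonal one-parameter group. -/
noncomputable def dg (l : ι → ℝ) (t : ℝ) : Matrix ι ι ℝ :=
  Matrix.diagonal fun i => Real.exp (t * l i)

/-- A symmetric one-parameter group. -/
noncomputable def pw (U : Matrix ι ι ℝ) (l : ι → ℝ) (t : ℝ) : Matrix ι ι ℝ := U * dg l t * Uᵀ

/-- The subgroup contains all real powers of `aᵀ a` for each of its elements `a`. -/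
def Polar (H : Subgroup (GL ι ℝ)) : Prop :=
  ∀ a ∈ H, ∃ (U : Matrix ι ι ℝ) (l : ι → ℝ), U * Uᵀ = 1 ∧ a.1ᵀ * a.1 = pw U l 2 ∧
    ∀ t, ∃ b ∈ H, b.1 = pw U l t

/-- The Loewner order with a constant. -/
def LeC (c : ℝ) (A B : Matrix ι ι ℝ) : Prop := ∀ v : ι → ℝ, v ⬝ᵥ A *ᵥ v ≤ c * (v ⬝ᵥ B *ᵥ v)

/-- The truncated potential. -/
noncomputable def Phi (J : ℕ) (B : Matrix ι ι ℝ) : ℝ :=
  ∑ j ∈ Finset.Icc (-(J : ℤ)) J, Real.log (B + (2 : ℝ) ^ j • (1 : Matrix ι ι ℝ)).det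

/-- Half the derivative of the potential in the diagonal direction `l`. -/
noncomputable def psi (J : ℕ) (l : ι → ℝ) (B : Matrix ι ι ℝ) : ℝ :=
  -∑ j ∈ Finset.Icc (-(J : ℤ)) J,
    (2 : ℝ) ^ j * ∑ a, l a * (B + (2 : ℝ) ^ j • (1 : Matrix ι ι ℝ))⁻¹ a a

end mat

section lie

variable {V : Type} [NormedAddCommGroup V] [NormedSpace ℝ V]

/-- A continuous bilinear map is a Lie bracket. -/
def IsLie (β : V →L[ℝ] V →L[ℝ] V) : Prop :=
  (∀ x y, β x y = -β y x) ∧ ∀ x y z, β x (β y z) = β (β x y) z + β y (β x z)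

/-- The Killing form. -/
noncomputable def kill (β : V →L[ℝ] V →L[ℝ] V) (x y : V) : ℝ :=
  LinearMap.trace ℝ V ((β x : V →ₗ[ℝ] V) ∘ₗ (β y : V →ₗ[ℝ] V))

/-- The Killing form is nondegenerate. -/
def NonDeg (β : V →L[ℝ] V →L[ℝ] V) : Prop := ∀ x, (∀ y, kill β x y = 0) → x = 0

end lie

section aut

variable {ι : Type} [Fintype ι] [DecidableEq ι]

/-- Brackets on coordinate space. -/
abbrev Br (ι : Type) [Fintype ι] := (ι → ℝ) →L[ℝ] (ι → ℝ) →L[ℝ] (ι → ℝ)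

/-- The automorphism group of a bracket. -/
def aut (β : Br ι) : Subgroup (GL ι ℝ) where
  carrier := {a | ∀ x y, a.1 *ᵥ β x y = β (a.1 *ᵥ x) (a.1 *ᵥ y)}
  one_mem' := fun x y => by simp
  mul_mem' := fun {a b} ha hb x y => by
    simp only [Units.val_mul, ← Matrix.mulVec_mulVec]
    rw [hb, ha]
  inv_mem' := fun {a} ha x y => by
    have h := ha ((a⁻¹).1 *ᵥ x) ((a⁻¹).1 *ᵥ y)
    simp only [Matrix.mulVec_mulVec, Units.mul_inv, Matrix.one_mulVec] at h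
    rw [← h, Matrix.mulVec_mulVec, Units.inv_mul, Matrix.one_mulVec]

/-- `β'` is the transport of `β` along `g`. -/
def Tr (g : GL ι ℝ) (β β' : Br ι) : Prop := ∀ x y, g.1 *ᵥ β' x y = β (g.1 *ᵥ x) (g.1 *ᵥ y)

/-- The squared norm of the structure constants. -/
noncomputable def nrm (β : Br ι) : ℝ :=
  ∑ i, ∑ j, ∑ k, β (Pi.single i 1) (Pi.single j 1) k ^ 2

/-- The bracket has minimal norm in its unimodular orbit. -/
def IsMin (β : Br ι) : Prop :=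
  ∀ (g : GL ι ℝ) (β' : Br ι), |g.1.det| = 1 → Tr g β β' → nrm β ≤ nrm β'

end aut

/-- A local isomorphism onto an open subgroup of a closed self-adjoint linear group. -/
structure Lin (G : Type) [Group G] [TopologicalSpace G] (ι : Type) [Fintype ι] [DecidableEq ι] where
  π : G →* GL ι ℝ
  H : Subgroup (GL ι ℝ)
  cont : Continuous π
  mem : ∀ g, π g ∈ H
  closed : IsClosed (H : Set (GL ι ℝ))
  unim : ∀ a ∈ H, |a.1.det| = 1
  polar : Polar H
  opn : ∀ U ∈ 𝓝 (1 : G), π '' U ∈ 𝓝[(H : Set (GL ι ℝ))] 1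
  disc : ∃ U ∈ 𝓝 (1 : G), ∀ g ∈ U, π g = 1 → g = 1

section grp

variable {Γ : Type} [Group Γ]

/-- The ball of the word metric. -/
def ball (S : Finset Γ) (L : ℕ) : Set Γ := (insert (1 : Γ) ((S : Set Γ) ∪ (S : Set Γ)⁻¹)) ^ L

/-- Coarse stabilisers of norms have uniformly polynomial growth. -/
def UP {ι : Type} [Fintype ι] [DecidableEq ι] (S : Finset Γ) (ρ : Γ →* GL ι ℝ) : Prop :=
  ∀ C : ℝ, ∃ a d : ℕ, ∀ (g : GL ι ℝ) (L : ℕ), ∃ F : Finset Γ, F.card ≤ a * (L + 1) ^ d ∧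
    ∀ γ ∈ ball S L, Bd2 C (g⁻¹ * ρ γ * g) → γ ∈ F

end grp

end Pool.Agent.Work.MP_dbf1ea_an.V
end

-- merged part: Pool.Agent.Work.MP_dbf1ea_an.V.CoreC
section
/-!
Truncated comparison of seminorms, the rank lemma, word balls and the norm of a window.
-/

set_option autoImplicit false

open Finset Real
open scoped Matrix Pointwise

namespace Pool.Agent.Work.MP_dbf1ea_an.V

section sn

variable {V : Type} [NormedAddCommGroup V] [NormedSpace ℝ V]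

/-- A seminorm. -/
structure IsSn (p : V → ℝ) : Prop where
  nn : ∀ x, 0 ≤ p x
  add : ∀ x y, p (x + y) ≤ p x + p y
  smul : ∀ (t : ℝ) x, p (t • x) = |t| * p x

/-- Comparison above the scale `s`. -/
def Le (C s : ℝ) (p q : V → ℝ) : Prop := ∀ ξ, p ξ ≤ C * (q ξ + s * ‖ξ‖)

/-- The seminorm is at least `c` on a subspace of dimension `j`. -/
def Rk (j : ℕ) (c : ℝ) (p : V → ℝ) : Prop :=
  ∃ W : Submodule ℝ V, j ≤ Module.finrank ℝ W ∧ ∀ w ∈ W, c * ‖w‖ ≤ p w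

omit [NormedSpace ℝ V] in
theorem Le.mono {C C' s s' : ℝ} {p q : V → ℝ} (h : Le C s p q) (hq : ∀ x, 0 ≤ q x) (h0 : 0 ≤ C)
    (h1 : C ≤ C') (h2 : 0 ≤ s) (h3 : s ≤ s') : Le C' s' p q := fun ξ =>
  (h ξ).trans (mul_le_mul h1 (by gcongr) (add_nonneg (hq ξ) (by positivity)) (h0.trans h1))

omit [NormedSpace ℝ V] in
theorem Le.trans {C C' s : ℝ} {p q r : V → ℝ} (h : Le C s p q) (h' : Le C' s q r)
    (hr : ∀ x, 0 ≤ r x) (h0 : 0 ≤ C) : Le (C * (C' + 1)) s p r := fun ξ => by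
  refine (h ξ).trans ?_
  rw [mul_assoc]
  refine mul_le_mul_of_nonneg_left ?_ h0
  have := h' ξ
  have := hr ξ
  linarith

theorem Rk.mono {j : ℕ} {c c' : ℝ} {p q : V → ℝ} (h : Rk j c p) {e : ℝ} (he : 0 ≤ e)
    (h1 : c' ≤ e * c) (h2 : ∀ x, e * p x ≤ q x) : Rk j c' q := by
  obtain ⟨W, h3, h4⟩ := h
  refine ⟨W, h3, fun w hw => le_trans ?_ (h2 w)⟩
  have := mul_le_mul_of_nonneg_left (h4 w hw) he
  have := mul_le_mul_of_nonneg_right h1 (norm_nonneg w)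
  linarith

theorem rk_succ [FiniteDimensional ℝ V] {p q : V → ℝ} (hp : IsSn p) (hq : IsSn q) {j : ℕ}
    {c C s s' : ℝ} (hc : 0 < c) (hC : 1 ≤ C) (h0 : 0 ≤ s') (h1 : s' ≤ s) (hr : Rk j (c * s) q)
    (hle : Le C s p q) (hn : ¬ Le (2 * (C * (1 + c⁻¹))) s' p q) :
    Rk (j + 1) (s' / (2 * c⁻¹ + 1)) fun x => p x + q x := by
  obtain ⟨W, hW, hw⟩ := hr
  obtain ⟨ξ, hξ⟩ := not_forall.mp hn
  rw [not_le] at hξ
  have hc' : 0 < c⁻¹ := inv_pos.mpr hc
  set C1 := C * (1 + c⁻¹) with hC1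
  have hC1' : 1 ≤ C1 := one_le_mul_of_one_le_of_one_le hC (by linarith only [hc'])
  have k0 : ∀ w ∈ W, s * ‖w‖ ≤ c⁻¹ * q w := fun w h => by
    rw [le_inv_mul_iff₀ hc, ← mul_assoc]; exact hw w h
  have k1 : ∀ w ∈ W, p w ≤ C1 * q w := fun w h => by
    refine (hle w).trans ?_
    rw [hC1, mul_assoc]
    refine mul_le_mul_of_nonneg_left ?_ (by linarith only [hC])
    have := k0 w h
    linarith only [this]
  have k2 : ξ ∉ W := fun h => by
    have := k1 ξ h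
    have := mul_nonneg (by linarith only [hC1'] : 0 ≤ C1) (hq.nn ξ)
    have := mul_nonneg (by linarith only [hC1'] : 0 ≤ C1) (mul_nonneg h0 (norm_nonneg ξ))
    nlinarith
  refine ⟨W ⊔ Submodule.span ℝ {ξ}, ?_, fun x hx => ?_⟩
  · refine Nat.succ_le_of_lt (hW.trans_lt (Submodule.finrank_lt_finrank_of_lt ?_))
    refine lt_of_le_of_ne le_sup_left fun h => k2 ?_
    rw [h]
    exact Submodule.mem_sup_right (Submodule.mem_span_singleton_self ξ)
  · obtain ⟨w, hwW, y, hy, rfl⟩ := Submodule.mem_sup.mp hx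
    obtain ⟨t, rfl⟩ := Submodule.mem_span_singleton.mp hy
    have a1 := hp.add (w + t • ξ) ((-1 : ℝ) • w)
    have a2 := hq.add (w + t • ξ) ((-t) • ξ)
    rw [show w + t • ξ + (-1 : ℝ) • w = t • ξ by module, hp.smul, hp.smul] at a1
    rw [show w + t • ξ + (-t) • ξ = w by module, hq.smul, abs_neg] at a2
    simp only [abs_neg, abs_one, one_mul] at a1
    have a3 := mul_le_mul_of_nonneg_left hξ.le (abs_nonneg t)
    have a4 := k1 w hwW
    have a5 := k0 w hwW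
    have a6 : ‖w + t • ξ‖ ≤ ‖w‖ + |t| * ‖ξ‖ := by
      rw [← Real.norm_eq_abs, ← norm_smul]; exact norm_add_le _ _
    set X := p (w + t • ξ)
    set Y := q (w + t • ξ)
    have hX : 0 ≤ X := hp.nn _
    have hY : 0 ≤ Y := hq.nn _
    set Z1 := |t| * q ξ with hZ1
    set Z2 := |t| * (s' * ‖ξ‖) with hZ2
    have hZ1' : 0 ≤ Z1 := mul_nonneg (abs_nonneg t) (hq.nn ξ)
    have hZ2' : 0 ≤ Z2 := by positivity
    have b1 : 2 * C1 * (Z1 + Z2) ≤ X + C1 * (Y + Z1) := by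
      have := mul_le_mul_of_nonneg_left a2 (by linarith only [hC1'] : 0 ≤ C1)
      calc _ = |t| * (2 * C1 * (q ξ + s' * ‖ξ‖)) := by rw [hZ1, hZ2]; ring
        _ ≤ _ := by linarith only [a3, a4, a1, this]
    have b2 : Z1 + Z2 ≤ X + Y := by
      refine le_of_mul_le_mul_left ?_ (by linarith only [hC1'] : 0 < C1)
      linarith only [hZ2', b1, hC1', hX, mul_nonneg_of_nonpos_of_nonpos (Mathlib.Tactic.Linarith.sub_nonpos_of_le hC1') (Mathlib.Tactic.Linarith.sub_nonpos_of_le hX), mul_nonneg_of_nonpos_of_nonpos (Mathlib.Tactic.Linarith.sub_nonpos_of_le hC1') (Mathlib.Tactic.Linarith.sub_nonpos_of_le hZ2')]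
    have b3 : s' * ‖w‖ ≤ c⁻¹ * (2 * (X + Y)) := by
      refine (mul_le_mul_of_nonneg_right h1 (norm_nonneg w)).trans (a5.trans ?_)
      exact mul_le_mul_of_nonneg_left (by linarith only [hX, a2, hZ2', b2]) hc'.le
    rw [div_mul_eq_mul_div, div_le_iff₀ (by positivity)]
    have b4 := mul_le_mul_of_nonneg_left a6 h0
    have b5 : s' * (|t| * ‖ξ‖) = Z2 := by rw [hZ2]; ring
    linarith only [hZ1', b2, b3, b4]

end sn

section ball

variable {Γ : Type} [Group Γ] {S : Finset Γ}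

theorem ball_mul {L L' : ℕ} {a b : Γ} (ha : a ∈ ball S L) (hb : b ∈ ball S L') :
    a * b ∈ ball S (L + L') := by
  rw [ball, pow_add]; exact Set.mul_mem_mul ha hb

theorem ball_inv {L : ℕ} {a : Γ} (ha : a ∈ ball S L) : a⁻¹ ∈ ball S L := by
  have : (insert (1 : Γ) ((S : Set Γ) ∪ (S : Set Γ)⁻¹))⁻¹ =
      insert (1 : Γ) ((S : Set Γ) ∪ (S : Set Γ)⁻¹) := by
    ext x
    simp only [Set.mem_inv, Set.mem_insert_iff, Set.mem_union, inv_inv, inv_eq_one]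
    tauto
  rw [ball, ← this, inv_pow]
  exact Set.inv_mem_inv.mpr ha

theorem ball_mono {L L' : ℕ} (h : L ≤ L') {a : Γ} (ha : a ∈ ball S L) : a ∈ ball S L' :=
  Set.pow_subset_pow_right (Set.mem_insert _ _) h ha

theorem one_mem_ball (L : ℕ) : (1 : Γ) ∈ ball S L := Set.one_mem_pow (Set.mem_insert _ _)

theorem exists_ball (hS : Subgroup.closure (S : Set Γ) = ⊤) (γ : Γ) : ∃ L, γ ∈ ball S L := by
  have : γ ∈ Subgroup.closure (S : Set Γ) := hS ▸ Subgroup.mem_top γ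
  induction this using Subgroup.closure_induction with
  | mem x hx => exact ⟨1, by rw [ball, pow_one]; exact Or.inr (Or.inl hx)⟩
  | one => exact ⟨0, one_mem_ball 0⟩
  | mul x y _ _ hx hy =>
    obtain ⟨a, ha⟩ := hx
    obtain ⟨b, hb⟩ := hy
    exact ⟨_, ball_mul ha hb⟩
  | inv x _ hx => exact hx.imp fun _ h => ball_inv h

theorem ball_card (S : Finset Γ) : ∃ σ : ℝ, 0 ≤ σ ∧ ∀ L : ℕ, ∃ B : Finset Γ,
    (∀ γ ∈ ball S L, γ ∈ B) ∧ log B.card ≤ σ * L := by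
  classical
  set T : Finset Γ := insert 1 (S ∪ S⁻¹) with hT
  refine ⟨log T.card, log_natCast_nonneg _, fun L => ⟨T ^ L, fun γ h => ?_, ?_⟩⟩
  · rw [← mem_coe, coe_pow, hT, coe_insert, coe_union, coe_inv]; exact h
  · rw [mul_comm, ← log_pow]
    refine log_le_log ?_ (by exact_mod_cast card_pow_le)
    exact_mod_cast card_pos.mpr ⟨1, one_mem_pow (mem_insert_self _ _)⟩

/-- The vertices lie in the ball of radius `L` and the edges have length at most `m`. -/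
def Gd (S : Finset Γ) (L m k : ℕ) (u : ℕ → Γ) : Prop :=
  (∀ l ≤ k, u l ∈ ball S L) ∧ ∀ l < k, (u l)⁻¹ * u (l + 1) ∈ ball S m

theorem Gd.rev {L m k : ℕ} {u : ℕ → Γ} (h : Gd S L m k u) : Gd S L m k (rev k u) := by
  refine ⟨fun l _ => h.1 _ (Nat.sub_le _ _), fun l hl => ?_⟩
  have := ball_inv (h.2 (k - (l + 1)) (by omega))
  rwa [mul_inv_rev, inv_inv, show k - (l + 1) + 1 = k - l by omega] at this

theorem Gd.glue {L m k : ℕ} {u u' : ℕ → Γ} (h : Gd S L m k u) (h' : Gd S L m k u')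
    (e : u' 0 = u 0) : Gd S L m (2 * k) (glue k u u') := by
  refine ⟨fun l hl => ?_, fun l hl => ?_⟩
  · unfold V.glue
    split_ifs
    · exact h.1 _ (by omega)
    · exact h'.1 _ (by omega)
  · rcases Nat.lt_or_ge l k with h1 | h1
    · have h2 : l + 1 ≤ k := h1
      rw [glue_le _ _ h1.le, glue_le _ _ h2]
      exact h.rev.2 l h1
    · obtain ⟨i, rfl⟩ := Nat.exists_eq_add_of_le h1
      rw [add_assoc, glue_add e, glue_add e]
      exact h'.2 i (by omega)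

theorem Gd.far {L m k : ℕ} {u : ℕ → Γ} (h : Gd S L m k u) {l : ℕ} (hl : l ≤ k) :
    (u 0)⁻¹ * u l ∈ ball S (l * m) := by
  induction l with
  | zero => rw [inv_mul_cancel]; exact one_mem_ball _
  | succ l ih =>
    have := ball_mul (ih (by omega)) (h.2 l hl)
    rwa [mul_assoc, mul_inv_cancel_left, ← Nat.succ_mul] at this

end ball

section pn

variable {ι : Type} [Fintype ι] [DecidableEq ι] {Γ : Type} [Group Γ] {S : Finset Γ}
  (ρ : Γ →* GL ι ℝ)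

theorem exists_lam (S : Finset Γ) : ∃ Λ : ℝ, 1 ≤ Λ ∧
    ∀ L, ∀ γ ∈ ball S L, ∀ ξ : ι → ℝ, ‖(ρ γ).1 *ᵥ ξ‖ ≤ Λ ^ L * ‖ξ‖ := by
  classical
  have h1 : ∀ γ, ∃ c : ℝ, ∀ ξ : ι → ℝ, ‖(ρ γ).1 *ᵥ ξ‖ ≤ c * ‖ξ‖ := fun γ =>
    ⟨_, (LinearMap.toContinuousLinearMap (Matrix.mulVecLin (ρ γ).1)).le_opNorm⟩
  choose c hc using h1
  obtain ⟨Λ, hΛ⟩ := ((insert 1 (S ∪ S⁻¹) : Finset Γ).image c).bddAbove
  refine ⟨max Λ 1, le_max_right _ _, fun L => ?_⟩
  induction L with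
  | zero =>
    intro γ h ξ
    rw [ball, pow_zero, Set.mem_one] at h
    simp [h]
  | succ L ih =>
    intro γ h ξ
    rw [ball, pow_succ] at h
    obtain ⟨a, ha, b, hb, rfl⟩ := h
    have h2 : c b ≤ max Λ 1 := le_trans (hΛ (by
      rw [coe_image, coe_insert, coe_union, coe_inv]; exact ⟨b, hb, rfl⟩)) (le_max_left _ _)
    simp only [map_mul, Units.val_mul, ← Matrix.mulVec_mulVec]
    refine (ih a ha _).trans ?_
    rw [pow_succ, mul_assoc]
    exact mul_le_mul_of_nonneg_left ((hc b ξ).trans (by gcongr)) (by positivity)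

/-- The norm of a window. -/
noncomputable def pn (k : ℕ) (u : ℕ → Γ) (ξ : ι → ℝ) : ℝ :=
  ∑ l ∈ range (k + 1), ‖(ρ (u l)⁻¹).1 *ᵥ ξ‖

theorem pn_sn (k : ℕ) (u : ℕ → Γ) : IsSn (pn ρ k u) where
  nn := fun _ => sum_nonneg fun _ _ => norm_nonneg _
  add := fun x y => by
    simp only [pn, ← sum_add_distrib, Matrix.mulVec_add]
    exact sum_le_sum fun _ _ => norm_add_le _ _
  smul := fun t x => by
    simp only [pn, Matrix.mulVec_smul, norm_smul, Real.norm_eq_abs, mul_sum]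

theorem pn_rev (k : ℕ) (u : ℕ → Γ) : pn ρ k (rev k u) = pn ρ k u := funext fun ξ =>
  sum_range_reflect (fun l => ‖(ρ (u l)⁻¹).1 *ᵥ ξ‖) (k + 1)

theorem pn_glue {k : ℕ} {u u' : ℕ → Γ} (e : u' 0 = u 0) (ξ : ι → ℝ) :
    pn ρ k u ξ ≤ pn ρ (2 * k) (glue k u u') ξ ∧ pn ρ k u' ξ ≤ pn ρ (2 * k) (glue k u u') ξ ∧
      pn ρ (2 * k) (glue k u u') ξ ≤ pn ρ k u ξ + pn ρ k u' ξ := by
  have e1 : pn ρ (2 * k) (glue k u u') ξ =
      ∑ l ∈ range k, ‖(ρ (u (l + 1))⁻¹).1 *ᵥ ξ‖ + pn ρ k u' ξ := by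
    rw [pn, show 2 * k + 1 = k + (k + 1) by ring, sum_range_add, pn, ← sum_range_reflect _ k]
    congr 1
    · refine sum_congr rfl fun l hl => ?_
      have := mem_range.mp hl
      rw [glue_le _ _ (by omega), show k - (k - 1 - l) = l + 1 by omega]
    · simp only [glue_add e]
  have e2 : pn ρ k u ξ = ∑ l ∈ range k, ‖(ρ (u (l + 1))⁻¹).1 *ᵥ ξ‖ + ‖(ρ (u 0)⁻¹).1 *ᵥ ξ‖ :=
    sum_range_succ' _ k
  have e3 : ‖(ρ (u' 0)⁻¹).1 *ᵥ ξ‖ ≤ pn ρ k u' ξ :=
    single_le_sum (f := fun l => ‖(ρ (u' l)⁻¹).1 *ᵥ ξ‖) (fun _ _ => norm_nonneg _)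
      (mem_range.mpr (Nat.succ_pos k))
  have e4 : 0 ≤ ∑ l ∈ range k, ‖(ρ (u (l + 1))⁻¹).1 *ᵥ ξ‖ := sum_nonneg fun _ _ => norm_nonneg _
  have e5 := norm_nonneg ((ρ (u 0)⁻¹).1 *ᵥ ξ)
  rw [e] at e3
  refine ⟨?_, ?_, ?_⟩ <;> linarith only [e1, e2, e3, e4, e5]

variable {ρ} {Λ : ℝ} (hΛ : ∀ L, ∀ γ ∈ ball S L, ∀ ξ : ι → ℝ, ‖(ρ γ).1 *ᵥ ξ‖ ≤ Λ ^ L * ‖ξ‖)

include hΛ in
theorem pn_lower {L k : ℕ} {u : ℕ → Γ} (h : u 0 ∈ ball S L) (h1 : 1 ≤ Λ) (ξ : ι → ℝ) :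
    ‖ξ‖ ≤ Λ ^ L * pn ρ k u ξ := by
  have e3 : ‖(ρ (u 0)⁻¹).1 *ᵥ ξ‖ ≤ pn ρ k u ξ :=
    single_le_sum (f := fun l => ‖(ρ (u l)⁻¹).1 *ᵥ ξ‖) (fun _ _ => norm_nonneg _)
      (mem_range.mpr (Nat.succ_pos k))
  have := hΛ L _ h ((ρ (u 0)⁻¹).1 *ᵥ ξ)
  rw [Matrix.mulVec_mulVec, ← Units.val_mul, ← map_mul, mul_inv_cancel, map_one, Units.val_one,
    Matrix.one_mulVec] at this
  exact this.trans (mul_le_mul_of_nonneg_left e3 (by positivity))

include hΛ in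
theorem pn_upper {L k : ℕ} {u : ℕ → Γ} (h : ∀ l ≤ k, u l ∈ ball S L) (ξ : ι → ℝ) :
    pn ρ k u ξ ≤ (k + 1) * (Λ ^ L * ‖ξ‖) := by
  have := sum_le_card_nsmul (range (k + 1)) (fun l => ‖(ρ (u l)⁻¹).1 *ᵥ ξ‖) (Λ ^ L * ‖ξ‖)
    fun l hl => hΛ L _ (ball_inv (h l (Nat.le_of_lt_succ (mem_range.mp hl)))) ξ
  simpa [pn] using this

end pn

end Pool.Agent.Work.MP_dbf1ea_an.V
end

-- merged part: Pool.Agent.Work.MP_dbf1ea_an.V.PMin
section
/-!
Minimisers of the potential on an orbit, with bounds independent of the truncation.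
-/

set_option autoImplicit false

open scoped Matrix Pointwise Topology

namespace Pool.Agent.Work.MP_dbf1ea_an.V

variable {ι : Type} [Fintype ι] [DecidableEq ι]

omit [Fintype ι] [DecidableEq ι] in
theorem PMin_compact (C : ℝ) : IsCompact {a : Matrix ι ι ℝ | Bd C a} := by
  have h : IsCompact (Set.univ.pi fun _ : ι => Set.univ.pi fun _ : ι => Set.Icc (-C) C) :=
    isCompact_univ_pi fun _ => isCompact_univ_pi fun _ => isCompact_Icc
  have e : {a : ι → ι → ℝ | ∀ i j, |a i j| ≤ C} =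
      Set.univ.pi fun _ : ι => Set.univ.pi fun _ : ι => Set.Icc (-C) C := by
    ext a
    simp only [Set.mem_ofPred_eq, Set.mem_pi, Set.mem_univ, Set.mem_Icc, abs_le, true_imp_iff]
  rw [← e] at h
  exact h

theorem isCompact_Bd2 (C : ℝ) : IsCompact {a : GL ι ℝ | Bd2 C a} :=
  Units.isClosedEmbedding_embedProduct.isCompact_preimage ((PMin_compact C).prod
    (MulOpposite.opHomeomorph.symm.isCompact_preimage.2 (PMin_compact C)))

theorem PMin_diag (a : Matrix ι ι ℝ) : ∃ (U : Matrix ι ι ℝ) (b : ι → ℝ), U * Uᵀ = 1 ∧ Uᵀ * U = 1 ∧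
    (∀ i, 0 ≤ b i) ∧ a * aᵀ = U * Matrix.diagonal b * Uᵀ := by
  have hB := Matrix.isHermitian_mul_conjTranspose_self a
  refine ⟨hB.eigenvectorUnitary, hB.eigenvalues, ?_, ?_,
    Matrix.eigenvalues_self_mul_conjTranspose_nonneg a, ?_⟩
  · simpa [Matrix.star_eq_conjTranspose] using hB.eigenvectorUnitary.2.2
  · simpa [Matrix.star_eq_conjTranspose] using hB.eigenvectorUnitary.2.1
  · simpa [Matrix.star_eq_conjTranspose] using hB.spectral_theorem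

omit [DecidableEq ι] in
theorem PMin_trace (a : Matrix ι ι ℝ) : (a * aᵀ).trace = ∑ i, ∑ j, a i j ^ 2 := by
  simp [Matrix.trace, Matrix.mul_apply, sq]

theorem PMin_spec (a : GL ι ℝ) : ∃ b : ι → ℝ, (∀ i, 0 < b i) ∧ ∏ i, b i = a.1.det ^ 2 ∧
    (∀ s : ℝ, (a.1 * a.1ᵀ + s • (1 : Matrix ι ι ℝ)).det = ∏ i, (b i + s)) ∧
    ∑ i, ∑ j, a.1 i j ^ 2 = ∑ i, b i ∧ ∑ i, ∑ j, (a⁻¹).1 i j ^ 2 = ∑ i, (b i)⁻¹ := by
  obtain ⟨U, b, h1, h2, h3, h4⟩ := PMin_diag a.1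
  have hd : ∀ c : ι → ℝ, (U * Matrix.diagonal c * Uᵀ).det = ∏ i, c i := fun c => by
    rw [Matrix.det_mul, Matrix.det_mul, mul_right_comm, ← Matrix.det_mul, h1, Matrix.det_one,
      one_mul, Matrix.det_diagonal]
  have ht : ∀ c : ι → ℝ, (U * Matrix.diagonal c * Uᵀ).trace = ∑ i, c i := fun c => by
    rw [Matrix.trace_mul_cycle, h2, Matrix.one_mul, Matrix.trace_diagonal]
  have h5 : ∏ i, b i = a.1.det ^ 2 := by
    rw [← hd, ← h4, Matrix.det_mul, Matrix.det_transpose, sq]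
  have h6 : ∀ i, 0 < b i := fun i => (h3 i).lt_of_ne' (Finset.prod_ne_zero_iff.1
    (h5 ▸ pow_ne_zero 2 a.det_ne_zero) i (Finset.mem_univ i))
  refine ⟨b, h6, h5, fun s => ?_, by rw [← PMin_trace, h4, ht], ?_⟩
  · rw [← hd, h4]
    congr 1
    rw [← Matrix.diagonal_add, Matrix.mul_add, Matrix.add_mul, ← Matrix.smul_one_eq_diagonal,
      Matrix.mul_smul, Matrix.smul_mul, Matrix.mul_one, h1]
  · rw [← PMin_trace, Matrix.trace_mul_comm, ← ht]
    congr 1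
    have h7 : (a⁻¹).1ᵀ * (a⁻¹).1 * (a.1 * a.1ᵀ) = 1 := by
      rw [Matrix.mul_assoc, ← Matrix.mul_assoc (a⁻¹).1, Units.inv_mul, Matrix.one_mul,
        ← Matrix.transpose_mul, Units.mul_inv, Matrix.transpose_one]
    have h8 : a.1 * a.1ᵀ * (U * Matrix.diagonal (fun i => (b i)⁻¹) * Uᵀ) = 1 := by
      rw [h4]
      simp only [Matrix.mul_assoc]
      rw [← Matrix.mul_assoc Uᵀ, h2, Matrix.one_mul, ← Matrix.mul_assoc (Matrix.diagonal b),
        Matrix.diagonal_mul_diagonal]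
      simp only [fun i => mul_inv_cancel₀ (h6 i).ne', Matrix.diagonal_one, Matrix.one_mul, h1]
    exact left_inv_eq_right_inv h7 h8

/-- The normalised term of the potential. -/
noncomputable def PMin_t (b : ι → ℝ) (s : ℝ) : ℝ := ∑ i, (Real.log (b i + s) - Real.log (1 + s))

omit [DecidableEq ι] in
theorem PMin_log {b : ι → ℝ} (hb : ∀ i, 0 < b i) (h : ∏ i, b i = 1) : ∑ i, Real.log (b i) = 0 := by
  rw [← Real.log_prod fun i _ => (hb i).ne', h, Real.log_one]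

omit [DecidableEq ι] in
theorem PMin_t_nonneg {b : ι → ℝ} (hb : ∀ i, 0 < b i) (h : ∏ i, b i = 1) {s : ℝ} (hs : 0 < s) :
    0 ≤ PMin_t b s := by
  have h1 : 0 < 1 + s := by positivity
  refine le_trans (le_of_eq ?_) (Finset.sum_le_sum (f := fun i => (1 + s)⁻¹ * Real.log (b i))
    fun i _ => ?_)
  · rw [← Finset.mul_sum, PMin_log hb h, mul_zero]
  · have h2 := strictConcaveOn_log_Ioi.concaveOn.2 (hb i) (Set.mem_Ioi.2 one_pos)
      (show 0 ≤ (1 + s)⁻¹ by positivity) (show 0 ≤ s / (1 + s) by positivity) (by field_simp)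
    have h3 := hb i
    rw [← Real.log_div (by positivity) h1.ne']
    simp only [smul_eq_mul, Real.log_one, mul_zero, add_zero, mul_one] at h2
    refine h2.trans (le_of_eq ?_)
    congr 1
    field_simp

omit [DecidableEq ι] in
theorem PMin_inv {b : ι → ℝ} (hb : ∀ i, 0 < b i) (h : ∏ i, b i = 1) {s : ℝ} (hs : 0 < s) :
    ∑ i, Real.log (b i + s) = ∑ i, Real.log (1 + s * (b i)⁻¹) := by
  rw [← zero_add (∑ i, Real.log (1 + s * (b i)⁻¹)), ← PMin_log hb h, ← Finset.sum_add_distrib]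
  refine Finset.sum_congr rfl fun i _ => ?_
  have := hb i
  rw [← Real.log_mul this.ne' (by positivity)]
  congr 1
  field_simp

omit [DecidableEq ι] in
theorem PMin_t_le {b : ι → ℝ} (hb : ∀ i, 0 < b i) (h : ∏ i, b i = 1) {s : ℝ} (hs : 0 < s) :
    PMin_t b s ≤ (∑ i, b i + ∑ i, (b i)⁻¹) * s⁻¹ ∧ PMin_t b s ≤ (∑ i, b i + ∑ i, (b i)⁻¹) * s := by
  have h1 : 0 ≤ ∑ i, b i := Finset.sum_nonneg fun i _ => (hb i).le
  have h2 : 0 ≤ ∑ i, (b i)⁻¹ := Finset.sum_nonneg fun i _ => (inv_pos.2 (hb i)).le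
  constructor
  · refine le_trans ?_ (mul_le_mul_of_nonneg_right (le_add_of_nonneg_right h2) (inv_pos.2 hs).le)
    rw [Finset.sum_mul]
    refine Finset.sum_le_sum fun i _ => ?_
    have h3 := hb i
    have h4 := Real.log_le_log hs (le_add_of_nonneg_left zero_le_one)
    have h5 := Real.log_le_sub_one_of_pos (show 0 < (b i + s) / s by positivity)
    rw [Real.log_div (by positivity) hs.ne', add_div, div_self hs.ne', div_eq_mul_inv] at h5
    linarith only [h4, h5]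
  · refine le_trans ?_ (mul_le_mul_of_nonneg_right (le_add_of_nonneg_left h1) hs.le)
    rw [PMin_t, Finset.sum_sub_distrib, PMin_inv hb h hs, ← Finset.sum_sub_distrib, Finset.sum_mul]
    refine Finset.sum_le_sum fun i _ => ?_
    have h3 := hb i
    have h4 := Real.log_nonneg (le_add_of_nonneg_right hs.le : (1 : ℝ) ≤ 1 + s)
    have h5 := Real.log_le_sub_one_of_pos (show 0 < 1 + s * (b i)⁻¹ by positivity)
    linarith only [h4, h5]

theorem PMin_geom {f : ℤ → ℝ} {c : ℝ} (h : ∀ j : ℤ, f j ≤ c * (2 ^ j)⁻¹ ∧ f j ≤ c * 2 ^ j) (J : ℕ) :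
    ∑ j ∈ Finset.Icc (-(J : ℤ)) J, f j ≤ 3 * c - 2 * c * (2 ^ J)⁻¹ := by
  induction J with
  | zero =>
    have := (h 0).2
    simp only [Nat.cast_zero, neg_zero, Finset.Icc_self, Finset.sum_singleton]
    norm_num at this ⊢
    linarith
  | succ J ih =>
    have e : Finset.Icc (-((J + 1 : ℕ) : ℤ)) (J + 1 : ℕ) =
        insert (-((J + 1 : ℕ) : ℤ)) (insert ((J + 1 : ℕ) : ℤ) (Finset.Icc (-(J : ℤ)) J)) := by
      ext j
      simp only [Finset.mem_Icc, Finset.mem_insert]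
      omega
    rw [e, Finset.sum_insert (by simp only [Finset.mem_Icc, Finset.mem_insert]; omega),
      Finset.sum_insert (by simp only [Finset.mem_Icc]; omega)]
    have h1 := (h ((J + 1 : ℕ) : ℤ)).1
    have h2 := (h (-((J + 1 : ℕ) : ℤ))).2
    rw [zpow_neg, zpow_natCast] at h2
    rw [zpow_natCast] at h1
    have h3 : ((2 : ℝ) ^ J)⁻¹ = 2 * (2 ^ (J + 1))⁻¹ := by
      rw [pow_succ]
      field_simp
    rw [h3] at ih
    linarith only [ih, h1, h2]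

theorem PMin_phi (J : ℕ) {B : Matrix ι ι ℝ} {b : ι → ℝ} (hb : ∀ i, 0 < b i)
    (h : ∀ s : ℝ, (B + s • (1 : Matrix ι ι ℝ)).det = ∏ i, (b i + s)) :
    Phi J B = ∑ j ∈ Finset.Icc (-(J : ℤ)) J, PMin_t b (2 ^ j) +
      ∑ j ∈ Finset.Icc (-(J : ℤ)) J, ∑ _i : ι, Real.log (1 + 2 ^ j) := by
  rw [Phi, ← Finset.sum_add_distrib]
  refine Finset.sum_congr rfl fun j _ => ?_
  rw [h, PMin_t, Finset.sum_sub_distrib, sub_add_cancel, Real.log_prod fun i _ => ?_]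
  have := hb i
  positivity

omit [DecidableEq ι] in
theorem PMin_entry {a : Matrix ι ι ℝ} {c : ι → ℝ} (h : ∑ i, ∑ j, a i j ^ 2 = ∑ i, c i) {M : ℝ}
    (hc : ∀ i, 0 < c i) (hM : ∑ i, Real.log (1 + c i) ≤ M) :
    Bd (1 + ∑ _i : ι, Real.exp M) a := by
  intro i j
  have h1 : ∀ i, c i ≤ Real.exp M := fun i => by
    have h2 := (Finset.single_le_sum (f := fun i => Real.log (1 + c i))
      (fun i _ => Real.log_nonneg (le_add_of_nonneg_right (hc i).le)) (Finset.mem_univ i)).trans hM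
    have h3 := hc i
    rw [Real.log_le_iff_le_exp (by positivity)] at h2
    linarith
  have h2 : a i j ^ 2 ≤ ∑ _i : ι, Real.exp M :=
    ((Finset.single_le_sum (f := fun j => a i j ^ 2) (fun _ _ => sq_nonneg _)
      (Finset.mem_univ j)).trans (Finset.single_le_sum (f := fun i => ∑ j, a i j ^ 2)
        (fun _ _ => Finset.sum_nonneg fun _ _ => sq_nonneg _) (Finset.mem_univ i))).trans
      (h.le.trans (Finset.sum_le_sum fun i _ => h1 i))
  rw [← sq_abs] at h2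
  linarith only [h2, sq_nonneg (|a i j| - 1), abs_nonneg (a i j), sq_nonneg (|a i j| - (1 : ℝ)), sq_nonneg |a i j|]

theorem PMin_bound (g : GL ι ℝ) (hg : |g.1.det| = 1) : ∃ M : ℝ, ∀ (J : ℕ) (a : GL ι ℝ),
    |a.1.det| = 1 → Phi J (a.1 * a.1ᵀ) ≤ Phi J (g.1 * g.1ᵀ) → Bd2 M a := by
  obtain ⟨c, c1, c2, c3, -⟩ := PMin_spec g
  rw [← sq_abs, hg, one_pow] at c2
  obtain ⟨C, hC⟩ : ∃ C, C = ∑ i, c i + ∑ i, (c i)⁻¹ := ⟨_, rfl⟩
  have C0 : 0 ≤ C := hC ▸ add_nonneg (Finset.sum_nonneg fun i _ => (c1 i).le)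
    (Finset.sum_nonneg fun i _ => (inv_pos.2 (c1 i)).le)
  refine ⟨1 + ∑ _i : ι, Real.exp (3 * C + ∑ _i : ι, Real.log (1 + 1)), fun J a ha h => ?_⟩
  obtain ⟨b, b1, b2, b3, b4, b5⟩ := PMin_spec a
  rw [← sq_abs, ha, one_pow] at b2
  rw [PMin_phi J b1 b3, PMin_phi J c1 c3, add_le_add_iff_right] at h
  have h1 := PMin_geom (f := fun j => PMin_t c (2 ^ j)) (c := C)
    (fun j => hC ▸ PMin_t_le c1 c2 (by positivity)) J
  have h2 := Finset.single_le_sum (f := fun j : ℤ => PMin_t b (2 ^ j))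
    (s := Finset.Icc (-(J : ℤ)) J) (fun j _ => PMin_t_nonneg b1 b2 (by positivity))
    (a := 0) (by simp)
  have h3 : 0 ≤ 2 * C * (2 ^ J)⁻¹ := by positivity
  rw [zpow_zero, PMin_t, Finset.sum_sub_distrib] at h2
  have h4 : ∑ i, Real.log (b i + 1) ≤ 3 * C + ∑ _i : ι, Real.log (1 + 1) := by linarith only [h, h1, h2, h3]
  refine ⟨PMin_entry b4 b1 (by simpa only [add_comm] using h4),
    PMin_entry b5 (fun i => inv_pos.2 (b1 i)) ?_⟩
  rw [PMin_inv b1 b2 one_pos] at h4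
  simpa only [one_mul] using h4

theorem PMin_cont (J : ℕ) : Continuous fun a : GL ι ℝ => Phi J (a.1 * a.1ᵀ) := by
  refine continuous_finsetSum _ fun j _ => Continuous.log ?_ fun a => ?_
  · exact ((Units.continuous_val.matrix_mul Units.continuous_val.matrix_transpose).add
      continuous_const).matrix_det
  · obtain ⟨b, b1, -, b3, -⟩ := PMin_spec a
    rw [b3]
    refine Finset.prod_ne_zero_iff.2 fun i _ => ?_
    have := b1 i
    positivity

theorem exists_phi_min (H : Subgroup (GL ι ℝ)) (hc : IsClosed (H : Set (GL ι ℝ)))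
    (hu : ∀ a ∈ H, |a.1.det| = 1) (g : GL ι ℝ) (hg : |g.1.det| = 1) :
    ∃ M : ℝ, ∀ J : ℕ, ∃ h ∈ H, Bd2 M (h * g) ∧
      ∀ h' ∈ H, Phi J ((h * g).1 * (h * g).1ᵀ) ≤ Phi J ((h' * g).1 * (h' * g).1ᵀ) := by
  obtain ⟨M, hM⟩ := PMin_bound g hg
  refine ⟨M, fun J => ?_⟩
  have hK : IsCompact ((H : Set (GL ι ℝ)) ∩ {h | Bd2 M (h * g)}) :=
    ((Homeomorph.mulRight g).isCompact_preimage.2 (isCompact_Bd2 M)).inter_left hc
  have h1 : (1 : GL ι ℝ) ∈ (H : Set (GL ι ℝ)) ∩ {h | Bd2 M (h * g)} :=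
    ⟨H.one_mem, by rw [Set.mem_ofPred_eq, one_mul]; exact hM J g hg le_rfl⟩
  obtain ⟨h, ⟨h2, h3⟩, h4⟩ := hK.exists_isMinOn ⟨1, h1⟩
    ((PMin_cont J).comp (continuous_id.mul (continuous_const (y := g)))).continuousOn
  refine ⟨h, h2, h3, fun h' hh => ?_⟩
  rcases le_total (Phi J ((h' * g).1 * (h' * g).1ᵀ)) (Phi J (g.1 * g.1ᵀ)) with h5 | h5
  · refine h4 (a := h') ⟨hh, hM J _ ?_ h5⟩
    rw [Units.val_mul, Matrix.det_mul, abs_mul, hu h' hh, hg, one_mul]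
  · refine le_trans ?_ h5
    simpa using h4 h1

end Pool.Agent.Work.MP_dbf1ea_an.V
end

-- merged part: Pool.Agent.Work.MP_dbf1ea_an.V.LinTop
section
/-!
Elementary topology of a local isomorphism onto a linear group.
-/

set_option autoImplicit false

open scoped Matrix Pointwise Topology

namespace Pool.Agent.Work.MP_dbf1ea_an.V

section aux

variable {ι : Type} [Fintype ι] [DecidableEq ι]

theorem LinTop_pw_mul {U : Matrix ι ι ℝ} (hU : U * Uᵀ = 1) (l : ι → ℝ) (s t : ℝ) :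
    pw U l s * pw U l t = pw U l (s + t) := by
  have hU' : Uᵀ * U = 1 := mul_eq_one_comm.1 hU
  have hd : dg l s * dg l t = dg l (s + t) := by
    unfold dg
    rw [Matrix.diagonal_mul_diagonal]
    congr 1
    funext i
    rw [← Real.exp_add]
    congr 1
    ring
  unfold pw
  calc U * dg l s * Uᵀ * (U * dg l t * Uᵀ) = U * dg l s * (Uᵀ * U) * dg l t * Uᵀ := by
        simp only [Matrix.mul_assoc]
    _ = U * (dg l s * dg l t) * Uᵀ := by rw [hU']; simp only [Matrix.mul_assoc, Matrix.one_mul]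
    _ = U * dg l (s + t) * Uᵀ := by rw [hd]

theorem LinTop_pw_zero {U : Matrix ι ι ℝ} (hU : U * Uᵀ = 1) (l : ι → ℝ) : pw U l 0 = 1 := by
  have hd : dg l 0 = 1 := by
    unfold dg
    simp
  unfold pw
  rw [hd, Matrix.mul_one, hU]

theorem LinTop_pw_tr (U : Matrix ι ι ℝ) (l : ι → ℝ) (t : ℝ) : (pw U l t)ᵀ = pw U l t := by
  unfold pw dg
  simp only [Matrix.transpose_mul, Matrix.transpose_transpose, Matrix.diagonal_transpose,
    Matrix.mul_assoc]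

theorem LinTop_pw_cont (U : Matrix ι ι ℝ) (l : ι → ℝ) : Continuous (pw U l) := by
  have hd : Continuous (dg l) := by
    unfold dg
    apply Continuous.matrix_diagonal
    fun_prop
  unfold pw
  exact (continuous_const.matrix_mul hd).matrix_mul continuous_const

/-- The one-parameter group in the general linear group. -/
noncomputable def LinTop_b {U : Matrix ι ι ℝ} (hU : U * Uᵀ = 1) (l : ι → ℝ) (t : ℝ) : GL ι ℝ :=
  ⟨pw U l t, pw U l (-t), by rw [LinTop_pw_mul hU, add_neg_cancel, LinTop_pw_zero hU],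
    by rw [LinTop_pw_mul hU, neg_add_cancel, LinTop_pw_zero hU]⟩

theorem LinTop_b_cont {U : Matrix ι ι ℝ} (hU : U * Uᵀ = 1) (l : ι → ℝ) :
    Continuous (LinTop_b hU l) := by
  rw [Units.continuous_iff]
  exact ⟨LinTop_pw_cont U l, (LinTop_pw_cont U l).comp continuous_neg⟩

theorem LinTop_entry {W : Matrix ι ι ℝ} (hW : Wᵀ * W = 1) (i j : ι) : |W i j| ≤ 1 := by
  have h : ∑ k, W k j * W k j = 1 := by
    have := congrFun (congrFun hW j) j
    simpa [Matrix.mul_apply] using this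
  have h2 : W i j * W i j ≤ ∑ k, W k j * W k j :=
    Finset.single_le_sum (f := fun k => W k j * W k j) (fun k _ => mul_self_nonneg _)
      (Finset.mem_univ i)
  rw [h] at h2
  exact abs_le_one_iff_mul_self_le_one.2 h2

end aux

namespace Lin

variable {G : Type} [Group G] [TopologicalSpace G] [IsTopologicalGroup G]
  {ι : Type} [Fintype ι] [DecidableEq ι] (Λ : Lin G ι)

omit [IsTopologicalGroup G] in
theorem LinTop_open (g₀ : G) {U : Set G} (hU : U ∈ 𝓝 (1 : G)) :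
    ∃ O : Set (GL ι ℝ), IsOpen O ∧ Λ.π g₀ ∈ O ∧
      ∀ a ∈ O, a ∈ Λ.H → ∃ u ∈ U, a = Λ.π g₀ * Λ.π u := by
  obtain ⟨V, hV, h1, hsub⟩ := mem_nhdsWithin.1 (Λ.opn U hU)
  refine ⟨{a | (Λ.π g₀)⁻¹ * a ∈ V}, hV.preimage (continuous_const.mul continuous_id), ?_, ?_⟩
  · change (Λ.π g₀)⁻¹ * Λ.π g₀ ∈ V
    rw [inv_mul_cancel]
    exact h1
  · intro a ha haH
    obtain ⟨u, hu, hua⟩ := hsub ⟨ha, Λ.H.mul_mem (Λ.H.inv_mem (Λ.mem g₀)) haH⟩
    refine ⟨u, hu, ?_⟩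
    rw [hua, mul_inv_cancel_left]

theorem central [ConnectedSpace G] {z : G} (hz : Λ.π z = 1) (g : G) : z * g = g * z := by
  obtain ⟨U, hU, hd⟩ := Λ.disc
  have hf : Continuous (fun g : G => g * z * g⁻¹) := by fun_prop
  have hl : IsLocallyConstant (fun g : G => g * z * g⁻¹) := by
    rw [IsLocallyConstant.iff_eventually_eq]
    intro g₀
    have hc : Continuous (fun g : G => (g₀ * z * g₀⁻¹)⁻¹ * (g * z * g⁻¹)) := by fun_prop
    have h1 : U ∈ 𝓝 ((g₀ * z * g₀⁻¹)⁻¹ * (g₀ * z * g₀⁻¹)) := by rwa [inv_mul_cancel]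
    filter_upwards [hc.continuousAt (x := g₀) h1] with y hy
    have h2 := hd _ hy (by simp [hz])
    exact (inv_mul_eq_one.1 h2).symm
  have h := hl.apply_eq_of_preconnectedSpace g 1
  simp only [one_mul, inv_one, mul_one] at h
  exact (mul_inv_eq_iff_eq_mul.1 h).symm

theorem closed_range : IsClosed (Set.range Λ.π) := by
  apply isClosed_of_closure_subset
  intro a ha
  have haH : a ∈ Λ.H := by
    have : closure (Set.range Λ.π) ⊆ (Λ.H : Set (GL ι ℝ)) :=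
      closure_minimal (by rintro _ ⟨g, rfl⟩; exact Λ.mem g) Λ.closed
    exact this ha
  obtain ⟨O, hO, h1, hsub⟩ := Λ.LinTop_open 1 Filter.univ_mem
  have hO' : IsOpen {b : GL ι ℝ | b⁻¹ * a ∈ O} := hO.preimage (continuous_inv.mul continuous_const)
  have ha' : a ∈ {b : GL ι ℝ | b⁻¹ * a ∈ O} := by
    change a⁻¹ * a ∈ O
    rw [inv_mul_cancel, ← map_one Λ.π]
    exact h1
  obtain ⟨_, hb, g, rfl⟩ := mem_closure_iff.1 ha _ hO' ha'
  obtain ⟨u, -, hu⟩ := hsub _ hb (Λ.H.mul_mem (Λ.H.inv_mem (Λ.mem g)) haH)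
  refine ⟨g * u, ?_⟩
  rw [map_one, one_mul] at hu
  rw [map_mul, ← hu, mul_inv_cancel_left]

theorem pw_mem {U : Matrix ι ι ℝ} {l : ι → ℝ} (hU : U * Uᵀ = 1)
    (h : ∀ t, ∃ b ∈ Λ.H, b.1 = pw U l t) (t : ℝ) : ∃ g, (Λ.π g).1 = pw U l t := by
  have hb : ∀ s, LinTop_b hU l s ∈ Λ.H := by
    intro s
    obtain ⟨b, hb, e⟩ := h s
    have : b = LinTop_b hU l s := Units.ext e
    exact this ▸ hb
  have hc : IsClopen (LinTop_b hU l ⁻¹' Set.range Λ.π) := by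
    refine ⟨Λ.closed_range.preimage (LinTop_b_cont hU l), ?_⟩
    rw [isOpen_iff_mem_nhds]
    rintro s ⟨g, hg⟩
    obtain ⟨O, hO, h1, hsub⟩ := Λ.LinTop_open g Filter.univ_mem
    rw [hg] at h1
    filter_upwards [(LinTop_b_cont hU l).continuousAt (hO.mem_nhds h1)] with y hy
    obtain ⟨u, -, hu⟩ := hsub _ hy (hb y)
    exact ⟨g * u, by rw [map_mul, hu]⟩
  have h0 : (0 : ℝ) ∈ LinTop_b hU l ⁻¹' Set.range Λ.π :=
    ⟨1, by rw [map_one]; exact Units.ext (LinTop_pw_zero hU l).symm⟩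
  have ht : t ∈ LinTop_b hU l ⁻¹' Set.range Λ.π := by
    rw [hc.eq_univ ⟨0, h0⟩]
    trivial
  obtain ⟨g, hg⟩ := ht
  exact ⟨g, by rw [hg]; rfl⟩

theorem proper [LocallyCompactSpace G] (C : ℝ) : ∃ K : Set G, IsCompact K ∧
    ∀ x, Bd2 C (Λ.π x) → ∃ z κ, Λ.π z = 1 ∧ κ ∈ K ∧ x = z * κ := by
  obtain ⟨K₀, hK₀, hn⟩ := exists_compact_mem_nhds (1 : G)
  choose O hO h1 hsub using fun g : G => Λ.LinTop_open g hn
  have hc : IsCompact ({a : GL ι ℝ | Bd2 C a} ∩ Set.range Λ.π) :=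
    (isCompact_Bd2 C).inter_right Λ.closed_range
  obtain ⟨t, ht⟩ := hc.elim_finite_subcover O hO (by
    rintro _ ⟨-, g, rfl⟩
    exact Set.mem_iUnion.2 ⟨g, h1 g⟩)
  refine ⟨⋃ g ∈ t, (fun y => g * y) '' K₀,
    t.isCompact_biUnion fun g _ => hK₀.image (continuous_const.mul continuous_id), ?_⟩
  intro x hx
  obtain ⟨g, hg, hxg⟩ := Set.mem_iUnion₂.1 (ht ⟨hx, x, rfl⟩)
  obtain ⟨u, hu, e⟩ := hsub g _ hxg (Λ.mem x)
  refine ⟨x * (g * u)⁻¹, g * u, ?_, Set.mem_iUnion₂.2 ⟨g, hg, u, hu, rfl⟩, by group⟩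
  rw [map_mul, map_inv, map_mul, e, mul_inv_cancel]

theorem finite_ker [T2Space G] {K : Set G} (hK : IsCompact K) :
    {z | z ∈ K ∧ Λ.π z = 1}.Finite := by
  obtain ⟨U, hU, hd⟩ := Λ.disc
  have hc : IsCompact (K ∩ Λ.π ⁻¹' {1}) := hK.inter_right (isClosed_singleton.preimage Λ.cont)
  obtain ⟨t, ht, hcov⟩ := hc.elim_nhds_subcover (fun z => {g | z⁻¹ * g ∈ U}) (by
    intro z _
    have hcz : Continuous (fun g : G => z⁻¹ * g) := continuous_const.mul continuous_id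
    have h1 : U ∈ 𝓝 (z⁻¹ * z) := by rwa [inv_mul_cancel]
    exact hcz.continuousAt h1)
  refine t.finite_toSet.subset ?_
  intro w hw
  obtain ⟨z, hz, hwz⟩ := Set.mem_iUnion₂.1 (hcov ⟨hw.1, hw.2⟩)
  have hz1 : Λ.π z = 1 := (ht z hz).2
  have h2 := hd _ hwz (by rw [map_mul, map_inv, hz1, hw.2]; simp)
  rw [← inv_mul_eq_one.1 h2]
  exact hz

theorem mod_orth {h : GL ι ℝ} (hh : h ∈ Λ.H) : ∃ (g : G) (k : GL ι ℝ), h = Λ.π g * k ∧ Bd2 1 k := by
  obtain ⟨U, l, hU, hA, hb⟩ := Λ.polar h⁻¹ (Λ.H.inv_mem hh)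
  obtain ⟨g, hg⟩ := Λ.pw_mem hU hb (-1)
  refine ⟨g, (Λ.π g)⁻¹ * h, by group, ?_⟩
  have hW : (((Λ.π g)⁻¹ * h)⁻¹).1 = (h⁻¹).1 * pw U l (-1) := by
    rw [mul_inv_rev, inv_inv, Units.val_mul, hg]
  have hWW : ((((Λ.π g)⁻¹ * h)⁻¹).1)ᵀ * (((Λ.π g)⁻¹ * h)⁻¹).1 = 1 := by
    rw [hW, Matrix.transpose_mul, LinTop_pw_tr]
    calc pw U l (-1) * ((h⁻¹).1)ᵀ * ((h⁻¹).1 * pw U l (-1))
        = pw U l (-1) * (((h⁻¹).1)ᵀ * (h⁻¹).1) * pw U l (-1) := by simp only [Matrix.mul_assoc]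
      _ = 1 := by
        rw [hA, LinTop_pw_mul hU, LinTop_pw_mul hU, ← LinTop_pw_zero hU l]
        congr 1
        norm_num
  have hk : ((Λ.π g)⁻¹ * h).1 = ((((Λ.π g)⁻¹ * h)⁻¹).1)ᵀ := by
    calc ((Λ.π g)⁻¹ * h).1
        = (((((Λ.π g)⁻¹ * h)⁻¹).1)ᵀ * (((Λ.π g)⁻¹ * h)⁻¹).1) * ((Λ.π g)⁻¹ * h).1 := by
          rw [hWW, Matrix.one_mul]
      _ = ((((Λ.π g)⁻¹ * h)⁻¹).1)ᵀ := by
          rw [Matrix.mul_assoc, Units.inv_mul, Matrix.mul_one]
  refine ⟨fun i j => ?_, fun i j => LinTop_entry hWW i j⟩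
  rw [hk, Matrix.transpose_apply]
  exact LinTop_entry hWW j i

end Lin

end Pool.Agent.Work.MP_dbf1ea_an.V
end

-- merged part: Pool.Agent.Work.MP_dbf1ea_an.V.Lift
section
/-!
A coarse retraction of the group onto the kernel.
-/

set_option autoImplicit false

open scoped Matrix Pointwise Topology

namespace Pool.Agent.Work.MP_dbf1ea_an.V

variable {ι : Type} [Fintype ι] [DecidableEq ι]

theorem Lift_dg_mul (l : ι → ℝ) (s t : ℝ) : dg l s * dg l t = dg l (s + t) := by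
  simp only [dg, Matrix.diagonal_mul_diagonal, ← Real.exp_add, add_mul]

theorem Lift_pw_mul {U : Matrix ι ι ℝ} (hU : U * Uᵀ = 1) (l : ι → ℝ) (s t : ℝ) :
    pw U l s * pw U l t = pw U l (s + t) := by
  have h : Uᵀ * U = 1 := mul_eq_one_comm.1 hU
  calc pw U l s * pw U l t = U * dg l s * (Uᵀ * U) * dg l t * Uᵀ := by
        simp only [pw, Matrix.mul_assoc]
    _ = pw U l (s + t) := by
        rw [h, Matrix.mul_one, pw, ← Lift_dg_mul]; simp only [Matrix.mul_assoc]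

theorem Lift_pw_zero {U : Matrix ι ι ℝ} (hU : U * Uᵀ = 1) (l : ι → ℝ) : pw U l 0 = 1 := by
  simp [pw, dg, hU]

theorem Lift_pw_T (U : Matrix ι ι ℝ) (l : ι → ℝ) (t : ℝ) : (pw U l t)ᵀ = pw U l t := by
  simp [pw, dg, Matrix.transpose_mul, Matrix.mul_assoc]

theorem Lift_orth_bd {U : Matrix ι ι ℝ} (hU : U * Uᵀ = 1) : Bd 1 U := by
  intro i j
  have h := congrFun (congrFun hU i) i
  simp only [Matrix.mul_apply, Matrix.transpose_apply, Matrix.one_apply_eq] at h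
  have h2 : U i j * U i j ≤ ∑ k, U i k * U i k :=
    Finset.single_le_sum (f := fun k => U i k * U i k) (fun k _ => mul_self_nonneg _)
      (Finset.mem_univ j)
  rw [h] at h2
  exact abs_le_one_iff_mul_self_le_one.2 h2

omit [Fintype ι] [DecidableEq ι] in
theorem Lift_bd_T {C : ℝ} {A : Matrix ι ι ℝ} (h : Bd C A) : Bd C Aᵀ := fun i j => h j i

omit [DecidableEq ι] in
theorem Lift_bd_mul {a b : ℝ} {A B : Matrix ι ι ℝ} (hA : Bd a A) (hB : Bd b B) :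
    Bd (Fintype.card ι * (a * b)) (A * B) := by
  intro i j
  rw [Matrix.mul_apply]
  refine (Finset.abs_sum_le_sum_abs _ _).trans ?_
  calc ∑ k, |A i k * B k j| ≤ ∑ _k : ι, a * b := Finset.sum_le_sum fun k _ => by
        rw [abs_mul]
        exact mul_le_mul (hA i k) (hB k j) (abs_nonneg _) ((abs_nonneg _).trans (hA i k))
    _ = _ := by simp

omit [DecidableEq ι] in
theorem Lift_bd_conj {a : ℝ} {U A V : Matrix ι ι ℝ} (hU : Bd 1 U) (hA : Bd a A) (hV : Bd 1 V) :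
    Bd ((Fintype.card ι : ℝ) ^ 2 * a) (U * A * V) := by
  have h := Lift_bd_mul (Lift_bd_mul hU hA) hV
  convert h using 1
  ring

theorem Lift_between {x w η d t : ℝ} (h1 : |x - w| ≤ η) (h2 : |x * Real.exp (2 * d) - w| ≤ η)
    (ht : t ∈ Set.Icc (0 : ℝ) 1) : |x * Real.exp (t * d) - w| ≤ η := by
  obtain ⟨t0, t1⟩ := ht
  rw [abs_le] at *
  have key : (1 ≤ Real.exp (t * d) ∧ Real.exp (t * d) ≤ Real.exp (2 * d)) ∨
      (Real.exp (2 * d) ≤ Real.exp (t * d) ∧ Real.exp (t * d) ≤ 1) := by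
    rcases le_total 0 d with hd | hd
    · exact Or.inl ⟨Real.one_le_exp (mul_nonneg t0 hd), Real.exp_le_exp.2 (by linarith only [hd, t1, mul_nonneg_of_nonpos_of_nonpos (Mathlib.Tactic.Linarith.sub_nonpos_of_le t1) (Mathlib.Tactic.Linarith.sub_nonpos_of_le hd)])⟩
    · exact Or.inr ⟨Real.exp_le_exp.2 (by linarith only [hd, t1, mul_nonneg_of_nonpos_of_nonpos (Mathlib.Tactic.Linarith.sub_nonpos_of_le t1) (Mathlib.Tactic.Linarith.sub_nonpos_of_le hd)]), Real.exp_le_one_iff.2 (by linarith only [t0, hd, mul_nonneg_of_nonpos_of_nonpos (Mathlib.Tactic.Linarith.sub_nonpos_of_le t0) (Mathlib.Tactic.Linarith.sub_nonpos_of_le hd)])⟩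
  rcases key with ⟨a, b⟩ | ⟨a, b⟩ <;> rcases le_total 0 x with hx | hx <;>
    constructor <;> linarith only [h1, a, hx, h2, b, h1.1, h1.2, h2.1, h2.2, mul_nonneg_of_nonpos_of_nonpos (Mathlib.Tactic.Linarith.sub_nonpos_of_le a) (Mathlib.Tactic.Linarith.sub_nonpos_of_le hx), mul_nonneg_of_nonpos_of_nonpos (Mathlib.Tactic.Linarith.sub_nonpos_of_le b) (Mathlib.Tactic.Linarith.sub_nonpos_of_le hx)]

theorem Lift_half {δ : ℝ} {S S' U U' : Matrix ι ι ℝ} {l l' : ι → ℝ} (hU : U * Uᵀ = 1)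
    (hU' : U' * U'ᵀ = 1) (hrel : pw U l 2 * S = S'ᵀ * pw U' l' 2) (hS : Bd δ (S - 1))
    (hS' : Bd δ (S' - 1)) {t : ℝ} (ht : t ∈ Set.Icc (0 : ℝ) 1) :
    Bd ((Fintype.card ι : ℝ) ^ 2 * ((Fintype.card ι : ℝ) ^ 2 * δ))
      (pw U l t * S * pw U' l' (-t) - 1) := by
  have hV : Uᵀ * U = 1 := mul_eq_one_comm.1 hU
  have hV' : U'ᵀ * U' = 1 := mul_eq_one_comm.1 hU'
  have bU := Lift_orth_bd hU
  have bU' := Lift_orth_bd hU'
  have hX : Bd ((Fintype.card ι : ℝ) ^ 2 * δ) (Uᵀ * S * U' - Uᵀ * U') := by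
    have := Lift_bd_conj (Lift_bd_T bU) hS bU'
    rwa [Matrix.mul_sub, Matrix.sub_mul, Matrix.mul_one] at this
  have hY : Bd ((Fintype.card ι : ℝ) ^ 2 * δ) (Uᵀ * S'ᵀ * U' - Uᵀ * U') := by
    have := Lift_bd_conj (Lift_bd_T bU) (Lift_bd_T hS') bU'
    rwa [Matrix.transpose_sub, Matrix.transpose_one, Matrix.mul_sub, Matrix.sub_mul,
      Matrix.mul_one] at this
  have hXY : dg l 2 * (Uᵀ * S * U') = Uᵀ * S'ᵀ * U' * dg l' 2 := by
    calc dg l 2 * (Uᵀ * S * U') = (Uᵀ * U) * dg l 2 * (Uᵀ * S * U') := by rw [hV, Matrix.one_mul]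
      _ = Uᵀ * (pw U l 2 * S) * U' := by simp only [pw, Matrix.mul_assoc]
      _ = Uᵀ * S'ᵀ * U' * dg l' 2 * (U'ᵀ * U') := by rw [hrel]; simp only [pw, Matrix.mul_assoc]
      _ = _ := by rw [hV', Matrix.mul_one]
  have hM : Bd ((Fintype.card ι : ℝ) ^ 2 * δ)
      (dg l t * (Uᵀ * S * U') * dg l' (-t) - Uᵀ * U') := by
    intro i j
    have e := congrFun (congrFun hXY i) j
    have x1 := hX i j
    have x2 := hY i j
    rw [Matrix.sub_apply] at x1 x2 ⊢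
    simp only [dg, Matrix.diagonal_mul, Matrix.mul_diagonal] at e ⊢
    have e2 : (Uᵀ * S'ᵀ * U') i j = (Uᵀ * S * U') i j * Real.exp (2 * (l i - l' j)) := by
      have hp := Real.exp_pos (2 * l' j)
      rw [mul_sub, Real.exp_sub, ← mul_div_assoc, eq_div_iff hp.ne', ← e, mul_comm]
    rw [e2] at x2
    have := Lift_between x1 x2 ht
    convert this using 3
    rw [mul_sub, Real.exp_sub, neg_mul, Real.exp_neg, div_eq_mul_inv]
    ring
  have := Lift_bd_conj bU hM (Lift_bd_T bU')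
  convert this using 1
  rw [Matrix.mul_sub, Matrix.sub_mul, ← Matrix.mul_assoc U Uᵀ, hU, Matrix.one_mul, hU']
  simp only [pw, Matrix.mul_assoc]

theorem polar_close (ε : ℝ) (hε : 0 < ε) : ∃ δ : ℝ, 0 < δ ∧
    ∀ (a s : GL ι ℝ) (U U' : Matrix ι ι ℝ) (l l' : ι → ℝ), U * Uᵀ = 1 → U' * U'ᵀ = 1 →
      a.1ᵀ * a.1 = pw U l 2 → (a * s).1ᵀ * (a * s).1 = pw U' l' 2 →
      Bd δ (s.1 - 1) → Bd δ ((s⁻¹).1 - 1) → ∀ t ∈ Set.Icc (0 : ℝ) 1,
        Bd ε (pw U l t * s.1 * pw U' l' (-t) - 1) ∧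
        Bd ε (pw U' l' t * (s⁻¹).1 * pw U l (-t) - 1) := by
  have hn : (0 : ℝ) < (Fintype.card ι : ℝ) ^ 4 + 1 := by positivity
  refine ⟨ε / ((Fintype.card ι : ℝ) ^ 4 + 1), by positivity, ?_⟩
  intro a s U U' l l' hU hU' ha has hs hs' t ht
  have hle : (Fintype.card ι : ℝ) ^ 2 * ((Fintype.card ι : ℝ) ^ 2 *
      (ε / ((Fintype.card ι : ℝ) ^ 4 + 1))) ≤ ε := by
    rw [← mul_assoc, ← pow_add, ← mul_div_assoc, div_le_iff₀ hn]
    norm_num
    linarith only [hε]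
  have h0 : s.1ᵀ * pw U l 2 * s.1 = pw U' l' 2 := by
    rw [← has, ← ha, Units.val_mul, Matrix.transpose_mul]
    simp only [Matrix.mul_assoc]
  have h1 : pw U l 2 * s.1 = (s⁻¹).1ᵀ * pw U' l' 2 := by
    rw [← h0, ← Matrix.mul_assoc, ← Matrix.mul_assoc, ← Matrix.transpose_mul, Units.mul_inv,
      Matrix.transpose_one, Matrix.one_mul]
  have h2 : pw U' l' 2 * (s⁻¹).1 = s.1ᵀ * pw U l 2 := by
    rw [← h0, Matrix.mul_assoc, Units.mul_inv, Matrix.mul_one]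
  exact ⟨fun i j => (Lift_half hU hU' h1 hs hs' ht i j).trans hle,
    fun i j => (Lift_half hU' hU h2 hs' hs ht i j).trans hle⟩

theorem Lift_bd2_orth {k : GL ι ℝ} (h : k.1ᵀ * k.1 = 1) : Bd2 1 k := by
  have h1 : k.1 * k.1ᵀ = 1 := mul_eq_one_comm.1 h
  have h2 : (k⁻¹).1 = k.1ᵀ := Units.inv_eq_of_mul_eq_one_right h1
  exact ⟨Lift_orth_bd h1, h2 ▸ Lift_bd_T (Lift_orth_bd h1)⟩

theorem Lift_mat_nhds {A : Set (Matrix ι ι ℝ)} (hA : A ∈ 𝓝 (1 : Matrix ι ι ℝ)) :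
    ∃ ε : ℝ, 0 < ε ∧ ∀ M : Matrix ι ι ℝ, Bd ε (M - 1) → M ∈ A := by
  obtain ⟨ε, hε, h⟩ := (Metric.nhds_basis_closedBall (α := ι → ι → ℝ)).mem_iff.1 hA
  refine ⟨ε, hε, fun M hM => h ?_⟩
  rw [Metric.mem_closedBall, dist_pi_le_iff hε.le]
  intro i
  rw [dist_pi_le_iff hε.le]
  intro j
  exact hM i j

theorem Lift_gl_nhds {O : Set (GL ι ℝ)} (hO : O ∈ 𝓝 (1 : GL ι ℝ)) :
    ∃ ε : ℝ, 0 < ε ∧ ∀ x : GL ι ℝ, Bd ε (x.1 - 1) → Bd ε ((x⁻¹).1 - 1) → x ∈ O := by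
  rw [Units.isInducing_embedProduct.nhds_eq_comap, Filter.mem_comap] at hO
  obtain ⟨T, hT, hTO⟩ := hO
  obtain ⟨A, hA, B, hB, hAB⟩ := mem_nhds_prod_iff.1 hT
  obtain ⟨ε, hε, h⟩ := Lift_mat_nhds (A := A) hA
  obtain ⟨ε', hε', h'⟩ := Lift_mat_nhds (A := MulOpposite.op ⁻¹' B)
    (MulOpposite.continuous_op.continuousAt.preimage_mem_nhds hB)
  refine ⟨min ε ε', lt_min hε hε', fun x h1 h2 => hTO (hAB ⟨h _ fun i j => ?_, h' _ fun i j => ?_⟩)⟩
  · exact (h1 i j).trans (min_le_left _ _)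
  · exact (h2 i j).trans (min_le_right _ _)

theorem Lift_box_nhds {X : Type} [TopologicalSpace X] {f : X → Matrix ι ι ℝ} (hf : Continuous f)
    {x : X} (hx : f x = 1) {δ : ℝ} (hδ : 0 < δ) : ∀ᶠ y in 𝓝 x, Bd δ (f y - 1) := by
  refine Filter.eventually_all.2 fun i => Filter.eventually_all.2 fun j => ?_
  have hc : Continuous fun y => |(f y - 1) i j| := by fun_prop
  exact hc.continuousAt.eventually (Iic_mem_nhds (by simpa [hx] using hδ))

theorem Lift_pw_cont (U : Matrix ι ι ℝ) (l : ι → ℝ) : Continuous (pw U l) := by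
  unfold pw dg
  fun_prop

namespace Lin

variable {G : Type} [Group G] [TopologicalSpace G] [IsTopologicalGroup G] (Λ : Lin G ι)

theorem Lift_cov : IsCoveringMap Λ.π.rangeRestrict := by
  have hc : Continuous Λ.π.rangeRestrict := Λ.cont.subtype_mk _
  have ho : IsOpenMap Λ.π.rangeRestrict := by
    rw [IsTopologicalGroup.isOpenMap_iff_nhds_one]
    intro U hU
    obtain ⟨O, hO, hOU⟩ := mem_nhdsWithin_iff_exists_mem_nhds_inter.1 (Λ.opn _ hU)
    rw [nhds_subtype, Filter.mem_comap]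
    refine ⟨O, hO, ?_⟩
    rintro ⟨_, g, rfl⟩ hx
    obtain ⟨g', hg', e⟩ := hOU ⟨hx, Λ.mem g⟩
    have : Λ.π.rangeRestrict g' = ⟨Λ.π g, g, rfl⟩ := Subtype.ext e
    exact this ▸ hg'
  have hd : IsDiscrete (Λ.π.rangeRestrict.ker : Set G) := by
    rw [MonoidHom.ker_rangeRestrict, isDiscrete_iff_discreteTopology]
    obtain ⟨U, hU, h⟩ := Λ.disc
    refine discreteTopology_of_isOpen_singleton_one (G := Λ.π.ker) ?_
    refine isOpen_induced_iff.2 ⟨interior U, isOpen_interior, ?_⟩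
    ext ⟨z, hz⟩
    exact ⟨fun h1 => Subtype.ext (h z (interior_subset h1) hz),
      fun h1 => by
        have : z = 1 := congrArg Subtype.val h1
        subst this
        exact mem_interior_iff_mem_nhds.2 hU⟩
  exact ((ho.isQuotientMap hc
    Λ.π.rangeRestrict_surjective).isQuotientCoveringMap_of_isDiscrete_ker_monoidHom
    hd).isCoveringMap

theorem Lift_path {U : Matrix ι ι ℝ} {l : ι → ℝ} (hU : U * Uᵀ = 1)
    (h : ∀ t, ∃ b ∈ Λ.H, b.1 = pw U l t) : ∃ c : unitInterval → G, Continuous c ∧ c 0 = 1 ∧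
      ∀ t, (Λ.π (c t)).1 = pw U l (-t) := by
  let B : ℝ → GL ι ℝ := fun t => ⟨pw U l (-t), pw U l t,
    by rw [Lift_pw_mul hU, neg_add_cancel, Lift_pw_zero hU],
    by rw [Lift_pw_mul hU, add_neg_cancel, Lift_pw_zero hU]⟩
  have hB : Continuous B :=
    Units.continuous_iff.2 ⟨(Lift_pw_cont U l).comp continuous_neg, Lift_pw_cont U l⟩
  have hm : ∀ t, B t ∈ Λ.π.range := fun t => by
    obtain ⟨g, hg⟩ := Λ.pw_mem hU h (-t)
    exact ⟨g, Units.ext hg⟩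
  let γ : C(unitInterval, Λ.π.range) :=
    ⟨fun t => ⟨B t, hm t⟩, (hB.comp continuous_subtype_val).subtype_mk _⟩
  obtain ⟨Γ, h1, h2⟩ := Λ.Lift_cov.exists_path_lifts γ 1 (by
    refine Subtype.ext (Units.ext ?_)
    simp [γ, B, Lift_pw_zero hU])
  refine ⟨Γ, Γ.continuous, h2, fun t => ?_⟩
  exact congrArg (fun x : Λ.π.range => x.1.1) (congrFun h1 t)

theorem Lift_stay {V : Set G} (hV : IsOpen V) (inj : ∀ v ∈ V, ∀ w ∈ V, Λ.π v = Λ.π w → v = w)
    {y : unitInterval → G} (hy : Continuous y) (h0 : y 0 ∈ V) (h : ∀ t, Λ.π (y t) ∈ Λ.π '' V) :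
    y 1 ∈ V := by
  have hc : IsClopen (y ⁻¹' V) := by
    refine ⟨⟨isOpen_iff_mem_nhds.2 fun t ht => ?_⟩, hV.preimage hy⟩
    obtain ⟨v, hv, e⟩ := h t
    have hcont : Continuous fun s => v * (y t)⁻¹ * y s := by fun_prop
    filter_upwards [hcont.continuousAt.preimage_mem_nhds (hV.mem_nhds (by simpa using hv))]
      with s hs hs'
    have h1 := inj _ hs _ hs' (by simp [e])
    have h2 : v = y t := by simpa [mul_inv_eq_one] using h1
    exact ht (show y t ∈ V from h2 ▸ hv)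
  have := hc.eq_univ ⟨0, h0⟩
  exact (this ▸ Set.mem_univ 1 : (1 : unitInterval) ∈ y ⁻¹' V)

theorem lift_step [ConnectedSpace G] [LocallyCompactSpace G] [T2Space G] :
    ∃ U ∈ 𝓝 (1 : G), ∃ Z0 : Finset G, (∀ z ∈ Z0, Λ.π z = 1) ∧ ∃ ν : G → G,
      (∀ g, Λ.π (ν g) = 1) ∧ (∀ z g, Λ.π z = 1 → ν (z * g) = z * ν g) ∧
      ∀ g, ∀ s ∈ U, (ν g)⁻¹ * ν (g * s) ∈ Z0 := by
  have key : ∀ a : GL ι ℝ, ∃ (U : Matrix ι ι ℝ) (l : ι → ℝ) (c : unitInterval → G), a ∈ Λ.H →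
      U * Uᵀ = 1 ∧ a.1ᵀ * a.1 = pw U l 2 ∧ Continuous c ∧ c 0 = 1 ∧
        ∀ t, (Λ.π (c t)).1 = pw U l (-t) := by
    intro a
    by_cases ha : a ∈ Λ.H
    · obtain ⟨U, l, h1, h2, h3⟩ := Λ.polar a ha
      obtain ⟨c, hc⟩ := Λ.Lift_path h1 h3
      exact ⟨U, l, c, fun _ => ⟨h1, h2, hc⟩⟩
    · exact ⟨1, 0, 1, fun h => (ha h).elim⟩
  choose U l c hc using key
  obtain ⟨K, hK, hKp⟩ := Λ.proper 1
  have key2 : ∀ k : GL ι ℝ, ∃ y : G, ∀ x, Λ.π x = k → Bd2 1 k → y ∈ K ∧ Λ.π y = k := by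
    intro k
    by_cases hk : ∃ x, Λ.π x = k ∧ Bd2 1 k
    · obtain ⟨x, rfl, hx⟩ := hk
      obtain ⟨z, κ, h1, h2, h3⟩ := hKp x hx
      exact ⟨κ, fun _ _ _ => ⟨h2, by rw [h3, map_mul, h1, one_mul]⟩⟩
    · exact ⟨1, fun x h1 h2 => (hk ⟨x, h1, h2⟩).elim⟩
  choose sec hsec using key2
  have horth : ∀ g, Bd2 1 (Λ.π (g * c (Λ.π g) 1)) := by
    intro g
    obtain ⟨h1, h2, -, -, h5⟩ := hc _ (Λ.mem g)
    refine Lift_bd2_orth ?_
    rw [map_mul, Units.val_mul, h5, Matrix.transpose_mul, Lift_pw_T, Matrix.mul_assoc,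
      ← Matrix.mul_assoc _ (Λ.π g).1, h2, Lift_pw_mul h1, Lift_pw_mul h1, ← Lift_pw_zero h1 (l _)]
    congr 1
    norm_num
  have hs := fun g => hsec _ _ rfl (horth g)
  obtain ⟨U0, hU0, hdisc⟩ := Λ.disc
  obtain ⟨V0, hV0, hsplit⟩ := exists_nhds_split_inv hU0
  obtain ⟨C, hC, hC1⟩ := exists_compact_mem_nhds (1 : G)
  have hV : interior (V0 ∩ C) ∈ 𝓝 (1 : G) := interior_mem_nhds.2 (Filter.inter_mem hV0 hC1)
  have inj : ∀ v ∈ interior (V0 ∩ C), ∀ w ∈ interior (V0 ∩ C), Λ.π v = Λ.π w → v = w := by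
    intro v hv w hw e
    exact div_eq_one.1 (hdisc _ (hsplit v (interior_subset hv).1 w (interior_subset hw).1)
      (by rw [map_div, e, div_self']))
  obtain ⟨O, hO, hOV⟩ := mem_nhdsWithin_iff_exists_mem_nhds_inter.1 (Λ.opn _ hV)
  obtain ⟨ε, hε, hεO⟩ := Lift_gl_nhds hO
  obtain ⟨δ, hδ, hclose⟩ := polar_close (ι := ι) ε hε
  have b1 := Lift_box_nhds (Units.continuous_val.comp Λ.cont) (x := 1) (by simp) hδ
  have b2 := Lift_box_nhds (Units.continuous_coe_inv.comp Λ.cont) (x := 1) (by simp) hδ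
  have hfin := Λ.finite_ker ((hK.mul hC).mul hK.inv)
  refine ⟨_, Filter.inter_mem hV (b1.and b2), hfin.toFinset,
    fun z hz => (hfin.mem_toFinset.1 hz).2,
    fun g => g * c (Λ.π g) 1 * (sec (Λ.π (g * c (Λ.π g) 1)))⁻¹, fun g => ?_, fun z g hz => ?_,
    fun g s hs0 => ?_⟩
  · rw [map_mul, map_inv, (hs g).2, mul_inv_cancel]
  · simp only [map_mul, hz, one_mul, mul_assoc]
  obtain ⟨hsV, hs1, hs2⟩ := hs0
  obtain ⟨h1, h2, h3, h4, h5⟩ := hc _ (Λ.mem g)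
  obtain ⟨h1', h2', h3', h4', h5'⟩ := hc _ (Λ.mem (g * s))
  have hinv : ∀ {x : GL ι ℝ} {W : Matrix ι ι ℝ} {m : ι → ℝ} {t : ℝ}, W * Wᵀ = 1 →
      x.1 = pw W m (-t) → (x⁻¹).1 = pw W m t := by
    intro x W m t hW hx
    refine Units.inv_eq_of_mul_eq_one_right ?_
    rw [hx, Lift_pw_mul hW, neg_add_cancel, Lift_pw_zero hW]
  have hy : (c (Λ.π g) 1)⁻¹ * s * c (Λ.π (g * s)) 1 ∈ interior (V0 ∩ C) := by
    refine Λ.Lift_stay isOpen_interior inj
      (y := fun t => (c (Λ.π g) t)⁻¹ * s * c (Λ.π (g * s)) t) (by fun_prop)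
      (by simpa only [h4, h4', inv_one, one_mul, mul_one] using hsV) fun t => hOV ⟨?_, Λ.mem _⟩
    obtain ⟨e1, e2⟩ := hclose (Λ.π g) (Λ.π s) _ _ _ _ h1 h1' h2 (by rw [← map_mul]; exact h2')
      hs1 hs2 t t.2
    refine hεO _ ?_ ?_
    · rwa [map_mul, map_mul, map_inv, Units.val_mul, Units.val_mul, hinv h1 (h5 t), h5']
    · rwa [map_mul, map_mul, map_inv, mul_inv_rev, mul_inv_rev, inv_inv, ← mul_assoc,
        Units.val_mul, Units.val_mul, hinv h1' (h5' t), h5]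
  refine hfin.mem_toFinset.2 ⟨?_, ?_⟩
  · refine ⟨_, ⟨_, (hs g).1, _, (interior_subset hy).2, rfl⟩, _,
      Set.inv_mem_inv.2 (hs (g * s)).1, ?_⟩
    simp only [mul_inv_rev, inv_inv, mul_assoc, inv_mul_cancel_left]
  · rw [map_mul, map_inv, map_mul, map_inv, (hs g).2, map_mul _ _ (sec _)⁻¹, map_inv,
      (hs (g * s)).2]
    simp

end Lin

end Pool.Agent.Work.MP_dbf1ea_an.V
end

-- merged part: Pool.Agent.Work.MP_dbf1ea_an.V.Cent
section
/-!
The kernel has polynomial growth for the stable word length.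
-/

set_option autoImplicit false

open scoped Matrix Pointwise Topology

namespace Pool.Agent.Work.MP_dbf1ea_an.V

theorem Cent_le {x B m c : ℤ} (h : ∀ j : ℕ, (j : ℤ) * x ≤ B * (j * m + c)) : x ≤ B * m := by
  by_contra hx
  push Not at hx
  have h1 := h ((B * c).toNat + 1)
  have h2 : B * c ≤ ((B * c).toNat : ℤ) := Int.self_le_toNat _
  have h3 : (0 : ℤ) ≤ ((B * c).toNat : ℤ) := Int.natCast_nonneg _
  push_cast at h1
  linarith only [hx, h2, h1, mul_nonneg_of_nonpos_of_nonpos (Mathlib.Tactic.Linarith.sub_nonpos_of_le (Mathlib.Tactic.Linarith.natCast_nonneg ℤ (B * c).toNat)) (Mathlib.Tactic.Linarith.sub_nonpos_of_le (Int.add_one_le_iff.mpr hx))]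

theorem Cent_add {A : Type} [AddCommGroup A] [AddGroup.FG A] (Z0 : Finset A) :
    ∃ a d : ℕ, ∀ m : ℕ, ∃ F : Finset A, F.card ≤ a * (m + 1) ^ d ∧
      ∀ z, (∃ c : ℕ, ∀ j : ℕ, j • z ∈ (j * m + c) • (Z0 : Set A)) → z ∈ F := by
  classical
  obtain ⟨n, κ, fκ, p, hp, e, ⟨f⟩⟩ := AddCommGroup.equiv_free_prod_directSum_zmod A
  haveI : ∀ i, NeZero (p i ^ e i) := fun i => ⟨pow_ne_zero _ (hp i).ne_zero⟩
  haveI hT : Finite (DirectSum κ fun i => ZMod (p i ^ e i)) :=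
    Finite.of_equiv _ (DFinsupp.equivFunOnFintype (β := fun i => ZMod (p i ^ e i))).symm
  letI := Fintype.ofFinite (DirectSum κ fun i => ZMod (p i ^ e i))
  set B : ℕ := ∑ z ∈ Z0, ∑ i, ((f z).1 i).natAbs with hB
  have hb : ∀ z ∈ Z0, ∀ i, |(f z).1 i| ≤ (B : ℤ) := by
    intro z hz i
    have h1 : ((f z).1 i).natAbs ≤ ∑ i, ((f z).1 i).natAbs :=
      Finset.single_le_sum (f := fun i => ((f z).1 i).natAbs) (fun _ _ => Nat.zero_le _)
        (Finset.mem_univ i)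
    have h2 : ∑ i, ((f z).1 i).natAbs ≤ B :=
      Finset.single_le_sum (f := fun z => ∑ i, ((f z).1 i).natAbs) (fun _ _ => Nat.zero_le _) hz
    rw [← Int.natCast_natAbs]
    exact_mod_cast h1.trans h2
  have hN : ∀ N : ℕ, ∀ g ∈ N • (Z0 : Set A), ∀ i, |(f g).1 i| ≤ (B : ℤ) * N := by
    intro N
    induction N with
    | zero =>
      intro g hg i
      rw [zero_nsmul, Set.mem_zero] at hg
      subst hg
      simp
    | succ N ih =>
      intro g hg i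
      rw [succ_nsmul] at hg
      obtain ⟨x, hx, y, hy, rfl⟩ := hg
      have h1 := ih x hx i
      have h2 := hb y hy i
      have h3 : (f (x + y)).1 i = (f x).1 i + (f y).1 i := by simp
      simp only []
      rw [h3]
      have := abs_add_le ((f x).1 i) ((f y).1 i)
      push_cast
      linarith only [h1, h2, this]
  refine ⟨(2 * B + 1) ^ n * Fintype.card (DirectSum κ fun i => ZMod (p i ^ e i)), n, fun m => ?_⟩
  refine ⟨((Fintype.piFinset fun _ : Fin n => Finset.Icc (-((B : ℤ) * m)) ((B : ℤ) * m)) ×ˢ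
    (Finset.univ : Finset (DirectSum κ fun i => ZMod (p i ^ e i)))).image
    fun q => f.symm (Finsupp.equivFunOnFinite.symm q.1, q.2), ?_, ?_⟩
  · refine Finset.card_image_le.trans ?_
    rw [Finset.card_product, Fintype.card_piFinset, Finset.card_univ]
    simp only [Int.card_Icc, Finset.prod_const, Finset.card_univ, Fintype.card_fin]
    have h1 : ((B : ℤ) * m + 1 - -((B : ℤ) * m)).toNat ≤ (2 * B + 1) * (m + 1) := by
      rw [Int.toNat_le]
      push_cast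
      linarith only [Int.natCast_nonneg B, Int.natCast_nonneg m]
    calc _ ≤ ((2 * B + 1) * (m + 1)) ^ n * Fintype.card (DirectSum κ fun i => ZMod (p i ^ e i)) :=
          Nat.mul_le_mul_right _ (Nat.pow_le_pow_left h1 _)
      _ = _ := by rw [mul_pow]; ring
  · rintro z ⟨c, hc⟩
    refine Finset.mem_image.2 ⟨((f z).1, (f z).2), ?_, ?_⟩
    · refine Finset.mem_product.2 ⟨?_, Finset.mem_univ _⟩
      refine Fintype.mem_piFinset.2 fun i => ?_
      have h1 : |(f z).1 i| ≤ (B : ℤ) * m := by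
        refine Cent_le (c := c) fun j => ?_
        have h2 := hN _ _ (hc j) i
        have h3 : (f (j • z)).1 i = (j : ℤ) * (f z).1 i := by simp
        rw [h3, abs_mul, abs_of_nonneg (Int.natCast_nonneg j)] at h2
        push_cast at h2
        exact h2
      exact Finset.mem_Icc.2 (abs_le.1 h1)
    · simp

theorem ab_growth {G : Type} [Group G] (Z0 : Finset G) (hZ : ∀ z ∈ Z0, z ∈ Subgroup.center G) :
    ∃ a d : ℕ, ∀ m : ℕ, ∃ F : Finset G, F.card ≤ a * (m + 1) ^ d ∧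
      ∀ z, (∃ c : ℕ, ∀ j : ℕ, z ^ j ∈ (Z0 : Set G) ^ (j * m + c)) → z ∈ F := by
  classical
  let A : Subgroup G := Subgroup.closure (Z0 : Set G)
  have hA : A ≤ Subgroup.center G := (Subgroup.closure_le _).2 fun z hz => hZ z hz
  letI : CommGroup A :=
    { (inferInstance : Group A) with
      mul_comm := fun a b => Subtype.ext (Subgroup.mem_center_iff.1 (hA b.2) a.1) }
  haveI : Group.FG A := Group.closure_finset_fg Z0
  haveI : AddGroup.FG (Additive A) := AddGroup.fg_of_group_fg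
  let Z1 : Finset (Additive A) :=
    Z0.attach.image fun z => Additive.ofMul (⟨z.1, Subgroup.subset_closure z.2⟩ : A)
  obtain ⟨a, d, h⟩ := Cent_add Z1
  have hN : ∀ N : ℕ, ∀ g ∈ (Z0 : Set G) ^ N, ∃ x ∈ N • (Z1 : Set (Additive A)),
      (Additive.toMul x).1 = g := by
    intro N
    induction N with
    | zero =>
      intro g hg
      rw [pow_zero, Set.mem_one] at hg
      subst hg
      exact ⟨0, by rw [zero_nsmul]; exact Set.mem_zero.2 rfl, rfl⟩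
    | succ N ih =>
      intro g hg
      rw [pow_succ] at hg
      obtain ⟨x, hx, y, hy, rfl⟩ := hg
      obtain ⟨x', hx', rfl⟩ := ih x hx
      refine ⟨x' + Additive.ofMul (⟨y, Subgroup.subset_closure hy⟩ : A), ?_, rfl⟩
      rw [succ_nsmul]
      refine Set.add_mem_add hx' ?_
      exact Finset.mem_coe.2 (Finset.mem_image.2 ⟨⟨y, hy⟩, Finset.mem_attach _ _, rfl⟩)
  refine ⟨a, d, fun m => ?_⟩
  obtain ⟨F, hF, hm⟩ := h m
  refine ⟨F.image fun x => (Additive.toMul x).1, Finset.card_image_le.trans hF, ?_⟩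
  rintro z ⟨c, hc⟩
  obtain ⟨x, -, hx⟩ := hN _ _ (hc 1)
  rw [pow_one] at hx
  refine Finset.mem_image.2 ⟨x, hm x ⟨c, fun j => ?_⟩, hx⟩
  obtain ⟨y, hy, hy'⟩ := hN _ _ (hc j)
  have : j • x = y := by
    apply Additive.toMul.injective
    apply Subtype.ext
    rw [hy', ← hx]
    simp
  rwa [this]

theorem Cent_cover {G : Type} [Group G] [TopologicalSpace G] [IsTopologicalGroup G]
    [ConnectedSpace G] {U K : Set G} (hU : U ∈ 𝓝 (1 : G)) (hK : IsCompact K) :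
    ∃ r : ℕ, K ⊆ U ^ r := by
  let V : Set G := interior U ∩ (interior U)⁻¹
  have hVo : IsOpen V := isOpen_interior.inter isOpen_interior.inv
  have h1 : (1 : G) ∈ interior U := mem_interior_iff_mem_nhds.2 hU
  have hV1 : (1 : G) ∈ V := ⟨h1, by simpa using h1⟩
  have hVi : ∀ x ∈ V, x⁻¹ ∈ V := fun x hx => ⟨hx.2, by simpa using hx.1⟩
  have hVU : V ⊆ U := fun x hx => interior_subset hx.1
  have hpi : ∀ r : ℕ, ∀ x ∈ V ^ r, x⁻¹ ∈ V ^ r := by
    intro r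
    induction r with
    | zero => intro x hx; rw [pow_zero, Set.mem_one] at hx ⊢; simp [hx]
    | succ r ih =>
      intro x hx
      rw [pow_succ] at hx
      obtain ⟨y, hy, w, hw, rfl⟩ := hx
      rw [pow_succ']
      simp only [mul_inv_rev]
      exact Set.mul_mem_mul (hVi w hw) (ih y hy)
  let S : Subgroup G :=
    { carrier := {x | ∃ r : ℕ, x ∈ V ^ r}
      mul_mem' := by
        rintro x y ⟨r, hr⟩ ⟨s, hs⟩
        exact ⟨r + s, by rw [pow_add]; exact Set.mul_mem_mul hr hs⟩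
      one_mem' := ⟨0, by simp⟩
      inv_mem' := by
        rintro x ⟨r, hr⟩
        exact ⟨r, hpi r x hr⟩ }
  have hSo : IsOpen (S : Set G) := by
    refine Subgroup.isOpen_of_mem_nhds S (g := 1) ?_
    refine Filter.mem_of_superset (hVo.mem_nhds hV1) fun x hx => ⟨1, by simpa using hx⟩
  have hSc : IsClosed (S : Set G) := Subgroup.isClosed_of_isOpen S hSo
  have hS : (S : Set G) = Set.univ := IsClopen.eq_univ ⟨hSc, hSo⟩ ⟨1, S.one_mem⟩
  have hop : ∀ r : ℕ, IsOpen (V ^ (r + 1)) := fun r => by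
    rw [pow_succ]; exact hVo.mul_left
  have hmono : Monotone fun r : ℕ => V ^ (r + 1) := fun r s hrs =>
    Set.pow_subset_pow_right hV1 (Nat.succ_le_succ hrs)
  obtain ⟨r, hr⟩ := hK.elim_directed_cover (fun r : ℕ => V ^ (r + 1)) hop (by
    intro x _
    have : x ∈ (S : Set G) := by rw [hS]; trivial
    obtain ⟨r, hr⟩ := this
    exact Set.mem_iUnion.2 ⟨r, Set.pow_subset_pow_right hV1 (Nat.le_succ r) hr⟩)
    (Monotone.directed_le hmono)
  exact ⟨r + 1, hr.trans (Set.pow_subset_pow_left hVU)⟩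

namespace Lin

variable {G : Type} [Group G] [TopologicalSpace G] [IsTopologicalGroup G]
  {ι : Type} [Fintype ι] [DecidableEq ι] (Λ : Lin G ι)

theorem cent [ConnectedSpace G] [LocallyCompactSpace G] [T2Space G] {K : Set G}
    (hK : IsCompact K) : ∃ a d : ℕ, ∀ m : ℕ, ∃ F : Finset G, F.card ≤ a * (m + 1) ^ d ∧
      ∀ z, Λ.π z = 1 → (∃ c : ℕ, ∀ j : ℕ, z ^ j ∈ K ^ (j * m + c)) → z ∈ F := by
  obtain ⟨U, hU, Z0, hZ, ν, -, hν, hs⟩ := Λ.lift_step
  obtain ⟨r, hr⟩ := Cent_cover hU hK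
  obtain ⟨a, d, h⟩ := ab_growth Z0 fun z hz =>
    Subgroup.mem_center_iff.2 fun g => (Λ.central (hZ z hz) g).symm
  have hN : ∀ N : ℕ, ∀ s ∈ U ^ N, ∀ g, (ν g)⁻¹ * ν (g * s) ∈ (Z0 : Set G) ^ N := by
    intro N
    induction N with
    | zero =>
      intro s hs' g
      rw [pow_zero, Set.mem_one] at hs'
      subst hs'
      simp
    | succ N ih =>
      intro s hs' g
      rw [pow_succ] at hs'
      obtain ⟨x, hx, y, hy, rfl⟩ := hs'
      have : (ν g)⁻¹ * ν (g * (x * y)) =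
          ((ν g)⁻¹ * ν (g * x)) * ((ν (g * x))⁻¹ * ν (g * x * y)) := by
        rw [← mul_assoc g x y]; group
      simp only []
      rw [this, pow_succ]
      exact Set.mul_mem_mul (ih x hx g) (hs _ y hy)
  refine ⟨a * (r + 1) ^ d, d, fun m => ?_⟩
  obtain ⟨F, hF, hm⟩ := h (r * m)
  refine ⟨F, hF.trans ?_, ?_⟩
  · rw [mul_assoc, ← mul_pow]
    refine Nat.mul_le_mul_left _ (Nat.pow_le_pow_left ?_ _)
    linarith only [Nat.zero_le r, Nat.zero_le m]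
  · rintro z hz ⟨c, hc⟩
    refine hm z ⟨r * c, fun j => ?_⟩
    have h1 : z ^ j ∈ U ^ (j * (r * m) + r * c) := by
      have h2 : z ^ j ∈ (U ^ r) ^ (j * m + c) := Set.pow_subset_pow_left hr (hc j)
      rw [← pow_mul] at h2
      have h3 : r * (j * m + c) = j * (r * m) + r * c := by ring
      rwa [h3] at h2
    have h4 := hN _ _ h1 1
    have hj : Λ.π (z ^ j) = 1 := by rw [map_pow, hz, one_pow]
    have h5 : ν (1 * z ^ j) = z ^ j * ν 1 := by
      rw [one_mul, ← hν (z ^ j) 1 hj, mul_one]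
    rw [h5, Λ.central hj (ν 1), inv_mul_cancel_left] at h4
    exact h4

end Lin

end Pool.Agent.Work.MP_dbf1ea_an.V
end

-- merged part: Pool.Agent.Work.MP_dbf1ea_an.V.PStrong
section
/-!
Strong monotonicity of the gradient of the potential.
-/

set_option autoImplicit false

open scoped Matrix Pointwise Topology

namespace Pool.Agent.Work.MP_dbf1ea_an.V

variable {ι : Type} [Fintype ι] [DecidableEq ι]

lemma PStrong_det_diff {M : ℝ → Matrix ι ι ℝ} (hM : ∀ a b, Differentiable ℝ fun t => M t a b) :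
    Differentiable ℝ fun t => (M t).det := by
  simp only [Matrix.det_apply, Units.smul_def, zsmul_eq_mul]
  refine Differentiable.fun_sum fun σ _ => Differentiable.const_mul ?_ _
  exact Differentiable.fun_finsetProd fun i _ => hM _ _

lemma PStrong_inv_diff {M : ℝ → Matrix ι ι ℝ} (hM : ∀ a b, Differentiable ℝ fun t => M t a b)
    (hu : ∀ t, IsUnit (M t).det) (a b : ι) : Differentiable ℝ fun t => (M t)⁻¹ a b := by
  have h1 : (fun t => (M t)⁻¹ a b) = fun t => ((M t).det)⁻¹ * (M t).adjugate a b := by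
    funext t
    rw [Matrix.inv_def, Ring.inverse_eq_inv', Matrix.smul_apply, smul_eq_mul]
  rw [h1]
  refine Differentiable.mul ((PStrong_det_diff hM).inv fun t => (hu t).ne_zero) ?_
  simp only [Matrix.adjugate_apply]
  refine PStrong_det_diff fun c d => ?_
  simp only [Matrix.updateRow_apply]
  split_ifs
  · exact differentiable_const _
  · exact hM _ _

lemma PStrong_inv_deriv {M M' : ℝ → Matrix ι ι ℝ}
    (hM : ∀ a b t, HasDerivAt (fun t => M t a b) (M' t a b) t)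
    (hu : ∀ t, IsUnit (M t).det) (a b : ι) (t : ℝ) :
    HasDerivAt (fun t => (M t)⁻¹ a b) (-((M t)⁻¹ * M' t * (M t)⁻¹) a b) t := by
  have hd := PStrong_inv_diff (fun a b t => (hM a b t).differentiableAt) hu
  set R' : Matrix ι ι ℝ := Matrix.of fun a b => deriv (fun t => (M t)⁻¹ a b) t with hR'
  have hR : ∀ a b, HasDerivAt (fun t => (M t)⁻¹ a b) (R' a b) t := fun a b =>
    (hd a b t).hasDerivAt
  have h0 : M' t * (M t)⁻¹ + M t * R' = 0 := by
    ext c d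
    have h1 : HasDerivAt (fun t => ∑ e, M t c e * (M t)⁻¹ e d)
        (∑ e, (M' t c e * (M t)⁻¹ e d + M t c e * R' e d)) t :=
      HasDerivAt.fun_sum fun e _ => (hM c e t).mul (hR e d)
    have h2 : (fun t => ∑ e, M t c e * (M t)⁻¹ e d) = fun _ => (1 : Matrix ι ι ℝ) c d := by
      funext u
      rw [← Matrix.mul_apply, Matrix.mul_nonsing_inv _ (hu u)]
    rw [h2] at h1
    have h3 := h1.unique (hasDerivAt_const t _)
    rw [Matrix.add_apply, Matrix.mul_apply, Matrix.mul_apply, ← Finset.sum_add_distrib, h3]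
    rfl
  have h4 : R' = -((M t)⁻¹ * M' t * (M t)⁻¹) := by
    have h5 : (M t)⁻¹ * (M' t * (M t)⁻¹ + M t * R') = 0 := by rw [h0, Matrix.mul_zero]
    rw [Matrix.mul_add, ← Matrix.mul_assoc, ← Matrix.mul_assoc, Matrix.nonsing_inv_mul _ (hu t),
      Matrix.one_mul] at h5
    exact eq_neg_of_add_eq_zero_right h5
  have h6 := hR a b
  rw [h4] at h6
  exact h6

lemma PStrong_term {U : Matrix ι ι ℝ} (hU : U * Uᵀ = 1) (b l : ι → ℝ) (hb : ∀ a, 0 < b a)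
    {s : ℝ} (hs : 0 < s) {P : Matrix ι ι ℝ} (hP : P = U * Matrix.diagonal b * Uᵀ) :
    ∑ a, l a * ((P + s • (1 : Matrix ι ι ℝ))⁻¹ *
        (Matrix.diagonal l * P + P * Matrix.diagonal l) * (P + s • (1 : Matrix ι ι ℝ))⁻¹) a a =
      ∑ a, ∑ c, (Uᵀ * Matrix.diagonal l * U) a c ^ 2 *
        ((b a + b c) / ((b a + s) * (b c + s))) := by
  have hU' : Uᵀ * U = 1 := mul_eq_one_comm.1 hU
  have hc : ∀ Z : Matrix ι ι ℝ, Uᵀ * (U * Z) = Z := fun Z => by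
    rw [← Matrix.mul_assoc, hU', Matrix.one_mul]
  set r : Matrix ι ι ℝ := Matrix.diagonal fun a => (b a + s)⁻¹ with hr
  set X : Matrix ι ι ℝ := Uᵀ * Matrix.diagonal l * U with hX
  have hPs : P + s • (1 : Matrix ι ι ℝ) = U * Matrix.diagonal (fun a => b a + s) * Uᵀ := by
    have : (Matrix.diagonal fun a => b a + s) =
        Matrix.diagonal b + s • (1 : Matrix ι ι ℝ) := by
      ext a c
      by_cases hac : a = c
      · subst hac; simp
      · simp [hac]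
    rw [this, Matrix.mul_add, Matrix.add_mul, ← hP, Matrix.mul_smul, Matrix.mul_one,
      Matrix.smul_mul, hU]
  have hinv : (P + s • (1 : Matrix ι ι ℝ))⁻¹ = U * r * Uᵀ := by
    refine Matrix.inv_eq_right_inv ?_
    rw [hPs]
    have h1 : (Matrix.diagonal fun a => b a + s) * r = 1 := by
      rw [hr, Matrix.diagonal_mul_diagonal, ← Matrix.diagonal_one]
      congr 1
      funext a
      exact mul_inv_cancel₀ (add_pos (hb a) hs).ne'
    simp only [Matrix.mul_assoc, hc]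
    rw [← Matrix.mul_assoc (Matrix.diagonal _), h1, Matrix.one_mul, hU]
  have hD : Matrix.diagonal l = U * X * Uᵀ := by
    rw [hX]
    simp only [← Matrix.mul_assoc]
    rw [hU, Matrix.one_mul, Matrix.mul_assoc, hU, Matrix.mul_one]
  have hXs : ∀ a c, X c a = X a c := fun a c => by
    have : Xᵀ = X := by
      rw [hX, Matrix.transpose_mul, Matrix.transpose_mul, Matrix.transpose_transpose,
        Matrix.diagonal_transpose, Matrix.mul_assoc]
    rw [← Matrix.transpose_apply X a c, this]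
  have htr : ∀ Z : Matrix ι ι ℝ, ∑ a, l a * Z a a = (Matrix.diagonal l * Z).trace := fun Z => by
    simp [Matrix.trace, Matrix.diagonal_mul]
  rw [htr, hinv]
  have h2 : Matrix.diagonal l * (U * r * Uᵀ * (Matrix.diagonal l * P + P * Matrix.diagonal l) *
      (U * r * Uᵀ)) =
      U * (X * (r * (X * Matrix.diagonal b + Matrix.diagonal b * X) * r)) * Uᵀ := by
    rw [hD, hP]
    simp only [Matrix.mul_add, Matrix.add_mul, Matrix.mul_assoc, hc]
  rw [h2, Matrix.trace_mul_cycle, hU', Matrix.one_mul]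
  simp only [Matrix.trace, Matrix.diag_apply]
  refine Finset.sum_congr rfl fun a _ => ?_
  rw [Matrix.mul_apply]
  refine Finset.sum_congr rfl fun c _ => ?_
  rw [hr, Matrix.mul_diagonal, Matrix.diagonal_mul, Matrix.add_apply, Matrix.mul_diagonal,
    Matrix.diagonal_mul, hXs a c]
  have h3 := (add_pos (hb a) hs).ne'
  have h4 := (add_pos (hb c) hs).ne'
  field_simp

lemma PStrong_sq {U : Matrix ι ι ℝ} (hU : U * Uᵀ = 1) (l : ι → ℝ) :
    ∑ a, ∑ c, (Uᵀ * Matrix.diagonal l * U) a c ^ 2 = ∑ a, l a ^ 2 := by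
  have hc : ∀ Z : Matrix ι ι ℝ, U * (Uᵀ * Z) = Z := fun Z => by
    rw [← Matrix.mul_assoc, hU, Matrix.one_mul]
  set X : Matrix ι ι ℝ := Uᵀ * Matrix.diagonal l * U with hX
  have h1 : ∑ a, ∑ c, X a c ^ 2 = (X * Xᵀ).trace := by
    simp [Matrix.trace, Matrix.mul_apply, sq]
  have h2 : X * Xᵀ = Uᵀ * (Matrix.diagonal l * Matrix.diagonal l) * U := by
    rw [hX, Matrix.transpose_mul, Matrix.transpose_mul, Matrix.transpose_transpose,
      Matrix.diagonal_transpose]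
    simp only [Matrix.mul_assoc, hc]
  rw [h1, h2, Matrix.trace_mul_cycle, hU, Matrix.one_mul, Matrix.diagonal_mul_diagonal,
    Matrix.trace_diagonal]
  simp only [sq]

lemma PStrong_one {x y s : ℝ} (hy : 0 < y) (hyx : y ≤ x) (h1 : x ≤ s) (h2 : s ≤ 2 * x) :
    1 / 5 ≤ s * ((x + y) / ((x + s) * (y + s))) := by
  have hx : 0 < x := by linarith
  have hs : 0 < s := by linarith
  rw [← mul_div_assoc, le_div_iff₀ (by positivity)]
  have a1 : x * y ≤ s * y := mul_le_mul_of_nonneg_right h1 hy.le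
  have a2 : s * s ≤ 2 * x * s := mul_le_mul_of_nonneg_right h2 hs.le
  have a3 : 0 < s * x := by positivity
  have a4 : 0 < s * y := by positivity
  linarith only [a1, a2, a3, a4]

lemma PStrong_scalar (J : ℕ) {x y : ℝ} (hx : 1 ≤ 2 ^ J * x) (hx' : x ≤ 2 ^ J)
    (hy : 1 ≤ 2 ^ J * y) (hy' : y ≤ 2 ^ J) :
    1 / 5 ≤ ∑ j ∈ Finset.Icc (-(J : ℤ)) J,
      (2 : ℝ) ^ j * ((x + y) / ((x + 2 ^ j) * (y + 2 ^ j))) := by
  wlog hyx : y ≤ x generalizing x y
  · have := this hy hy' hx hx' (not_le.1 hyx).le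
    refine this.trans (le_of_eq (Finset.sum_congr rfl fun j _ => ?_))
    rw [add_comm y x, mul_comm (y + _)]
  have hJ : (0 : ℝ) < 2 ^ J := by positivity
  have hy0 : 0 < y := by
    by_contra h
    have := mul_nonpos_of_nonneg_of_nonpos hJ.le (not_lt.1 h)
    linarith
  have hx0 : 0 < x := by linarith
  obtain ⟨n, h1, h2⟩ := exists_mem_Ioc_zpow hx0 (one_lt_two (α := ℝ))
  have hn1 : n + 1 ∈ Finset.Icc (-(J : ℤ)) J := by
    rw [Finset.mem_Icc]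
    constructor
    · rw [← zpow_le_zpow_iff_right₀ (one_lt_two (α := ℝ)), zpow_neg, zpow_natCast]
      refine le_trans ?_ h2
      rw [inv_le_iff_one_le_mul₀' hJ]
      exact hx
    · have : (2 : ℝ) ^ n < 2 ^ (J : ℤ) := by rw [zpow_natCast]; linarith
      rw [zpow_lt_zpow_iff_right₀ (one_lt_two (α := ℝ))] at this
      omega
  refine le_trans ?_ (Finset.single_le_sum (f := fun j : ℤ =>
    (2 : ℝ) ^ j * ((x + y) / ((x + 2 ^ j) * (y + 2 ^ j)))) (fun j _ => by positivity) hn1)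
  refine PStrong_one hy0 hyx h2 ?_
  rw [zpow_add_one₀ two_ne_zero]
  linarith only [h1]

lemma PStrong_lower (J : ℕ) (l : ι → ℝ) {P : Matrix ι ι ℝ} (hP : P.IsHermitian)
    (h1 : LeC (2 ^ J) P 1) (h2 : LeC (2 ^ J) 1 P) :
    (∑ a, l a ^ 2) / 5 ≤ ∑ j ∈ Finset.Icc (-(J : ℤ)) J, (2 : ℝ) ^ j *
      ∑ a, l a * ((P + (2 : ℝ) ^ j • (1 : Matrix ι ι ℝ))⁻¹ *
        (Matrix.diagonal l * P + P * Matrix.diagonal l) *
          (P + (2 : ℝ) ^ j • (1 : Matrix ι ι ℝ))⁻¹) a a := by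
  set U : Matrix ι ι ℝ := hP.eigenvectorUnitary.1 with hUdef
  set b : ι → ℝ := hP.eigenvalues with hb
  have hst : star U = Uᵀ := by
    rw [Matrix.star_eq_conjTranspose, Matrix.conjTranspose_eq_transpose_of_trivial]
  have hU : U * Uᵀ = 1 := by
    rw [← hst]; exact hP.eigenvectorUnitary.2.2
  have hU' : Uᵀ * U = 1 := mul_eq_one_comm.1 hU
  have hPU : P = U * Matrix.diagonal b * Uᵀ := by
    have := hP.spectral_theorem
    rw [Unitary.conjStarAlgAut_apply] at this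
    rw [← hst]
    exact this
  have hq : ∀ (A : Matrix ι ι ℝ) (a : ι), (U *ᵥ Pi.single a 1) ⬝ᵥ A *ᵥ (U *ᵥ Pi.single a 1) =
      (Uᵀ * A * U) a a := fun A a => by
    rw [Matrix.mulVec_mulVec, ← Matrix.vecMul_transpose U, ← Matrix.dotProduct_mulVec,
      Matrix.mulVec_mulVec, ← Matrix.mul_assoc]
    simp
  have hq1 : ∀ a, (Uᵀ * P * U) a a = b a := fun a => by
    have : Uᵀ * P * U = Matrix.diagonal b := by
      rw [hPU]
      simp only [← Matrix.mul_assoc]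
      rw [hU', Matrix.one_mul, Matrix.mul_assoc, hU', Matrix.mul_one]
    rw [this, Matrix.diagonal_apply_eq]
  have hq2 : ∀ a, (Uᵀ * (1 : Matrix ι ι ℝ) * U) a a = 1 := fun a => by
    rw [Matrix.mul_one, hU', Matrix.one_apply_eq]
  have hb1 : ∀ a, b a ≤ 2 ^ J := fun a => by
    have := h1 (U *ᵥ Pi.single a 1)
    rwa [hq, hq, hq1, hq2, mul_one] at this
  have hb2 : ∀ a, 1 ≤ 2 ^ J * b a := fun a => by
    have := h2 (U *ᵥ Pi.single a 1)
    rwa [hq, hq, hq1, hq2] at this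
  have hb0 : ∀ a, 0 < b a := fun a => by
    by_contra h
    have := mul_nonpos_of_nonneg_of_nonpos (show (0 : ℝ) ≤ 2 ^ J by positivity) (not_lt.1 h)
    linarith only [this, hb2, hb2 a]
  have hT : ∀ j : ℤ, _ := fun j => PStrong_term hU b l hb0 (s := (2 : ℝ) ^ j) (by positivity) hPU
  simp only [hT]
  rw [← PStrong_sq hU l]
  simp only [Finset.mul_sum, Finset.sum_div]
  rw [Finset.sum_comm (s := Finset.Icc _ _)]
  refine Finset.sum_le_sum fun a _ => ?_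
  rw [Finset.sum_comm (s := Finset.Icc _ _)]
  refine Finset.sum_le_sum fun c _ => ?_
  have h3 := mul_le_mul_of_nonneg_left (PStrong_scalar J (hb2 a) (hb1 a) (hb2 c) (hb1 c))
    (sq_nonneg ((Uᵀ * Matrix.diagonal l * U) a c))
  rw [Finset.mul_sum] at h3
  refine le_trans (le_of_eq (by ring)) (h3.trans (le_of_eq ?_))
  exact Finset.sum_congr rfl fun j _ => by ring

theorem psi_strong (J : ℕ) (l : ι → ℝ) {B : Matrix ι ι ℝ} (hB : B.PosDef)
    (h : ∀ t ∈ Set.Icc (0 : ℝ) 1, LeC (2 ^ J) (dg l t * B * dg l t) 1 ∧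
      LeC (2 ^ J) 1 (dg l t * B * dg l t)) :
    psi J l B + (∑ a, l a ^ 2) / 5 ≤ psi J l (dg l 1 * B * dg l 1) := by
  set P : ℝ → Matrix ι ι ℝ := fun t => dg l t * B * dg l t with hPdef
  have hent : ∀ t a c, P t a c = Real.exp (t * l a) * B a c * Real.exp (t * l c) := by
    intro t a c
    simp only [hPdef, dg, Matrix.mul_diagonal, Matrix.diagonal_mul]
  have hpsd : ∀ t, (P t).PosSemidef := fun t => by
    have h1 := hB.posSemidef.conjTranspose_mul_mul_same (dg l t)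
    have h2 : (dg l t)ᴴ = dg l t := by
      rw [Matrix.conjTranspose_eq_transpose_of_trivial, dg, Matrix.diagonal_transpose]
    rwa [h2] at h1
  have hder : ∀ (s : ℝ) a c t, HasDerivAt (fun t => (P t + s • (1 : Matrix ι ι ℝ)) a c)
      ((Matrix.diagonal l * P t + P t * Matrix.diagonal l) a c) t := by
    intro s a c t
    simp only [Matrix.add_apply, Matrix.mul_diagonal, Matrix.diagonal_mul, hent]
    have e1 : HasDerivAt (fun t => Real.exp (t * l a)) (Real.exp (t * l a) * (1 * l a)) t :=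
      ((hasDerivAt_id t).mul_const (l a)).exp
    have e2 : HasDerivAt (fun t => Real.exp (t * l c)) (Real.exp (t * l c) * (1 * l c)) t :=
      ((hasDerivAt_id t).mul_const (l c)).exp
    have e3 := ((e1.mul_const (B a c)).mul e2).add_const ((s • (1 : Matrix ι ι ℝ)) a c)
    exact e3.congr_deriv (by ring)
  have hu : ∀ (j : ℤ) t, IsUnit (P t + (2 : ℝ) ^ j • (1 : Matrix ι ι ℝ)).det := fun j t =>
    (Matrix.isUnit_iff_isUnit_det _).1
      (Matrix.PosDef.posSemidef_add (hpsd t)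
        (Matrix.PosDef.one.smul (show (0 : ℝ) < 2 ^ j by positivity))).isUnit
  have hg : ∀ t, HasDerivAt (fun t => psi J l (P t) - t * ((∑ a, l a ^ 2) / 5))
      (∑ j ∈ Finset.Icc (-(J : ℤ)) J, (2 : ℝ) ^ j *
        ∑ a, l a * ((P t + (2 : ℝ) ^ j • (1 : Matrix ι ι ℝ))⁻¹ *
          (Matrix.diagonal l * P t + P t * Matrix.diagonal l) *
            (P t + (2 : ℝ) ^ j • (1 : Matrix ι ι ℝ))⁻¹) a a - (∑ a, l a ^ 2) / 5) t := by
    intro t
    have e1 := (HasDerivAt.fun_sum (u := Finset.Icc (-(J : ℤ)) J) fun j _ =>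
      (HasDerivAt.fun_sum (u := Finset.univ) fun a _ =>
        (PStrong_inv_deriv (hder ((2 : ℝ) ^ j)) (hu j) a a t).const_mul (l a)).const_mul
          ((2 : ℝ) ^ j)).neg
    have e2 := e1.sub ((hasDerivAt_id t).mul_const ((∑ a, l a ^ 2) / 5))
    exact e2.congr_deriv (by simp only [mul_neg, Finset.sum_neg_distrib, neg_neg, one_mul])
  have hmono : MonotoneOn (fun t => psi J l (P t) - t * ((∑ a, l a ^ 2) / 5)) (Set.Icc 0 1) := by
    refine monotoneOn_of_deriv_nonneg (convex_Icc 0 1)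
      (fun t _ => (hg t).continuousAt.continuousWithinAt)
      (fun t _ => (hg t).differentiableAt.differentiableWithinAt) fun t ht => ?_
    have ht' := interior_subset ht
    rw [(hg t).deriv, sub_nonneg]
    exact PStrong_lower J l (hpsd t).1 (h t ht').1 (h t ht').2
  have h01 := hmono (Set.left_mem_Icc.2 zero_le_one) (Set.right_mem_Icc.2 zero_le_one) zero_le_one
  have hP0 : P 0 = B := by
    ext a c
    simp [hent]
  simp only [hP0] at h01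
  linarith only [h01]

end Pool.Agent.Work.MP_dbf1ea_an.V
end

-- merged part: Pool.Agent.Work.MP_dbf1ea_an.V.PLip
section
/-!
Lipschitz dependence of the gradient and criticality at a minimum.
-/

set_option autoImplicit false

open scoped Matrix Pointwise Topology

namespace Pool.Agent.Work.MP_dbf1ea_an.V

variable {ι : Type} [Fintype ι] [DecidableEq ι]

theorem PLip_symm {M : Matrix ι ι ℝ} (hM : M.PosDef) (u w : ι → ℝ) :
    u ⬝ᵥ M *ᵥ w = w ⬝ᵥ M *ᵥ u := by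
  have h : Mᵀ = M := by
    have := hM.isHermitian
    rwa [Matrix.IsHermitian, Matrix.conjTranspose_eq_transpose_of_trivial] at this
  rw [Matrix.dotProduct_mulVec, ← Matrix.mulVec_transpose, h, dotProduct_comm]

theorem PLip_mulInv {M : Matrix ι ι ℝ} (hM : M.PosDef) (v : ι → ℝ) : M *ᵥ (M⁻¹ *ᵥ v) = v := by
  rw [Matrix.mulVec_mulVec, Matrix.mul_nonsing_inv _ ((Matrix.isUnit_iff_isUnit_det _).1 hM.isUnit),
    Matrix.one_mulVec]

theorem PLip_nonneg {M : Matrix ι ι ℝ} (hM : M.PosDef) (v : ι → ℝ) : 0 ≤ v ⬝ᵥ M *ᵥ v := by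
  simpa using hM.posSemidef.dotProduct_mulVec_nonneg v

theorem PLip_quad {M : Matrix ι ι ℝ} (hM : M.PosDef) (v w : ι → ℝ) :
    2 * (v ⬝ᵥ w) - w ⬝ᵥ M *ᵥ w ≤ v ⬝ᵥ M⁻¹ *ᵥ v := by
  set u := M⁻¹ *ᵥ v with hu
  have hMu : M *ᵥ u = v := PLip_mulInv hM v
  have h := PLip_nonneg hM (w - u)
  rw [Matrix.mulVec_sub, dotProduct_sub, sub_dotProduct, sub_dotProduct, PLip_symm hM u w, hMu,
    dotProduct_comm w v, dotProduct_comm u v] at h
  linarith

theorem PLip_inv_mono {M M' : Matrix ι ι ℝ} (hM : M.PosDef) (hM' : M'.PosDef) {c : ℝ} (hc : 0 < c)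
    (h : ∀ v : ι → ℝ, v ⬝ᵥ M *ᵥ v ≤ c * (v ⬝ᵥ M' *ᵥ v)) (v : ι → ℝ) :
    v ⬝ᵥ M'⁻¹ *ᵥ v ≤ c * (v ⬝ᵥ M⁻¹ *ᵥ v) := by
  set w := M'⁻¹ *ᵥ v with hw
  have hMw : M' *ᵥ w = v := PLip_mulInv hM' v
  have h1 := h w
  rw [hMw, dotProduct_comm w v] at h1
  have h2 := PLip_quad hM v (c⁻¹ • w)
  rw [Matrix.mulVec_smul, dotProduct_smul, dotProduct_smul, smul_dotProduct] at h2
  simp only [smul_eq_mul] at h2
  have h3 := mul_le_mul_of_nonneg_left h2 hc.le
  have h4 : c * (2 * (c⁻¹ * (v ⬝ᵥ w)) - c⁻¹ * (c⁻¹ * (w ⬝ᵥ M *ᵥ w)))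
      = 2 * (v ⬝ᵥ w) - c⁻¹ * (w ⬝ᵥ M *ᵥ w) := by
    field_simp
  have h5 : c⁻¹ * (w ⬝ᵥ M *ᵥ w) ≤ v ⬝ᵥ w := by
    rw [inv_mul_le_iff₀ hc]; exact h1
  linarith only [h3, h4, h5]

theorem PLip_pd {B : Matrix ι ι ℝ} (hB : B.PosDef) {s : ℝ} (hs : 0 < s) :
    (B + s • (1 : Matrix ι ι ℝ)).PosDef :=
  hB.add_posSemidef (Matrix.PosSemidef.one.smul hs.le)

theorem PLip_entry (M : Matrix ι ι ℝ) (a : ι) :
    (Pi.single a (1 : ℝ) : ι → ℝ) ⬝ᵥ M *ᵥ (Pi.single a (1 : ℝ) : ι → ℝ) = M a a := by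
  simp

theorem PLip_form (B : Matrix ι ι ℝ) (s : ℝ) (v : ι → ℝ) :
    v ⬝ᵥ (B + s • (1 : Matrix ι ι ℝ)) *ᵥ v = v ⬝ᵥ B *ᵥ v + s * (v ⬝ᵥ v) := by
  rw [Matrix.add_mulVec, dotProduct_add, Matrix.smul_mulVec, Matrix.one_mulVec, dotProduct_smul,
    smul_eq_mul]

/-- The summand of the gradient. -/
noncomputable def PLip_f (B : Matrix ι ι ℝ) (a : ι) (j : ℤ) : ℝ :=
  (2 : ℝ) ^ j * (B + (2 : ℝ) ^ j • (1 : Matrix ι ι ℝ))⁻¹ a a

theorem PLip_f_nonneg {B : Matrix ι ι ℝ} (hB : B.PosDef) (a : ι) (j : ℤ) : 0 ≤ PLip_f B a j := by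
  have hs : (0 : ℝ) < 2 ^ j := by positivity
  exact mul_nonneg hs.le (PLip_pd hB hs).inv.posSemidef.diag_nonneg

theorem PLip_f_le {B : Matrix ι ι ℝ} (hB : B.PosDef) (a : ι) (j : ℤ) : PLip_f B a j ≤ 1 := by
  have hs : (0 : ℝ) < 2 ^ j := by positivity
  have h := PLip_inv_mono (M := (1 : Matrix ι ι ℝ)) Matrix.PosDef.one (PLip_pd hB hs)
    (inv_pos.2 hs) (fun v => by
      rw [PLip_form, Matrix.one_mulVec, mul_add, ← mul_assoc, inv_mul_cancel₀ hs.ne', one_mul]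
      have := mul_nonneg (inv_pos.2 hs).le (PLip_nonneg hB v)
      linarith only [this]) (Pi.single a 1)
  rw [PLip_entry, PLip_entry, inv_one, Matrix.one_apply_eq, mul_one] at h
  unfold PLip_f
  calc (2 : ℝ) ^ j * (B + (2 : ℝ) ^ j • (1 : Matrix ι ι ℝ))⁻¹ a a ≤ 2 ^ j * ((2 : ℝ) ^ j)⁻¹ :=
        mul_le_mul_of_nonneg_left h hs.le
    _ = 1 := mul_inv_cancel₀ hs.ne'

theorem PLip_f_shift {A B : Matrix ι ι ℝ} (hA : A.PosDef) (hB : B.PosDef) (m : ℕ)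
    (h1 : LeC (2 ^ m) A B) (a : ι) (j : ℤ) : PLip_f B a (j - m) ≤ PLip_f A a j := by
  have hs : (0 : ℝ) < 2 ^ j := by positivity
  have hs' : (0 : ℝ) < 2 ^ (j - m) := by positivity
  have hc : (0 : ℝ) < 2 ^ m := by positivity
  have e : (2 : ℝ) ^ m * 2 ^ (j - m) = 2 ^ j := by
    rw [zpow_sub₀ two_ne_zero, zpow_natCast]; field_simp
  have h := PLip_inv_mono (PLip_pd hA hs) (PLip_pd hB hs') hc (fun v => by
      rw [PLip_form, PLip_form, mul_add, ← mul_assoc, e]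
      have := h1 v
      linarith) (Pi.single a 1)
  rw [PLip_entry, PLip_entry] at h
  unfold PLip_f
  calc (2 : ℝ) ^ (j - m) * (B + (2 : ℝ) ^ (j - m) • (1 : Matrix ι ι ℝ))⁻¹ a a
      ≤ 2 ^ (j - m) * (2 ^ m * (A + (2 : ℝ) ^ j • (1 : Matrix ι ι ℝ))⁻¹ a a) :=
        mul_le_mul_of_nonneg_left h hs'.le
    _ = _ := by rw [← mul_assoc, mul_comm ((2 : ℝ) ^ (j - m)), e]

theorem PLip_tele (g : ℤ → ℝ) (J : ℕ) :
    ∑ j ∈ Finset.Icc (-(J : ℤ)) J, (g j - g (j - 1)) = g J - g (-(J : ℤ) - 1) := by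
  induction J with
  | zero => simp
  | succ n ih =>
    have e : Finset.Icc (-((n + 1 : ℕ) : ℤ)) ((n + 1 : ℕ) : ℤ)
        = insert (-(n : ℤ) - 1) (insert ((n : ℤ) + 1) (Finset.Icc (-(n : ℤ)) n)) := by
      ext x; simp only [Finset.mem_Icc, Finset.mem_insert]; push_cast; omega
    rw [e, Finset.sum_insert, Finset.sum_insert, ih]
    · push_cast
      have e1 : (n : ℤ) + 1 - 1 = n := by ring
      have e2 : -((n : ℤ) + 1) - 1 = -(n : ℤ) - 1 - 1 := by ring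
      rw [e1, e2]; ring
    · simp only [Finset.mem_Icc]; omega
    · simp only [Finset.mem_Icc, Finset.mem_insert]; omega

theorem PLip_shift_sum (g : ℤ → ℝ) (h0 : ∀ j, 0 ≤ g j) (h1 : ∀ j, g j ≤ 1) (J m : ℕ) :
    ∑ j ∈ Finset.Icc (-(J : ℤ)) J, (g j - g (j - m)) ≤ m := by
  induction m with
  | zero => simp
  | succ k ih =>
    have ht := PLip_tele (fun j => g (j - k)) J
    have e : ∀ j : ℤ, g j - g (j - (k + 1 : ℕ)) = (g j - g (j - k)) + (g (j - k) - g (j - 1 - k)) := by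
      intro j
      have : j - ((k + 1 : ℕ) : ℤ) = j - 1 - k := by push_cast; ring
      rw [this]; ring
    simp only [e, Finset.sum_add_distrib]
    rw [ht]
    have := h0 (-(J : ℤ) - 1 - k)
    have := h1 ((J : ℤ) - k)
    push_cast
    linarith

theorem PLip_sum_le {A B : Matrix ι ι ℝ} (hA : A.PosDef) (hB : B.PosDef) (J m : ℕ)
    (h1 : LeC (2 ^ m) A B) (a : ι) :
    ∑ j ∈ Finset.Icc (-(J : ℤ)) J, (PLip_f B a j - PLip_f A a j) ≤ m := by
  refine le_trans (Finset.sum_le_sum fun j _ => ?_)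
    (PLip_shift_sum (PLip_f B a) (PLip_f_nonneg hB a) (PLip_f_le hB a) J m)
  have := PLip_f_shift hA hB m h1 a j
  linarith

theorem PLip_psi (J : ℕ) (l : ι → ℝ) (B : Matrix ι ι ℝ) :
    psi J l B = -∑ a, l a * ∑ j ∈ Finset.Icc (-(J : ℤ)) J, PLip_f B a j := by
  unfold psi PLip_f
  simp only [Finset.mul_sum]
  rw [Finset.sum_comm]
  congr 1
  refine Finset.sum_congr rfl fun a _ => Finset.sum_congr rfl fun j _ => by ring

theorem psi_lip (J m : ℕ) (l : ι → ℝ) {A B : Matrix ι ι ℝ} (hA : A.PosDef) (hB : B.PosDef)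
    (h1 : LeC (2 ^ m) A B) (h2 : LeC (2 ^ m) B A) :
    psi J l A ≤ psi J l B + m * ∑ a, |l a| := by
  rw [PLip_psi, PLip_psi, Finset.mul_sum]
  have key : ∀ a, l a * ∑ j ∈ Finset.Icc (-(J : ℤ)) J, PLip_f B a j
      ≤ l a * ∑ j ∈ Finset.Icc (-(J : ℤ)) J, PLip_f A a j + m * |l a| := by
    intro a
    have a1 := PLip_sum_le hA hB J m h1 a
    have a2 := PLip_sum_le hB hA J m h2 a
    rw [Finset.sum_sub_distrib] at a1 a2
    rcases le_total 0 (l a) with h | h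
    · rw [abs_of_nonneg h]; linarith only [a1, h, mul_nonneg_of_nonpos_of_nonpos (Mathlib.Tactic.Linarith.sub_nonpos_of_le a1) (Mathlib.Tactic.Linarith.sub_nonpos_of_le h)]
    · rw [abs_of_nonpos h]; nlinarith
  have := Finset.sum_le_sum (s := Finset.univ) fun a _ => key a
  rw [Finset.sum_add_distrib] at this
  linarith

theorem PLip_det_deriv (B : Matrix ι ι ℝ) (d : ℝ → ι → ℝ) (d' : ι → ℝ) (x : ℝ)
    (hd : ∀ i, HasDerivAt (fun t => d t i) (d' i) x) :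
    HasDerivAt (fun t => (B + Matrix.diagonal (d t)).det)
      (∑ i, d' i * (B + Matrix.diagonal (d x)).adjugate i i) x := by
  set M := B + Matrix.diagonal (d x) with hM
  have hent : ∀ (k i : ι), HasDerivAt (fun t => (B + Matrix.diagonal (d t)) k i)
      (d' i * (Pi.single i (1 : ℝ) : ι → ℝ) k) x := by
    intro k i
    by_cases h : k = i
    · subst h
      simpa using (hd k).const_add (B k k)
    · simpa [Matrix.diagonal_apply_ne _ h, h] using hasDerivAt_const x (B k i)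
  have h1 : HasDerivAt (fun t => ∑ σ : Equiv.Perm ι, ((Equiv.Perm.sign σ : ℤ) : ℝ) *
      ∏ i, (B + Matrix.diagonal (d t)) (σ i) i)
      (∑ σ : Equiv.Perm ι, ((Equiv.Perm.sign σ : ℤ) : ℝ) * ∑ i, (∏ k ∈ Finset.univ.erase i, M (σ k) k) •
        (d' i * (Pi.single i (1 : ℝ) : ι → ℝ) (σ i))) x :=
    HasDerivAt.fun_sum fun σ _ =>
      (HasDerivAt.fun_finsetProd (u := Finset.univ) fun i _ => hent (σ i) i).const_mul _
  have e1 : (fun t => (B + Matrix.diagonal (d t)).det) = fun t => ∑ σ : Equiv.Perm ι,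
      ((Equiv.Perm.sign σ : ℤ) : ℝ) * ∏ i, (B + Matrix.diagonal (d t)) (σ i) i := by
    funext t; rw [Matrix.det_apply']
  rw [e1]
  convert h1 using 1
  simp only [Finset.mul_sum]
  rw [Finset.sum_comm]
  refine Finset.sum_congr rfl fun i _ => ?_
  have e2 : M.adjugate i i = (M.updateCol i (Pi.single i 1)).det := by
    rw [← Matrix.cramer_apply, Matrix.cramer_eq_adjugate_mulVec]; simp
  rw [e2, Matrix.det_apply', Finset.mul_sum]
  refine Finset.sum_congr rfl fun σ _ => ?_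
  rw [← Finset.mul_prod_erase Finset.univ _ (Finset.mem_univ i), Matrix.updateCol_self]
  have e3 : ∏ k ∈ Finset.univ.erase i, M.updateCol i (Pi.single i 1) (σ k) k
      = ∏ k ∈ Finset.univ.erase i, M (σ k) k :=
    Finset.prod_congr rfl fun k hk => Matrix.updateCol_ne (Finset.ne_of_mem_erase hk)
  rw [e3, smul_eq_mul]; ring

theorem PLip_det_conj (l : ι → ℝ) (hl : ∑ a, l a = 0) (B : Matrix ι ι ℝ) (s t : ℝ) :
    (dg l t * B * dg l t + s • (1 : Matrix ι ι ℝ)).det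
      = (B + Matrix.diagonal fun i => s * Real.exp (-2 * t * l i)).det := by
  have e : dg l t * B * dg l t + s • (1 : Matrix ι ι ℝ)
      = dg l t * (B + Matrix.diagonal fun i => s * Real.exp (-2 * t * l i)) * dg l t := by
    rw [Matrix.mul_add, Matrix.add_mul]
    congr 1
    unfold dg
    rw [Matrix.diagonal_mul_diagonal, Matrix.diagonal_mul_diagonal, Matrix.smul_one_eq_diagonal]
    congr 1
    funext i
    have : Real.exp (t * l i) * Real.exp (-2 * t * l i) * Real.exp (t * l i) = 1 := by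
      rw [← Real.exp_add, ← Real.exp_add, ← Real.exp_zero]; congr 1; ring
    calc s = s * (Real.exp (t * l i) * Real.exp (-2 * t * l i) * Real.exp (t * l i)) := by
          rw [this, mul_one]
      _ = _ := by ring
  have e2 : (dg l t).det = 1 := by
    unfold dg
    rw [Matrix.det_diagonal, ← Real.exp_sum, ← Finset.mul_sum, hl, mul_zero, Real.exp_zero]
  rw [e, Matrix.det_mul, Matrix.det_mul, e2, one_mul, mul_one]

theorem PLip_log_deriv (l : ι → ℝ) {B : Matrix ι ι ℝ} (hB : B.PosDef) {s : ℝ} (hs : 0 < s) :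
    HasDerivAt (fun t => Real.log (B + Matrix.diagonal fun i => s * Real.exp (-2 * t * l i)).det)
      (-2 * (s * ∑ a, l a * (B + s • (1 : Matrix ι ι ℝ))⁻¹ a a)) 0 := by
  have hd : ∀ i, HasDerivAt (fun t : ℝ => s * Real.exp (-2 * t * l i)) (s * (-2 * l i)) 0 := by
    intro i
    have h0 : HasDerivAt (fun t : ℝ => -2 * t * l i) (-2 * l i) 0 := by
      simpa using ((hasDerivAt_id (0 : ℝ)).const_mul (-2)).mul_const (l i)
    simpa using h0.exp.const_mul s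
  have h := PLip_det_deriv B (fun t i => s * Real.exp (-2 * t * l i)) _ 0 hd
  have e : (B + Matrix.diagonal fun i => s * Real.exp (-2 * 0 * l i))
      = B + s • (1 : Matrix ι ι ℝ) := by
    rw [Matrix.smul_one_eq_diagonal]; simp
  have hdet : (B + s • (1 : Matrix ι ι ℝ)).det ≠ 0 :=
    ((Matrix.isUnit_iff_isUnit_det _).1 (PLip_pd hB hs).isUnit).ne_zero
  have h2 := h.log (by simp only [e]; exact hdet)
  simp only [e] at h2
  convert h2 using 1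
  rw [Finset.sum_div, Finset.mul_sum, Finset.mul_sum]
  refine Finset.sum_congr rfl fun a _ => ?_
  rw [Matrix.inv_def, Ring.inverse_eq_inv', Matrix.smul_apply, smul_eq_mul]
  field_simp

theorem psi_crit (J : ℕ) (l : ι → ℝ) (hl : ∑ a, l a = 0) {B : Matrix ι ι ℝ} (hB : B.PosDef)
    (h : ∀ t, Phi J B ≤ Phi J (dg l t * B * dg l t)) : psi J l B = 0 := by
  have hd : HasDerivAt (fun t => Phi J (dg l t * B * dg l t))
      (∑ j ∈ Finset.Icc (-(J : ℤ)) J, -2 * ((2 : ℝ) ^ j *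
        ∑ a, l a * (B + (2 : ℝ) ^ j • (1 : Matrix ι ι ℝ))⁻¹ a a)) 0 := by
    unfold Phi
    simp only [PLip_det_conj l hl]
    exact HasDerivAt.fun_sum fun j _ => PLip_log_deriv l hB (by positivity)
  have hmin : IsLocalMin (fun t => Phi J (dg l t * B * dg l t)) 0 := by
    refine Filter.Eventually.of_forall fun t => ?_
    have e : dg l 0 = 1 := by unfold dg; simp
    simp only [e, one_mul, mul_one]
    exact h t
  have h0 := hmin.hasDerivAt_eq_zero hd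
  rw [← Finset.mul_sum] at h0
  unfold psi
  linarith only [h0]

end Pool.Agent.Work.MP_dbf1ea_an.V
end

-- merged part: Pool.Agent.Work.MP_dbf1ea_an.V.Proj
section
/-!
Coarse projection onto an orbit of a self-adjoint group.
-/

set_option autoImplicit false

open scoped Matrix Pointwise Topology

namespace Pool.Agent.Work.MP_dbf1ea_an.V

variable {ι : Type} [Fintype ι] [DecidableEq ι]

/-- The squared operator norm is at most `K`. -/
def Proj_Op (K : ℝ) (a : Matrix ι ι ℝ) : Prop :=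
  ∀ v : ι → ℝ, (a *ᵥ v) ⬝ᵥ (a *ᵥ v) ≤ K * (v ⬝ᵥ v)

omit [DecidableEq ι] in
lemma Proj_dot_nonneg (v : ι → ℝ) : 0 ≤ v ⬝ᵥ v :=
  Finset.sum_nonneg fun i _ => mul_self_nonneg (v i)

omit [DecidableEq ι] in
lemma Proj_op_of_bd {C : ℝ} {a : Matrix ι ι ℝ} (h : Bd C a) :
    Proj_Op ((Fintype.card ι * C) ^ 2) a := by
  intro v
  have h1 : ∀ i, (a *ᵥ v) i * (a *ᵥ v) i ≤ Fintype.card ι * C ^ 2 * (v ⬝ᵥ v) := by
    intro i
    have e : (a *ᵥ v) i = ∑ j, a i j * v j := rfl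
    have h2 := Finset.sum_mul_sq_le_sq_mul_sq Finset.univ (fun j => a i j) v
    have h3 : ∑ j, a i j ^ 2 ≤ Fintype.card ι * C ^ 2 := by
      calc ∑ j, a i j ^ 2 ≤ ∑ _j : ι, C ^ 2 :=
            Finset.sum_le_sum fun j _ => by
              rw [← sq_abs]
              exact pow_le_pow_left₀ (abs_nonneg _) (h i j) 2
        _ = Fintype.card ι * C ^ 2 := by simp
    have h4 : ∑ j, v j ^ 2 = v ⬝ᵥ v := Finset.sum_congr rfl fun j _ => sq (v j)
    rw [← sq, e]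
    rw [h4] at h2
    exact h2.trans (mul_le_mul_of_nonneg_right h3 (Proj_dot_nonneg v))
  calc (a *ᵥ v) ⬝ᵥ (a *ᵥ v) ≤ ∑ _i : ι, Fintype.card ι * C ^ 2 * (v ⬝ᵥ v) :=
        Finset.sum_le_sum fun i _ => h1 i
    _ = (Fintype.card ι * C) ^ 2 * (v ⬝ᵥ v) := by
        simp only [Finset.sum_const, Finset.card_univ, nsmul_eq_mul]
        ring

omit [Fintype ι] [DecidableEq ι] in
lemma Proj_bd_tr {C : ℝ} {a : Matrix ι ι ℝ} (h : Bd C a) : Bd C aᵀ := fun i j => h j i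

omit [DecidableEq ι] in
lemma Proj_op_mul {K L : ℝ} {a b : Matrix ι ι ℝ} (hK : 0 ≤ K) (ha : Proj_Op K a)
    (hb : Proj_Op L b) : Proj_Op (K * L) (a * b) := by
  intro v
  rw [← Matrix.mulVec_mulVec, mul_assoc]
  exact (ha _).trans (mul_le_mul_of_nonneg_left (hb v) hK)

omit [DecidableEq ι] in
lemma Proj_op_mono {K L : ℝ} {a : Matrix ι ι ℝ} (ha : Proj_Op K a) (h : K ≤ L) : Proj_Op L a :=
  fun v => (ha v).trans (mul_le_mul_of_nonneg_right h (Proj_dot_nonneg v))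

omit [DecidableEq ι] in
lemma Proj_quad (p : Matrix ι ι ℝ) (v : ι → ℝ) :
    v ⬝ᵥ (p * pᵀ) *ᵥ v = (pᵀ *ᵥ v) ⬝ᵥ (pᵀ *ᵥ v) := by
  rw [← Matrix.mulVec_mulVec, Matrix.dotProduct_mulVec, Matrix.mulVec_transpose]

lemma Proj_op_orth {U : Matrix ι ι ℝ} (h : Uᵀ * U = 1) : Proj_Op 1 U := by
  intro v
  have := Proj_quad Uᵀ v
  rw [Matrix.transpose_transpose, h, Matrix.one_mulVec] at this
  rw [← this, one_mul]

lemma Proj_op_left {K : ℝ} {U a : Matrix ι ι ℝ} (h : Uᵀ * U = 1) (ha : Proj_Op K a) :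
    Proj_Op K (U * a) := by
  have := Proj_op_mul zero_le_one (Proj_op_orth h) ha
  rwa [one_mul] at this

lemma Proj_op_right {K : ℝ} {U a : Matrix ι ι ℝ} (hK : 0 ≤ K) (h : Uᵀ * U = 1)
    (ha : Proj_Op K a) : Proj_Op K (a * U) := by
  have := Proj_op_mul hK ha (Proj_op_orth h)
  rwa [mul_one] at this

lemma Proj_op_entry {K : ℝ} {a : Matrix ι ι ℝ} (h : Proj_Op K a) (i j : ι) : a i j ^ 2 ≤ K := by
  have h1 := h (Pi.single j 1)
  have e1 : (Pi.single j (1 : ℝ) : ι → ℝ) ⬝ᵥ Pi.single j 1 = 1 := by simp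
  have e2 : (a *ᵥ Pi.single j 1) i = a i j := by simp
  rw [e1, mul_one] at h1
  have h2 : (a *ᵥ Pi.single j 1) i * (a *ᵥ Pi.single j 1) i ≤
      (a *ᵥ Pi.single j 1) ⬝ᵥ (a *ᵥ Pi.single j 1) :=
    Finset.single_le_sum (f := fun k => (a *ᵥ Pi.single j 1) k * (a *ᵥ Pi.single j 1) k)
      (fun k _ => mul_self_nonneg _) (Finset.mem_univ i)
  rw [e2] at h2
  rw [sq]
  exact h2.trans h1

lemma Proj_op_dg {K t : ℝ} {l : ι → ℝ} (h : ∀ a, Real.exp (t * l a) ^ 2 ≤ K) :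
    Proj_Op K (dg l t) := by
  intro v
  unfold dotProduct
  rw [Finset.mul_sum]
  refine Finset.sum_le_sum fun i _ => ?_
  rw [dg, Matrix.mulVec_diagonal]
  have := mul_le_mul_of_nonneg_right (h i) (mul_self_nonneg (v i))
  linarith only [this]

omit [DecidableEq ι] in
lemma Proj_lec {c : ℝ} {p q r : Matrix ι ι ℝ} (hr : Proj_Op c r) (e : pᵀ = r * qᵀ) :
    LeC c (p * pᵀ) (q * qᵀ) := by
  intro v
  rw [Proj_quad, Proj_quad, e, ← Matrix.mulVec_mulVec]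
  exact hr _

lemma Proj_posdef {p q : Matrix ι ι ℝ} (h : p * q = 1) : (p * pᵀ).PosDef := by
  have h1 : Function.Injective p.vecMul := by
    intro x y hxy
    have := congrArg (fun z => z ᵥ* q) hxy
    simpa [Matrix.vecMul_vecMul, h] using this
  have := Matrix.PosDef.mul_conjTranspose_self p h1
  rwa [Matrix.conjTranspose_eq_transpose_of_trivial] at this

lemma Proj_dg_mul (l : ι → ℝ) (s t : ℝ) : dg l s * dg l t = dg l (s + t) := by
  unfold dg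
  rw [Matrix.diagonal_mul_diagonal]
  congr 1
  funext i
  rw [← Real.exp_add, add_mul]

omit [Fintype ι] in
lemma Proj_dg_zero (l : ι → ℝ) : dg l 0 = 1 := by
  unfold dg
  simp

omit [Fintype ι] in
lemma Proj_dg_tr (l : ι → ℝ) (t : ℝ) : (dg l t)ᵀ = dg l t := Matrix.diagonal_transpose _

omit [Fintype ι] in
lemma Proj_dg_neg (l : ι → ℝ) (t : ℝ) : dg (-l) t = dg l (-t) := by
  unfold dg
  congr 1
  funext i
  simp

lemma Proj_pw_mul {U : Matrix ι ι ℝ} (h : Uᵀ * U = 1) (l : ι → ℝ) (s t : ℝ) :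
    pw U l s * pw U l t = pw U l (s + t) := by
  unfold pw
  calc U * dg l s * Uᵀ * (U * dg l t * Uᵀ) = U * (dg l s * (Uᵀ * U) * dg l t) * Uᵀ := by
        simp only [Matrix.mul_assoc]
    _ = U * dg l (s + t) * Uᵀ := by rw [h, Matrix.mul_one, Proj_dg_mul]

lemma Proj_pw_zero {U : Matrix ι ι ℝ} (h : U * Uᵀ = 1) (l : ι → ℝ) : pw U l 0 = 1 := by
  unfold pw
  rw [Proj_dg_zero, Matrix.mul_one, h]

lemma Proj_pw_tr (U : Matrix ι ι ℝ) (l : ι → ℝ) (t : ℝ) : (pw U l t)ᵀ = pw U l t := by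
  unfold pw
  rw [Matrix.transpose_mul, Matrix.transpose_mul, Matrix.transpose_transpose, Proj_dg_tr,
    Matrix.mul_assoc]

lemma Proj_pw_neg (U : Matrix ι ι ℝ) (l : ι → ℝ) (t : ℝ) : pw U (-l) t = pw U l (-t) := by
  unfold pw
  rw [Proj_dg_neg]

lemma Proj_det_conj {U : Matrix ι ι ℝ} (h : U * Uᵀ = 1) (B : Matrix ι ι ℝ) :
    (Uᵀ * B * U).det = B.det := by
  have h1 : U.det * Uᵀ.det = 1 := by rw [← Matrix.det_mul, h, Matrix.det_one]
  rw [Matrix.det_mul, Matrix.det_mul]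
  linear_combination B.det * h1

lemma Proj_det_pw {U : Matrix ι ι ℝ} (h : Uᵀ * U = 1) (l : ι → ℝ) :
    (pw U l 1).det = Real.exp (∑ a, l a) := by
  have h1 := Proj_det_conj (U := Uᵀ) (by rw [Matrix.transpose_transpose, h]) (dg l 1)
  rw [Matrix.transpose_transpose] at h1
  unfold pw
  rw [h1, dg, Matrix.det_diagonal, Real.exp_sum]
  simp

lemma Proj_phi_conj (J : ℕ) {U : Matrix ι ι ℝ} (h : U * Uᵀ = 1) (B : Matrix ι ι ℝ) :
    Phi J (Uᵀ * B * U) = Phi J B := by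
  have h' : Uᵀ * U = 1 := mul_eq_one_comm.1 h
  unfold Phi
  refine Finset.sum_congr rfl fun j _ => ?_
  rw [← Proj_det_conj h (B + (2 : ℝ) ^ j • (1 : Matrix ι ι ℝ)), Matrix.mul_add, Matrix.add_mul,
    Matrix.mul_smul, Matrix.smul_mul, Matrix.mul_one, h']

lemma Proj_dg_conj {U : Matrix ι ι ℝ} (h : Uᵀ * U = 1) (l : ι → ℝ) (t : ℝ) :
    dg l t * Uᵀ = Uᵀ * pw U l t := by
  unfold pw
  rw [← Matrix.mul_assoc, ← Matrix.mul_assoc, h, Matrix.one_mul]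

lemma Proj_sq_conj (l : ι → ℝ) (t : ℝ) (p : Matrix ι ι ℝ) :
    dg l t * (p * pᵀ) * dg l t = (dg l t * p) * (dg l t * p)ᵀ := by
  rw [Matrix.transpose_mul, Proj_dg_tr]
  simp only [Matrix.mul_assoc]

omit [DecidableEq ι] in
lemma Proj_sq_orth (U p : Matrix ι ι ℝ) : (Uᵀ * p) * (Uᵀ * p)ᵀ = Uᵀ * (p * pᵀ) * U := by
  rw [Matrix.transpose_mul, Matrix.transpose_transpose]
  simp only [Matrix.mul_assoc]

/-- Criticality at a minimiser of the potential. -/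
lemma Proj_crit (J : ℕ) {U p q : Matrix ι ι ℝ} {l : ι → ℝ} (hU : U * Uᵀ = 1)
    (hl : ∑ a, l a = 0) (hpq : p * q = 1)
    (h : ∀ t, Phi J (p * pᵀ) ≤ Phi J ((pw U l t * p) * (pw U l t * p)ᵀ)) :
    psi J l ((Uᵀ * p) * (Uᵀ * p)ᵀ) = 0 := by
  have hU' : Uᵀ * U = 1 := mul_eq_one_comm.1 hU
  refine psi_crit J l hl (Proj_posdef (q := q * U) ?_) fun t => ?_
  · calc Uᵀ * p * (q * U) = Uᵀ * (p * q) * U := by simp only [Matrix.mul_assoc]
      _ = 1 := by rw [hpq, Matrix.mul_one, hU']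
  · rw [Proj_sq_conj, ← Matrix.mul_assoc (dg l t), Proj_dg_conj hU', Matrix.mul_assoc Uᵀ _ p,
      Proj_sq_orth, Proj_sq_orth, Proj_phi_conj J hU, Proj_phi_conj J hU]
    exact h t

lemma Proj_exp_le {K x t : ℝ} (h1 : Real.exp (1 * x) ^ 2 ≤ K) (h2 : Real.exp (-1 * x) ^ 2 ≤ K)
    (ht : |t| ≤ 1) : Real.exp (t * x) ^ 2 ≤ K := by
  have ht' := abs_le.1 ht
  rcases le_total 0 x with hx | hx
  · refine le_trans (pow_le_pow_left₀ (Real.exp_pos _).le (Real.exp_le_exp.2 ?_) 2) h1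
    linarith only [ht', hx, ht'.2, mul_nonneg_of_nonpos_of_nonpos (Mathlib.Tactic.Linarith.sub_nonpos_of_le ht'.right) (Mathlib.Tactic.Linarith.sub_nonpos_of_le hx)]
  · refine le_trans (pow_le_pow_left₀ (Real.exp_pos _).le (Real.exp_le_exp.2 ?_) 2) h2
    linarith only [ht', hx, ht'.1, mul_nonneg_of_nonpos_of_nonpos (Mathlib.Tactic.Linarith.sub_nonpos_of_le ht'.left) (Mathlib.Tactic.Linarith.sub_nonpos_of_le hx)]

omit [DecidableEq ι] in
lemma Proj_sum_le {l : ι → ℝ} {m : ℝ} (hm : 0 ≤ m) (h : (∑ a, l a ^ 2) / 5 ≤ m * ∑ a, |l a|)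
    (a : ι) : |l a| ≤ 5 * m * Fintype.card ι := by
  have h1 : (∑ a, |l a|) ^ 2 ≤ Fintype.card ι * ∑ a, l a ^ 2 := by
    have := sq_sum_le_card_mul_sum_sq (s := Finset.univ) (f := fun a => |l a|)
    simpa [sq_abs] using this
  have h2 : |l a| ≤ ∑ a, |l a| :=
    Finset.single_le_sum (f := fun a => |l a|) (fun a _ => abs_nonneg _) (Finset.mem_univ a)
  have h0 : 0 ≤ ∑ a, |l a| := Finset.sum_nonneg fun a _ => abs_nonneg _
  have hn : (0 : ℝ) ≤ Fintype.card ι := Nat.cast_nonneg _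
  refine h2.trans ?_
  by_contra hc
  push Not at hc
  have h3 : 0 < ∑ a, |l a| := lt_of_le_of_lt (by positivity) hc
  have h4 : Fintype.card ι * ∑ a, l a ^ 2 ≤ Fintype.card ι * (5 * (m * ∑ a, |l a|)) :=
    mul_le_mul_of_nonneg_left (by linarith only [h]) hn
  linarith only [h1, h4, hc, h3, mul_pos_of_neg_of_neg (Mathlib.Tactic.Linarith.sub_neg_of_lt hc) (Mathlib.Tactic.Linarith.sub_neg_of_lt h3)]

/-- The key estimate, for matrices. -/
lemma Proj_key (J m : ℕ) {U a a' w w' k : Matrix ι ι ℝ} {l : ι → ℝ} {KM K : ℝ}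
    (hU : U * Uᵀ = 1) (hk : k * kᵀ = 1) (hl : ∑ i, l i = 0) (ha : a * a' = 1) (hw : w * w' = 1)
    (hy : pw U l 1 * k = a * w * a') (hKM : 0 ≤ KM) (hK : 0 ≤ K)
    (oa : Proj_Op KM a) (oa' : Proj_Op KM a') (oat : Proj_Op KM aᵀ) (oat' : Proj_Op KM a'ᵀ)
    (ow : Proj_Op K w) (ow' : Proj_Op K w') (owt : Proj_Op K wᵀ) (owt' : Proj_Op K w'ᵀ)
    (hm : K ≤ 2 ^ m) (hJ : KM * (KM * K * KM) ≤ 2 ^ J)
    (h1 : ∀ t, Phi J (a * aᵀ) ≤ Phi J ((pw U l t * a) * (pw U l t * a)ᵀ))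
    (h2 : ∀ t, Phi J (a * aᵀ) ≤ Phi J ((pw U l t * (k * a)) * (pw U l t * (k * a))ᵀ)) (i : ι) :
    |l i| ≤ 5 * m * Fintype.card ι := by
  have hU' : Uᵀ * U = 1 := mul_eq_one_comm.1 hU
  have hUt : Uᵀᵀ * Uᵀ = 1 := by rwa [Matrix.transpose_transpose]
  have hk' : kᵀ * k = 1 := mul_eq_one_comm.1 hk
  have hkt : kᵀᵀ * kᵀ = 1 := by rwa [Matrix.transpose_transpose]
  have ha' : a' * a = 1 := mul_eq_one_comm.1 ha
  have hw' : w' * w = 1 := mul_eq_one_comm.1 hw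
  have hKy : 0 ≤ KM * K * KM := by positivity
  have e1 : dg l 1 = Uᵀ * (a * w * a') * kᵀ * U := by
    rw [← hy, ← Matrix.mul_assoc, ← Proj_dg_conj hU', Matrix.mul_assoc _ k, hk, Matrix.mul_one,
      Matrix.mul_assoc, hU', Matrix.mul_one]
  have e2 : dg l (-1) = Uᵀ * (k * (a * w' * a')) * U := by
    have e3 : dg l 1 * (Uᵀ * (k * (a * w' * a')) * U) = 1 := by
      calc dg l 1 * (Uᵀ * (k * (a * w' * a')) * U)
          = Uᵀ * (a * (w * (a' * (kᵀ * ((U * Uᵀ) * k)) * a) * w') * a') * U := by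
            rw [e1]
            simp only [Matrix.mul_assoc]
        _ = 1 := by
            rw [hU, Matrix.one_mul, hk', Matrix.mul_one, ha', Matrix.mul_one, hw, Matrix.mul_one,
              ha, Matrix.mul_one, hU']
    calc dg l (-1) = dg l (-1) * (dg l 1 * (Uᵀ * (k * (a * w' * a')) * U)) := by
          rw [e3, Matrix.mul_one]
      _ = _ := by
          rw [← Matrix.mul_assoc, Proj_dg_mul, neg_add_cancel, Proj_dg_zero, Matrix.one_mul]
  have o1 : Proj_Op (KM * K * KM) (dg l 1) := by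
    rw [e1]
    exact Proj_op_right hKy hU' (Proj_op_right hKy hkt (Proj_op_left hUt
      (Proj_op_mul (by positivity) (Proj_op_mul hKM oa ow) oa')))
  have o2 : Proj_Op (KM * K * KM) (dg l (-1)) := by
    rw [e2]
    exact Proj_op_right hKy hU' (Proj_op_left hUt (Proj_op_left hk'
      (Proj_op_mul (by positivity) (Proj_op_mul hKM oa ow') oa')))
  have ot : ∀ t : ℝ, |t| ≤ 1 → Proj_Op (KM * K * KM) (dg l t) := by
    intro t ht
    refine Proj_op_dg fun j => Proj_exp_le ?_ ?_ ht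
    · have := Proj_op_entry o1 j j
      rwa [dg, Matrix.diagonal_apply_eq] at this
    · have := Proj_op_entry o2 j j
      rwa [dg, Matrix.diagonal_apply_eq] at this
  have c1 : psi J l ((Uᵀ * a) * (Uᵀ * a)ᵀ) = 0 := Proj_crit J hU hl ha h1
  have hka : k * a * (a' * kᵀ) = 1 := by
    calc k * a * (a' * kᵀ) = k * (a * a') * kᵀ := by simp only [Matrix.mul_assoc]
      _ = 1 := by rw [ha, Matrix.mul_one, hk]
  have c2 : psi J l ((Uᵀ * (k * a)) * (Uᵀ * (k * a))ᵀ) = 0 := by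
    refine Proj_crit J hU hl hka fun t => le_trans (le_of_eq ?_) (h2 t)
    have := Proj_sq_orth kᵀ a
    rw [Matrix.transpose_transpose] at this
    rw [this]
    have h3 := Proj_phi_conj J (U := kᵀ) (by rwa [Matrix.transpose_transpose]) (a * aᵀ)
    rwa [Matrix.transpose_transpose] at h3
  have pd0 : ((Uᵀ * (k * a)) * (Uᵀ * (k * a))ᵀ).PosDef := by
    refine Proj_posdef (q := a' * kᵀ * U) ?_
    calc Uᵀ * (k * a) * (a' * kᵀ * U) = Uᵀ * (k * a * (a' * kᵀ)) * U := by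
          simp only [Matrix.mul_assoc]
      _ = 1 := by rw [hka, Matrix.mul_one, hU']
  have s := psi_strong J l pd0 fun t ht => by
    have ht1 : |t| ≤ 1 := abs_le.2 ⟨by linarith [ht.1], ht.2⟩
    have ht2 : |-t| ≤ 1 := by rwa [abs_neg]
    have e1' : (1 : Matrix ι ι ℝ) = 1 * (1 : Matrix ι ι ℝ)ᵀ := by simp
    rw [Proj_sq_conj]
    constructor
    · rw [e1']
      refine Proj_lec (r := aᵀ * (kᵀ * (U * dg l t))) (Proj_op_mono
        (Proj_op_mul hKM oat (Proj_op_left hkt (Proj_op_left hU' (ot t ht1)))) hJ) ?_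
      simp only [Matrix.transpose_mul, Matrix.transpose_transpose, Proj_dg_tr,
        Matrix.transpose_one, Matrix.mul_one, Matrix.mul_assoc]
    · rw [e1']
      refine Proj_lec (r := dg l (-t) * (Uᵀ * (k * a'ᵀ))) (Proj_op_mono
        (Proj_op_mul hKy (ot (-t) ht2) (Proj_op_left hUt (Proj_op_left hk' oat')))
        (by rwa [mul_comm])) ?_
      have e4 : a'ᵀ * aᵀ = 1 := by rw [← Matrix.transpose_mul, ha, Matrix.transpose_one]
      simp only [Matrix.transpose_mul, Matrix.transpose_transpose, Proj_dg_tr,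
        Matrix.transpose_one]
      calc (1 : Matrix ι ι ℝ) = dg l (-t) * (Uᵀ * (k * (a'ᵀ * aᵀ) * kᵀ) * U) * dg l t := by
            rw [e4, Matrix.mul_one, hk, Matrix.mul_one, hU', Matrix.mul_one, Proj_dg_mul,
              neg_add_cancel, Proj_dg_zero]
        _ = _ := by simp only [Matrix.mul_assoc]
  have e5 : dg l 1 * (Uᵀ * (k * a)) = Uᵀ * a * w := by
    calc dg l 1 * (Uᵀ * (k * a)) = Uᵀ * (pw U l 1 * k) * a := by
          rw [← Matrix.mul_assoc, Proj_dg_conj hU']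
          simp only [Matrix.mul_assoc]
      _ = Uᵀ * a * w * (a' * a) := by
          rw [hy]
          simp only [Matrix.mul_assoc]
      _ = _ := by rw [ha', Matrix.mul_one]
  rw [Proj_sq_conj, e5, c2] at s
  have hUa : Uᵀ * a * (a' * U) = 1 := by
    calc Uᵀ * a * (a' * U) = Uᵀ * (a * a') * U := by simp only [Matrix.mul_assoc]
      _ = 1 := by rw [ha, Matrix.mul_one, hU']
  have pd1 : ((Uᵀ * a * w) * (Uᵀ * a * w)ᵀ).PosDef := by
    refine Proj_posdef (q := w' * (a' * U)) ?_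
    calc Uᵀ * a * w * (w' * (a' * U)) = Uᵀ * a * (w * w') * (a' * U) := by
          simp only [Matrix.mul_assoc]
      _ = 1 := by rw [hw, Matrix.mul_one, hUa]
  have lp := psi_lip J m l pd1 (Proj_posdef hUa)
    (Proj_lec (Proj_op_mono owt hm) (Matrix.transpose_mul _ _))
    (Proj_lec (Proj_op_mono owt' hm) (by
      rw [← Matrix.transpose_mul, Matrix.mul_assoc _ w, hw, Matrix.mul_one]))
  rw [c1] at lp
  exact Proj_sum_le (Nat.cast_nonneg m) (by linarith only [s, lp]) i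

lemma Proj_bd_of_op {R : ℝ} {a : Matrix ι ι ℝ} (h : Proj_Op (Real.exp R ^ 2) a) :
    Bd (Real.exp R) a := fun i j =>
  abs_le_of_sq_le_sq (Proj_op_entry h i j) (Real.exp_pos R).le

lemma Proj_op_pw {U : Matrix ι ι ℝ} (hU : U * Uᵀ = 1) {l : ι → ℝ} {R t : ℝ}
    (h : ∀ i, |l i| ≤ R) (ht : |t| ≤ 1) : Proj_Op (Real.exp R ^ 2) (pw U l t) := by
  have hU' : Uᵀ * U = 1 := mul_eq_one_comm.1 hU
  have hUt : Uᵀᵀ * Uᵀ = 1 := by rwa [Matrix.transpose_transpose]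
  refine Proj_op_right (by positivity) hUt (Proj_op_left hU' (Proj_op_dg fun i => ?_))
  refine pow_le_pow_left₀ (Real.exp_pos _).le (Real.exp_le_exp.2 ?_) 2
  calc t * l i ≤ |t * l i| := le_abs_self _
    _ = |t| * |l i| := abs_mul _ _
    _ ≤ 1 * R := mul_le_mul ht (h i) (abs_nonneg _) zero_le_one
    _ = R := one_mul R

lemma Proj_main (H : Subgroup (GL ι ℝ)) (hc : IsClosed (H : Set (GL ι ℝ)))
    (hu : ∀ a ∈ H, |a.1.det| = 1) (hp : Polar H) (C : ℝ) (m : ℕ)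
    (hm : (Fintype.card ι * C) ^ 2 ≤ 2 ^ m) (g : GL ι ℝ) (hg : |g.1.det| = 1) :
    ∃ h ∈ H, ∀ x ∈ H, Bd2 C (g⁻¹ * x * g) →
      Bd2 (Real.exp (5 * m * Fintype.card ι)) (h⁻¹ * x * h) := by
  obtain ⟨M, hM⟩ := exists_phi_min H hc hu g hg
  obtain ⟨J, hJ⟩ := pow_unbounded_of_one_lt ((Fintype.card ι * M) ^ 2 *
    ((Fintype.card ι * M) ^ 2 * (Fintype.card ι * C) ^ 2 * (Fintype.card ι * M) ^ 2))
    (one_lt_two : (1 : ℝ) < 2)
  obtain ⟨h0, hh0, hb, hmin⟩ := hM J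
  refine ⟨h0⁻¹, H.inv_mem hh0, fun x hx hw => ?_⟩
  rw [inv_inv]
  have hy : h0 * x * h0⁻¹ ∈ H := H.mul_mem (H.mul_mem hh0 hx) (H.inv_mem hh0)
  have ey : h0 * x * h0⁻¹ = (h0 * g) * (g⁻¹ * x * g) * (h0 * g)⁻¹ := by group
  generalize h0 * x * h0⁻¹ = y at hy ey
  generalize g⁻¹ * x * g = w at hw ey
  obtain ⟨U, l', hU, hl', hb'⟩ := hp y⁻¹ (H.inv_mem hy)
  have hU' : Uᵀ * U = 1 := mul_eq_one_comm.1 hU
  have hE : ∀ t, ∃ b ∈ H, b.1 = pw U (-l') t := fun t => by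
    rw [Proj_pw_neg]
    exact hb' (-t)
  have hl2 : (y⁻¹).1ᵀ * (y⁻¹).1 = pw U (-l') (-2) := by rw [Proj_pw_neg, neg_neg, hl']
  generalize -l' = l at hE hl2
  obtain ⟨b1, hb1, eb1⟩ := hE 1
  obtain ⟨b2, hb2, eb2⟩ := hE (-1)
  have hl : ∑ i, l i = 0 := by
    have := hu b1 hb1
    rw [eb1, Proj_det_pw hU', abs_of_pos (Real.exp_pos _)] at this
    exact Real.exp_eq_one_iff _ |>.1 this
  have hE1 : pw U l 1 * pw U l (-1) = 1 := by
    rw [Proj_pw_mul hU', add_neg_cancel, Proj_pw_zero hU]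
  have hκ : ((y⁻¹).1 * pw U l 1)ᵀ * ((y⁻¹).1 * pw U l 1) = 1 := by
    calc ((y⁻¹).1 * pw U l 1)ᵀ * ((y⁻¹).1 * pw U l 1)
        = pw U l 1 * ((y⁻¹).1ᵀ * (y⁻¹).1) * pw U l 1 := by
          rw [Matrix.transpose_mul, Proj_pw_tr]
          simp only [Matrix.mul_assoc]
      _ = 1 := by
          rw [hl2, Proj_pw_mul hU', Proj_pw_mul hU', show (1 : ℝ) + -2 + 1 = 0 by norm_num,
            Proj_pw_zero hU]
  have hκk : (y⁻¹).1 * pw U l 1 * (b2 * y).1 = 1 := by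
    rw [Units.val_mul, eb2]
    calc (y⁻¹).1 * pw U l 1 * (pw U l (-1) * y.1)
        = (y⁻¹).1 * (pw U l 1 * pw U l (-1)) * y.1 := by simp only [Matrix.mul_assoc]
      _ = 1 := by rw [hE1, Matrix.mul_one, Units.inv_mul]
  have ek : (b2 * y).1 = ((y⁻¹).1 * pw U l 1)ᵀ := by
    calc (b2 * y).1 = ((y⁻¹).1 * pw U l 1)ᵀ * ((y⁻¹).1 * pw U l 1) * (b2 * y).1 := by
          rw [hκ, Matrix.one_mul]
      _ = _ := by rw [Matrix.mul_assoc, hκk, Matrix.mul_one]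
  have hk : (b2 * y).1 * (b2 * y).1ᵀ = 1 := by rw [ek, Matrix.transpose_transpose, hκ]
  have hk' : (b2 * y).1ᵀ * (b2 * y).1 = 1 := mul_eq_one_comm.1 hk
  have hy1 : pw U l 1 * (b2 * y).1 = y.1 := by
    rw [Units.val_mul, eb2, ← Matrix.mul_assoc, hE1, Matrix.one_mul]
  have hy2 : (y⁻¹).1 * pw U l 1 * pw U l (-1) = (y⁻¹).1 := by
    rw [Matrix.mul_assoc, hE1, Matrix.mul_one]
  have key := Proj_key J m (a := (h0 * g).1) (a' := ((h0 * g)⁻¹).1) (w := w.1) (w' := (w⁻¹).1)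
    hU hk hl (Units.mul_inv _) (Units.mul_inv _)
    (by rw [hy1, ey, Units.val_mul, Units.val_mul]) (sq_nonneg _) (sq_nonneg _)
    (Proj_op_of_bd hb.1) (Proj_op_of_bd hb.2) (Proj_op_of_bd (Proj_bd_tr hb.1))
    (Proj_op_of_bd (Proj_bd_tr hb.2)) (Proj_op_of_bd hw.1) (Proj_op_of_bd hw.2)
    (Proj_op_of_bd (Proj_bd_tr hw.1)) (Proj_op_of_bd (Proj_bd_tr hw.2)) hm hJ.le
    (fun t => by
      obtain ⟨b, hbH, eb⟩ := hE t
      have := hmin (b * h0) (H.mul_mem hbH hh0)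
      rwa [mul_assoc b, Units.val_mul b, eb] at this)
    (fun t => by
      obtain ⟨b, hbH, eb⟩ := hE t
      have := hmin (b * (b2 * y * h0)) (H.mul_mem hbH (H.mul_mem (H.mul_mem hb2 hy) hh0))
      rwa [mul_assoc b, mul_assoc (b2 * y), Units.val_mul b, Units.val_mul (b2 * y), eb] at this)
  constructor
  · rw [← hy1]
    exact Proj_bd_of_op (Proj_op_right (by positivity) hk' (Proj_op_pw hU key (by simp)))
  · rw [← hy2]
    exact Proj_bd_of_op (Proj_op_left hκ (Proj_op_pw hU key (by simp)))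

theorem proj (H : Subgroup (GL ι ℝ)) (hc : IsClosed (H : Set (GL ι ℝ)))
    (hu : ∀ a ∈ H, |a.1.det| = 1) (hp : Polar H) (C : ℝ) :
    ∃ C' : ℝ, ∀ g : GL ι ℝ, ∃ h ∈ H, ∀ x ∈ H, Bd2 C (g⁻¹ * x * g) → Bd2 C' (h⁻¹ * x * h) := by
  obtain ⟨m, hm⟩ := pow_unbounded_of_one_lt ((Fintype.card ι * C) ^ 2) (one_lt_two : (1 : ℝ) < 2)
  refine ⟨Real.exp (5 * m * Fintype.card ι), fun g => ?_⟩
  rcases isEmpty_or_nonempty ι with hι | hι
  · exact ⟨1, H.one_mem, fun x _ _ => ⟨fun i => isEmptyElim i, fun i => isEmptyElim i⟩⟩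
  have hn : Fintype.card ι ≠ 0 := Fintype.card_ne_zero
  have hd : 0 < |g.1.det| := abs_pos.2 (Matrix.GeneralLinearGroup.det_ne_zero g)
  obtain ⟨c, hc0, hcn⟩ : ∃ c : ℝ, 0 < c ∧ c ^ Fintype.card ι = |g.1.det|⁻¹ :=
    ⟨|g.1.det|⁻¹ ^ ((Fintype.card ι : ℝ)⁻¹), Real.rpow_pos_of_pos (inv_pos.2 hd) _,
      Real.rpow_inv_natCast_pow (inv_pos.2 hd).le hn⟩
  let z : GL ι ℝ := ⟨c • 1, c⁻¹ • 1, by simp [smul_smul, hc0.ne'], by simp [smul_smul, hc0.ne']⟩
  have hz : ∀ u : GL ι ℝ, u * z = z * u := fun u => by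
    ext1
    simp [z]
  have hdet : |(g * z).1.det| = 1 := by
    have e : (g * z).1 = c • g.1 := by simp [z]
    rw [e, Matrix.det_smul, abs_mul, hcn, abs_of_pos (inv_pos.2 hd), inv_mul_cancel₀ hd.ne']
  obtain ⟨h, hh, hx⟩ := Proj_main H hc hu hp C m hm.le (g * z) hdet
  refine ⟨h, hh, fun x hxH hb => hx x hxH ?_⟩
  have e : (g * z)⁻¹ * x * (g * z) = g⁻¹ * x * g := by
    calc (g * z)⁻¹ * x * (g * z) = z⁻¹ * (g⁻¹ * x * g * z) := by group
      _ = g⁻¹ * x * g := by rw [hz, inv_mul_cancel_left]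
  rwa [e]

end Pool.Agent.Work.MP_dbf1ea_an.V
end

-- merged part: Pool.Agent.Work.MP_dbf1ea_an.V.Lattice
section
/-!
Cocompact lattices are finitely generated and act uniformly properly.
-/

set_option autoImplicit false

open scoped Matrix Pointwise Topology

namespace Pool.Agent.Work.MP_dbf1ea_an.V

theorem Lattice_bd {ι : Type} [Fintype ι] {C D : ℝ} {a b : Matrix ι ι ℝ} (ha : Bd C a)
    (hb : Bd D b) : Bd (Fintype.card ι * (C * D)) (a * b) := by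
  intro i j
  rw [Matrix.mul_apply]
  refine (Finset.abs_sum_le_sum_abs _ _).trans ?_
  rw [← Finset.card_univ, ← nsmul_eq_mul]
  refine Finset.sum_le_card_nsmul _ _ _ fun k _ => ?_
  rw [abs_mul]
  exact mul_le_mul (ha i k) (hb k j) (abs_nonneg _) ((abs_nonneg _).trans (ha i k))

theorem Lattice_mul {ι : Type} [Fintype ι] [DecidableEq ι] {C D : ℝ} {a b : GL ι ℝ} (ha : Bd2 C a)
    (hb : Bd2 D b) : Bd2 (Fintype.card ι * (C * D)) (a * b) := by
  refine ⟨Lattice_bd ha.1 hb.1, ?_⟩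
  rw [mul_inv_rev, mul_comm C D]
  exact Lattice_bd hb.2 ha.2

theorem Lattice_inv {ι : Type} [Fintype ι] [DecidableEq ι] {C : ℝ} {a : GL ι ℝ} (ha : Bd2 C a) :
    Bd2 C a⁻¹ := ⟨ha.2, ha.1⟩

theorem Lattice_ball {Γ : Type} [Group Γ] {S : Finset Γ} (hS : Subgroup.closure (S : Set Γ) = ⊤)
    (γ : Γ) : ∃ m, γ ∈ ball S m := by
  have h : γ ∈ Subgroup.closure (S : Set Γ) := hS ▸ Subgroup.mem_top γ
  induction h using Subgroup.closure_induction'' with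
  | mem x hx => exact ⟨1, by simp [ball, hx]⟩
  | inv_mem x hx => exact ⟨1, by simp [ball, hx]⟩
  | one => exact ⟨0, by simp [ball]⟩
  | mul x y _ _ hx hy =>
    obtain ⟨m, hm⟩ := hx
    obtain ⟨l, hl⟩ := hy
    exact ⟨m + l, by rw [ball, pow_add]; exact Set.mul_mem_mul hm hl⟩

variable {G : Type} [Group G] [TopologicalSpace G] [IsTopologicalGroup G] [LocallyCompactSpace G]
  [T2Space G] (Γ : Subgroup G) [DiscreteTopology Γ]

theorem lat_finite {K : Set G} (hK : IsCompact K) : {γ : Γ | (γ : G) ∈ K}.Finite := by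
  have h := Γ.tendsto_coe_cofinite_of_discrete (isDiscrete_iff_discreteTopology.2 ‹_›)
    hK.compl_mem_cocompact
  rw [Filter.mem_map, Filter.mem_cofinite] at h
  exact h.subset fun γ hγ h' => h' hγ

theorem lat_cocompact [CompactSpace (G ⧸ Γ)] :
    ∃ K : Set G, IsCompact K ∧ ∀ g : G, ∃ (γ : Γ) (u : G), u ∈ K ∧ g = γ * u := by
  choose K hK hK' using fun g : G => exists_compact_mem_nhds g
  obtain ⟨t, ht⟩ := (isCompact_univ (X := G ⧸ Γ)).elim_finite_subcover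
    (fun g : G => (QuotientGroup.mk : G → G ⧸ Γ) '' interior (K g))
    (fun g => QuotientGroup.isOpenMap_coe _ isOpen_interior) fun x _ => by
      obtain ⟨g, rfl⟩ := QuotientGroup.mk_surjective x
      exact Set.mem_iUnion.2 ⟨g, g, mem_interior_iff_mem_nhds.2 (hK' g), rfl⟩
  refine ⟨(⋃ g ∈ t, K g)⁻¹, (t.isCompact_biUnion fun g _ => hK g).inv, fun g => ?_⟩
  obtain ⟨a, ha, k, hk, e⟩ := Set.mem_iUnion₂.1 (ht (Set.mem_univ (QuotientGroup.mk g⁻¹)))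
  refine ⟨⟨_, QuotientGroup.eq.1 e.symm⟩, k⁻¹, ?_, by simp⟩
  exact Set.inv_mem_inv.2 (Set.mem_iUnion₂.2 ⟨a, ha, interior_subset hk⟩)

theorem lat_fg [ConnectedSpace G] [CompactSpace (G ⧸ Γ)] :
    ∃ S : Finset Γ, Subgroup.closure (S : Set Γ) = ⊤ := by
  obtain ⟨K, hK, hc⟩ := lat_cocompact Γ
  obtain ⟨K', hK', hV⟩ := exists_compact_superset hK
  have hf := lat_finite Γ (hK'.mul hK'.inv)
  refine ⟨hf.toFinset, ?_⟩
  rw [hf.coe_toFinset]
  set D := Subgroup.closure {γ : Γ | (γ : G) ∈ K' * K'⁻¹}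
  have key : ∀ (d γ : Γ) (g : G), d ∈ D → (d : G)⁻¹ * g ∈ interior K' →
      (γ : G)⁻¹ * g ∈ interior K' → γ ∈ D := fun d γ g hd h1 h2 => by
    have h3 : d⁻¹ * γ ∈ D := Subgroup.subset_closure
      ⟨_, interior_subset h1, _, Set.inv_mem_inv.2 (interior_subset h2), by simp⟩
    simpa using D.mul_mem hd h3
  have ho : ∀ γ : Γ, IsOpen {g : G | (γ : G)⁻¹ * g ∈ interior K'} := fun γ =>
    isOpen_interior.preimage (continuous_const_mul _)
  have hA : IsClopen (⋃ d ∈ D, {g : G | ((d : Γ) : G)⁻¹ * g ∈ interior K'}) := by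
    refine ⟨⟨isOpen_iff_mem_nhds.2 fun g hg => ?_⟩, isOpen_biUnion fun d _ => ho d⟩
    obtain ⟨γ, u, hu, rfl⟩ := hc g
    have h1 : (γ : G)⁻¹ * (γ * u) ∈ interior K' := by simpa using hV hu
    refine Filter.mem_of_superset ((ho γ).mem_nhds h1) fun g' hg' h => hg ?_
    obtain ⟨d, hd, h⟩ := Set.mem_iUnion₂.1 h
    exact Set.mem_iUnion₂.2 ⟨γ, key d γ g' hd h hg', h1⟩
  obtain ⟨-, u, hu, -⟩ := hc 1
  have hU := hA.eq_univ ⟨u, Set.mem_iUnion₂.2 ⟨1, D.one_mem, by simpa using hV hu⟩⟩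
  refine eq_top_iff.2 fun γ _ => ?_
  obtain ⟨d, hd, h⟩ := Set.mem_iUnion₂.1 (hU.ge (Set.mem_univ (γ * u)))
  exact key d γ _ hd h (by simpa using hV hu)

theorem Lattice_count {K : Set G} (hK : IsCompact K) : ∃ N : ℕ, ∀ z : G, ∃ F : Finset Γ,
    F.card ≤ N ∧ ∀ x : Γ, z⁻¹ * x ∈ K → x ∈ F := by
  classical
  have hf := lat_finite Γ (hK.inv.mul hK)
  refine ⟨hf.toFinset.card, fun z => ?_⟩
  by_cases h : ∃ x : Γ, z⁻¹ * x ∈ K
  · obtain ⟨y, hy⟩ := h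
    refine ⟨hf.toFinset.image (y * ·), Finset.card_image_le, fun x hx => ?_⟩
    refine Finset.mem_image.2 ⟨y⁻¹ * x, hf.mem_toFinset.2 ?_, by simp⟩
    exact ⟨_, Set.inv_mem_inv.2 hy, _, hx, by simp [mul_assoc]⟩
  · exact ⟨∅, by simp, fun x hx => (h ⟨x, hx⟩).elim⟩

omit [IsTopologicalGroup G] [LocallyCompactSpace G] [T2Space G] in
theorem Lattice_bound {ι : Type} [Fintype ι] [DecidableEq ι] (Λ : Lin G ι) {K : Set G}
    (hK : IsCompact K) : ∃ D : ℝ, ∀ u ∈ K, Bd2 D (Λ.π u) := by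
  have h1 : Continuous fun (u : G) (i j : ι) => (Λ.π u).1 i j :=
    (Units.continuous_val (M := Matrix ι ι ℝ)).comp Λ.cont
  have h2 : Continuous fun (u : G) (i j : ι) => ((Λ.π u)⁻¹).1 i j :=
    (Units.continuous_coe_inv (M := Matrix ι ι ℝ)).comp Λ.cont
  obtain ⟨D, hD⟩ := hK.exists_bound_of_continuousOn (h1.prodMk h2).continuousOn
  refine ⟨D, fun u hu => ⟨fun i j => ?_, fun i j => ?_⟩⟩
  · exact ((norm_le_pi_norm _ j).trans (norm_le_pi_norm (fun i j => (Λ.π u).1 i j) i)).trans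
      ((norm_fst_le _).trans (hD u hu))
  · exact ((norm_le_pi_norm _ j).trans (norm_le_pi_norm (fun i j => ((Λ.π u)⁻¹).1 i j) i)).trans
      ((norm_snd_le _).trans (hD u hu))

theorem Lin.up [ConnectedSpace G] [CompactSpace (G ⧸ Γ)] {ι : Type} [Fintype ι] [DecidableEq ι]
    (Λ : Lin G ι) (S : Finset Γ) (hS : Subgroup.closure (S : Set Γ) = ⊤) :
    UP S (Λ.π.comp Γ.subtype) := by
  classical
  intro C
  obtain ⟨C', hC'⟩ := proj Λ.H Λ.closed Λ.unim Λ.polar C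
  obtain ⟨K, hK, hc⟩ := lat_cocompact Γ
  obtain ⟨D, hD⟩ := Lattice_bound Λ hK
  obtain ⟨E, hE⟩ : ∃ E, ∀ u k y : GL ι ℝ, Bd2 D u → Bd2 1 k → Bd2 C' y →
      Bd2 E (u * k * y * k⁻¹ * u⁻¹) := ⟨_, fun u k y hu hk hy =>
    Lattice_mul (Lattice_mul (Lattice_mul (Lattice_mul hu hk) hy) (Lattice_inv hk)) (Lattice_inv hu)⟩
  obtain ⟨K', hK', hP⟩ := Λ.proper E
  obtain ⟨N, hN⟩ := Lattice_count Γ hK'
  choose Fz hFz hFz' using hN
  set Q : Set G := Γ.subtype '' insert (1 : Γ) ((S : Set Γ) ∪ (S : Set Γ)⁻¹) ∪ K'⁻¹ with hQ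
  have hQc : IsCompact Q :=
    (((S.finite_toSet.union S.finite_toSet.inv).insert 1).image _).isCompact.union hK'.inv
  have hb : ∀ (γ : Γ) (m : ℕ), γ ∈ ball S m → (γ : G) ∈ Q ^ m := fun γ m h => by
    refine Set.pow_subset_pow_left Set.subset_union_left ?_
    rw [← Set.image_pow]
    exact ⟨γ, h, rfl⟩
  obtain ⟨a, d, ha⟩ := Λ.cent hQc
  refine ⟨a * 2 ^ d * N, d, fun g L => ?_⟩
  obtain ⟨h, hh, hg⟩ := hC' g
  obtain ⟨g₀, k, rfl, hk⟩ := Λ.mod_orth hh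
  obtain ⟨γ₀, u, hu, rfl⟩ := hc g₀
  obtain ⟨F₀, hF₀, hF⟩ := ha (L + 1)
  refine ⟨(F₀.biUnion Fz).image fun x => γ₀ * x * γ₀⁻¹, ?_, fun γ hγ hB => ?_⟩
  · refine Finset.card_image_le.trans
      ((Finset.card_biUnion_le_card_mul _ _ N fun z _ => hFz z).trans ?_)
    calc F₀.card * N ≤ a * (2 * (L + 1)) ^ d * N :=
          Nat.mul_le_mul_right _ (hF₀.trans (by gcongr; omega))
      _ = _ := by rw [mul_pow]; ring
  · have h1 := hE _ _ _ (hD u hu) hk (hg _ (Λ.mem γ) hB)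
    have e : Λ.π u * k * ((Λ.π (γ₀ * u) * k)⁻¹ * Λ.π γ * (Λ.π (γ₀ * u) * k)) * k⁻¹ * (Λ.π u)⁻¹ =
        Λ.π ((γ₀ : G)⁻¹ * γ * γ₀) := by
      simp only [map_mul, map_inv]
      group
    rw [e] at h1
    obtain ⟨z, κ, hz, hκ, hx⟩ := hP _ h1
    obtain ⟨m, hm⟩ := Lattice_ball hS γ₀
    obtain ⟨l, hl⟩ := Lattice_ball hS γ₀⁻¹
    have hz' : z ∈ F₀ := by
      refine hF z hz ⟨l + m, fun j => ?_⟩
      have h2 : z ^ j = (γ₀ : G)⁻¹ * (γ : G) ^ j * γ₀ * κ⁻¹ ^ j := by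
        have h3 := conj_pow (a := (γ₀ : G)⁻¹) (b := (γ : G)) (i := j)
        rw [inv_inv] at h3
        rw [← h3, hx, Commute.mul_pow (Λ.central hz κ), inv_pow, mul_inv_cancel_right]
      have h4 : j * (L + 1) + (l + m) = l + L * j + m + j := by ring
      rw [h2, h4, pow_add, pow_add, pow_add, pow_mul]
      exact Set.mul_mem_mul (Set.mul_mem_mul (Set.mul_mem_mul (hb _ _ hl)
        (Set.pow_mem_pow (hb _ _ hγ))) (hb _ _ hm))
        (Set.pow_mem_pow (Or.inr (Set.inv_mem_inv.2 hκ)))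
    refine Finset.mem_image.2 ⟨γ₀⁻¹ * γ * γ₀,
      Finset.mem_biUnion.2 ⟨z, hz', hFz' z _ ?_⟩, by group⟩
    rw [Subgroup.coe_mul, Subgroup.coe_mul, Subgroup.coe_inv, hx, inv_mul_cancel_left]
    exact hκ

end Pool.Agent.Work.MP_dbf1ea_an.V
end

-- merged part: Pool.Agent.Work.MP_dbf1ea_an.V.Slice
section
/-!
The slice lemma.
-/

set_option autoImplicit false

open scoped Matrix Pointwise Topology

namespace Pool.Agent.Work.MP_dbf1ea_an.V

variable {X Y Z : Type} [NormedAddCommGroup X] [NormedSpace ℝ X] [FiniteDimensional ℝ X]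
  [NormedAddCommGroup Y] [NormedSpace ℝ Y] [FiniteDimensional ℝ Y]
  [NormedAddCommGroup Z] [NormedSpace ℝ Z]

theorem loc_inj {f : X → Z} {f' : X →L[ℝ] Z} {x0 : X} (hf : HasStrictFDerivAt f f' x0)
    (hinj : Function.Injective f') : ∃ U ∈ 𝓝 x0, Set.InjOn f U := by
  obtain ⟨K, hK, hA⟩ := (f' : X →ₗ[ℝ] Z).exists_antilipschitzWith (LinearMap.ker_eq_bot.2 hinj)
  have hK' : (0 : ℝ) < K := hK
  obtain ⟨s, hs, happ⟩ := hf.approximates_deriv_on_nhds (c := K⁻¹ / 2)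
    (Or.inr (half_pos (inv_pos.2 hK)))
  refine ⟨s, hs, fun x hx y hy hxy => ?_⟩
  have h1 := happ x hx y hy
  rw [hxy, sub_self, zero_sub, norm_neg] at h1
  have h2 : ‖x - y‖ ≤ K * ‖f' (x - y)‖ := by
    have := hA.le_mul_dist x y
    rw [dist_eq_norm, dist_eq_norm] at this
    rw [map_sub]
    exact this
  have h3 : (K : ℝ) * ‖f' (x - y)‖ ≤ K * (((K⁻¹ / 2 : NNReal) : ℝ) * ‖x - y‖) :=
    mul_le_mul_of_nonneg_left h1 hK'.le
  have h4 : (K : ℝ) * (((K⁻¹ / 2 : NNReal) : ℝ) * ‖x - y‖) = ‖x - y‖ / 2 := by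
    push_cast
    field_simp
  have h5 : ‖x - y‖ = 0 := by linarith only [h2, h3, h4, norm_nonneg (x - y)]
  exact sub_eq_zero.1 (norm_eq_zero.1 h5)

theorem slice {f : X → Y} {f' : X →L[ℝ] Y} {x0 : X} {Q : Y → Z} {Q' : Y →L[ℝ] Z}
    (hf : HasStrictFDerivAt f f' x0) (hQ : HasStrictFDerivAt Q Q' (f x0))
    (hfQ : ∀ᶠ x in 𝓝 x0, Q (f x) = Q (f x0)) (hker : ∀ y, Q' y = 0 → ∃ x, f' x = y)
    (U : Set X) (hU : U ∈ 𝓝 x0) : ∀ᶠ y in 𝓝 (f x0), Q y = Q (f x0) → y ∈ f '' U := by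
  haveI : CompleteSpace X := FiniteDimensional.complete ℝ X
  set R : Submodule ℝ Y := LinearMap.range (f' : X →ₗ[ℝ] Y) with hR
  haveI : CompleteSpace R := FiniteDimensional.complete ℝ R
  obtain ⟨pl, hpl⟩ := R.subtype.exists_leftInverse_of_injective R.ker_subtype
  set pr : Y →L[ℝ] R := LinearMap.toContinuousLinearMap pl with hpr
  have hprR : ∀ z : R, pr (z : Y) = z := fun z => LinearMap.congr_fun hpl z
  have h1 : HasStrictFDerivAt (fun x => pr (f x)) (pr.comp f') x0 :=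
    pr.hasStrictFDerivAt.comp x0 hf
  have hsurj : (pr.comp f').range = ⊤ := by
    rw [LinearMap.range_eq_top]
    rintro ⟨y, x, hx⟩
    refine ⟨x, ?_⟩
    have := hprR ⟨y, x, hx⟩
    change pr (f' x) = _
    rw [show f' x = y from hx]
    exact this
  have hmap := h1.map_nhds_eq_of_surj hsurj
  have h2 : HasStrictFDerivAt (fun y => (pr y, Q y)) (pr.prod Q') (f x0) :=
    pr.hasStrictFDerivAt.prodMk hQ
  have hinj : Function.Injective (pr.prod Q') := by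
    rw [injective_iff_map_eq_zero]
    intro y hy
    have hy1 : pr y = 0 := congrArg Prod.fst hy
    have hy2 : Q' y = 0 := congrArg Prod.snd hy
    obtain ⟨x, hx⟩ := hker y hy2
    have := hprR ⟨y, x, hx⟩
    change pr y = _ at this
    rw [hy1] at this
    exact (congrArg Subtype.val this).symm
  obtain ⟨N, hN, hNi⟩ := loc_inj h2 hinj
  have hW : U ∩ (f ⁻¹' N ∩ {x | Q (f x) = Q (f x0)}) ∈ 𝓝 x0 :=
    Filter.inter_mem hU (Filter.inter_mem (hf.continuousAt hN) hfQ)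
  have hW' := Filter.image_mem_map (m := fun x => pr (f x)) hW
  rw [hmap] at hW'
  filter_upwards [hN, pr.continuous.continuousAt hW'] with y hyN hy hQy
  obtain ⟨x, ⟨hxU, hxN, hxQ⟩, hx⟩ := hy
  refine ⟨x, hxU, hNi hxN hyN ?_⟩
  exact Prod.ext hx (hxQ.trans hQy.symm)

end Pool.Agent.Work.MP_dbf1ea_an.V
end
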