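import Pool.Agent.Work.MP_dbf1ea_an.V.Lattice

/-!
From the ball form of property RD to the operator norm estimate.
-/

set_option autoImplicit false

open Finset Real
open scoped Pointwise

namespace Pool.Agent.Work.MP_dbf1ea_an.V

variable {Γ : Type} [Group Γ] {S : Finset Γ}

theorem list_mem_ball (l : List Γ) (h : ∀ x ∈ l, x ∈ S) : l.prod ∈ ball S l.length := by
  induction l with
  | nil => exact one_mem_ball _
  | cons a l ih =>
    rw [List.prod_cons, List.length_cons, add_comm]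
    refine ball_mul ?_ (ih fun x hx => h x (List.mem_cons_of_mem _ hx))
    rw [ball, pow_one]
    exact Or.inr (Or.inl (h a List.mem_cons_self))

theorem len_mem_ball (hs : ∀ x ∈ S, x⁻¹ ∈ S) (hS : Subgroup.closure (S : Set Γ) = ⊤) (y : Γ) :
    y ∈ ball S (sInf {n : ℕ | ∃ l : List Γ, l.length = n ∧ (∀ x ∈ l, x ∈ S) ∧ l.prod = y}) := by
  have h1 : y ∈ (Subgroup.closure (S : Set Γ)).toSubmonoid := by
    rw [hS]; exact Subgroup.mem_top y
  rw [Subgroup.closure_toSubmonoid] at h1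
  obtain ⟨l, h2, h3⟩ := Submonoid.exists_list_of_mem_closure h1
  obtain ⟨l', e1, e2, e3⟩ := Nat.sInf_mem
    (s := {n : ℕ | ∃ l : List Γ, l.length = n ∧ (∀ x ∈ l, x ∈ S) ∧ l.prod = y})
    ⟨l.length, l, rfl, fun x hx => (h2 x hx).elim id fun h => by simpa using hs _ h, h3⟩
  rw [← e1, ← e3]
  exact list_mem_ball l' e2

theorem inv_sq_sum (N : Finset ℕ) : ∑ n ∈ N, ((1 + (n : ℝ)) ^ 2)⁻¹ ≤ 2 := by
  have h1 := sum_Ioo_inv_sq_le (α := ℝ) 0 (N.sup id + 2)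
  rw [Nat.cast_zero, zero_add, div_one] at h1
  refine le_trans ?_ h1
  have : ∑ n ∈ N, ((1 + (n : ℝ)) ^ 2)⁻¹ = ∑ i ∈ N.image Nat.succ, (((i : ℕ) : ℝ) ^ 2)⁻¹ := by
    rw [sum_image fun _ _ _ _ h => Nat.succ_injective h]
    exact sum_congr rfl fun n _ => by push_cast; rw [add_comm]
  rw [this]
  refine sum_le_sum_of_subset_of_nonneg (fun i hi => ?_) fun _ _ _ => by positivity
  obtain ⟨n, hn, rfl⟩ := mem_image.mp hi
  have : n ≤ N.sup id := le_sup (f := id) hn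
  exact mem_Ioo.mpr ⟨by omega, by omega⟩

variable {C : ℝ} {p : ℕ}
  (h : ∀ n : ℕ, ∀ f g : Γ →₀ ℂ, (f.support : Set Γ) ⊆ ball S n →
      (∑' γ : Γ, ‖∑ h ∈ f.support, f h * g (h⁻¹ * γ)‖ ^ 2)
        ≤ C * (1 + (n : ℝ)) ^ p * (∑' γ : Γ, ‖f γ‖ ^ 2) * (∑' γ : Γ, ‖g γ‖ ^ 2))

include h in
theorem conv_ball (n : ℕ) (f : Γ →₀ ℂ) (hf : (f.support : Set Γ) ⊆ ball S n) (ξ : Γ → ℂ) {X : ℝ}
    (hξ : ∀ U : Finset Γ, ∑ x ∈ U, ‖ξ x‖ ^ 2 ≤ X) (T : Finset Γ) :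
    ∑ x ∈ T, ‖∑ y ∈ f.support, f y * ξ (y⁻¹ * x)‖ ^ 2 ≤
      |C| * (1 + (n : ℝ)) ^ p * (∑ y ∈ f.support, ‖f y‖ ^ 2) * X := by
  classical
  set U := image₂ (fun y x => y⁻¹ * x) f.support T with hU
  set g : Γ →₀ ℂ := Finsupp.indicator U fun x _ => ξ x with hg
  have hg1 : ∀ x ∈ U, g x = ξ x := fun x hx => Finsupp.indicator_of_mem hx _
  have hg2 : ∀ x, x ∉ U → g x = 0 := fun x hx => Finsupp.indicator_of_notMem hx _
  have k := h n f g hf
  have e1 : (∑' γ : Γ, ‖f γ‖ ^ 2) = ∑ γ ∈ f.support, ‖f γ‖ ^ 2 :=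
    tsum_eq_sum fun γ hγ => by rw [Finsupp.notMem_support_iff.mp hγ]; simp
  have e2 : (∑' γ : Γ, ‖g γ‖ ^ 2) = ∑ γ ∈ U, ‖ξ γ‖ ^ 2 := by
    rw [tsum_eq_sum (s := U) fun γ hγ => by rw [hg2 γ hγ]; simp]
    exact sum_congr rfl fun x hx => by rw [hg1 x hx]
  have e3 : Summable fun γ : Γ => ‖∑ h ∈ f.support, f h * g (h⁻¹ * γ)‖ ^ 2 :=
    summable_of_ne_finset_zero (s := image₂ (· * ·) f.support U) fun γ hγ => by
      rw [sum_eq_zero fun a ha => ?_]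
      · simp
      · rw [hg2 _ fun hb => hγ (mem_image₂.mpr ⟨a, ha, _, hb, by simp⟩), mul_zero]
  rw [e1, e2] at k
  have e4 : 0 ≤ ∑ γ ∈ f.support, ‖f γ‖ ^ 2 := sum_nonneg fun _ _ => sq_nonneg _
  calc _ = ∑ x ∈ T, ‖∑ y ∈ f.support, f y * g (y⁻¹ * x)‖ ^ 2 :=
        sum_congr rfl fun x hx => by
          congr 2
          exact sum_congr rfl fun y hy => by rw [hg1 _ (mem_image₂_of_mem hy hx)]
    _ ≤ _ := e3.sum_le_tsum T fun _ _ => sq_nonneg _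
    _ ≤ _ := k
    _ ≤ _ := mul_le_mul (mul_le_mul_of_nonneg_right
        (mul_le_mul_of_nonneg_right (le_abs_self C) (by positivity)) e4) (hξ U)
        (sum_nonneg fun _ _ => sq_nonneg _) (by positivity)

include h in
theorem conv_len (len : Γ → ℕ) (hl : ∀ y, y ∈ ball S (len y)) (f : Γ →₀ ℂ) (ξ : Γ → ℂ) {X : ℝ}
    (hξ : ∀ U : Finset Γ, ∑ x ∈ U, ‖ξ x‖ ^ 2 ≤ X) (T : Finset Γ) :
    ∑ x ∈ T, ‖∑ y ∈ f.support, f y * ξ (y⁻¹ * x)‖ ^ 2 ≤
      2 * |C| * (∑ y ∈ f.support, (‖f y‖ * (1 + (len y : ℝ)) ^ (p + 1)) ^ 2) * X := by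
  classical
  have hX : 0 ≤ X := by simpa using hξ ∅
  set N := f.support.image len with hN
  have hm : ∀ y ∈ f.support, len y ∈ N := fun y hy => mem_image_of_mem _ hy
  set a : ℕ → Γ → ℂ := fun n x => ∑ y ∈ f.support with len y = n, f y * ξ (y⁻¹ * x) with ha
  have k1 : ∀ n, ∑ x ∈ T, ‖a n x‖ ^ 2 ≤
      |C| * (1 + (n : ℝ)) ^ p * (∑ y ∈ f.support with len y = n, ‖f y‖ ^ 2) * X := fun n => by
    have := conv_ball h n (f.filter fun y => len y = n) (fun y hy => by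
      rw [Finsupp.support_filter, mem_coe, mem_filter] at hy
      exact hy.2 ▸ hl y) ξ hξ T
    rw [Finsupp.support_filter] at this
    convert this using 3
    · refine congrArg _ (sum_congr rfl fun y hy => ?_)
      rw [Finsupp.filter_apply_pos (fun y => len y = n) f (mem_filter.mp hy).2]
    · refine sum_congr rfl fun y hy => ?_
      rw [Finsupp.filter_apply_pos (fun y => len y = n) f (mem_filter.mp hy).2]
  have k2 : ∀ x, ‖∑ y ∈ f.support, f y * ξ (y⁻¹ * x)‖ ^ 2 ≤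
      2 * ∑ n ∈ N, (1 + (n : ℝ)) ^ 2 * ‖a n x‖ ^ 2 := fun x => by
    rw [← sum_fiberwise_of_maps_to hm]
    refine (pow_le_pow_left₀ (norm_nonneg _) (norm_sum_le _ _) 2).trans ?_
    refine (sum_sq_le_sum_mul_sum_of_sq_eq_mul N (f := fun n => ((1 + (n : ℝ)) ^ 2)⁻¹)
      (g := fun n => (1 + (n : ℝ)) ^ 2 * ‖a n x‖ ^ 2) (fun _ _ => by positivity)
      (fun _ _ => by positivity) fun n _ => ?_).trans
      (mul_le_mul_of_nonneg_right (inv_sq_sum N) (sum_nonneg fun _ _ => by positivity))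
    rw [inv_mul_cancel_left₀ (by positivity)]
  refine (sum_le_sum fun x _ => k2 x).trans ?_
  rw [← mul_sum, sum_comm, mul_assoc, mul_assoc, ← sum_fiberwise_of_maps_to hm, ← mul_assoc,
    ← mul_assoc, mul_assoc 2, mul_assoc 2, mul_assoc, sum_mul, mul_sum N _ |C|]
  refine mul_le_mul_of_nonneg_left (sum_le_sum fun n _ => ?_) zero_le_two
  rw [← mul_sum]
  refine (mul_le_mul_of_nonneg_left (k1 n) (by positivity)).trans ?_
  have k3 : (1 + (n : ℝ)) ^ (p + 2) * ∑ y ∈ f.support with len y = n, ‖f y‖ ^ 2 ≤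
      ∑ y ∈ f.support with len y = n, (‖f y‖ * (1 + (len y : ℝ)) ^ (p + 1)) ^ 2 := by
    rw [mul_sum]
    refine sum_le_sum fun y hy => ?_
    rw [(mem_filter.mp hy).2, mul_pow, mul_comm, ← pow_mul]
    exact mul_le_mul_of_nonneg_left (pow_le_pow_right₀
      (by have := Nat.cast_nonneg (α := ℝ) n; linarith) (by omega)) (sq_nonneg _)
  have k4 := mul_le_mul_of_nonneg_left (mul_le_mul_of_nonneg_right k3 hX) (abs_nonneg C)
  refine le_trans (le_of_eq ?_) k4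
  ring

include h in
theorem conv_op (len : Γ → ℕ) (hl : ∀ y, y ∈ ball S (len y)) :
    ∃ C' : ℝ, 0 < C' ∧ ∃ s : ℝ, 0 ≤ s ∧ ∀ f : Γ →₀ ℂ,
      ∃ T : lp (fun _ : Γ => ℂ) 2 →L[ℂ] lp (fun _ : Γ => ℂ) 2,
        (∀ ξ x, T ξ x = ∑ y ∈ f.support, f y * ξ (y⁻¹ * x)) ∧
        ‖T‖ ≤ C' * √(∑ y ∈ f.support, (‖f y‖ * (1 + (len y : ℝ)) ^ s) ^ 2) := by
  refine ⟨√(2 * |C|) + 1, by positivity, (p + 1 : ℕ), Nat.cast_nonneg _, fun f => ?_⟩
  simp only [rpow_natCast]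
  set F := ∑ y ∈ f.support, (‖f y‖ * (1 + (len y : ℝ)) ^ (p + 1)) ^ 2 with hF
  have hF0 : 0 ≤ F := sum_nonneg fun _ _ => sq_nonneg _
  have h2 : (2 : ENNReal).toReal = (2 : ℕ) := by simp
  have key : ∀ (ξ : lp (fun _ : Γ => ℂ) 2) (T : Finset Γ),
      ∑ x ∈ T, ‖∑ y ∈ f.support, f y * ξ (y⁻¹ * x)‖ ^ (2 : ENNReal).toReal ≤
        (√(2 * |C|) * √F * ‖ξ‖) ^ (2 : ENNReal).toReal := fun ξ T => by
    have := conv_len h len hl f ξ (X := ‖ξ‖ ^ 2) (fun U => by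
      have := lp.sum_rpow_le_norm_rpow (p := 2) (by simp) ξ U
      simpa only [h2, rpow_natCast] using this) T
    simp only [h2, rpow_natCast]
    rwa [mul_pow, mul_pow, sq_sqrt (by positivity), sq_sqrt hF0]
  let T0 : lp (fun _ : Γ => ℂ) 2 →ₗ[ℂ] lp (fun _ : Γ => ℂ) 2 :=
    { toFun := fun ξ => ⟨fun x => ∑ y ∈ f.support, f y * ξ (y⁻¹ * x), memℓp_gen' (key ξ)⟩
      map_add' := fun ξ η => lp.ext (funext fun x => by
        simp only [lp.coeFn_add, Pi.add_apply, mul_add, sum_add_distrib])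
      map_smul' := fun c ξ => lp.ext (funext fun x => by
        simp only [lp.coeFn_smul, Pi.smul_apply, smul_eq_mul, RingHom.id_apply, mul_sum]
        exact sum_congr rfl fun _ _ => by ring) }
  have hT : ∀ ξ, ‖T0 ξ‖ ≤ √(2 * |C|) * √F * ‖ξ‖ := fun ξ =>
    lp.norm_le_of_forall_sum_le (by simp) (by positivity) (key ξ)
  refine ⟨T0.mkContinuous _ hT, fun _ _ => rfl,
    (T0.mkContinuous_norm_le (by positivity) hT).trans ?_⟩
  exact mul_le_mul_of_nonneg_right (by linarith) (sqrt_nonneg _)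

end Pool.Agent.Work.MP_dbf1ea_an.V
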