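import Pool.Agent.Work.MP_dbf1ea_an.V.Lattice

-- merged part: Pool.Agent.Work.MP_dbf1ea_an.V.CoreB
section
/-!
The doubling step: copy the window over its less predictable end.
-/

set_option autoImplicit false

open Finset Real

namespace Pool.Agent.Work.MP_dbf1ea_an.V

open Pool.Agent.Lib.PFR Pool.Agent.Lib.PFR.FP

variable {Γ : Type} {Ω : Type} [Fintype Ω]

/-- A chain of four agreements. -/
def Ch (N : Ω → Ω → Prop) (x y : Ω) : Prop := ∃ a c e, N x a ∧ N c a ∧ N c e ∧ N y e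

/-- Heavy points are coloured with few colours. -/
theorem exists_col {S : Type} (P : FP Ω) (g : Ω → S) (N : Ω → Ω → Prop) (K : ℕ) :
    ∃ col : Ω → ℕ, ∀ ω, P.p ω ≠ 0 → P.pv g ω ≤ K * P.pr (fun ω' => g ω' = g ω ∧ N ω ω') →
      col ω < K ∧ ∀ ω', P.p ω' ≠ 0 → P.pv g ω' ≤ K * P.pr (fun x => g x = g ω' ∧ N ω' x) →
        g ω = g ω' → col ω = col ω' → Ch N ω ω' := by
  classical
  let ok : S → Finset Ω → Prop := fun s F =>
    (∀ ω ∈ F, g ω = s ∧ P.pv g ω ≤ K * P.pr (fun ω' => g ω' = g ω ∧ N ω ω')) ∧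
      ∀ x ∈ F, ∀ y ∈ F, x ≠ y → ∀ a, g a = s → N x a → ¬ N y a
  have hmax : ∀ s, ∃ F, ok s F ∧ ∀ F', ok s F' → F'.card ≤ F.card := fun s => by
    obtain ⟨F, h1, h2⟩ := exists_max_image (univ.filter (ok s)) card
      ⟨∅, mem_filter.mpr ⟨mem_univ _, by simp [ok]⟩⟩
    exact ⟨F, (mem_filter.mp h1).2, fun F' h => h2 F' (mem_filter.mpr ⟨mem_univ _, h⟩)⟩
  choose F hF hF' using hmax
  have hrep : ∀ ω, ∃ c, P.p ω ≠ 0 → P.pv g ω ≤ K * P.pr (fun ω' => g ω' = g ω ∧ N ω ω') →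
      c ∈ F (g ω) ∧ ∃ a, N ω a ∧ N c a := fun ω => by
    by_cases h0 : P.p ω ≠ 0 ∧ P.pv g ω ≤ K * P.pr (fun ω' => g ω' = g ω ∧ N ω ω')
    · by_cases h1 : ω ∈ F (g ω)
      · refine ⟨ω, fun _ _ => ⟨h1, ?_⟩⟩
        have : P.pr (fun ω' => g ω' = g ω ∧ N ω ω') ≠ 0 := fun h => by
          have := P.pv_pos g h0.1
          have h2 := h0.2
          rw [h, mul_zero] at h2
          linarith
        obtain ⟨a, -, ha⟩ := P.exists_of_pr_ne this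
        exact ⟨a, ha.2, ha.2⟩
      · by_contra hc
        push Not at hc
        have := hF' (g ω) (insert ω (F (g ω))) ⟨fun x hx => ?_, fun x hx y hy hxy a ha h3 h4 => ?_⟩
        · rw [card_insert_of_notMem h1] at this
          omega
        · rcases mem_insert.mp hx with rfl | hx
          · exact ⟨rfl, h0.2⟩
          · exact (hF _).1 x hx
        · rcases mem_insert.mp hx with rfl | hx <;> rcases mem_insert.mp hy with rfl | hy
          · exact hxy rfl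
          · exact (hc y).2.2 hy a h3 h4
          · exact (hc x).2.2 hx a h4 h3
          · exact (hF _).2 x hx y hy hxy a ha h3 h4
    · exact ⟨ω, fun h1 h2 => absurd ⟨h1, h2⟩ h0⟩
  choose rep hrep using hrep
  have hcard : ∀ ω, P.p ω ≠ 0 → (F (g ω)).card ≤ K := fun ω h0 => by
    have hp : 0 < P.pr (fun ω' => g ω' = g ω) := P.pv_pos g h0
    have h1 : ((F (g ω)).card : ℝ) * P.pr (fun ω' => g ω' = g ω) ≤
        ∑ x ∈ F (g ω), K * P.pr (fun ω' => g ω' = g ω ∧ N x ω') := by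
      rw [← nsmul_eq_mul]
      refine card_nsmul_le_sum _ _ _ fun x hx => ?_
      have := ((hF _).1 x hx).2
      rwa [pv, ((hF _).1 x hx).1] at this
    have h2 : ∑ x ∈ F (g ω), P.pr (fun ω' => g ω' = g ω ∧ N x ω') ≤
        P.pr (fun ω' => g ω' = g ω) := by
      simp only [pr, ← ex_sum]
      refine P.ex_mono fun a _ => ?_
      by_cases h3 : ∃ x ∈ F (g ω), g a = g ω ∧ N x a
      · obtain ⟨x, hx, h4⟩ := h3
        rw [sum_eq_single x, ind_pos h4, ind_pos h4.1]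
        · exact fun y hy hyx => ind_neg fun h => (hF _).2 y hy x hx hyx a h4.1 h.2 h4.2
        · exact fun h => absurd hx h
      · rw [sum_eq_zero fun x hx => ind_neg fun h => h3 ⟨x, hx, h⟩]
        exact ind_nonneg _
    rw [← mul_sum] at h1
    have h3 := mul_le_mul_of_nonneg_left h2 (Nat.cast_nonneg (α := ℝ) K)
    exact_mod_cast le_of_mul_le_mul_right (h1.trans h3) hp
  refine ⟨fun ω => (F (g ω)).toList.idxOf (rep ω), fun ω h0 h1 => ⟨?_, fun ω' h0' h1' e e' => ?_⟩⟩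
  · refine lt_of_lt_of_le (List.idxOf_lt_length_iff.mpr (mem_toList.mpr (hrep ω h0 h1).1)) ?_
    rw [length_toList]
    exact hcard ω h0
  · obtain ⟨k1, a, k2, k3⟩ := hrep ω h0 h1
    obtain ⟨-, c, k5, k6⟩ := hrep ω' h0' h1'
    simp only [← e] at e'
    have := (List.idxOf_inj (mem_toList.mpr k1)).mp e'
    exact ⟨a, rep ω, c, k2, k3, this ▸ k6, k5⟩

variable [Group Γ]

/-- The pair consists of two windows with the same initial vertex and exact agreement level. -/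
def Ex (P : FP Ω) (v : Ω → ℕ → Γ) (A : ℕ → Ω → Ω → Prop) (M i : ℕ) (z : Ω × Ω) : Prop :=
  P.p z.1 ≠ 0 ∧ P.p z.2 ≠ 0 ∧ v z.2 0 = v z.1 0 ∧ A i z.1 z.2 ∧ (i < M → ¬ A (i + 1) z.1 z.2)

theorem side (P : FP Ω) (v : Ω → ℕ → Γ) (k M J K : ℕ) (A : ℕ → Ω → Ω → Prop)
    (hanti : ∀ i j x y, i ≤ j → j ≤ M → A j x y → A i x y)
    (h0 : ∀ x y, P.p x ≠ 0 → P.p y ≠ 0 → v x 0 = v y 0 → A 0 x y)
    (col : Ω → ℕ) (hcol : ∀ ω, P.p ω ≠ 0 → col ω < K) (B : Finset Γ)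
    (hB : ∀ ω, P.p ω ≠ 0 → ∀ l ≤ k, v ω l ∈ B) {d : ℝ} (hd : 0 ≤ d)
    (hnext : ∀ i ≤ J, i ≤ M → ∀ Q : FP (Ω × Ω), (∀ z, Q.p z ≠ 0 → Ex P v A M i z) →
      (∀ z w, Q.p z ≠ 0 → Q.p w ≠ 0 → col z.1 = col w.1 ∧ col z.2 = col w.2) →
      Dl Q (2 * k) (fun z => glue k (v z.1) (v z.2)) ≤ d) :
    Dl P k v ≤ d / 2 + (log (M + 1) + 2 * log K) + (2 * k + 1) * log B.card *
      P.ex fun s => (P.fib (fun ω => v ω 0) s).pr fun ω => J < M ∧ A (J + 1) s ω := by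
  classical
  set Q := cp P fun ω => v ω 0 with hQ
  set lv : Ω × Ω → ℕ := fun z => Nat.findGreatest (fun i => A i z.1 z.2) M with hlv
  set θ : Ω × Ω → ℕ × ℕ × ℕ := fun z => (lv z, col z.1, col z.2) with hθ
  have h1 : ∀ z, Q.p z ≠ 0 → Ex P v A M (lv z) z := fun z hz => by
    obtain ⟨k1, k2, k3⟩ := cp_supp hz
    exact ⟨k1, k2, k3, Nat.findGreatest_spec (P := fun i => A i z.1 z.2) (Nat.zero_le M)
      (h0 _ _ k1 k2 k3.symm), fun h => Nat.findGreatest_is_greatest (Nat.lt_succ_self _) h⟩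
  have h2 : ∀ z, lv z ≤ M := fun z => Nat.findGreatest_le M
  have h3 := Dl_cond Q (2 * k) (fun z => glue k (v z.1) (v z.2)) θ
    (range (M + 1) ×ˢ range K ×ˢ range K) fun z hz => by
      simp only [hθ, mem_product, mem_range]
      exact ⟨Nat.lt_succ_of_le (h2 z), hcol _ (h1 z hz).1, hcol _ (h1 z hz).2.1⟩
  have hK : (K : ℝ) ≠ 0 := by
    obtain ⟨ω, hω⟩ := P.exists_supp
    have := hcol ω hω
    exact_mod_cast (by omega : K ≠ 0)
  rw [hQ, Dl_glue, ← hQ, card_product, card_product, card_range, card_range] at h3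
  push_cast at h3
  rw [log_mul (by positivity) (mul_ne_zero hK hK), log_mul hK hK] at h3
  have h4 : Q.ex (fun z => Dl (Q.fib θ z) (2 * k) fun z => glue k (v z.1) (v z.2)) ≤
      Q.ex fun z => d + 2 * ((2 * k + 1) * log B.card) * ind (J < lv z) := by
    refine Q.ex_mono fun z hz => ?_
    by_cases hz2 : J < lv z
    · rw [ind_pos hz2]
      have := Dl_triv (Q.fib θ z) (2 * k) (fun z => glue k (v z.1) (v z.2)) B fun w hw l hl => by
        have k1 := h1 w (fib_supp hz hw).1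
        unfold glue
        split_ifs
        · exact hB _ k1.1 _ (by omega)
        · exact hB _ k1.2.1 _ (by omega)
      push_cast at this
      linarith only [hd, this]
    · rw [ind_neg hz2, mul_zero, add_zero]
      refine hnext (lv z) (not_lt.mp hz2) (h2 z) _ (fun w hw => ?_) fun w w' hw hw' => ?_
      · obtain ⟨k1, k2⟩ := fib_supp hz hw
        rw [← show lv w = lv z from (Prod.ext_iff.mp k2).1]
        exact h1 w k1
      · have := (fib_supp hz hw).2.trans (fib_supp hz hw').2.symm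
        simp only [hθ, Prod.mk.injEq] at this
        exact this.2
  rw [ex_add, ex_const, ex_const_mul] at h4
  have h5 : Q.ex (fun z => ind (J < lv z)) ≤
      P.ex fun s => (P.fib (fun ω => v ω 0) s).pr fun ω => J < M ∧ A (J + 1) s ω := by
    rw [hQ, ex_cp]
    refine P.ex_mono fun s hs => (P.fib _ s).ex_mono fun ω hω => ind_mono fun h => ?_
    have hz : Q.p (s, ω) ≠ 0 := mul_ne_zero hs hω
    exact ⟨h.trans_le (h2 _), hanti _ _ _ _ h (h2 _) (h1 _ hz).2.2.2.1⟩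
  have h6 := mul_le_mul_of_nonneg_left h5
    (mul_nonneg (by positivity) (log_natCast_nonneg B.card) :
      0 ≤ (2 * (k : ℝ) + 1) * log B.card)
  linarith only [h3, h4, h6]

/-- The hypothesis on the doubled windows. -/
def Next (P : FP Ω) (v : Ω → ℕ → Γ) (A : ℕ → Ω → Ω → Prop) (k M : ℕ) (d : ℝ) : Prop :=
  ∀ i ≤ M, ∀ Q : FP (Ω × Ω), (∀ z, Q.p z ≠ 0 → Ex P v A M i z) →
    (∀ z w, Q.p z ≠ 0 → Q.p w ≠ 0 → (v z.1 k = v w.1 k → Ch (A i) z.1 w.1) ∧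
      (v z.2 k = v w.2 k → Ch (A i) z.2 w.2)) →
    Dl Q (2 * k) (fun z => glue k (v z.1) (v z.2)) ≤ d

theorem half {T : Type} (P : FP Ω) (v : Ω → ℕ → Γ) (k M J K : ℕ) (hK : 0 < K) (hJ : J ≤ M)
    (A : ℕ → Ω → Ω → Prop) (hanti : ∀ i j x y, i ≤ j → j ≤ M → A j x y → A i x y)
    (a b : Ω → Γ) (ha : ∀ ω, v ω 0 = a ω) (hb : ∀ ω, v ω k = b ω)
    (h0 : ∀ x y, P.p x ≠ 0 → P.p y ≠ 0 → a x = a y → A 0 x y) (B : Finset Γ)
    (hB : ∀ ω, P.p ω ≠ 0 → ∀ l ≤ k, v ω l ∈ B) {d : ℝ} (hd : 0 ≤ d) (hnext : Next P v A k M d)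
    (τ : Ω → T) {ω0 : Ω} (hω0 : P.p ω0 ≠ 0)
    (h1 : ∀ s, P.p s ≠ 0 → τ s = τ ω0 → P.pv b s ≤ K * P.pr (fun ω => b ω = b s ∧ A J s ω))
    (h2 : ∀ s, P.p s ≠ 0 → τ s = τ ω0 → J < M →
      K * P.pr (fun ω => a ω = a s ∧ A (J + 1) s ω) ≤ P.pv a s) :
    Dl (P.fib τ ω0) k v ≤ d / 2 + (log (M + 1) + 2 * log K) + (2 * k + 1) * log B.card / K *
      (P.fib τ ω0).ex fun s => P.pv a s / P.pv (fun ω => (τ ω, a ω)) s := by
  obtain ⟨col, hcol⟩ := exists_col P b (A J) K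
  have hK' : (0 : ℝ) < K := by exact_mod_cast hK
  have hc : ∀ s, (P.fib τ ω0).p s ≠ 0 →
      P.p s ≠ 0 ∧ P.pv b s ≤ K * P.pr (fun ω => b ω = b s ∧ A J s ω) := fun s hs =>
    ⟨(fib_supp hω0 hs).1, h1 s (fib_supp hω0 hs).1 (fib_supp hω0 hs).2⟩
  have mono : ∀ i ≤ J, ∀ x y, Ch (A J) x y → Ch (A i) x y := by
    rintro i hi x y ⟨p, q, r, e1, e2, e3, e4⟩
    exact ⟨p, q, r, hanti _ _ _ _ hi hJ e1, hanti _ _ _ _ hi hJ e2, hanti _ _ _ _ hi hJ e3,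
      hanti _ _ _ _ hi hJ e4⟩
  have k1 := side (P.fib τ ω0) v k M J K A hanti
    (fun x y hx hy e => h0 x y (hc x hx).1 (hc y hy).1 (by rwa [ha, ha] at e)) col
    (fun ω h => (hcol ω (hc ω h).1 (hc ω h).2).1) B (fun ω h => hB ω (hc ω h).1) hd
    fun i hi hiM Q hQ hQ' => hnext i hiM Q
      (fun z hz => ⟨(hc _ (hQ z hz).1).1, (hc _ (hQ z hz).2.1).1, (hQ z hz).2.2⟩)
      fun z w hz hw => ⟨fun e => mono i hi _ _ ((hcol _ (hc _ (hQ z hz).1).1 (hc _ (hQ z hz).1).2).2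
        _ (hc _ (hQ w hw).1).1 (hc _ (hQ w hw).1).2 (by rwa [hb, hb] at e) (hQ' z w hz hw).1),
        fun e => mono i hi _ _ ((hcol _ (hc _ (hQ z hz).2.1).1 (hc _ (hQ z hz).2.1).2).2
        _ (hc _ (hQ w hw).2.1).1 (hc _ (hQ w hw).2.1).2 (by rwa [hb, hb] at e) (hQ' z w hz hw).2)⟩
  rw [show (fun ω => v ω 0) = a from funext ha] at k1
  have k2 : (P.fib τ ω0).ex (fun s => ((P.fib τ ω0).fib a s).pr fun ω => J < M ∧ A (J + 1) s ω) ≤
      (P.fib τ ω0).ex fun s => (K : ℝ)⁻¹ * (P.pv a s / P.pv (fun ω => (τ ω, a ω)) s) := by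
    refine (P.fib τ ω0).ex_mono fun s hs => (pr_fib_fib_le P τ a hω0 hs _).trans ?_
    rw [← mul_div_assoc]
    refine div_le_div_of_nonneg_right ?_ (P.pr_nonneg _)
    rw [le_inv_mul_iff₀ hK']
    by_cases h3 : J < M
    · simp only [h3, true_and]
      exact h2 s (fib_supp hω0 hs).1 (fib_supp hω0 hs).2 h3
    · simp only [h3, false_and, and_false, pr, ind_neg not_false, ex_const, mul_zero]
      exact P.pr_nonneg _
  rw [ex_const_mul] at k2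
  have k3 := mul_le_mul_of_nonneg_left k2
    (mul_nonneg (by positivity) (log_natCast_nonneg B.card) :
      0 ≤ (2 * (k : ℝ) + 1) * log B.card)
  rw [div_eq_mul_inv _ (K : ℝ), mul_assoc _ (K : ℝ)⁻¹]
  linarith only [k1, k3]

theorem step (P : FP Ω) (v : Ω → ℕ → Γ) (k M K : ℕ) (hK : 0 < K)
    (A : ℕ → Ω → Ω → Prop) (hanti : ∀ i j x y, i ≤ j → j ≤ M → A j x y → A i x y)
    (h0 : ∀ x y, P.p x ≠ 0 → P.p y ≠ 0 → (v x 0 = v y 0 ∨ v x k = v y k) → A 0 x y) (B : Finset Γ)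
    (hB : ∀ ω, P.p ω ≠ 0 → ∀ l ≤ k, v ω l ∈ B) {d : ℝ} (hd : 0 ≤ d) (hn : Next P v A k M d)
    (hn' : Next P (fun ω => rev k (v ω)) A k M d) :
    Dl P k v ≤ d / 2 + (3 * log (M + 1) + 2 * log K + 2) +
      (2 * k + 1) * log B.card / K * (4 * (M + 1)) := by
  classical
  set a : Ω → Γ := fun ω => v ω 0 with ha
  set b : Ω → Γ := fun ω => v ω k with hb
  have hK' : (1 : ℝ) ≤ K := by exact_mod_cast hK
  set hv : (Ω → Γ) → Ω → ℕ → Prop := fun g ω j =>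
    P.pv g ω ≤ K * P.pr (fun ω' => g ω' = g ω ∧ A j ω ω') with hhv
  have hv0 : ∀ g : Ω → Γ, (∀ x y, P.p x ≠ 0 → P.p y ≠ 0 → g x = g y → A 0 x y) →
      ∀ ω, P.p ω ≠ 0 → hv g ω 0 := fun g hg ω hω => by
    refine le_trans ?_ (le_mul_of_one_le_left (P.pr_nonneg _) hK')
    exact P.pr_mono fun ω' h1 h => ⟨h, hg _ _ hω h1 h.symm⟩
  have ha0 : ∀ x y, P.p x ≠ 0 → P.p y ≠ 0 → a x = a y → A 0 x y :=
    fun x y hx hy e => h0 x y hx hy (Or.inl e)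
  have hb0 : ∀ x y, P.p x ≠ 0 → P.p y ≠ 0 → b x = b y → A 0 x y :=
    fun x y hx hy e => h0 x y hx hy (Or.inr e)
  set J : (Ω → Γ) → Ω → ℕ := fun g ω => Nat.findGreatest (hv g ω) M with hJ
  have hJ2 : ∀ g ω j, J g ω ≤ j → j < M →
      K * P.pr (fun ω' => g ω' = g ω ∧ A (j + 1) ω ω') ≤ P.pv g ω := fun g ω j h1 h2 =>
    (not_le.mp (Nat.findGreatest_is_greatest (P := hv g ω) (Nat.lt_succ_of_le h1) h2)).le
  have hJ3 : ∀ g ω, J g ω ≤ M := fun g ω => Nat.findGreatest_le M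
  set τ : Ω → ℕ × Bool := fun ω => (max (J a ω) (J b ω), decide (J a ω ≤ J b ω)) with hτ
  set Θ : Finset (ℕ × Bool) := range (M + 1) ×ˢ univ with hΘ
  have hτΘ : ∀ ω, P.p ω ≠ 0 → τ ω ∈ Θ := fun ω _ =>
    mem_product.mpr ⟨mem_range.mpr (Nat.lt_succ_of_le (max_le (hJ3 _ _) (hJ3 _ _))), mem_univ _⟩
  have hΘc : (Θ.card : ℝ) = 2 * (M + 1) := by
    rw [hΘ, card_product, card_range, card_univ, Fintype.card_bool]; push_cast; ring
  set r : (Ω → Γ) → Ω → ℝ := fun g ω => P.pv g ω / P.pv (fun ω => (τ ω, g ω)) ω with hr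
  have hr0 : ∀ g ω0, 0 ≤ (P.fib τ ω0).ex (r g) := fun g ω0 =>
    ex_nonneg _ fun _ _ => div_nonneg (P.pr_nonneg _) (P.pr_nonneg _)
  set c : ℝ := (2 * k + 1) * log B.card / K with hc
  have hc0 : 0 ≤ c :=
    div_nonneg (mul_nonneg (by positivity) (log_natCast_nonneg _)) (by positivity)
  have h3 : P.ex (fun ω => Dl (P.fib τ ω) k v) ≤ P.ex fun ω =>
      d / 2 + (log (M + 1) + 2 * log K) + c * ((P.fib τ ω).ex (r a) + (P.fib τ ω).ex (r b)) := by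
    refine P.ex_mono fun ω0 hω0 => ?_
    by_cases hab : J a ω0 ≤ J b ω0
    · have hτ1 : ∀ s, τ s = τ ω0 → J a s ≤ J b s ∧ J b s = J b ω0 := fun s e => by
        simp only [hτ, Prod.mk.injEq, decide_eq_decide] at e
        have := e.2.mpr hab
        rw [max_eq_right this, max_eq_right hab] at e
        exact ⟨this, e.1⟩
      have k1 := half P v k M (J b ω0) K hK (hJ3 _ _) A hanti a b (fun _ => rfl) (fun _ => rfl) ha0
        B hB hd hn τ hω0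
        (fun s hs e => (hτ1 s e).2 ▸ Nat.findGreatest_spec (P := hv b s) (Nat.zero_le M)
          (hv0 b hb0 s hs))
        fun s _ e h => hJ2 a s _ ((hτ1 s e).1.trans (hτ1 s e).2.le) h
      have k2 := mul_nonneg hc0 (hr0 b ω0)
      rw [mul_add]
      linarith only [k1, k2]
    · have hτ1 : ∀ s, τ s = τ ω0 → J b s ≤ J a s ∧ J a s = J a ω0 := fun s e => by
        simp only [hτ, Prod.mk.injEq, decide_eq_decide] at e
        have : J b s ≤ J a s := le_of_lt (not_le.mp fun h => hab (e.2.mp h))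
        rw [max_eq_left this, max_eq_left (le_of_lt (not_le.mp hab))] at e
        exact ⟨this, e.1⟩
      have k1 := half P (fun ω => rev k (v ω)) k M (J a ω0) K hK (hJ3 _ _) A hanti b a
        (fun _ => rfl) (fun _ => by simp only [rev, Nat.sub_self, ha]) hb0
        B (fun ω h l _ => hB ω h _ (Nat.sub_le _ _)) hd hn' τ hω0
        (fun s hs e => (hτ1 s e).2 ▸ Nat.findGreatest_spec (P := hv a s) (Nat.zero_le M)
          (hv0 a ha0 s hs))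
        fun s _ e h => hJ2 b s _ ((hτ1 s e).1.trans (hτ1 s e).2.le) h
      have k2 := mul_nonneg hc0 (hr0 a ω0)
      rw [Dl_rev] at k1
      rw [mul_add]
      linarith only [k1, k2]
  rw [ex_add, ex_const, ex_const_mul, ex_add, tower', tower'] at h3
  have r1 := ex_ratio_le P τ a Θ hτΘ
  have r2 := ex_ratio_le P τ b Θ hτΘ
  rw [hΘc] at r1 r2
  have h1 := Dl_cond P k v τ Θ hτΘ
  rw [hΘc, log_mul (by norm_num) (by positivity)] at h1
  have h8 := mul_le_mul_of_nonneg_left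
    (by linarith only [r1, r2] : P.ex (r a) + P.ex (r b) ≤ 4 * ((M : ℝ) + 1)) hc0
  have h9 : log 2 ≤ 1 := by
    have := log_le_sub_one_of_pos (x := 2) (by norm_num); linarith only [this]
  linarith only [h3, h1, h8, h9]

end Pool.Agent.Work.MP_dbf1ea_an.V
end

-- merged part: Pool.Agent.Work.MP_dbf1ea_an.V.Net
section
/-!
Coding sums of norms by points of a uniformly locally finite net.
-/

set_option autoImplicit false

open scoped Matrix Pointwise Topology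

namespace Pool.Agent.Work.MP_dbf1ea_an.V

variable {ι : Type} [Fintype ι] [DecidableEq ι]

theorem Net_Bd2_inv {C : ℝ} {a : GL ι ℝ} (h : Bd2 C a) : Bd2 C a⁻¹ :=
  ⟨h.2, by rw [inv_inv]; exact h.1⟩

theorem Net_nhds : {a : GL ι ℝ | Bd2 2 a} ∈ 𝓝 (1 : GL ι ℝ) := by
  have key : ∀ f : GL ι ℝ → Matrix ι ι ℝ, Continuous f → f 1 = 1 →
      ∀ᶠ a in 𝓝 (1 : GL ι ℝ), Bd 2 (f a) := by
    intro f hf h1
    refine Filter.eventually_all.2 fun i => Filter.eventually_all.2 fun j => ?_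
    have hc : Continuous fun a => |f a i j| := (hf.matrix_elem i j).abs
    have h2 : |f 1 i j| < 2 := by
      rw [h1, Matrix.one_apply]
      split_ifs <;> norm_num
    exact (hc.continuousAt.eventually_lt continuousAt_const h2).mono fun _ h => h.le
  exact (key (fun a => a.1) Units.continuous_val rfl).and
    (key (fun a => (a⁻¹).1) Units.continuous_coe_inv (by simp))

theorem exists_net : ∃ r : GL ι ℝ → GL ι ℝ, (∀ g, Bd2 2 (g⁻¹ * r g)) ∧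
    ∀ C : ℝ, ∃ N : ℕ, ∀ g : GL ι ℝ, ∃ F : Finset (GL ι ℝ), F.card ≤ N ∧
      ∀ h, Bd2 C (g⁻¹ * r h) → r h ∈ F := by
  classical
  obtain ⟨M, hM⟩ := zorn_subset {M : Set (GL ι ℝ) | M.Pairwise fun x y => ¬ Bd2 2 (x⁻¹ * y)}
    fun c hc hch => ⟨⋃₀ c, (Set.pairwise_sUnion hch.directedOn).2 fun a ha => hc ha,
      fun s hs => Set.subset_sUnion_of_mem hs⟩
  have hr : ∀ g, ∃ x ∈ M, Bd2 2 (g⁻¹ * x) := by
    intro g
    by_contra hne
    push Not at hne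
    have h1 : (insert g M).Pairwise fun x y => ¬ Bd2 2 (x⁻¹ * y) := by
      refine hM.prop.insert fun x hx _ => ⟨hne x hx, fun h => hne x hx ?_⟩
      simpa using Net_Bd2_inv h
    have h2 : g ∈ M := hM.le_of_ge h1 (Set.subset_insert _ _) (Set.mem_insert _ _)
    refine hne g h2 ?_
    rw [inv_mul_cancel]
    have h3 := mem_of_mem_nhds (Net_nhds (ι := ι))
    exact h3
  choose r hrM hr using hr
  have hU : ∀ x : GL ι ℝ, ∃ U ∈ 𝓝 x, ∀ y ∈ U, ∀ y' ∈ U, Bd2 2 (y⁻¹ * y') := by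
    intro x
    have hc : Continuous fun p : GL ι ℝ × GL ι ℝ => p.1⁻¹ * p.2 := by fun_prop
    have h1 : (fun p : GL ι ℝ × GL ι ℝ => p.1⁻¹ * p.2) ⁻¹' {a | Bd2 2 a} ∈ 𝓝 (x, x) :=
      hc.continuousAt.preimage_mem_nhds (by simpa using Net_nhds)
    obtain ⟨U, h2, h3, h4⟩ := exists_nhds_square h1
    exact ⟨U, h2.mem_nhds h3, fun y hy y' hy' => h4 (Set.mk_mem_prod hy hy')⟩
  choose U hU hU' using hU
  refine ⟨r, hr, fun C => ?_⟩
  obtain ⟨t, -, ht⟩ := (isCompact_Bd2 (ι := ι) C).elim_nhds_subcover U fun x _ => hU x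
  refine ⟨t.card, fun g => ⟨t.image fun x => if h : ∃ y ∈ M, g⁻¹ * y ∈ U x then h.choose else 1,
    Finset.card_image_le, fun h hh => ?_⟩⟩
  obtain ⟨x, hx, hx'⟩ := Set.mem_iUnion₂.1 (ht hh)
  have he : ∃ y ∈ M, g⁻¹ * y ∈ U x := ⟨r h, hrM h, hx'⟩
  refine Finset.mem_image.2 ⟨x, hx, ?_⟩
  rw [dif_pos he]
  by_contra hne
  refine hM.prop he.choose_spec.1 (hrM h) hne ?_
  simpa [mul_assoc] using hU' x _ he.choose_spec.2 _ hx'

omit [DecidableEq ι] in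
theorem Net_sq_le (v : ι → ℝ) : ‖v‖ ^ 2 ≤ v ⬝ᵥ v := by
  have h0 : 0 ≤ v ⬝ᵥ v := Finset.sum_nonneg fun i _ => mul_self_nonneg _
  rw [← Real.le_sqrt (norm_nonneg _) h0, pi_norm_le_iff_of_nonneg (Real.sqrt_nonneg _)]
  intro i
  refine Real.abs_le_sqrt ?_
  rw [sq]
  exact Finset.single_le_sum (f := fun i => v i * v i) (fun i _ => mul_self_nonneg _)
    (Finset.mem_univ i)

omit [DecidableEq ι] in
theorem Net_le_sq (v : ι → ℝ) : v ⬝ᵥ v ≤ (Fintype.card ι + 1) ^ 2 * ‖v‖ ^ 2 := by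
  have h : v ⬝ᵥ v ≤ Fintype.card ι * ‖v‖ ^ 2 := by
    refine (Finset.sum_le_card_nsmul _ _ (‖v‖ ^ 2) fun i _ => ?_).trans (by simp)
    rw [← sq, ← sq_abs]
    exact pow_le_pow_left₀ (abs_nonneg _) (norm_le_pi_norm v i) 2
  refine h.trans (mul_le_mul_of_nonneg_right ?_ (sq_nonneg _))
  have : (0 : ℝ) ≤ Fintype.card ι := Nat.cast_nonneg _
  linarith only [sq_nonneg (↑(Fintype.card ι) + (1 : ℝ)), mul_nonneg_of_nonpos_of_nonpos (Mathlib.Tactic.Linarith.sub_nonpos_of_le (Mathlib.Tactic.Linarith.natCast_nonneg ℝ (Fintype.card ι))) (Mathlib.Tactic.Linarith.sub_nonpos_of_le (Mathlib.Tactic.Linarith.natCast_nonneg ℝ (Fintype.card ι)))]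

omit [DecidableEq ι] in
theorem Net_quad (B : Matrix ι ι ℝ) (ξ : ι → ℝ) :
    ξ ⬝ᵥ (Bᴴ * B) *ᵥ ξ = (B *ᵥ ξ) ⬝ᵥ (B *ᵥ ξ) := by
  rw [← Matrix.mulVec_mulVec, Matrix.dotProduct_mulVec, Matrix.conjTranspose_eq_transpose_of_trivial,
    Matrix.vecMul_transpose]

open scoped MatrixOrder in
theorem Net_sqrt {M : Matrix ι ι ℝ} (h : M.PosDef) : ∃ B : Matrix ι ι ℝ, IsUnit B ∧ M = Bᴴ * B :=
  CStarAlgebra.isStrictlyPositive_iff_eq_star_mul_self.mp h.isStrictlyPositive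

theorem exists_frame (k : ℕ) (u : ℕ → GL ι ℝ) : ∃ g : GL ι ℝ, ∀ ξ : ι → ℝ,
    ‖(g⁻¹).1 *ᵥ ξ‖ ≤ (Fintype.card ι + 1) * ∑ l ∈ Finset.range (k + 1), ‖(u l).1 *ᵥ ξ‖ ∧
    ∑ l ∈ Finset.range (k + 1), ‖(u l).1 *ᵥ ξ‖ ≤
      (k + 1) * (Fintype.card ι + 1) * ‖(g⁻¹).1 *ᵥ ξ‖ := by
  have hM : (∑ l ∈ Finset.range (k + 1), (u l).1ᴴ * (u l).1).PosDef :=
    Matrix.posDef_sum ⟨0, by simp⟩ fun l _ => Matrix.PosDef.conjTranspose_mul_self _
      (Matrix.mulVec_injective_iff_isUnit.2 (u l).isUnit)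
  obtain ⟨B, hB, e⟩ := Net_sqrt hM
  refine ⟨hB.unit⁻¹, fun ξ => ?_⟩
  rw [inv_inv, hB.unit_spec]
  have key : ∑ l ∈ Finset.range (k + 1), ((u l).1 *ᵥ ξ) ⬝ᵥ ((u l).1 *ᵥ ξ) =
      (B *ᵥ ξ) ⬝ᵥ (B *ᵥ ξ) := by
    rw [← Net_quad, ← e, Matrix.sum_mulVec, dotProduct_sum]
    simp only [Net_quad]
  have hn : (0 : ℝ) ≤ Fintype.card ι + 1 := by positivity
  constructor
  · refine (abs_le_of_sq_le_sq' ?_ (mul_nonneg hn (Finset.sum_nonneg fun _ _ => norm_nonneg _))).2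
    refine (Net_sq_le _).trans ?_
    rw [← key, mul_pow]
    refine (Finset.sum_le_sum fun l _ => Net_le_sq _).trans ?_
    rw [← Finset.mul_sum]
    exact mul_le_mul_of_nonneg_left
      (Finset.sum_sq_le_sq_sum_of_nonneg fun _ _ => norm_nonneg _) (sq_nonneg _)
  · refine (Finset.sum_le_card_nsmul _ _ ((Fintype.card ι + 1) * ‖B *ᵥ ξ‖) fun l hl => ?_).trans
      (le_of_eq ?_)
    · refine (abs_le_of_sq_le_sq' ?_ (mul_nonneg hn (norm_nonneg _))).2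
      refine (Net_sq_le _).trans ?_
      rw [mul_pow]
      refine le_trans ?_ (Net_le_sq _)
      rw [← key]
      exact Finset.single_le_sum (f := fun l => ((u l).1 *ᵥ ξ) ⬝ᵥ ((u l).1 *ᵥ ξ))
        (fun l _ => (sq_nonneg _).trans (Net_sq_le _)) hl
    · rw [Finset.card_range, nsmul_eq_mul]
      push_cast
      ring

omit [DecidableEq ι] in
theorem Net_norm_le {C : ℝ} {a : Matrix ι ι ℝ} (h : Bd C a) (ξ : ι → ℝ) :
    ‖a *ᵥ ξ‖ ≤ Fintype.card ι * C * ‖ξ‖ := by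
  rcases isEmpty_or_nonempty ι with hι | ⟨⟨i₀⟩⟩
  · simp [Subsingleton.elim (a *ᵥ ξ) 0]
  have hC : 0 ≤ C := (abs_nonneg _).trans (h i₀ i₀)
  rw [pi_norm_le_iff_of_nonneg (by positivity)]
  intro i
  refine (norm_sum_le _ _).trans
    ((Finset.sum_le_card_nsmul _ _ (C * ‖ξ‖) fun j _ => ?_).trans (by simp [mul_assoc]))
  rw [norm_mul]
  exact mul_le_mul (h i j) (norm_le_pi_norm ξ j) (norm_nonneg _) hC

theorem Bd.norm_le {C : ℝ} {a : Matrix ι ι ℝ} (h : Bd C a) (ξ : ι → ℝ) :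
    ‖a *ᵥ ξ‖ ≤ Fintype.card ι * C * ‖ξ‖ := Net_norm_le h ξ

theorem bd_of_norm_le {C : ℝ} {a : Matrix ι ι ℝ} (h : ∀ ξ : ι → ℝ, ‖a *ᵥ ξ‖ ≤ C * ‖ξ‖) :
    Bd C a := by
  intro i j
  have h1 := (norm_le_pi_norm _ i).trans (h (Pi.single j 1))
  simpa [Pi.norm_single] using h1

theorem exists_code (k : ℕ) : ∃ (code : ((ι → ℝ) → ℝ) → GL ι ℝ) (D : ℝ), 1 ≤ D ∧
    (∀ (u : ℕ → GL ι ℝ) (q : (ι → ℝ) → ℝ),
      (∀ ξ, q ξ = ∑ l ∈ Finset.range (k + 1), ‖(u l).1 *ᵥ ξ‖) →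
      ∀ ξ, ‖((code q)⁻¹).1 *ᵥ ξ‖ ≤ D * q ξ ∧ q ξ ≤ D * ‖((code q)⁻¹).1 *ᵥ ξ‖) ∧
    ∀ C : ℝ, ∃ N : ℕ, ∀ g : GL ι ℝ, ∃ F : Finset (GL ι ℝ), F.card ≤ N ∧
      ∀ q, Bd2 C (g⁻¹ * code q) → code q ∈ F := by
  obtain ⟨r, hr, hN⟩ := exists_net (ι := ι)
  have hf : ∀ q : (ι → ℝ) → ℝ, ∃ g : GL ι ℝ, ∀ u : ℕ → GL ι ℝ,
      (∀ ξ, q ξ = ∑ l ∈ Finset.range (k + 1), ‖(u l).1 *ᵥ ξ‖) →
      ∀ ξ, ‖(g⁻¹).1 *ᵥ ξ‖ ≤ (Fintype.card ι + 1) * q ξ ∧
        q ξ ≤ (k + 1) * (Fintype.card ι + 1) * ‖(g⁻¹).1 *ᵥ ξ‖ := by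
    intro q
    by_cases h : ∃ u : ℕ → GL ι ℝ, ∀ ξ, q ξ = ∑ l ∈ Finset.range (k + 1), ‖(u l).1 *ᵥ ξ‖
    · obtain ⟨u, hu⟩ := h
      obtain ⟨g, hg⟩ := exists_frame k u
      exact ⟨g, fun _ _ ξ => by rw [hu]; exact hg ξ⟩
    · exact ⟨1, fun u hu => absurd ⟨u, hu⟩ h⟩
  choose f hf using hf
  have hn : (0 : ℝ) ≤ Fintype.card ι := Nat.cast_nonneg _
  have hk : (0 : ℝ) ≤ k := Nat.cast_nonneg _
  refine ⟨fun q => r (f q), 2 * (Fintype.card ι + 1) ^ 2 * (k + 1), ?_, fun u q hq ξ => ?_,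
    fun C => ?_⟩
  · linarith only [hn, hk, mul_nonneg hn hn, mul_nonneg hn hk, mul_nonneg (mul_nonneg hn hn) hk, mul_self_nonneg ↑(Fintype.card ι)]
  · obtain ⟨h1, h2⟩ := hf q u hq ξ
    have hq0 : 0 ≤ q ξ := by
      rw [hq]
      exact Finset.sum_nonneg fun _ _ => norm_nonneg _
    have e1 : ((r (f q))⁻¹).1 *ᵥ ξ = (((f q)⁻¹ * r (f q))⁻¹).1 *ᵥ (((f q)⁻¹).1 *ᵥ ξ) := by
      rw [Matrix.mulVec_mulVec, ← Units.val_mul]
      simp
    have e2 : ((f q)⁻¹).1 *ᵥ ξ = ((f q)⁻¹ * r (f q)).1 *ᵥ (((r (f q))⁻¹).1 *ᵥ ξ) := by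
      rw [Matrix.mulVec_mulVec, ← Units.val_mul]
      simp
    have b1 := (hr (f q)).2.norm_le (((f q)⁻¹).1 *ᵥ ξ)
    have b2 := (hr (f q)).1.norm_le (((r (f q))⁻¹).1 *ᵥ ξ)
    rw [← e1] at b1
    rw [← e2] at b2
    constructor
    · refine b1.trans ((mul_le_mul_of_nonneg_left h1 (by positivity)).trans ?_)
      rw [← mul_assoc]
      refine mul_le_mul_of_nonneg_right ?_ hq0
      linarith only [hn, hk, mul_nonneg hn hn, mul_nonneg hn hk, mul_nonneg (mul_nonneg hn hn) hk]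
    · refine h2.trans ((mul_le_mul_of_nonneg_left b2 (by positivity)).trans ?_)
      rw [← mul_assoc]
      refine mul_le_mul_of_nonneg_right ?_ (norm_nonneg _)
      linarith only [hn, hk, mul_nonneg hn hn, mul_nonneg hn hk, mul_nonneg (mul_nonneg hn hn) hk]
  · obtain ⟨N, hN⟩ := hN C
    refine ⟨N, fun g => ?_⟩
    obtain ⟨F, h1, h2⟩ := hN g
    exact ⟨F, h1, fun q => h2 (f q)⟩

end Pool.Agent.Work.MP_dbf1ea_an.V
end

-- merged part: Pool.Agent.Work.MP_dbf1ea_an.V.CoreD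
section
/-!
The states of the induction on the rank: the inductive step and the full rank case.
-/

set_option autoImplicit false

open Finset Real
open scoped Matrix Pointwise

namespace Pool.Agent.Work.MP_dbf1ea_an.V

open Pool.Agent.Lib.PFR Pool.Agent.Lib.PFR.FP

variable {ι : Type} [Fintype ι] [DecidableEq ι] {Γ : Type} [Group Γ]

/-- Windows of rank `j` whose truncated norm is known to both ends have defect at most `d`. -/
def St (S : Finset Γ) (ρ : Γ →* GL ι ℝ) (Λ : ℝ) (L m j : ℕ) (c C d : ℝ) : Prop :=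
  ∀ t : ℕ, t ≤ 2 * L → ∀ (Ω : Type) [Fintype Ω] (P : FP Ω) (v : Ω → ℕ → Γ),
    (∀ ω, P.p ω ≠ 0 → Gd S L m (2 ^ j) (v ω) ∧
      Rk j (c * (Λ ^ t / Λ ^ L)) (pn ρ (2 ^ j) (v ω))) →
    (∀ x y, P.p x ≠ 0 → P.p y ≠ 0 → (v x 0 = v y 0 ∨ v x (2 ^ j) = v y (2 ^ j)) →
      Le C (Λ ^ t / Λ ^ L) (pn ρ (2 ^ j) (v x)) (pn ρ (2 ^ j) (v y))) →
    Dl P (2 ^ j) v ≤ d

/-- Two-sided agreement at the level `i`. -/
def Ag {Ω : Type} (p : Ω → (ι → ℝ) → ℝ) (C Λ : ℝ) (L t i : ℕ) (x y : Ω) : Prop :=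
  Le C (Λ ^ (t - i) / Λ ^ L) (p x) (p y) ∧ Le C (Λ ^ (t - i) / Λ ^ L) (p y) (p x)

variable {S : Finset Γ} {ρ : Γ →* GL ι ℝ} {Λ : ℝ}

theorem next_state (h1 : 1 ≤ Λ)
    (hΛ : ∀ L, ∀ γ ∈ ball S L, ∀ ξ : ι → ℝ, ‖(ρ γ).1 *ᵥ ξ‖ ≤ Λ ^ L * ‖ξ‖) {c C : ℝ} (hc : 0 < c)
    (hC : 1 ≤ C) : ∃ c' C' : ℝ, 0 < c' ∧ 1 ≤ C' ∧ ∀ (L m j : ℕ) (d : ℝ), j < Fintype.card ι →
      St S ρ Λ L m (j + 1) c' C' d → ∀ t : ℕ, t ≤ 2 * L →
      ∀ (Ω : Type) [Fintype Ω] (P : FP Ω) (v : Ω → ℕ → Γ) (p : Ω → (ι → ℝ) → ℝ),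
        (∀ ω, pn ρ (2 ^ j) (v ω) = p ω) →
        (∀ ω, P.p ω ≠ 0 → Gd S L m (2 ^ j) (v ω) ∧ Rk j (c * (Λ ^ t / Λ ^ L)) (p ω)) →
        (∀ x y, P.p x ≠ 0 → P.p y ≠ 0 → v x 0 = v y 0 → Le C (Λ ^ t / Λ ^ L) (p x) (p y)) →
        Next P v (Ag p (2 * (C * (1 + c⁻¹))) Λ L t) (2 ^ j) t d := by
  have hc' : 0 < c⁻¹ := inv_pos.mpr hc
  set C1 := 2 * (C * (1 + c⁻¹)) with hC1
  have hC1' : 1 ≤ C1 := by
    have := one_le_mul_of_one_le_of_one_le hC (by linarith only [hc'] : 1 ≤ 1 + c⁻¹)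
    linarith only [this]
  have hC0 : 0 ≤ C1 := by linarith
  have hq : 1 ≤ 2 * Λ * (2 * c⁻¹ + 1) :=
    one_le_mul_of_one_le_of_one_le (by linarith) (by linarith)
  refine ⟨(2 * Λ * (2 * c⁻¹ + 1))⁻¹, (1 + C1) * (C1 * (C1 * (C1 * (C1 + 1) + 1) + 1) + 1),
    inv_pos.mpr (by linarith only [hq]), one_le_mul_of_one_le_of_one_le (by linarith only [hC1'])
      (le_add_of_nonneg_left (by positivity)), ?_⟩
  intro L m j d hj hSt t ht Ω _ P v p hp hG hE i hi Q hQ hQ'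
  have hsn : ∀ ω, IsSn (p ω) := fun ω => hp ω ▸ pn_sn ρ _ _
  have hs0 : ∀ a : ℕ, 0 ≤ Λ ^ a / Λ ^ L := fun a => by positivity
  have hg : ∀ z, Q.p z ≠ 0 → ∀ ξ, p z.1 ξ ≤ pn ρ (2 * 2 ^ j) (glue (2 ^ j) (v z.1) (v z.2)) ξ ∧
      p z.2 ξ ≤ pn ρ (2 * 2 ^ j) (glue (2 ^ j) (v z.1) (v z.2)) ξ ∧
      pn ρ (2 * 2 ^ j) (glue (2 ^ j) (v z.1) (v z.2)) ξ ≤ p z.1 ξ + p z.2 ξ := fun z hz ξ => by
    rw [← hp, ← hp]
    exact pn_glue ρ (hQ z hz).2.2.1 ξ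
  have key := hSt (t - i) (by omega) (Ω × Ω) Q (fun z => glue (2 ^ j) (v z.1) (v z.2))
  rw [pow_succ'] at key
  refine key (fun z hz => ?_) fun z w hz hw e => ?_
  · obtain ⟨k1, k2, k3, k4, k5⟩ := hQ z hz
    refine ⟨(hG _ k1).1.glue (hG _ k2).1 k3, ?_⟩
    rcases Nat.lt_or_ge i t with hit | hit
    · have hs : Λ ^ (t - (i + 1)) / Λ ^ L ≤ Λ ^ t / Λ ^ L :=
        div_le_div_of_nonneg_right (pow_le_pow_right₀ h1 (Nat.sub_le _ _)) (by positivity)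
      have hs' : (2 * Λ * (2 * c⁻¹ + 1))⁻¹ * (Λ ^ (t - i) / Λ ^ L) ≤
          2⁻¹ * (Λ ^ (t - (i + 1)) / Λ ^ L / (2 * c⁻¹ + 1)) := by
        rw [show t - i = t - (i + 1) + 1 by omega, pow_succ]
        refine le_of_eq ?_
        have : Λ ≠ 0 := by linarith only [h1]
        field_simp
      rcases not_and_or.mp (k5 hit) with hn | hn
      · refine (rk_succ (hsn z.1) (hsn z.2) hc hC (hs0 _) hs (hG _ k2).2
          (hE _ _ k1 k2 k3.symm) hn).mono (by norm_num) hs' fun ξ => ?_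
        have := hg z hz ξ
        linarith only [this, this.1, this.2.1]
      · refine (rk_succ (hsn z.2) (hsn z.1) hc hC (hs0 _) hs (hG _ k1).2
          (hE _ _ k2 k1 k3) hn).mono (by norm_num) hs' fun ξ => ?_
        have := hg z hz ξ
        linarith only [this, this.1, this.2.1]
    · refine ⟨⊤, by rw [finrank_top, Module.finrank_fintype_fun_eq_card]; omega, fun ξ _ => ?_⟩
      have a1 := pn_lower (k := 2 ^ j) hΛ ((hG _ k1).1.1 0 (Nat.zero_le _)) h1 ξ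
      rw [hp] at a1
      refine le_trans ?_ (hg z hz ξ).1
      rw [show t - i = 0 by omega, pow_zero, mul_assoc]
      refine (mul_le_of_le_one_left (by positivity) (inv_le_one_of_one_le₀ hq)).trans ?_
      rwa [one_div, inv_mul_le_iff₀ (by positivity)]
  · have ch : ∀ x y, Ch (Ag p C1 Λ L t i) x y →
        Le (C1 * (C1 * (C1 * (C1 + 1) + 1) + 1)) (Λ ^ (t - i) / Λ ^ L) (p x) (p y) := by
      rintro x y ⟨a, b, e, e1, e2, e3, e4⟩
      exact e1.1.trans (e2.2.trans (e3.1.trans e4.2 (hsn _).nn hC0) (hsn _).nn hC0) (hsn _).nn hC0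
    have fin : ∀ (x x' y : Ω) (f g : (ι → ℝ) → ℝ), (∀ ξ, f ξ ≤ p x ξ + p x' ξ) →
        (∀ ξ, p y ξ ≤ g ξ) → Le C1 (Λ ^ (t - i) / Λ ^ L) (p x') (p x) →
        Ch (Ag p C1 Λ L t i) x y → Le ((1 + C1) * (C1 * (C1 * (C1 * (C1 + 1) + 1) + 1) + 1))
          (Λ ^ (t - i) / Λ ^ L) f g := fun x x' y f g a1 a2 a3 a4 => by
      have b1 : Le (1 + C1) (Λ ^ (t - i) / Λ ^ L) f (p x) := fun ξ => by
        have := a1 ξ
        have := a3 ξ
        have := mul_nonneg (hs0 (t - i)) (norm_nonneg ξ)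
        linarith
      intro ξ
      refine (b1.trans (ch x y a4) (hsn _).nn (by linarith only [hC1']) ξ).trans ?_
      exact mul_le_mul_of_nonneg_left (by linarith only [a2, a2 ξ]) (by positivity)
    rcases e with e | e
    · rw [glue_le _ _ (Nat.zero_le _), glue_le _ _ (Nat.zero_le _), Nat.sub_zero] at e
      exact fin z.1 z.2 w.1 _ _ (fun ξ => (hg z hz ξ).2.2) (fun ξ => (hg w hw ξ).1)
        (hQ z hz).2.2.2.1.2 ((hQ' z w hz hw).1 e)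
    · rw [two_mul, glue_add (hQ z hz).2.2.1, glue_add (hQ w hw).2.2.1] at e
      exact fin z.2 z.1 w.2 _ _ (fun ξ => by linarith only [hg, hz, (hg z hz ξ).2.2]) (fun ξ => (hg w hw ξ).2.1)
        (hQ z hz).2.2.2.1.1 ((hQ' z w hz hw).2 e)

theorem const_le_log (K : ℝ) : ∃ c : ℝ, 0 ≤ c ∧ ∀ n : ℕ, K ≤ c * log (n + 2) := by
  have h2 : 0 < log 2 := log_pos one_lt_two
  refine ⟨|K| / log 2, by positivity, fun n => ?_⟩
  have h1 : log 2 ≤ log (n + 2) :=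
    log_le_log two_pos (by have := Nat.cast_nonneg (α := ℝ) n; linarith)
  calc K ≤ |K| / log 2 * log 2 := by rw [div_mul_cancel₀ _ h2.ne']; exact le_abs_self K
    _ ≤ _ := mul_le_mul_of_nonneg_left h1 (by positivity)

theorem st_step (h1 : 1 ≤ Λ)
    (hΛ : ∀ L, ∀ γ ∈ ball S L, ∀ ξ : ι → ℝ, ‖(ρ γ).1 *ᵥ ξ‖ ≤ Λ ^ L * ‖ξ‖) {c C : ℝ} (hc : 0 < c)
    (hC : 1 ≤ C) (j : ℕ) (hj : j < Fintype.card ι) : ∃ c' C' K : ℝ, 0 < c' ∧ 1 ≤ C' ∧ 0 ≤ K ∧
      ∀ (L m : ℕ) (d : ℝ), 0 ≤ d → St S ρ Λ L m (j + 1) c' C' d →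
        St S ρ Λ L m j c C (d / 2 + K * log (L + 2)) := by
  obtain ⟨c', C', h2, h3, h4⟩ := next_state h1 hΛ hc hC
  obtain ⟨σ, hσ, hB⟩ := ball_card S
  obtain ⟨K, hK, hK'⟩ := const_le_log (2 + (2 * 2 ^ j + 1) * σ * 8)
  refine ⟨c', C', K + 10, h2, h3, by positivity, fun L m d hd hSt t ht Ω _ P v hG hE => ?_⟩
  obtain ⟨B, hB1, hB2⟩ := hB L
  have hc' : 0 < c⁻¹ := inv_pos.mpr hc
  have hCC : C ≤ 2 * (C * (1 + c⁻¹)) := by linarith only [hC, hc', mul_nonneg_of_nonpos_of_nonpos (Mathlib.Tactic.Linarith.sub_nonpos_of_le hC) (le_of_lt (Mathlib.Tactic.Linarith.sub_neg_of_lt hc'))]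
  have hnn : ∀ ω ξ, 0 ≤ pn ρ (2 ^ j) (v ω) ξ := fun ω => (pn_sn ρ _ _).nn
  have k := step P v (2 ^ j) t ((L + 1) ^ 2) (by positivity)
    (Ag (fun ω => pn ρ (2 ^ j) (v ω)) (2 * (C * (1 + c⁻¹))) Λ L t)
    (fun a b x y hab _ h => by
      have : Λ ^ (t - b) / Λ ^ L ≤ Λ ^ (t - a) / Λ ^ L :=
        div_le_div_of_nonneg_right (pow_le_pow_right₀ h1 (by omega)) (by positivity)
      exact ⟨h.1.mono (hnn _) (by linarith only [hC, hCC]) le_rfl (by positivity) this,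
        h.2.mono (hnn _) (by linarith only [hC, hCC]) le_rfl (by positivity) this⟩)
    (fun x y hx hy e => ⟨(hE x y hx hy e).mono (hnn _) (by linarith only [hC]) hCC (by positivity) le_rfl,
      (hE y x hy hx (e.imp Eq.symm Eq.symm)).mono (hnn _) (by linarith only [hC]) hCC (by positivity) le_rfl⟩)
    B (fun ω h l hl => hB1 _ ((hG ω h).1.1 l hl)) hd
    (h4 L m j d hj hSt t ht Ω P v _ (fun _ => rfl) hG fun x y hx hy e => hE x y hx hy (Or.inl e))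
    (h4 L m j d hj hSt t ht Ω P (fun ω => rev (2 ^ j) (v ω)) _ (fun _ => pn_rev ρ _ _)
      (fun ω h => ⟨(hG ω h).1.rev, (hG ω h).2⟩) fun x y hx hy e => hE x y hx hy (Or.inr e))
  have hL := Nat.cast_nonneg (α := ℝ) L
  have ht' : (t : ℝ) ≤ 2 * L := by exact_mod_cast ht
  have e1 : log ((t : ℝ) + 1) ≤ 2 * log (L + 2) := by
    have : 2 * log ((L : ℝ) + 2) = log ((L + 2) ^ 2) := by rw [log_pow]; norm_num
    rw [this]
    exact log_le_log (by positivity) (by linarith only [ht', mul_nonneg_of_nonpos_of_nonpos (Mathlib.Tactic.Linarith.sub_nonpos_of_le (Mathlib.Tactic.Linarith.natCast_nonneg ℝ L)) (Mathlib.Tactic.Linarith.sub_nonpos_of_le (Mathlib.Tactic.Linarith.natCast_nonneg ℝ L))])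
  have e2 : log ((L : ℝ) + 1) ≤ log (L + 2) := log_le_log (by positivity) (by linarith only [])
  have e3 : (2 * (2 : ℝ) ^ j + 1) * log B.card / (L + 1) ^ 2 * (4 * (t + 1)) ≤
      (2 * 2 ^ j + 1) * σ * 8 := by
    rw [div_mul_eq_mul_div, div_le_iff₀ (by positivity), mul_assoc, mul_assoc, mul_assoc]
    refine mul_le_mul_of_nonneg_left ?_ (by positivity)
    refine (mul_le_mul_of_nonneg_right hB2 (by positivity)).trans ?_
    rw [mul_assoc]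
    exact mul_le_mul_of_nonneg_left (by linarith only [ht', mul_nonneg_of_nonpos_of_nonpos (Mathlib.Tactic.Linarith.sub_nonpos_of_le (Mathlib.Tactic.Linarith.natCast_nonneg ℝ L)) (Mathlib.Tactic.Linarith.sub_nonpos_of_le ht')]) hσ
  have e4 := hK' L
  push_cast at k
  rw [log_pow] at k
  push_cast at k
  linarith only [e1, e2, e3, e4, k]

theorem ent_rel {Ω T U : Type} [Fintype Ω] (P : FP Ω) (g : Ω → U) (w : Ω → T) (N : ℕ)
    (h : ∀ ω0, P.p ω0 ≠ 0 → ∃ F : Finset T, F.card ≤ N ∧ ∀ ω, P.p ω ≠ 0 → g ω = g ω0 → w ω ∈ F) :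
    P.ent (fun ω => (g ω, w ω)) ≤ P.ent g + log N := by
  classical
  have h1 : ∀ s, ∃ F : Finset T, F.card ≤ N ∧ ∀ ω, P.p ω ≠ 0 → g ω = s → w ω ∈ F := fun s => by
    by_cases h2 : ∃ ω, P.p ω ≠ 0 ∧ g ω = s
    · obtain ⟨ω, h3, rfl⟩ := h2
      exact h ω h3
    · exact ⟨∅, by simp, fun ω h3 h4 => absurd ⟨ω, h3, h4⟩ h2⟩
  choose F hF using h1
  exact ent_list P g w N F (fun ω h0 => (hF _).2 ω h0 rfl) fun ω _ => by exact_mod_cast (hF _).1

theorem bd2_of_cmp {E : ℝ} {a b : GL ι ℝ} (h : ∀ ξ, ‖(a⁻¹).1 *ᵥ ξ‖ ≤ E * ‖(b⁻¹).1 *ᵥ ξ‖)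
    (h' : ∀ ξ, ‖(b⁻¹).1 *ᵥ ξ‖ ≤ E * ‖(a⁻¹).1 *ᵥ ξ‖) : Bd2 E (a⁻¹ * b) := by
  have key : ∀ {a b : GL ι ℝ}, (∀ ξ, ‖(a⁻¹).1 *ᵥ ξ‖ ≤ E * ‖(b⁻¹).1 *ᵥ ξ‖) → Bd E (a⁻¹ * b).1 :=
    fun {a b} h => bd_of_norm_le fun ξ => by
      have := h (b.1 *ᵥ ξ)
      rwa [Matrix.mulVec_mulVec, Matrix.mulVec_mulVec, Units.inv_mul, Matrix.one_mulVec] at this
  exact ⟨key h, by rw [mul_inv_rev, inv_inv]; exact key h'⟩

theorem st_base (hup : UP S ρ) (h1 : 1 ≤ Λ) {c C : ℝ} (hc : 0 < c) (hC : 1 ≤ C) : ∃ K : ℝ, 0 ≤ K ∧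
    ∀ (m : ℕ) (R : ℝ), DB (fun a b => a ∈ ball S (2 ^ Fintype.card ι * m) ∧
      b ∈ ball S (2 ^ Fintype.card ι * m) ∧ a⁻¹ * b ∈ ball S m) R →
      St S ρ Λ (2 ^ Fintype.card ι * m) m (Fintype.card ι) c C
        ((2 ^ Fintype.card ι - 1) * R + K * log ((2 ^ Fintype.card ι * m : ℕ) + 2)) := by
  classical
  obtain ⟨k, hk⟩ : ∃ k, 2 ^ Fintype.card ι = k + 1 := ⟨_, (Nat.succ_pred_eq_of_pos (by positivity)).symm⟩
  obtain ⟨code, D, hD, hcode, hnet⟩ := exists_code (ι := ι) (k + 1)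
  have hc' : 0 < c⁻¹ := inv_pos.mpr hc
  obtain ⟨N, hN⟩ := hnet (D * (C * (1 + c⁻¹) * D))
  obtain ⟨a, d, hup⟩ := hup (D * (D * (D * D)))
  obtain ⟨K, hK, hK'⟩ := const_le_log (2 * log N + log (a + 1) + d * log 4)
  refine ⟨K + d, by positivity, fun m R hR t ht Ω _ P v hG hE => ?_⟩
  have hk' : (2 : ℝ) ^ Fintype.card ι - 1 = k := by
    have : ((2 ^ Fintype.card ι : ℕ) : ℝ) = (k + 1 : ℕ) := by rw [hk]
    push_cast at this
    linarith only [this]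
  rw [hk']
  set L := 2 ^ Fintype.card ι * m with hL
  rw [hk] at hG hE ⊢
  set q : Ω → Γ → (ι → ℝ) → ℝ := fun ω g ξ => pn ρ (k + 1) (v ω) ((ρ g).1 *ᵥ ξ) with hq
  have hq1 : ∀ ω g ξ, q ω g ξ = ∑ l ∈ range (k + 1 + 1), ‖(ρ ((v ω l)⁻¹ * g)).1 *ᵥ ξ‖ :=
    fun ω g ξ => by simp only [hq, pn, map_mul, Units.val_mul, Matrix.mulVec_mulVec]
  have hq2 := fun ω g => hcode (fun l => ρ ((v ω l)⁻¹ * g)) (q ω g) (hq1 ω g)
  have hcmp : ∀ x y, P.p x ≠ 0 → P.p y ≠ 0 → (v x 0 = v y 0 ∨ v x (k + 1) = v y (k + 1)) →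
      ∀ g ξ, ‖((code (q x g))⁻¹).1 *ᵥ ξ‖ ≤ D * (C * (1 + c⁻¹) * D) * ‖((code (q y g))⁻¹).1 *ᵥ ξ‖ :=
    fun x y hx hy e g ξ => by
      obtain ⟨W, hW, hw⟩ := (hG y hy).2
      have hW' : W = ⊤ := Submodule.eq_top_of_finrank_eq
        (le_antisymm (Submodule.finrank_le W) (by rwa [Module.finrank_fintype_fun_eq_card]))
      have a1 := hw ((ρ g).1 *ᵥ ξ) (hW' ▸ Submodule.mem_top)
      rw [mul_assoc, ← le_inv_mul_iff₀ hc] at a1
      have a2 := hE x y hx hy e ((ρ g).1 *ᵥ ξ)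
      refine (hq2 x g ξ).1.trans ?_
      rw [mul_assoc, mul_assoc]
      refine mul_le_mul_of_nonneg_left (a2.trans ?_) (by linarith only [hD])
      rw [mul_assoc]
      refine mul_le_mul_of_nonneg_left ?_ (by linarith only [hC])
      refine le_trans ?_ (mul_le_mul_of_nonneg_left (hq2 y g ξ).2 (by linarith only [hc']))
      simp only [hq]
      linarith only [a1]
  have hlist : ∀ i, (i = 0 ∨ i = k + 1) → P.ent (fun ω => (v ω i, code (q ω (v ω i)))) ≤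
      P.ent (fun ω => v ω i) + log N := fun i hi => ent_rel P _ _ N fun ω0 h0 => by
    obtain ⟨F, hF1, hF2⟩ := hN (code (q ω0 (v ω0 i)))
    refine ⟨F, hF1, fun ω h e => hF2 _ ?_⟩
    have e' : v ω 0 = v ω0 0 ∨ v ω (k + 1) = v ω0 (k + 1) := by
      rcases hi with rfl | rfl
      · exact Or.inl e
      · exact Or.inr e
    rw [show v ω i = v ω0 i from e]
    exact bd2_of_cmp (hcmp _ _ h0 h (e'.imp Eq.symm Eq.symm) _) (hcmp _ _ h h0 e' _)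
  have h3 := ent_rel P (fun ω => (code (q ω (v ω 0)), code (q ω (v ω (k + 1)))))
    (fun ω => (v ω 0)⁻¹ * v ω (k + 1)) (a * (L + L + (L + L) + 1) ^ d) fun ω0 h0 => by
      obtain ⟨F, hF1, hF2⟩ := hup (code (q ω0 (v ω0 0))) (L + L + (L + L))
      refine ⟨F.image (· * ((v ω0 0)⁻¹ * v ω0 (k + 1))), card_image_le.trans hF1, fun ω h e => ?_⟩
      refine mem_image.mpr ⟨(v ω 0)⁻¹ * v ω (k + 1) * ((v ω0 0)⁻¹ * v ω0 (k + 1))⁻¹,
        hF2 _ ?_ ?_, inv_mul_cancel_right _ _⟩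
      · exact ball_mul (ball_mul (ball_inv ((hG ω h).1.1 0 (by omega))) ((hG ω h).1.1 _ le_rfl))
          (ball_inv (ball_mul (ball_inv ((hG ω0 h0).1.1 0 (by omega))) ((hG ω0 h0).1.1 _ le_rfl)))
      · have hqq : ∀ x ξ, q x (v x 0) ((ρ ((v x 0)⁻¹ * v x (k + 1))).1 *ᵥ ξ) =
            q x (v x (k + 1)) ξ := fun x ξ => by
          simp only [hq, Matrix.mulVec_mulVec, ← Units.val_mul, ← map_mul, mul_inv_cancel_left]
        have key : ∀ x y, code (q x (v x 0)) = code (q ω0 (v ω0 0)) →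
            code (q y (v y 0)) = code (q ω0 (v ω0 0)) →
            code (q x (v x (k + 1))) = code (q y (v y (k + 1))) → ∀ ξ,
            ‖(((ρ ((v x 0)⁻¹ * v x (k + 1)))⁻¹ * code (q ω0 (v ω0 0)))⁻¹).1 *ᵥ ξ‖ ≤
              D * (D * (D * D)) *
                ‖(((ρ ((v y 0)⁻¹ * v y (k + 1)))⁻¹ * code (q ω0 (v ω0 0)))⁻¹).1 *ᵥ ξ‖ :=
          fun x y e1 e2 e3 ξ => by
            simp only [mul_inv_rev, inv_inv, Units.val_mul, ← Matrix.mulVec_mulVec]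
            have b1 := (hq2 x (v x 0) ((ρ ((v x 0)⁻¹ * v x (k + 1))).1 *ᵥ ξ)).1
            have b2 := (hq2 x (v x (k + 1)) ξ).2
            have b3 := (hq2 y (v y (k + 1)) ξ).1
            have b4 := (hq2 y (v y 0) ((ρ ((v y 0)⁻¹ * v y (k + 1))).1 *ᵥ ξ)).2
            rw [hqq, e1] at b1
            rw [hqq, e2] at b4
            rw [e3] at b2
            have hD0 : 0 ≤ D := by linarith only [hD]
            simp only [mul_assoc]
            exact b1.trans (mul_le_mul_of_nonneg_left (b2.trans (mul_le_mul_of_nonneg_left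
              (b3.trans (mul_le_mul_of_nonneg_left b4 hD0)) hD0)) hD0)
        have := bd2_of_cmp (key ω ω0 (Prod.ext_iff.mp e).1 rfl (Prod.ext_iff.mp e).2)
          (key ω0 ω rfl (Prod.ext_iff.mp e).1 (Prod.ext_iff.mp e).2.symm)
        rw [map_mul, map_inv]
        simpa only [mul_inv_rev, inv_inv, mul_assoc] using this
  have h4 : P.ent (fun ω => (v ω 0)⁻¹ * v ω (k + 1)) ≤ _ :=
    le_trans (P.ent_mono fun _ _ e => (Prod.ext_iff.mp e).2) h3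
  have h5 := Dl_base hR P v k (fun ω h l hl => ⟨?_, ?_, ?_⟩) (fun ω => code (q ω (v ω 0)))
    (fun ω => code (q ω (v ω (k + 1)))) (fun x y e => ?_) (hlist 0 (Or.inl rfl))
    (hlist _ (Or.inr rfl)) h4
  · refine h5.trans ?_
    have hL0 := Nat.cast_nonneg (α := ℝ) L
    have e1 : log ((a * (L + L + (L + L) + 1) ^ d : ℕ) : ℝ) ≤
        log (a + 1) + d * (log 4 + log (L + 2)) := by
      rw [← log_mul (by norm_num) (by positivity), ← log_pow, ← log_mul (by positivity) (by positivity)]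
      rcases Nat.eq_zero_or_pos a with rfl | ha
      · simp only [zero_mul, Nat.cast_zero, log_zero, zero_add, one_mul]
        exact log_nonneg (one_le_pow₀ (by linarith only []))
      · refine log_le_log (by positivity) ?_
        push_cast
        exact mul_le_mul (by linarith only []) (pow_le_pow_left₀ (by positivity) (by linarith only []) d)
          (by positivity) (by positivity)
    have e2 := hK' L
    linarith only [e1, e2]
  · exact ball_mono (by rw [hL, hk]; exact Nat.mul_le_mul_right _ hl.le) ((hG ω h).1.far hl.le)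
  · exact ball_mono (by rw [hL, hk]; exact Nat.mul_le_mul_right _ hl) ((hG ω h).1.far hl)
  · simp only [mul_inv_rev, inv_inv, mul_assoc, mul_inv_cancel_left]
    exact (hG ω h).1.2 l hl
  · have key : ∀ i ≤ k + 1, q x (v x i) = q y (v y i) := fun i hi => funext fun ξ => by
      rw [hq1, hq1]
      refine sum_congr rfl fun l hl => ?_
      have f : ∀ z, (v z l)⁻¹ * v z i = ((v z 0)⁻¹ * v z l)⁻¹ * ((v z 0)⁻¹ * v z i) :=
        fun z => by group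
      rw [f, f, e i hi, e l (Nat.le_of_lt_succ (mem_range.mp hl))]
    rw [key 0 (by omega), key _ le_rfl]
    exact ⟨rfl, rfl⟩

end Pool.Agent.Work.MP_dbf1ea_an.V
end

-- merged part: Pool.Agent.Work.MP_dbf1ea_an.V.Core
section
/-!
Uniformly proper linear groups have property RD.
-/

set_option autoImplicit false

open Finset Real
open scoped Matrix Pointwise

namespace Pool.Agent.Work.MP_dbf1ea_an.V

open Pool.Agent.Lib.PFR Pool.Agent.Lib.PFR.FP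

variable {ι : Type} [Fintype ι] [DecidableEq ι] {Γ : Type} [Group Γ]
  {S : Finset Γ} {ρ : Γ →* GL ι ℝ} {Λ : ℝ}

theorem log_nat_nonneg (a : ℕ) : 0 ≤ log (a + 2) :=
  log_nonneg (by have := Nat.cast_nonneg (α := ℝ) a; linarith)

theorem st_all (hup : UP S ρ) (h1 : 1 ≤ Λ)
    (hΛ : ∀ L, ∀ γ ∈ ball S L, ∀ ξ : ι → ℝ, ‖(ρ γ).1 *ᵥ ξ‖ ≤ Λ ^ L * ‖ξ‖) (i : ℕ) :
    ∀ j, j + i = Fintype.card ι → ∀ c C : ℝ, 0 < c → 1 ≤ C → ∃ K : ℝ, 0 ≤ K ∧
      ∀ (m : ℕ) (R : ℝ), 0 ≤ R → DB (fun a b => a ∈ ball S (2 ^ Fintype.card ι * m) ∧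
        b ∈ ball S (2 ^ Fintype.card ι * m) ∧ a⁻¹ * b ∈ ball S m) R →
        St S ρ Λ (2 ^ Fintype.card ι * m) m j c C ((2 ^ j - (2 ^ i)⁻¹) * R +
          K * log ((2 ^ Fintype.card ι * m : ℕ) + 2)) := by
  induction i with
  | zero =>
    intro j hj c C hc hC
    obtain ⟨K, hK, h⟩ := st_base hup h1 hc hC
    obtain rfl : j = Fintype.card ι := hj
    exact ⟨K, hK, fun m R _ hR => by simpa only [pow_zero, inv_one] using h m R hR⟩
  | succ i ih =>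
    intro j hj c C hc hC
    obtain ⟨c', C', K, h2, h3, h4, h5⟩ := st_step h1 hΛ hc hC j (by omega)
    obtain ⟨K', h6, h7⟩ := ih (j + 1) (by omega) c' C' h2 h3
    refine ⟨K' / 2 + K, by positivity, fun m R h0 hR => ?_⟩
    have h8 : (0 : ℝ) ≤ 2 ^ (j + 1) - (2 ^ i)⁻¹ := by
      have a1 : (1 : ℝ) ≤ 2 ^ (j + 1) := one_le_pow₀ one_le_two
      have a2 : ((2 : ℝ) ^ i)⁻¹ ≤ 1 := inv_le_one_of_one_le₀ (one_le_pow₀ one_le_two)
      linarith only [a1, a2]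
    have := h5 _ m _ (add_nonneg (mul_nonneg h8 h0) (mul_nonneg h6 (log_nat_nonneg _)))
      (h7 m R h0 hR)
    convert this using 1
    rw [pow_succ, pow_succ, mul_inv]
    ring

theorem db_contract (hup : UP S ρ) : ∃ K : ℝ, 0 ≤ K ∧ ∀ (m : ℕ) (R : ℝ), 0 ≤ R →
    DB (fun a b => a ∈ ball S (2 ^ Fintype.card ι * m) ∧ b ∈ ball S (2 ^ Fintype.card ι * m) ∧
      a⁻¹ * b ∈ ball S m) R →
    DB (fun a b => a ∈ ball S (2 ^ Fintype.card ι * m) ∧ b ∈ ball S (2 ^ Fintype.card ι * m) ∧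
      a⁻¹ * b ∈ ball S m) ((1 - (2 ^ Fintype.card ι)⁻¹) * R +
        K * log ((2 ^ Fintype.card ι * m : ℕ) + 2)) := by
  obtain ⟨Λ, h1, hΛ⟩ := exists_lam ρ S
  obtain ⟨K, hK, h⟩ := st_all hup h1 hΛ (Fintype.card ι) 0 (zero_add _) 1 2 one_pos one_le_two
  refine ⟨K, hK, fun m R h0 hR Ω _ P a b hab => ?_⟩
  set L := 2 ^ Fintype.card ι * m with hL
  have hG : ∀ ω, P.p ω ≠ 0 → Gd S L m (2 ^ 0) fun l => if l = 0 then a ω else b ω := fun ω hω => by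
    refine ⟨fun l _ => ?_, fun l hl => ?_⟩
    · show (if l = 0 then a ω else b ω) ∈ _
      split_ifs
      · exact (hab ω hω).1
      · exact (hab ω hω).2.1
    · obtain rfl : l = 0 := by simpa using hl
      simpa using (hab ω hω).2.2
  have k := h m R h0 hR (2 * L) le_rfl Ω P (fun ω l => if l = 0 then a ω else b ω)
    (fun ω hω => ⟨hG ω hω, ⊥, Nat.zero_le _, fun w hw => by
      rw [(Submodule.mem_bot ℝ).mp hw, norm_zero, mul_zero]
      exact (pn_sn ρ _ _).nn _⟩)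
    fun x y hx _ _ ξ => by
      have e1 := pn_upper hΛ (hG x hx).1 ξ
      have e2 := (pn_sn ρ (2 ^ 0) fun l => if l = 0 then a y else b y).nn ξ
      have e3 : Λ ^ (2 * L) / Λ ^ L = Λ ^ L := by
        rw [two_mul, pow_add, mul_div_cancel_right₀ _ (by positivity)]
      rw [e3]
      norm_num at e1 e2 ⊢
      linarith only [e1, e2]
  rw [pow_zero, Dl_one, pow_zero] at k
  linarith only [k]

theorem db_two (hup : UP S ρ) : ∃ c : ℝ, 0 ≤ c ∧ ∀ M : ℕ,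
    DB (fun a b => a ∈ ball S M ∧ b ∈ ball S M) (c * log (M + 2)) := by
  obtain ⟨K, hK, h⟩ := db_contract hup
  obtain ⟨σ, -, hB⟩ := ball_card S
  set n := Fintype.card ι with hn
  have h2 : (1 : ℝ) ≤ 2 ^ n := one_le_pow₀ one_le_two
  have hq0 : (0 : ℝ) ≤ 1 - (2 ^ n)⁻¹ := sub_nonneg.mpr (inv_le_one_of_one_le₀ h2)
  have hq1 : (1 : ℝ) - (2 ^ n)⁻¹ < 1 := sub_lt_self _ (by positivity)
  obtain ⟨c, hc, hc'⟩ := const_le_log (log (2 ^ n * 2))
  refine ⟨2 ^ n * K * (c + 1), by positivity, fun M => ?_⟩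
  obtain ⟨B, hB1, -⟩ := hB (2 ^ n * (2 * M))
  have hl := log_nat_nonneg (2 ^ n * (2 * M))
  have hR := log_natCast_nonneg B.card
  have k1 : ∀ i : ℕ, DB (fun a b => a ∈ ball S (2 ^ n * (2 * M)) ∧ b ∈ ball S (2 ^ n * (2 * M)) ∧
      a⁻¹ * b ∈ ball S (2 * M)) (2 ^ n * K * log ((2 ^ n * (2 * M) : ℕ) + 2) +
        (1 - (2 ^ n)⁻¹) ^ i * (4 * log B.card)) := fun i => by
    induction i with
    | zero =>
      refine (DB_trivial B).mono (fun a b hab => ⟨hB1 _ hab.1, hB1 _ hab.2.1⟩) ?_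
      rw [pow_zero, one_mul]
      exact le_add_of_nonneg_left (by positivity)
    | succ i ih =>
      refine (h _ _ (by positivity) ih).mono (fun _ _ h => h) (le_of_eq ?_)
      rw [pow_succ _ i]
      field_simp
      ring
  have k2 := DB.of_forall_lt (d := 2 ^ n * K * log ((2 ^ n * (2 * M) : ℕ) + 2)) fun ε hε => by
    obtain ⟨i, hi⟩ := exists_pow_lt_of_lt_one (div_pos hε (by positivity : 0 < 4 * log B.card + 1)) hq1
    refine (k1 i).mono (fun _ _ h => h) ?_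
    rw [lt_div_iff₀ (by positivity)] at hi
    have := pow_nonneg hq0 i
    linarith only [hi, this]
  have hM : M ≤ 2 ^ n * (2 * M) := by
    have : 1 ≤ 2 ^ n := Nat.one_le_two_pow
    nlinarith only [this]
  refine k2.mono (fun a b hab => ⟨ball_mono hM hab.1, ball_mono hM hab.2, ?_⟩) ?_
  · rw [two_mul]; exact ball_mul (ball_inv hab.1) hab.2
  · rw [mul_assoc _ (c + 1)]
    refine mul_le_mul_of_nonneg_left ?_ (by positivity)
    have hM0 := Nat.cast_nonneg (α := ℝ) M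
    have e1 : log (((2 ^ n * (2 * M) : ℕ) : ℝ) + 2) ≤ log (2 ^ n * 2) + log (M + 2) := by
      rw [← log_mul (by positivity) (by positivity)]
      refine log_le_log (by positivity) ?_
      push_cast
      linarith only [h2]
    have := hc' M
    linarith only [e1, this]

theorem db_one (hup : UP S ρ) : ∃ c : ℝ, 0 ≤ c ∧ ∀ M L : ℕ,
    DB (fun a b => a ∈ ball S M ∧ a ∈ ball S L ∧ b ∈ ball S L ∧ a⁻¹ * b ∈ ball S L)
      (c * log (M + 4)) := by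
  obtain ⟨c, hc, h⟩ := db_two hup
  obtain ⟨σ, -, hB⟩ := ball_card S
  refine ⟨4 * c, by positivity, fun M L => ?_⟩
  obtain ⟨B, hB1, -⟩ := hB L
  have k := rec_half (C := fun (M : ℕ) (a b : Γ) => a ∈ ball S M ∧ b ∈ ball S L ∧ a⁻¹ * b ∈ ball S L)
    (c := 4 * log B.card) (K := c) (c0 := 0) hc (fun M => ?_) (fun M d hd => ?_) M
  · refine k.mono (fun a b h => ⟨h.1, h.2.2⟩) (le_of_eq ?_)
    push_cast
    rw [add_zero]
  · refine (DB_trivial B).swap.rot.swap.mono (fun a b h => ?_) le_rfl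
    exact ⟨hB1 _ (by simpa using ball_inv h.2.2), hB1 _ (ball_inv h.2.1)⟩
  · refine ((h M).copy
      (C := fun b a : Γ => a ∈ ball S M ∧ b ∈ ball S L ∧ a⁻¹ * b ∈ ball S L)
      hd.swap.rot fun b a a' h1 h2 => ⟨⟨h1.1, h2.1⟩, ?_⟩).swap.mono (fun _ _ h => h) ?_
    · simp only [mul_inv_rev, inv_inv, mul_assoc, mul_inv_cancel_left, inv_mul_cancel_left]
      exact ⟨by rw [add_zero, two_mul]; exact ball_mul (ball_inv h1.1) h2.1, h1.2.2, h2.2.2⟩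
    · have := mul_nonneg hc (log_nat_nonneg M)
      linarith only [this]

theorem core (hS : Subgroup.closure (S : Set Γ) = ⊤) (hup : UP S ρ) :
    ∃ C : ℝ, ∃ p : ℕ, ∀ n : ℕ, ∀ f g : Γ →₀ ℂ, (f.support : Set Γ) ⊆ ball S n →
      (∑' γ : Γ, ‖∑ h ∈ f.support, f h * g (h⁻¹ * γ)‖ ^ 2)
        ≤ C * (1 + (n : ℝ)) ^ p * (∑' γ : Γ, ‖f γ‖ ^ 2) * (∑' γ : Γ, ‖g γ‖ ^ 2) := by
  obtain ⟨c, hc, h⟩ := db_one hup
  refine ⟨4 ^ ⌈c⌉₊, ⌈c⌉₊, fun n f g hf => ?_⟩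
  choose L hL using exists_ball hS
  refine (rd_of_DB (h n (n + g.support.sup L)) f g fun a ha b hb => ?_).trans ?_
  · have h1 := hf ha
    have h2 : b ∈ ball S (g.support.sup L) := ball_mono (le_sup hb) (hL b)
    refine ⟨h1, ball_mono (by omega) h1, ball_mul h1 h2, ?_⟩
    rw [inv_mul_cancel_left]
    exact ball_mono (by omega) h2
  · refine mul_le_mul_of_nonneg_right (mul_le_mul_of_nonneg_right ?_
      (tsum_nonneg fun _ => sq_nonneg _)) (tsum_nonneg fun _ => sq_nonneg _)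
    have hn := Nat.cast_nonneg (α := ℝ) n
    rw [← mul_pow, mul_comm c, ← rpow_def_of_pos (by linarith), ← rpow_natCast]
    exact (rpow_le_rpow_of_exponent_le (by linarith) (Nat.le_ceil c)).trans
      (rpow_le_rpow (by linarith) (by linarith) (Nat.cast_nonneg _))

end Pool.Agent.Work.MP_dbf1ea_an.V
end
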